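import Pool.Agent.LibGS.Defs

/-! [GS76 Cof] Basic facts on cofinalities of points. -/

set_option autoImplicit false

namespace Pool.Agent.LibGS

open Cardinal Set Order
open Pool.Agent.LibGP76 (RegK Ub Cl fl Stat)
open Pool.Agent.LibGPR (Lad)

variable {K I : Type} [LinearOrder K] [WellFoundedLT K] [LinearOrder I] [WellFoundedLT I]

omit [WellFoundedLT K] in
/-- `Order.exists_cof_eq (Iio y)`; `C y` is the image of the cofinal set. -/
theorem exists_cofsys : ∃ C : K → Set K, CofSys C := by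
  have H : ∀ y : K, ∃ s : Set (Set.Iio y), IsCofinal s ∧ #s = Order.cof (Set.Iio y) := fun y =>
    Order.exists_cof_eq (Set.Iio y)
  choose s hs hc using H
  refine ⟨fun y => Subtype.val '' (s y), ?_, ?_, ?_⟩
  · rintro y _ ⟨c, _, rfl⟩
    exact c.2
  · intro y z hz
    obtain ⟨c, hc1, hc2⟩ := hs y ⟨z, hz⟩
    exact ⟨c.1, ⟨c, hc1, rfl⟩, hc2⟩
  · intro y
    rw [Cardinal.mk_image_eq Subtype.val_injective, hc]
    rfl

theorem cf_le (z : K) : cf z ≤ #(Set.Iio z) := Order.cof_le_cardinalMk _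

/-- Limit points: `ℵ₀ ≤ cf z` iff `z` is a limit (not needed: only this direction). -/
theorem exists_btw {z w : K} (hz : ℵ₀ ≤ cf z) (hw : w < z) : ∃ w', w < w' ∧ w' < z := by
  by_contra hcon
  push Not at hcon
  have h1 : IsCofinal ({⟨w, hw⟩} : Set (Set.Iio z)) := by
    intro x
    refine ⟨⟨w, hw⟩, rfl, ?_⟩
    by_contra hx
    have hx' : w < x.1 := not_le.1 hx
    exact absurd x.2 (not_lt.2 (hcon x.1 hx'))
  have h2 : cf z ≤ 1 := (Order.cof_le h1).trans (by simp)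
  exact absurd (hz.trans h2) (not_le.2 Cardinal.one_lt_aleph0)

/-- `Mathlib`: `Order.cof_Iio`, `Ordinal.cof_ord_cof`. Or directly: if `cf z = c` and `c = sup` of fewer
smaller cardinals then there is a smaller cofinal set. -/
theorem cf_reg {z : K} (hz : ℵ₀ ≤ cf z) : (cf z).IsRegular :=
  ⟨hz, (Order.cof_ord_cof (Set.Iio z)).ge⟩

/-- Fewer than `cf z` points below `z` are bounded below `z`. (A cofinal set `S` has `cf z ≤ #S`;
then use `exists_btw`.) -/
theorem cf_bdd {z : K} (hz : ℵ₀ ≤ cf z) (S : Set K) (hS : ∀ s ∈ S, s < z) (hc : #S < cf z) :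
    ∃ w, w < z ∧ ∀ s ∈ S, s < w := by
  by_contra hcon
  push Not at hcon
  have h1 : IsCofinal ({x | x.1 ∈ S} : Set (Set.Iio z)) := by
    intro x
    obtain ⟨s, hs, hxs⟩ := hcon x.1 x.2
    exact ⟨⟨s, hS s hs⟩, hs, hxs⟩
  have h2 : #({x | x.1 ∈ S} : Set (Set.Iio z)) ≤ #S :=
    Cardinal.mk_le_of_injective (f := fun x => (⟨x.1.1, x.2⟩ : S)) (by
      intro x y hxy
      have h3 : x.1.1 = y.1.1 := congrArg (fun u : S => u.1) hxy
      exact Subtype.ext (Subtype.ext h3))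
  exact absurd (hc.trans_le ((Order.cof_le h1).trans h2)) (lt_irrefl _)

theorem cf_sup {z : K} (hz : ℵ₀ ≤ cf z) {ι : Type} (hι : #ι < cf z) (f : ι → K)
    (hf : ∀ i, f i < z) : ∃ w, w < z ∧ ∀ i, f i < w := by
  obtain ⟨w, hw, h⟩ := cf_bdd hz (Set.range f) (by rintro _ ⟨i, rfl⟩; exact hf i)
    (Cardinal.mk_range_le.trans_lt hι)
  exact ⟨w, hw, fun i => h _ ⟨i, rfl⟩⟩

omit [WellFoundedLT I] in
private theorem cof_of_regN (hI : RegN I) : Order.cof I = #I := by
  refine le_antisymm (Order.cof_le_cardinalMk _) (Order.le_cof_iff.2 ?_)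
  intro s hs
  by_contra hlt
  obtain ⟨c, hc⟩ := hI.reg s (not_le.1 hlt)
  obtain ⟨d, hd, hcd⟩ := hs c
  exact absurd (hc d hd) (not_lt.2 hcd)

omit [WellFoundedLT I] in
private theorem regN_exists_gt (hI : RegN I) (i : I) : ∃ j, i < j := by
  obtain ⟨c, hc⟩ := hI.reg {i} (by
    rw [Cardinal.mk_singleton]
    exact Cardinal.one_lt_aleph0.trans_le hI.inf)
  exact ⟨c, hc i rfl⟩

/-- A point with a ladder of type `I` has cofinality `#I`. -/
theorem cf_of_lad (hI : RegN I) {e : I → K} {z : K} (he : Lad e z) : cf z = #I := by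
  obtain ⟨h1, h2, h3⟩ := he
  have hm : StrictMono (fun i => (⟨e i, h2 i⟩ : Set.Iio z)) := fun i j hij => h1 i j hij
  have hc : IsCofinal (Set.range (fun i => (⟨e i, h2 i⟩ : Set.Iio z))) := by
    intro x
    obtain ⟨i, hi⟩ := h3 x.1 x.2
    exact ⟨_, ⟨i, rfl⟩, hi.le⟩
  have h := Order.cof_congr_of_strictMono hm hc
  rw [← cof_of_regN hI, h]
  rfl

/-- Recursion below a point of large cofinality. -/
private theorem exists_rec {z : K} (hz : ℵ₀ ≤ cf z) {J : Type} [LinearOrder J] [WellFoundedLT J]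
    (hJ : ∀ j : J, #(Set.Iio j) < cf z) (b : K → K) (hb : ∀ x < z, b x < z) (g : J → K)
    (hg : ∀ j, g j < z) :
    ∃ e : J → K, (∀ j, e j < z) ∧ (∀ j, g j < e j) ∧
      ∀ i j, i < j → e i < e j ∧ b (e i) < e j := by
  have H : ∀ (j : J) (ih : ∀ i, i < j → Set.Iio z),
      ∃ w : Set.Iio z, g j < w.1 ∧ ∀ (i : J) (hi : i < j), (ih i hi).1 < w.1 ∧
        b (ih i hi).1 < w.1 := by
    intro j ih
    obtain ⟨w1, hw1, h1⟩ := cf_sup hz (hJ j) (fun i : Set.Iio j => (ih i.1 i.2).1)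
      (fun i => (ih i.1 i.2).2)
    obtain ⟨w2, hw2, h2⟩ := cf_sup hz (hJ j) (fun i : Set.Iio j => b (ih i.1 i.2).1)
      (fun i => hb _ (ih i.1 i.2).2)
    obtain ⟨w3, hw3, h3⟩ := exists_btw hz (hg j)
    refine ⟨⟨max w3 (max w1 w2), max_lt h3 (max_lt hw1 hw2)⟩, lt_max_of_lt_left hw3, ?_⟩
    intro i hi
    exact ⟨lt_max_of_lt_right (lt_max_of_lt_left (h1 ⟨i, hi⟩)),
      lt_max_of_lt_right (lt_max_of_lt_right (h2 ⟨i, hi⟩))⟩
  choose F hF1 hF2 using H
  let e : J → Set.Iio z := (wellFounded_lt (α := J)).fix (fun j ih => F j ih)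
  have he : ∀ j, e j = F j (fun i _ => e i) := fun j =>
    (wellFounded_lt (α := J)).fix_eq (fun j ih => F j ih) j
  refine ⟨fun j => (e j).1, fun j => (e j).2, fun j => ?_, fun i j hij => ?_⟩
  · have := hF1 j (fun i _ => e i)
    rw [← he j] at this
    exact this
  · have := hF2 j (fun i _ => e i) i hij
    rw [← he j] at this
    exact this

/-- A point of cofinality `#I` has a ladder of type `I`. PROOF: take a cofinal set `S` of `Iio z` with
`#S = #I`, a surjection `g : I → S`, and by recursion `e i = ` a point below `z` above `g i` and above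
all `e j`, `j < i` (`cf_bdd`, as `#(Iio i) < #I`). -/
theorem exists_lad_of_cf (hI : RegN I) {z : K} (hz : cf z = #I) : ∃ e : I → K, Lad e z := by
  have hz0 : ℵ₀ ≤ cf z := hI.inf.trans hz.ge
  obtain ⟨s, hs, hc⟩ := Order.exists_cof_eq (Set.Iio z)
  have hc' : #I = #s := hz.symm.trans hc.symm
  obtain ⟨g⟩ := Cardinal.eq.1 hc'
  obtain ⟨e, he1, he2, he3⟩ := exists_rec hz0 (J := I) (fun j => (hI.small j).trans_le hz.ge)
    (fun x => x) (fun x hx => hx) (fun i => (g i).1.1) (fun i => (g i).1.2)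
  refine ⟨e, fun i j hij => (he3 i j hij).1, he1, fun ν hν => ?_⟩
  obtain ⟨c, hc1, hc2⟩ := hs ⟨ν, hν⟩
  refine ⟨g.symm ⟨c, hc1⟩, ?_⟩
  have h1 := he2 (g.symm ⟨c, hc1⟩)
  simp only [Equiv.apply_symm_apply] at h1
  exact lt_of_le_of_lt (show ν ≤ c.1 from hc2) h1

/-- The initial well-order of a regular cardinal. -/
private theorem regN_toType {σ : Cardinal.{0}} (hσ : σ.IsRegular) : RegN σ.ord.ToType := by
  have hc : #(σ.ord.ToType) = σ := by rw [Cardinal.mk_toType, Cardinal.card_ord]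
  refine ⟨?_, ?_, ?_⟩
  · rw [hc]
    exact hσ.1
  · intro c
    rw [hc]
    exact Cardinal.mk_Iio_ord_toType c
  · intro S hS
    by_contra hcon
    push Not at hcon
    have h1 : IsCofinal S := fun x => hcon x
    have h2 := Order.cof_le h1
    rw [Ordinal.cof_toType] at h2
    rw [hc] at hS
    exact absurd (hS.trans_le (hσ.2.trans h2)) (lt_irrefl _)

/-- Every club of `y` has points of every regular cofinality `σ < cf y` above any `a < y`. PROOF. Let
`J = σ.ord.ToType` (`RegN J`). By recursion (`wellFounded_lt.fix`) choose `e j < y` above `a`, above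
`e i` and above `b (e i)` for all `i < j` (`cf_sup`, `#(Iio j) < σ < cf y`). Let `z` be the least point
above all `e j` (`z < y` by `cf_sup`). Then `Lad e z`; if `x < z` then `x ≤ e j` for some `j`, so
`b x ≤ b (e j) < e j'`, where `j' > j`, hence `z ∈ Cl b`. -/
theorem exists_cl_cf {b : K → K} {y a : K} (hy : Clb b y) {σ : Cardinal.{0}} (hσ : σ.IsRegular)
    (h : σ < cf y) (ha : a < y) : ∃ z, a < z ∧ z < y ∧ z ∈ Cl b ∧ cf z = σ := by
  have hJ := regN_toType hσ
  have hc : #(σ.ord.ToType) = σ := by rw [Cardinal.mk_toType, Cardinal.card_ord]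
  have hy0 : ℵ₀ ≤ cf y := hσ.1.trans h.le
  obtain ⟨e, he1, he2, he3⟩ := exists_rec hy0 (J := σ.ord.ToType)
    (fun j => (hJ.small j).trans (by rw [hc]; exact h)) b (fun x hx => hy.mem x hx)
    (fun _ => a) (fun _ => ha)
  obtain ⟨w, hw, hw2⟩ := cf_sup hy0 (ι := σ.ord.ToType) (by rw [hc]; exact h) e he1
  obtain ⟨z, hz, hzmin⟩ := (wellFounded_lt (α := K)).has_min {x | ∀ j, e j < x} ⟨w, hw2⟩
  have hz' : ∀ j, e j < z := hz
  have hmin : ∀ x < z, ∃ j, x ≤ e j := by
    intro x hx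
    by_contra hcon
    push Not at hcon
    exact hzmin x hcon hx
  have hlad : Lad e z := by
    refine ⟨fun i j hij => (he3 i j hij).1, hz', fun ν hν => ?_⟩
    obtain ⟨j, hj⟩ := hmin ν hν
    obtain ⟨j', hj'⟩ := regN_exists_gt hJ j
    exact ⟨j', hj.trans_lt (he3 j j' hj').1⟩
  have hzy : z < y := by
    refine lt_of_le_of_lt ?_ hw
    by_contra hcon
    exact hzmin w hw2 (not_le.1 hcon)
  have hne : Nonempty σ.ord.ToType := by
    rw [← Cardinal.mk_ne_zero_iff, hc]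
    exact hσ.pos.ne'
  obtain ⟨j0⟩ := hne
  refine ⟨z, (he2 j0).trans (hz' j0), hzy, ?_, ?_⟩
  · intro x hx
    obtain ⟨j, hj⟩ := hmin x hx
    obtain ⟨j', hj'⟩ := regN_exists_gt hJ j
    exact ((hy.mono x (e j) hj).trans_lt (he3 j j' hj').2).trans (hz' j')
  · rw [cf_of_lad hJ hlad, hc]

/-- The function `x ↦` next element of `X` above `x` (and below `y`). -/
theorem exists_next {X : Set K} {y : K} (hX : Acc X y) :
    ∃ b : K → K, Clb b y ∧ ∀ c ∈ Cl b, c ≤ y → Acc X c := by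
  classical
  have H : ∀ x : K, ∃ u : K, (x < y → u ∈ X ∧ x < u ∧ u < y ∧ ∀ v ∈ X, x < v → u ≤ v) ∧
      (¬ x < y → u = x) := by
    intro x
    by_cases hx : x < y
    · obtain ⟨u0, hu0, hxu0, hu0y⟩ := hX x hx
      obtain ⟨u, hu, humin⟩ := (wellFounded_lt (α := K)).has_min {v | v ∈ X ∧ x < v}
        ⟨u0, hu0, hxu0⟩
      have hmin : ∀ v ∈ X, x < v → u ≤ v := fun v hv hxv => by
        by_contra hcon
        exact humin v ⟨hv, hxv⟩ (not_le.1 hcon)
      exact ⟨u, fun _ => ⟨hu.1, hu.2, (hmin u0 hu0 hxu0).trans_lt hu0y, hmin⟩,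
        fun h => absurd hx h⟩
    · exact ⟨x, fun h => absurd h hx, fun _ => rfl⟩
  choose b hb1 hb2 using H
  refine ⟨b, ⟨?_, ?_⟩, ?_⟩
  · intro x x' hxx
    by_cases hx' : x' < y
    · have hx : x < y := hxx.trans_lt hx'
      exact (hb1 x hx).2.2.2 _ (hb1 x' hx').1 (hxx.trans_lt (hb1 x' hx').2.1)
    · rw [hb2 x' hx']
      by_cases hx : x < y
      · exact (hb1 x hx).2.2.1.le.trans (not_lt.1 hx')
      · rw [hb2 x hx]
        exact hxx
  · intro x hx
    exact (hb1 x hx).2.2.1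
  · intro c hc hcy w hw
    exact ⟨b w, (hb1 w (hw.trans_le hcy)).1, (hb1 w (hw.trans_le hcy)).2.1, hc w hw⟩

end Pool.Agent.LibGS
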