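import Pool.Agent.LibGS.Cof

/-! [GS76 Tree] Floor trees. -/

set_option autoImplicit false

namespace Pool.Agent.LibGS

open Cardinal Set Order
open Pool.Agent.LibGP76 (RegK Ub Cl fl Stat)

variable {K : Type} [LinearOrder K] [WellFoundedLT K]

theorem tr_le {C : K → Set K} (hC : CofSys C) {s : Cardinal.{0}} {b : K → K} {x y : K}
    (h : Tr C s b x y) : y ≤ x := by
  induction h with
  | base => exact Pool.Agent.LibGP76.fl_le b x
  | step y c _ _ hc ih =>
    exact ((Pool.Agent.LibGP76.fl_le b c).trans (hC.lt y c hc).le).trans ih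

theorem tr_mem {C : K → Set K} {s : Cardinal.{0}} {b : K → K} {x y : K} (h : Tr C s b x y) :
    y ∈ Cl b := by
  cases h with
  | base => exact Pool.Agent.LibGP76.fl_mem b x
  | step y c _ _ _ => exact Pool.Agent.LibGP76.fl_mem b c

/-- PROOF. `W 0 = {fl b x}`, `W (n+1) = W n ∪ ⋃ y ∈ W n, cf y ≤ s, fl b '' C y`; `#(W n) ≤ s` by
induction and the tree is contained in `⋃ n, W n`. -/
theorem card_tr {C : K → Set K} (hC : CofSys C) {s : Cardinal.{0}} (hs : ℵ₀ ≤ s) (b : K → K)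
    (x : K) : #{y | Tr C s b x y} ≤ s := by
  let W : ℕ → Set K := fun n => Nat.rec {fl b x}
    (fun _ S => S ∪ ⋃ y : {y : K // y ∈ S ∧ cf y ≤ s}, fl b '' C y.1) n
  have hW0 : W 0 = {fl b x} := rfl
  have hWs : ∀ n, W (n + 1) = W n ∪ ⋃ y : {y : K // y ∈ W n ∧ cf y ≤ s}, fl b '' C y.1 :=
    fun n => rfl
  have hcard : ∀ n : ℕ, #(↥(W n)) ≤ s := by
    intro n
    induction n with
    | zero =>
      rw [hW0, mk_singleton]
      exact (one_lt_aleph0.le).trans hs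
    | succ n ih =>
      rw [hWs]
      refine (mk_union_le _ _).trans ?_
      have h2 : #(⋃ y : {y : K // y ∈ W n ∧ cf y ≤ s}, fl b '' C y.1) ≤ s := by
        refine (mk_iUnion_le _).trans ?_
        have h3 : #{y : K // y ∈ W n ∧ cf y ≤ s} ≤ s :=
          (mk_le_mk_of_subset (s := {y : K | y ∈ W n ∧ cf y ≤ s}) (t := W n)
            (fun y hy => hy.1)).trans ih
        have h4 : (⨆ y : {y : K // y ∈ W n ∧ cf y ≤ s}, #(fl b '' C y.1)) ≤ s := by
          refine ciSup_le' ?_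
          intro y
          refine mk_image_le.trans ?_
          rw [hC.card y.1]
          exact y.2.2
        exact (mul_le_mul' h3 h4).trans (mul_eq_self hs).le
      exact (add_le_add ih h2).trans (add_eq_self hs).le
  have hsub : {y | Tr C s b x y} ⊆ ⋃ n, W n := by
    intro y hy
    simp only [mem_setOf_eq] at hy
    induction hy with
    | base => exact mem_iUnion.2 ⟨0, by rw [hW0]; exact mem_singleton _⟩
    | step y c _ hcf hc ih =>
      obtain ⟨n, hn⟩ := mem_iUnion.1 ih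
      refine mem_iUnion.2 ⟨n + 1, ?_⟩
      rw [hWs]
      exact Or.inr (mem_iUnion.2 ⟨⟨y, hn, hcf⟩, c, hc, rfl⟩)
  refine (mk_le_mk_of_subset hsub).trans ?_
  refine (mk_iUnion_le _).trans ?_
  have h5 : (⨆ n : ℕ, #(↥(W n))) ≤ s := ciSup_le' hcard
  rw [mk_nat]
  exact (mul_le_mul' hs h5).trans (mul_eq_self hs).le

/-- Composition: the tree from `c`, `c ∈ C y`, `cf y ≤ s`, is contained in the tree from `x` if `y` is
in the tree from `x`. -/
theorem tr_trans {C : K → Set K} {s : Cardinal.{0}} {b : K → K} {x y c z : K}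
    (h : Tr C s b x y) (hy : cf y ≤ s) (hc : c ∈ C y) (hz : Tr C s b c z) : Tr C s b x z := by
  induction hz with
  | base => exact Tr.step y c h hy hc
  | step y1 c1 _ hcf hc1 ih => exact Tr.step y1 c1 ih hcf hc1

/-- STABILISATION. `Φ ζ`, `ζ : Z`, are functions increasing with `ζ`; `z` is a point of all the clubs
`Cl (Φ ζ)` with `s < cf z`. Then the trees from `x ≥ z` finally contain one and the same point
`y' ≥ z` with `s < cf y'`, which lies in all clubs. PROOF: induction on `x`. The points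
`fl (Φ ζ) x` do not increase with `ζ` (`LibGP76.fl_anti`); let `y₀ = fl (Φ ζ₁) x` be the least of them;
so `fl (Φ ζ) x = y₀` for all `ζ ≥ ζ₁`, `y₀ ∈ Cl (Φ ζ)` for all `ζ` (`Cl_anti`), `z ≤ y₀` (`le_fl`). If
`s < cf y₀` take `y' = y₀`. Otherwise `z < y₀`, let `c ∈ C y₀` with `z ≤ c`; `c < y₀ ≤ x`; apply the
induction hypothesis to `c` and `tr_trans`. -/
theorem stab {C : K → Set K} (hC : CofSys C) {Z : Type} [LinearOrder Z] [Nonempty Z]
    (s : Cardinal.{0}) (Φ : Z → K → K) (hΦ : ∀ ζ ζ', ζ ≤ ζ' → ∀ x, Φ ζ x ≤ Φ ζ' x) (z : K)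
    (hz : ∀ ζ, z ∈ Cl (Φ ζ)) (hs : s < cf z) (x : K) (hzx : z ≤ x) :
    ∃ y' ζ₀, z ≤ y' ∧ y' ≤ x ∧ s < cf y' ∧ (∀ ζ, y' ∈ Cl (Φ ζ)) ∧
      ∀ ζ, ζ₀ ≤ ζ → Tr C s (Φ ζ) x y' := by
  induction x using WellFoundedLT.induction with
  | ind x ih =>
    have hne : (range fun ζ => fl (Φ ζ) x).Nonempty := range_nonempty _
    obtain ⟨y₀, ⟨ζ₁, hζ₁⟩, hmin⟩ := wellFounded_lt.has_min _ hne
    have hζ₁' : fl (Φ ζ₁) x = y₀ := hζ₁
    have heq : ∀ ζ, ζ₁ ≤ ζ → fl (Φ ζ) x = y₀ := by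
      intro ζ hζ
      refine le_antisymm ?_ (not_lt.1 (hmin _ ⟨ζ, rfl⟩))
      rw [← hζ₁']
      exact Pool.Agent.LibGP76.fl_anti (hΦ ζ₁ ζ hζ) x
    have hcl : ∀ ζ, y₀ ∈ Cl (Φ ζ) := by
      intro ζ
      rcases le_total ζ₁ ζ with h | h
      · rw [← heq ζ h]
        exact Pool.Agent.LibGP76.fl_mem _ _
      · refine Pool.Agent.LibGP76.Cl_anti (hΦ ζ ζ₁ h) ?_
        rw [← hζ₁']
        exact Pool.Agent.LibGP76.fl_mem _ _
    have hzy : z ≤ y₀ := by
      rw [← hζ₁']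
      exact Pool.Agent.LibGP76.le_fl (hz ζ₁) hzx
    have hyx : y₀ ≤ x := by
      rw [← hζ₁']
      exact Pool.Agent.LibGP76.fl_le _ _
    by_cases hcf : s < cf y₀
    · refine ⟨y₀, ζ₁, hzy, hyx, hcf, hcl, fun ζ hζ => ?_⟩
      have := Tr.base (C := C) (s := s) (b := Φ ζ) (x := x)
      rwa [heq ζ hζ] at this
    · have hcf' : cf y₀ ≤ s := not_lt.1 hcf
      have hzlt : z < y₀ := lt_of_le_of_ne hzy (fun h => hcf (h ▸ hs))
      obtain ⟨c, hc, hzc⟩ := hC.cof y₀ z hzlt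
      have hcy : c < y₀ := hC.lt y₀ c hc
      obtain ⟨y', ζ₂, h1, h2, h3, h4, h5⟩ := ih c (hcy.trans_le hyx) hzc
      refine ⟨y', max ζ₁ ζ₂, h1, (h2.trans hcy.le).trans hyx, h3, h4, fun ζ hζ => ?_⟩
      have hb := Tr.base (C := C) (s := s) (b := Φ ζ) (x := x)
      rw [heq ζ ((le_max_left _ _).trans hζ)] at hb
      exact tr_trans hb hcf' hc (h5 ζ ((le_max_right _ _).trans hζ))

end Pool.Agent.LibGS
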