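import Pool.Agent.LibGS.ADefs
import Pool.Agent.LibGS.Cof
import Pool.Agent.LibGS.Tree

/-! [GS76 AChild] Case A: children, orthogonality of levels. -/

set_option autoImplicit false

namespace Pool.Agent.LibGS

open Cardinal Set Order
open Pool.Agent.LibGP76 (RegK Ub Cl fl Stat)
open Pool.Agent.LibGPR (Lad)

variable {K L : Type} [LinearOrder K] [WellFoundedLT K] [LinearOrder L] [WellFoundedLT L]
  {th : ℕ → Cardinal.{0}} {t : ℕ → K} {ix : K → ℕ}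

theorem sysA_nx {N M : Set (Node K)} (hN : SysA ix th N) (hM : M ⊆ N) (Q : Node K → Set K) :
    SysA ix th (nxA th M Q) := by
  refine ⟨?_, ?_, ?_⟩
  · rintro v ⟨u, hu, q, hq, hq2, rfl⟩ x hx
    exact ⟨hx.2.1, (hN.sub u (hM hu) x hx.1).2⟩
  · rintro v ⟨u, hu, q, hq, hq2, rfl⟩
    exact hq2
  · rintro v ⟨u, hu, q, hq, hq2, rfl⟩ v' ⟨u', hu', q', hq', hq2', rfl⟩ hne
    rw [Set.disjoint_left]
    intro x hx hx'
    by_cases huu : u = u'
    · subst huu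
      rcases lt_trichotomy q q' with h | h | h
      · exact absurd (hx'.2.2 q hq h) (not_lt.2 hx.2.1.le)
      · subst h
        exact hne rfl
      · exact absurd (hx.2.2 q' hq' h) (not_lt.2 hx'.2.1.le)
    · exact Set.disjoint_left.1 (hN.disj u (hM hu) u' (hM hu') huu) hx.1 hx'.1

/-- `Q ∩ Iio q` is bounded below `q` (`cf_bdd`). -/
theorem acc_child (u : Node K) (Q : Set K) (q : K) (hq : ℵ₀ ≤ cf q) (hQ : #Q < cf q) (X : Set K)
    (h : Acc (X ∩ u.P) q) : Acc (X ∩ (child u Q q).P) (child u Q q).y := by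
  intro w hw
  have hw' : w < q := hw
  obtain ⟨w0, hw0, hb⟩ := cf_bdd hq (Q ∩ Iio q) (fun s hs => hs.2)
    ((mk_le_mk_of_subset Set.inter_subset_left).trans_lt hQ)
  obtain ⟨x, ⟨hx1, hx2⟩, hx3, hx4⟩ := h (max w w0) (max_lt hw' hw0)
  refine ⟨x, ⟨hx1, hx2, hx4, fun q' hq' hlt => ?_⟩, (le_max_left _ _).trans_lt hx3, hx4⟩
  exact (hb q' ⟨hq', hlt⟩).trans ((le_max_right _ _).trans_lt hx3)

theorem flA_same {N M : Set (Node K)} (hN : SysA ix th N) (hM : M ⊆ N) (f : L → Node K → K)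
    {δ δ' : L} (h : δ ≠ δ') {B B' : Set K} (hB : FlA ix M f δ B) (hB' : FlA ix M f δ' B') :
    ∃ n, ∀ x ∈ B ∩ B', ix x ≤ n := by
  wlog hlt : δ < δ' generalizing δ δ' B B'
  · obtain ⟨n, hn⟩ := this h.symm hB' hB (lt_of_le_of_ne (not_lt.1 hlt) h.symm)
    exact ⟨n, fun x hx => hn x ⟨hx.2, hx.1⟩⟩
  obtain ⟨n1, hn1⟩ := hB.2
  obtain ⟨n2, hn2⟩ := hB'.1 δ hlt
  refine ⟨max n1 n2, fun x hx => ?_⟩
  by_contra hcon
  rw [not_le] at hcon
  obtain ⟨u, hu, hxu, hx1⟩ := hn1 x hx.1 ((le_max_left _ _).trans_lt hcon)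
  obtain ⟨u', hu', hxu', hx2⟩ := hn2 x hx.2 ((le_max_right _ _).trans_lt hcon)
  have huu : u = u' := by
    by_contra hne
    exact Set.disjoint_left.1 (hN.disj u (hM hu) u' (hM hu') hne) hxu hxu'
  subst huu
  exact lt_asymm hx1 hx2

theorem flA_diff {L' : Type} [LinearOrder L'] {N M M' : Set (Node K)} (hN : SysA ix th N)
    (hM : M ⊆ N) (hM' : M' ⊆ N) (hMM : ¬ Ub (Node.i '' (M ∩ M'))) (f : L → Node K → K)
    (f' : L' → Node K → K) {δ : L} {δ' : L'} {B B' : Set K} (hB : FlA ix M f δ B)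
    (hB' : FlA ix M' f' δ' B') :
    ∃ n, ∀ x ∈ B ∩ B', ix x ≤ n := by
  unfold Ub at hMM
  push Not at hMM
  obtain ⟨n0, hn0⟩ := hMM
  obtain ⟨n1, hn1⟩ := hB.2
  obtain ⟨n2, hn2⟩ := hB'.2
  refine ⟨max n0 (max n1 n2), fun x hx => ?_⟩
  by_contra hcon
  rw [not_le] at hcon
  obtain ⟨u, hu, hxu, -⟩ := hn1 x hx.1
    (((le_max_left _ _).trans (le_max_right _ _)).trans_lt hcon)
  obtain ⟨u', hu', hxu', -⟩ := hn2 x hx.2
    (((le_max_right _ _).trans (le_max_right _ _)).trans_lt hcon)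
  have huu : u = u' := by
    by_contra hne
    exact Set.disjoint_left.1 (hN.disj u (hM hu) u' (hM' hu') hne) hxu hxu'
  subst huu
  have h1 := hn0 u.i ⟨u, ⟨hu, hu'⟩, rfl⟩
  have h2 := (hN.sub u (hM hu) x hxu).2
  rw [← h2] at h1
  exact absurd ((le_max_left _ _).trans_lt hcon) (not_lt.2 h1)

/-- Cardinality of the sets `Q u`. -/
theorem card_QA {C : K → Set K} (hC : CofSys C) {s : Cardinal.{0}} (hs : ℵ₀ ≤ s) (b : K → K)
    (g : ℕ → K) : #{q | ∃ r, q = g r ∨ Tr C s b (g r) q} ≤ s := by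
  have h1 : {q | ∃ r, q = g r ∨ Tr C s b (g r) q} ⊆
      ⋃ r : ℕ, ({g r} ∪ {q | Tr C s b (g r) q}) := by
    rintro q ⟨r, hr⟩
    rw [Set.mem_iUnion]
    exact ⟨r, hr⟩
  refine (mk_le_mk_of_subset h1).trans ?_
  refine (mk_iUnion_le_sum_mk).trans ?_
  have h2 : ∀ r : ℕ, #({g r} ∪ {q | Tr C s b (g r) q} : Set K) ≤ s := by
    intro r
    refine (mk_union_le _ _).trans ?_
    rw [mk_singleton]
    exact add_le_of_le hs (one_le_aleph0.trans hs) (card_tr hC hs b (g r))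
  refine (sum_le_sum _ _ h2).trans ?_
  rw [sum_const, lift_id, lift_id, mk_nat]
  exact mul_le_of_le hs hs (le_refl _)

end Pool.Agent.LibGS
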