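import Pool.Agent.LibGS.ARun

/-! [GS76 AClass] Case A: classes of sets which do not stop. -/

set_option autoImplicit false

namespace Pool.Agent.LibGS

open Cardinal Set Order
open Pool.Agent.LibGP76 (RegK Ub Cl fl Stat)

variable {K : Type} [LinearOrder K] [WellFoundedLT K] {th : ℕ → Cardinal.{0}} {t : ℕ → K}
  {ix : K → ℕ}

/-- The classes of sets that do not stop. PROOF. Choose local coders `A y n` (`local_at`, `s = t n`) for all
`y`, `n` with `cf y = succ (th n)`. `Cls C B` iff there are `s` with `(s 0).1 = N₀`,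
`(s (k + 1)).1 = m.nx (s k).1 (s k).2`, `m.Fl (s k).1 (s k).2 B` for all `k`, nodes `u k ∈ (s k).1`
with strictly increasing indices, `(lb k).1 ∈ (u k).P`, `(lb k).2 < (u k).y`,
`cf (lb k).2 = succ (th (u k).i)`, where `lb k = m.lb (s k).1 (s k).2`, and sets `X k ⊆ (u k).P` with
`X k ⊆ Iio (lb k).2`, `Acc (X k) (lb k).2` and
`B = ⋃ k, A (lb k).2 (u k).i (X k) (C ∩ Iio (t (u k).i))`.
DENSITY: `runA`; `X k = X ∩ (u k).P ∩ Iio (lb k).2`. `B` follows `s k`: for `j > k` the part of `B` of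
stage `j` is contained in `(u j).P`, `u j ∈ T j`, which is contained in a node of `T (k + 1)`; the other
finitely many parts have index `≤ (u k).i`. `#B = #K`: `code_union`.
ORTHOGONALITY. As in `classes_stopA` we may assume that `ix` is unbounded on `B ∩ B'`; by induction
`s k = s' k` for all `k` (`m.orth`), so `lb k = lb' k`, and `u k = u' k` since both nodes of the system
`(s k).1` contain the point `(lb k).1` (`SysA.disj`). A point `x ∈ B ∩ B'` is in the parts of stages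
`k` of `B` and `k'` of `B'`, `ix x = (u k).i = (u k').i`, so `k = k'`, and `local_at` bounds these
intersections by `#(C ∩ C') + ℵ₀`; `small_iUnion`. -/
theorem classes_runA (hA : Amb K ℕ th t) (htt : ∀ n, #(Set.Iio (t n)) < th n)
    (hreg : ∀ n, (th n).IsRegular)
    (hix : ∀ n, #{x | ix x < n} ≤ th n) (m : Mach ix th)
    (N₀ : {N : Set (Node K) // SysA ix th N}) :
    ∃ Cls : Set K → Set K → Prop, (∀ C B, Cls C B → #B = #K) ∧
      (∀ C C', #(C ∩ C' : Set K) < #K → ∀ B B', Cls C B → Cls C' B' → #(B ∩ B' : Set K) < #K) ∧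
      ∀ X, ¬ StopsA m N₀ X → (∃ T₀ ⊆ N₀.1, Sel Node.i T₀ ∧ ∀ u ∈ T₀, Acc (X ∩ u.P) u.y) →
        ∀ C : Set K, #C = #K → ∃ B, B ⊆ X ∧ Cls C B := by
  classical
  have hth : ∀ n, succ (succ ℵ₀) ≤ th n := by
    intro n
    have h1 := hA.mu n
    rw [mk_nat] at h1
    exact ((le_succ _).trans (le_succ _)).trans h1.le
  have hloc : ∀ (y : K) (n : ℕ), ∃ A : Set K → Set K → Set K, cf y = succ (th n) →
      (∀ T c, T ⊆ Iio y → Acc T y → c ⊆ Iio (t n) → A T c ⊆ T ∧ #(A T c) = #c) ∧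
      ∀ T T' c c', T ⊆ Iio y → T' ⊆ Iio y → Acc T y → Acc T' y → c ⊆ Iio (t n) → c' ⊆ Iio (t n) →
        #(A T c ∩ A T' c' : Set K) ≤ #(c ∩ c' : Set K) + ℵ₀ := by
    intro y n
    by_cases h1 : cf y = succ (th n)
    · obtain ⟨A, hA1, hA2⟩ := local_at hA.small y (t n) (th n) (hreg n) (hth n) h1 (htt n)
      exact ⟨A, fun _ => ⟨hA1, hA2⟩⟩
    · exact ⟨fun _ _ => ∅, fun h => absurd h h1⟩
  choose A hAc using hloc
  have hinf : ℵ₀ < #K := by
    have h1 : ℵ₀ < th 0 := ((lt_succ ℵ₀).trans (lt_succ _)).trans_le (hth 0)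
    exact h1.trans (hA.lt 0)
  refine ⟨fun C B => #C = #K ∧ ∃ (s : ℕ → Σ N, m.Dt N) (u : ℕ → Node K) (X : ℕ → Set K),
    (s 0).1 = N₀ ∧ (∀ k, (s (k + 1)).1 = m.nx (s k).1 (s k).2) ∧
    (∀ k, m.Fl (s k).1 (s k).2 B) ∧ (∀ k, u k ∈ (s k).1.1) ∧ (∀ k, (u k).i < (u (k + 1)).i) ∧
    (∀ k, (m.lb (s k).1 (s k).2).1 ∈ (u k).P ∧
      cf (m.lb (s k).1 (s k).2).2 = succ (th (u k).i)) ∧
    (∀ k, X k ⊆ (u k).P ∧ X k ⊆ Iio (m.lb (s k).1 (s k).2).2 ∧
      Acc (X k) (m.lb (s k).1 (s k).2).2) ∧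
    B = ⋃ k, A (m.lb (s k).1 (s k).2).2 (u k).i (X k) (C ∩ Iio (t (u k).i)), ?_, ?_, ?_⟩
  · -- the cardinality
    rintro C B ⟨hC, s, u, X, hs0, hs1, hFl, huN, hui, hlb, hX, hB⟩
    have hmono : StrictMono (fun k => (u k).i) := strictMono_nat_of_lt_succ hui
    refine code_union hA (fun k : ℕ => (u k).i) Set.univ ?_ C hC B
      (fun k => A (m.lb (s k).1 (s k).2).2 (u k).i (X k) (C ∩ Iio (t (u k).i))) ?_ ?_
    · intro c
      refine ⟨(u (c + 1)).i, ⟨c + 1, mem_univ _, rfl⟩, ?_⟩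
      have h1 := hmono.id_le (c + 1)
      exact lt_of_lt_of_le (Nat.lt_succ_self c) h1
    · intro k _
      rw [hB]
      exact subset_iUnion (fun k => A (m.lb (s k).1 (s k).2).2 (u k).i (X k)
        (C ∩ Iio (t (u k).i))) k
    · intro k _
      exact (((hAc _ _ (hlb k).2).1 _ _ (hX k).2.1 (hX k).2.2 inter_subset_right)).2
  · -- orthogonality
    rintro C C' hCC B B' ⟨hC, s, u, X, hs0, hs1, hFl, huN, hui, hlb, hX, hB⟩
      ⟨hC', s', u', X', hs0', hs1', hFl', huN', hui', hlb', hX', hB'⟩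
    by_cases hcase : ∃ n, ∀ x ∈ B ∩ B', ix x ≤ n
    · obtain ⟨n, hn⟩ := hcase
      have h1 : B ∩ B' ⊆ {x | ix x < n + 1} := fun x hx => Nat.lt_succ_of_le (hn x hx)
      exact ((mk_le_mk_of_subset h1).trans (hix (n + 1))).trans_lt (hA.lt (n + 1))
    · have key : ∀ (p p' : Σ N, m.Dt N), p.1 = p'.1 → m.Fl p.1 p.2 B → m.Fl p'.1 p'.2 B' →
          p = p' := by
        rintro ⟨N, d⟩ ⟨N', d'⟩ h hF hF'
        simp only at h hF hF'
        subst h
        by_contra hne
        have hdd : d ≠ d' := fun h => hne (by rw [h])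
        exact hcase (m.orth N d d' B B' hdd hF hF')
      have hs : ∀ k, s k = s' k := by
        intro k
        induction k with
        | zero => exact key _ _ (hs0.trans hs0'.symm) (hFl 0) (hFl' 0)
        | succ k ih =>
          refine key _ _ ?_ (hFl (k + 1)) (hFl' (k + 1))
          rw [hs1, hs1', ih]
      have hlbe : ∀ k, m.lb (s k).1 (s k).2 = m.lb (s' k).1 (s' k).2 := by
        intro k
        rw [hs k]
      have hu : ∀ k, u k = u' k := by
        intro k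
        by_contra hne
        have h1 := huN k
        have h2 := huN' k
        rw [← hs k] at h2
        have h3 := (s k).1.2.disj (u k) h1 (u' k) h2 hne
        have h4 := (hlb' k).1
        rw [← hlbe k] at h4
        exact Set.disjoint_left.1 h3 (hlb k).1 h4
      have hmono : StrictMono (fun k => (u k).i) := strictMono_nat_of_lt_succ hui
      refine small_iUnion hA (B ∩ B') (fun k => A (m.lb (s k).1 (s k).2).2 (u k).i (X k)
        (C ∩ Iio (t (u k).i)) ∩ A (m.lb (s k).1 (s k).2).2 (u k).i (X' k)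
        (C' ∩ Iio (t (u k).i))) ?_ (#(C ∩ C' : Set K) + ℵ₀) (add_lt_of_lt hinf.le hCC hinf) ?_
      · rintro x ⟨hx, hx'⟩
        rw [hB, mem_iUnion] at hx
        rw [hB', mem_iUnion] at hx'
        obtain ⟨k, hk⟩ := hx
        obtain ⟨k', hk'⟩ := hx'
        have h1 := ((hAc _ _ (hlb k).2).1 _ _ (hX k).2.1 (hX k).2.2 inter_subset_right).1 hk
        have h2 := ((hAc _ _ (hlb' k').2).1 _ _ (hX' k').2.1 (hX' k').2.2
          inter_subset_right).1 hk'
        have h3 := ((s k).1.2.sub (u k) (huN k) x ((hX k).1 h1)).2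
        have h4 := ((s' k').1.2.sub (u' k') (huN' k') x ((hX' k').1 h2)).2
        rw [← hu k'] at h4
        have h5 : k = k' := hmono.injective (h3.symm.trans h4)
        rw [← h5, ← hlbe k, ← hu k] at hk'
        exact ⟨k, hk, hk'⟩
      · intro k
        have hcf := (hlb k).2
        have h6 : X' k ⊆ Iio (m.lb (s k).1 (s k).2).2 := by
          rw [hlbe k]
          exact (hX' k).2.1
        have h7 : Acc (X' k) (m.lb (s k).1 (s k).2).2 := by
          rw [hlbe k]
          exact (hX' k).2.2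
        refine ((hAc _ _ hcf).2 _ _ _ _ (hX k).2.1 h6 (hX k).2.2 h7 inter_subset_right
          inter_subset_right).trans ?_
        refine add_le_add (mk_le_mk_of_subset ?_) le_rfl
        rintro x ⟨⟨h8, _⟩, h9, _⟩
        exact ⟨h8, h9⟩
  · -- density
    rintro X hX ⟨T₀, hT₀, hS, hacc⟩ C hC
    obtain ⟨s, T, u, hs0, hs1, huT, hui, hlb, hT, hFl⟩ := runA hA hreg m N₀ X hX T₀ hT₀ hS hacc
    have hmono : StrictMono (fun k => (u k).i) := strictMono_nat_of_lt_succ hui
    set Y : ℕ → Set K := fun k => X ∩ (u k).P ∩ Iio (m.lb (s k).1 (s k).2).2 with hY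
    have hYacc : ∀ k, Acc (Y k) (m.lb (s k).1 (s k).2).2 := by
      intro k w hw
      obtain ⟨x, hx, hwx, hxl⟩ := (hlb k).2.2.2 w hw
      exact ⟨x, ⟨hx, hxl⟩, hwx, hxl⟩
    have hsub : ∀ k, A (m.lb (s k).1 (s k).2).2 (u k).i (Y k) (C ∩ Iio (t (u k).i)) ⊆ Y k :=
      fun k => ((hAc _ _ (hlb k).2.2.1).1 _ _ (fun x hx => hx.2) (hYacc k)
        inter_subset_right).1
    refine ⟨⋃ k, A (m.lb (s k).1 (s k).2).2 (u k).i (Y k) (C ∩ Iio (t (u k).i)), ?_, hC, s, u, Y,
      hs0, hs1, ?_, fun k => (huT k).2, hui, fun k => ⟨(hlb k).1, (hlb k).2.2.1⟩,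
      fun k => ⟨fun x hx => hx.1.2, fun x hx => hx.2, hYacc k⟩, rfl⟩
    · intro x hx
      rw [mem_iUnion] at hx
      obtain ⟨k, hk⟩ := hx
      exact (hsub k hk).1.1
    · intro k
      refine hFl k _ ⟨(u k).i, fun x hx hxi => ?_⟩
      rw [mem_iUnion] at hx
      obtain ⟨j, hj⟩ := hx
      have h1 := (hsub j hj).1.2
      have h2 := ((s j).1.2.sub (u j) (huT j).2 x h1).2
      rw [h2] at hxi
      have h3 : k < j := hmono.lt_iff_lt.1 hxi
      have h4 : ∀ i : ℕ, ∀ v ∈ T (k + 1 + i), ∃ u' ∈ T (k + 1), v.P ⊆ u'.P := by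
        intro i
        induction i with
        | zero => exact fun v hv => ⟨v, hv, subset_rfl⟩
        | succ i ih =>
          intro v hv
          obtain ⟨u₁, hu₁, hsub₁⟩ := hT _ v hv
          obtain ⟨u', hu', hsub'⟩ := ih u₁ hu₁
          exact ⟨u', hu', hsub₁.trans hsub'⟩
      have h5 : k + 1 + (j - (k + 1)) = j := by omega
      have h6 := h4 (j - (k + 1))
      rw [h5] at h6
      obtain ⟨u', hu', hsub'⟩ := h6 (u j) (huT j).1
      exact ⟨u', hu', hsub' h1⟩

end Pool.Agent.LibGS
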