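import Pool.Agent.LibGS.Defs

/-! Case A (`cf α = ω`): definitions. -/

set_option autoImplicit false

namespace Pool.Agent.LibGS

open Cardinal Set Order
open Pool.Agent.LibGP76 (RegK Ub Cl fl Stat)

variable {K L : Type} [LinearOrder K]

/-- Nodes: a coordinate, a set of points, and the top. -/
structure Node (K : Type) where
  i : ℕ
  P : Set K
  y : K

def Bad (u : Node K) : Prop := ¬ Good (cf u.y)

/-- Systems of disjoint nodes. -/
structure SysA (ix : K → ℕ) (th : ℕ → Cardinal.{0}) (N : Set (Node K)) : Prop where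
  sub : ∀ u ∈ N, ∀ x ∈ u.P, x < u.y ∧ ix x = u.i
  big : ∀ u ∈ N, th u.i < cf u.y
  disj : ∀ u ∈ N, ∀ u' ∈ N, u ≠ u' → Disjoint u.P u'.P

/-- The part of the node `u` between `sup (Q ∩ q)` and `q`. -/
def child (u : Node K) (Q : Set K) (q : K) : Node K :=
  ⟨u.i, {x | x ∈ u.P ∧ x < q ∧ ∀ q' ∈ Q, q' < q → q' < x}, q⟩

/-- The refined system. -/
def nxA (th : ℕ → Cardinal.{0}) (M : Set (Node K)) (Q : Node K → Set K) : Set (Node K) :=
  {v | ∃ u ∈ M, ∃ q ∈ Q u, th u.i < cf q ∧ v = child u (Q u) q}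

/-- `B` follows the level `δ` of the scale `f` on `M`. -/
def FlA [LinearOrder L] (ix : K → ℕ) (M : Set (Node K)) (f : L → Node K → K) (δ : L)
    (B : Set K) : Prop :=
  (∀ β < δ, ∃ n, ∀ x ∈ B, n < ix x → ∃ u ∈ M, x ∈ u.P ∧ f β u < x) ∧
    ∃ n, ∀ x ∈ B, n < ix x → ∃ u ∈ M, x ∈ u.P ∧ x < f δ u

/-- The data of all stages: `Dt N` are the possible data `(M, δ)` at the system `N`, `nx N d` is the next
system, `lb N d` the label of the level, `Fl N d B` says that `B` follows `d`. -/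
structure Mach (ix : K → ℕ) (th : ℕ → Cardinal.{0}) where
  Dt : {N : Set (Node K) // SysA ix th N} → Type
  ne : ∀ N, Nonempty (Dt N)
  nx : ∀ N, Dt N → {N : Set (Node K) // SysA ix th N}
  lb : ∀ N, Dt N → K × K
  Fl : ∀ N, Dt N → Set K → Prop
  orth : ∀ N d d' B B', d ≠ d' → Fl N d B → Fl N d' B' → ∃ n, ∀ x ∈ B ∩ B', ix x ≤ n
  bad : ∀ N d B, Fl N d B → ∃ n, ∀ x ∈ B, n < ix x → ∃ u ∈ N.1, Bad u ∧ x ∈ u.P
  dens : ∀ N (X : Set K) (a : K × K) (T : Set (Node K)), T ⊆ N.1 → Sel Node.i T →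
    (∀ u ∈ T, Bad u ∧ Acc (X ∩ u.P) u.y) →
    ∃ d, lb N d = a ∧ ∃ T' ⊆ (nx N d).1, Sel Node.i T' ∧
      (∀ u' ∈ T', Acc (X ∩ u'.P) u'.y ∧ ∃ u ∈ T, u'.P ⊆ u.P ∧ u'.i = u.i) ∧
      ∀ B : Set K, (∃ n, ∀ x ∈ B, n < ix x → ∃ u' ∈ T', x ∈ u'.P) → Fl N d B

/-- Chains of data. -/
def ChainA {ix : K → ℕ} {th : ℕ → Cardinal.{0}} (m : Mach ix th)
    (N₀ : {N : Set (Node K) // SysA ix th N}) (s : ℕ → Σ N, m.Dt N) (n : ℕ) : Prop :=
  (s 0).1 = N₀ ∧ ∀ k < n, (s (k + 1)).1 = m.nx (s k).1 (s k).2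

/-- `T` is a selection of nodes of the last system of a chain of length `n`, `X` is unbounded at all its
nodes, and all sets which are almost contained in the union of the nodes follow the chain. -/
def AdmA {ix : K → ℕ} {th : ℕ → Cardinal.{0}} (m : Mach ix th)
    (N₀ : {N : Set (Node K) // SysA ix th N}) (X : Set K) (s : ℕ → Σ N, m.Dt N) (n : ℕ)
    (T : Set (Node K)) : Prop :=
  ChainA m N₀ s n ∧ T ⊆ (s n).1.1 ∧ Sel Node.i T ∧ (∀ u ∈ T, Acc (X ∩ u.P) u.y) ∧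
    ∀ k < n, ∀ B : Set K, (∃ n', ∀ x ∈ B, n' < ix x → ∃ u ∈ T, x ∈ u.P) →
      m.Fl (s k).1 (s k).2 B

/-- `X` stops: there are such `s`, `n`, `T` with good nodes only. -/
def StopsA {ix : K → ℕ} {th : ℕ → Cardinal.{0}} (m : Mach ix th)
    (N₀ : {N : Set (Node K) // SysA ix th N}) (X : Set K) : Prop :=
  ∃ s n T, AdmA m N₀ X s n T ∧ ∀ u ∈ T, ¬ Bad u

end Pool.Agent.LibGS
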