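import Pool.Agent.LibGS.AChild

/-! [GS76 ADens] Case A: density of a stage. -/

set_option autoImplicit false

namespace Pool.Agent.LibGS

open Cardinal Set Order
open Pool.Agent.LibGP76 (RegK Ub Cl fl Stat)
open Pool.Agent.LibGPR (Lad)

variable {K L : Type} [LinearOrder K] [WellFoundedLT K] [LinearOrder L] [WellFoundedLT L]
  {th : ℕ → Cardinal.{0}} {t : ℕ → K} {ix : K → ℕ}

/-- PROOF. For every `r : ℕ` there is `n r` such that for all `u ∈ T` with `n r < u.i`: the point `y'` of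
`hy r (r + 1)` exists, `f (e r') u ≤ f (e r) u` for all `r' ≤ r` and `f (e (r + 1)) u < f δ u` (`hf.inc`,
finitely many conditions). We may assume `n` strictly increasing. For `u ∈ T` with `n 0 < u.i` let `r u` be
the largest `r` with `n r < u.i` (`r ≤ n r`), `y' u` the point for `r u`. Let
`T' = {child u (Q u) (y' u) | u ∈ T, n 0 < u.i}`. It is contained in `nxA th M Q` (`y' u ∈ Q u` by `hQ2`),
`Acc` by `acc_child` (`#(Q u) ≤ th u.i < cf (y' u)`). Let almost all `x ∈ B` be in nodes of `T'`. Let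
`β < δ`, `β ≤ e r₀`. If `ix x = u.i` is large then `r₀ ≤ r u` and
`f β u ≤ f (e r₀) u ≤ f (e (r u)) u < x`, because `f (e (r u)) u ∈ Q u` (`hQ1`) is `< y' u`. And
`x < y' u ≤ f (e (r u + 1)) u < f δ u` (`tr_le`). -/
theorem densA (hth : ∀ n, ℵ₀ ≤ th n) {N M : Set (Node K)} (hN : SysA ix th N) (hMN : M ⊆ N)
    (hM : Sel Node.i M) (f : L → Node K → K) (hf : TS Node.i M Node.y f) {C : K → Set K}
    (hC : CofSys C) (b : Node K → K → K) (e : ℕ → L) (δ : L) (hδ : Lad e δ)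
    (Q : Node K → Set K) (hQ : ∀ u ∈ M, #(Q u) ≤ th u.i) (hQ1 : ∀ u ∈ M, ∀ r, f (e r) u ∈ Q u)
    (hQ2 : ∀ u ∈ M, ∀ r q, Tr C (th u.i) (b u) (f (e r) u) q → q ∈ Q u) (X : Set K)
    (T : Set (Node K)) (hTM : T ⊆ M) (hT : Ub (Node.i '' T))
    (hy : ∀ r r', r < r' → Ev Node.i T (fun u => ∃ y', Tr C (th u.i) (b u) (f (e r') u) y' ∧
          f (e r) u < y' ∧ th u.i < cf y' ∧ Acc (X ∩ u.P) y')) :
    ∃ T' ⊆ nxA th M Q, Sel Node.i T' ∧
      (∀ u' ∈ T', Acc (X ∩ u'.P) u'.y ∧ ∃ u ∈ T, u'.P ⊆ u.P ∧ u'.i = u.i) ∧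
      ∀ B : Set K, (∃ n, ∀ x ∈ B, n < ix x → ∃ u' ∈ T', x ∈ u'.P) → FlA ix M f δ B := by
  classical
  choose m1 hm1 using fun r : ℕ => hy r (r + 1) (Nat.lt_succ_self r)
  choose m2 hm2 using fun r : ℕ => hf.inc (e r) (e (r + 1)) (hδ.1 r (r + 1) (Nat.lt_succ_self r))
  choose m3 hm3 using fun r : ℕ => hf.inc (e (r + 1)) δ (hδ.2.1 (r + 1))
  obtain ⟨n, hn⟩ : ∃ n : ℕ → ℕ, ∀ r, n r = ∑ k ∈ Finset.range (r + 1), (m1 k + m2 k + m3 k + 1) :=
    ⟨_, fun r => rfl⟩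
  have hge : ∀ r, m1 r + m2 r + m3 r + 1 ≤ n r := by
    intro r
    rw [hn]
    exact Finset.single_le_sum (f := fun k => m1 k + m2 k + m3 k + 1) (fun k _ => Nat.zero_le _)
      (Finset.mem_range.2 (Nat.lt_succ_self r))
  have hstep : ∀ r, n r < n (r + 1) := by
    intro r
    rw [hn, hn, Finset.sum_range_succ _ (r + 1)]
    omega
  have hmono : StrictMono n := strictMono_nat_of_lt_succ hstep
  have hid : ∀ r, r ≤ n r := fun r => hmono.id_le r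
  -- monotonicity along the ladder
  have hlad : ∀ u ∈ T, ∀ r, n r < u.i → ∀ r' ≤ r, f (e r') u ≤ f (e r) u := by
    intro u hu r
    induction r with
    | zero =>
      intro _ r' hr'
      rw [Nat.le_zero.1 hr']
    | succ r ih =>
      intro hr r' hr'
      rcases Nat.lt_or_ge r r' with h | h
      · have : r' = r + 1 := by omega
        rw [this]
      · have h1 : n r < u.i := (hstep r).trans hr
        refine (ih h1 r' h).trans (hm2 r u (hTM hu) ?_).le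
        have := hge r
        omega
  -- the largest index
  obtain ⟨ρ, hρ⟩ : ∃ ρ : Node K → ℕ, ∀ u, ρ u = Nat.findGreatest (fun r => n r < u.i) u.i :=
    ⟨_, fun u => rfl⟩
  have hρ1 : ∀ u : Node K, n 0 < u.i → n (ρ u) < u.i := by
    intro u hu
    rw [hρ]
    exact Nat.findGreatest_spec (P := fun r => n r < u.i) (Nat.zero_le _) hu
  have hρ2 : ∀ u : Node K, ∀ r, n r < u.i → r ≤ ρ u := by
    intro u r hr
    rw [hρ]
    exact Nat.le_findGreatest ((hid r).trans hr.le) hr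
  have key : ∀ u : Node K, ∃ y' : K, u ∈ T → n 0 < u.i →
      (Tr C (th u.i) (b u) (f (e (ρ u + 1)) u) y' ∧ f (e (ρ u)) u < y' ∧ th u.i < cf y' ∧
        Acc (X ∩ u.P) y') := by
    intro u
    by_cases hu : u ∈ T ∧ n 0 < u.i
    · obtain ⟨y', hy'⟩ := hm1 (ρ u) u hu.1 (by
        have h1 := hρ1 u hu.2
        have h2 := hge (ρ u)
        omega)
      exact ⟨y', fun _ _ => hy'⟩
    · exact ⟨u.y, fun h1 h2 => absurd ⟨h1, h2⟩ hu⟩
  choose y' hy' using key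
  refine ⟨{v | ∃ u ∈ T, n 0 < u.i ∧ v = child u (Q u) (y' u)}, ?_, ⟨?_, ?_⟩, ?_, ?_⟩
  · rintro v ⟨u, hu, hun, rfl⟩
    obtain ⟨h1, -, h3, -⟩ := hy' u hu hun
    exact ⟨u, hTM hu, y' u, hQ2 u (hTM hu) _ _ h1, h3, rfl⟩
  · rintro v ⟨u, hu, hun, rfl⟩ v' ⟨u', hu', hun', rfl⟩ hvv
    have : u = u' := hM.1 (hTM hu) (hTM hu') hvv
    rw [this]
  · intro c
    obtain ⟨i, ⟨u, hu, rfl⟩, hc⟩ := hT (c + n 0)
    refine ⟨u.i, ⟨child u (Q u) (y' u), ⟨u, hu, by omega, rfl⟩, rfl⟩, by omega⟩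
  · rintro v ⟨u, hu, hun, rfl⟩
    obtain ⟨-, -, h3, h4⟩ := hy' u hu hun
    refine ⟨acc_child u (Q u) (y' u) ((hth u.i).trans h3.le) ((hQ u (hTM hu)).trans_lt h3) X h4,
      u, hu, fun x hx => hx.1, rfl⟩
  · rintro B ⟨n1, hn1⟩
    refine ⟨fun β hβ => ?_, n1, fun x hx hnx => ?_⟩
    · obtain ⟨r0, hr0⟩ := hδ.2.2 β hβ
      obtain ⟨m4, hm4⟩ := hf.inc β (e r0) hr0
      refine ⟨n1 + n r0 + m4, fun x hx hnx => ?_⟩
      obtain ⟨v, ⟨u, hu, hun, rfl⟩, hxv⟩ := hn1 x hx (by omega)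
      obtain ⟨h1, h2, h3, h4⟩ := hy' u hu hun
      have hix : ix x = u.i := (hN.sub u (hMN (hTM hu)) x hxv.1).2
      have hr : r0 ≤ ρ u := hρ2 u r0 (by omega)
      refine ⟨u, hTM hu, hxv.1, ?_⟩
      have h5 : f β u < f (e r0) u := hm4 u (hTM hu) (by omega)
      have h6 : f (e r0) u ≤ f (e (ρ u)) u := hlad u hu (ρ u) (hρ1 u hun) r0 hr
      have h7 : f (e (ρ u)) u < x := hxv.2.2 _ (hQ1 u (hTM hu) (ρ u)) h2
      exact (h5.trans_le h6).trans h7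
    · obtain ⟨v, ⟨u, hu, hun, rfl⟩, hxv⟩ := hn1 x hx hnx
      obtain ⟨h1, h2, h3, h4⟩ := hy' u hu hun
      refine ⟨u, hTM hu, hxv.1, ?_⟩
      have h5 : f (e (ρ u + 1)) u < f δ u := hm3 (ρ u) u (hTM hu) (by
        have h6 := hρ1 u hun
        have h7 := hge (ρ u)
        omega)
      exact (lt_of_lt_of_le hxv.2.1 (tr_le hC h1)).trans h5

end Pool.Agent.LibGS
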