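import Pool.Agent.LibGS.Cof
import Pool.Agent.LibGPR.Guess
import Pool.Agent.LibGPR.SplitL

/-! [GS76 GuessB] Club guessing on a stationary set. -/

set_option autoImplicit false

namespace Pool.Agent.LibGS

open Cardinal Set Order
open Pool.Agent.LibGP76 (RegK Ub Cl fl Stat)
open Pool.Agent.LibGPR (Lad)

variable {I L : Type} [LinearOrder I] [WellFoundedLT I] [LinearOrder L] [WellFoundedLT L]

omit [WellFoundedLT L] in
theorem guessB_thinN (h : RegN I) (f : I → L) (δ : L) (hf1 : ∀ i j, i ≤ j → f i ≤ f j)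
    (hf2 : ∀ i, f i < δ) (hf3 : ∀ ν < δ, ∃ i, ν < f i) :
    ∃ e : I → L, Lad e δ ∧ ∀ j, ∃ i, e j = f i := by
  classical
  choose nx hnx using fun x : I => hf3 (f x) (hf2 x)
  have hb : ∀ (j : I) (g : (i : I) → i < j → I), ∃ z, j < z ∧ ∀ i (hi : i < j), nx (g i hi) < z := by
    intro j g
    obtain ⟨c, hc⟩ := h.reg (insert j (range fun i : Set.Iio j => nx (g i.1 i.2))) (by
      refine (mk_insert_le).trans_lt ?_
      refine add_lt_of_lt h.inf (mk_range_le.trans_lt (h.small j)) ?_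
      exact one_lt_aleph0.trans_le h.inf)
    exact ⟨c, hc _ (mem_insert _ _), fun i hi => hc _ (mem_insert_of_mem _ ⟨⟨i, hi⟩, rfl⟩)⟩
  choose sp hsp1 hsp2 using hb
  let t : I → I := wellFounded_lt.fix (fun j rec => sp j rec)
  have ht : ∀ j, t j = sp j (fun i _ => t i) := fun j => wellFounded_lt.fix_eq _ j
  have h1 : ∀ j, j < t j := fun j => by
    rw [ht j]
    exact hsp1 _ _
  have h2 : ∀ i j, i < j → nx (t i) < t j := by
    intro i j hij
    rw [ht j]
    exact hsp2 j (fun i _ => t i) i hij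
  refine ⟨fun j => f (t j), ⟨?_, fun i => hf2 _, ?_⟩, fun j => ⟨t j, rfl⟩⟩
  · intro i j hij
    exact (hnx (t i)).trans_le (hf1 _ _ (h2 i j hij).le)
  · intro ν hν
    obtain ⟨i, hi⟩ := hf3 ν hν
    exact ⟨i, hi.trans_le (hf1 _ _ (h1 i).le)⟩

/-- Club guessing on a stationary set `S` of points with ladders of type `I`: the proof of
`LibGPR.club_guess` (there `S = ` all points of cofinality `K`), with `δ ∈ S` a limit of points of
`Cl Φ∞`: it works for `RegN I` too. -/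
theorem club_guessN (hI : RegN I) (hL : RegK L) (hIL : succ #I < #L) (S : Set L) (hS : Stat S)
    (hSl : ∀ δ ∈ S, ∃ σ : I → L, Lad σ δ) :
    ∃ e : L → I → L, ∀ E : L → L, ∃ δ ∈ S, Lad (e δ) δ ∧ ∀ i, e δ i ∈ Cl E := by
  classical
  by_contra hcon
  push Not at hcon
  choose N hN using hcon
  have hIL' : #I < #L := (lt_succ #I).trans hIL
  have hlad : ∀ δ : L, ∃ σ : I → L, δ ∈ S → Lad σ δ := by
    intro δ
    by_cases hδ : δ ∈ S
    · obtain ⟨σ, hσ⟩ := hSl δ hδ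
      exact ⟨σ, fun _ => hσ⟩
    · exact ⟨fun _ => δ, fun h => absurd h hδ⟩
  choose lad hlad using hlad
  have hG : ∀ (F : L → L) (δ : L), ∃ e : I → L, Lad (lad δ) δ →
      (∀ ν < δ, ∃ c ∈ Cl F, ν < c ∧ c < δ) → Lad e δ ∧ ∀ j, ∃ i, e j = fl F (lad δ i) := by
    intro F δ
    by_cases h1 : Lad (lad δ) δ ∧ ∀ ν < δ, ∃ c ∈ Cl F, ν < c ∧ c < δ
    · obtain ⟨h1, h2⟩ := h1
      obtain ⟨e, he1, he2⟩ := guessB_thinN hI (fun i => fl F (lad δ i)) δ
        (by
          intro i j hij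
          rcases hij.lt_or_eq with hij | rfl
          · exact LibGP76.le_fl (LibGP76.fl_mem F _) ((LibGP76.fl_le F _).trans (h1.1 i j hij).le)
          · exact le_refl _)
        (fun i => (LibGP76.fl_le F _).trans_lt (h1.2.1 i))
        (by
          intro ν hν
          obtain ⟨c, hc1, hc2, hc3⟩ := h2 ν hν
          obtain ⟨i, hi⟩ := h1.2.2 c hc3
          exact ⟨i, hc2.trans_le (LibGP76.le_fl hc1 hi.le)⟩)
      exact ⟨e, fun _ _ => ⟨he1, he2⟩⟩
    · exact ⟨fun _ => δ, fun h2 h3 => absurd ⟨h2, h3⟩ h1⟩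
  choose G hG using hG
  have hreg : (succ #I).IsRegular := isRegular_succ hI.inf
  have hM : RegK (succ #I).ord.ToType := LibGP76.regK_ord hreg (hI.inf.trans_lt (lt_succ #I))
  have hMc : #(succ #I).ord.ToType = succ #I := mk_ord_toType _
  obtain ⟨M, hMlin, hMwf, hM, hMc⟩ : ∃ (M : Type) (_ : LinearOrder M) (_ : WellFoundedLT M),
      RegK M ∧ #M = succ #I := ⟨_, inferInstance, inferInstance, hM, hMc⟩
  have hML : #M < #L := by rw [hMc]; exact hIL
  have hIM : #I < #M := by rw [hMc]; exact lt_succ #I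
  have hsup : ∀ (j : M) (f : (i : M) → i < j → (L → L)), ∃ B : L → L, ∀ i (hi : i < j) x,
      f i hi x ≤ B x := by
    intro j f
    choose B hB using fun x : L => LibGP76.exists_sup hL ((hM.small j).trans hML)
      (fun i : Set.Iio j => f i.1 i.2 x)
    exact ⟨B, fun i hi x => (hB x ⟨i, hi⟩).le⟩
  choose sp hsp using hsup
  let Φ : M → L → L := wellFounded_lt.fix (fun j rec => sp j (fun i hi =>
    fun x => max (rec i hi x) (N (G (rec i hi)) x)))
  have hΦ : ∀ j, Φ j = sp j (fun i _ => fun x => max (Φ i x) (N (G (Φ i)) x)) :=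
    fun j => wellFounded_lt.fix_eq _ j
  have hΦle : ∀ i j, i < j → ∀ x, max (Φ i x) (N (G (Φ i)) x) ≤ Φ j x := by
    intro i j hij x
    rw [hΦ j]
    exact hsp j (fun i _ => fun x => max (Φ i x) (N (G (Φ i)) x)) i hij x
  have hΦmono : ∀ i j, i ≤ j → ∀ x, Φ i x ≤ Φ j x := by
    intro i j hij x
    rcases hij.lt_or_eq with hij | rfl
    · exact (le_max_left _ _).trans (hΦle i j hij x)
    · exact le_refl _
  choose Ψ hΨ using fun x : L => LibGP76.exists_sup hL hML (fun i : M => Φ i x)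
  have hLne : Nonempty L := by
    rw [← mk_ne_zero_iff]
    exact (lt_of_le_of_lt bot_le hIL').ne'
  obtain ⟨η⟩ := hLne
  choose nc hnc1 hnc2 using fun x : L => LibGP76.exists_cl hL Ψ x
  obtain ⟨δ, hδS, -, hδ⟩ := hS nc η
  have hlim : ∀ i : M, ∀ ν < δ, ∃ c ∈ Cl (Φ i), ν < c ∧ c < δ := by
    intro i ν hν
    exact ⟨nc ν, LibGP76.Cl_anti (fun x => (hΨ x i).le) (hnc2 ν), hnc1 ν, hδ ν hν⟩
  have hLad : Lad (lad δ) δ := hlad δ hδS
  have hMne : Nonempty M := by
    rw [← mk_ne_zero_iff]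
    exact (lt_of_le_of_lt bot_le hIM).ne'
  have hmin : ∀ ξ : L, ∃ m : M, ∀ i : M, fl (Φ m) ξ ≤ fl (Φ i) ξ := by
    intro ξ
    obtain ⟨y, ⟨m, rfl⟩, hy⟩ := (wellFounded_lt (α := L)).has_min
      (range fun i : M => fl (Φ i) ξ) (range_nonempty _)
    exact ⟨m, fun i => not_lt.1 (hy _ ⟨i, rfl⟩)⟩
  choose mm hmm using hmin
  obtain ⟨i, hi⟩ := LibGP76.exists_sup hM hIM (fun j : I => mm (lad δ j))
  obtain ⟨i', hi'⟩ := LibGP76.exists_gt' hM i
  obtain ⟨hG1, hG2⟩ := hG (Φ i) δ hLad (hlim i)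
  obtain ⟨j, hj⟩ := hN (G (Φ i)) δ hδS hG1
  obtain ⟨k, hk⟩ := hG2 j
  rw [hk] at hj
  apply hj
  have heq : fl (Φ i) (lad δ k) = fl (Φ i') (lad δ k) := by
    apply le_antisymm
    · exact (LibGP76.fl_anti (hΦmono _ _ (hi k).le) _).trans (hmm (lad δ k) i')
    · exact LibGP76.fl_anti (hΦmono _ _ hi'.le) _
  rw [heq]
  exact LibGP76.Cl_anti (fun x => (le_max_right _ _).trans (hΦle i i' hi' x))
    (LibGP76.fl_mem (Φ i') _)

end Pool.Agent.LibGS
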