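import Pool.Agent.LibGS.GuessA
import Pool.Agent.LibGS.GuessB

/-! Club guessing ladders on disjoint stationary sets. -/

set_option autoImplicit false

namespace Pool.Agent.LibGS

open Cardinal Set Order
open Pool.Agent.LibGP76 (RegK Ub Cl fl Stat)
open Pool.Agent.LibGPR (Lad)

variable {I L : Type} [LinearOrder I] [WellFoundedLT I] [LinearOrder L] [WellFoundedLT L]

theorem exists_guess (hI : RegN I) (hL : RegK L) (hIL : succ #I < #L) (Lab : Type) [Nonempty Lab]
    (hLab : #Lab ≤ #L) :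
    ∃ (lab : L → Lab) (e : L → I → L), ∀ (a : Lab) (E : L → L),
      ∃ δ, lab δ = a ∧ Lad (e δ) δ ∧ ∀ i, e δ i ∈ Cl E := by
  obtain ⟨col, hcol⟩ := split_cofN hI hL ((lt_succ _).trans hIL) Lab hLab
  choose e he using fun a : Lab => club_guessN hI hL hIL _ (hcol a) (fun δ hδ => hδ.2)
  refine ⟨col, fun δ => e (col δ) δ, fun a E => ?_⟩
  obtain ⟨δ, ⟨h3, -⟩, h1, h2⟩ := he a E
  subst h3
  exact ⟨δ, rfl, h1, h2⟩

end Pool.Agent.LibGS
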