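import Pool.Agent.LibGS.Cof
import Pool.Agent.LibBV24.Tower
import Pool.Agent.LibGPR.Thin

/-! [GS76 ScaleB] Increasing unbounded sequences. -/

set_option autoImplicit false

namespace Pool.Agent.LibGS

open Cardinal Set Order
open Pool.Agent.LibGP76 (RegK Ub Cl fl Stat)

variable {K I L N : Type} [LinearOrder K] [WellFoundedLT K] [LinearOrder I] [WellFoundedLT I]
  [LinearOrder L] [WellFoundedLT L] {th : I → Cardinal.{0}} {t : I → K}

omit [WellFoundedLT I] in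
theorem ScaleB_all (hI : RegN I) (idx : N → I) (T : Set N) (φ : N → Prop) (h : ∀ u ∈ T, φ u) :
    Ev idx T φ := by
  have hne : Nonempty I := by
    rw [← mk_ne_zero_iff]
    exact (aleph0_pos.trans_le hI.inf).ne'
  exact ⟨Classical.arbitrary I, fun u hu _ => h u hu⟩

omit [WellFoundedLT I] in
theorem ScaleB_and (idx : N → I) (T : Set N) (φ ψ : N → Prop) (h1 : Ev idx T φ) (h2 : Ev idx T ψ) :
    Ev idx T (fun u => φ u ∧ ψ u) := by
  obtain ⟨i1, h1⟩ := h1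
  obtain ⟨i2, h2⟩ := h2
  exact ⟨max i1 i2, fun u hu hi => ⟨h1 u hu ((le_max_left _ _).trans_lt hi),
    h2 u hu ((le_max_right _ _).trans_lt hi)⟩⟩

omit [WellFoundedLT I] in
theorem ScaleB_mono (idx : N → I) (T : Set N) (φ ψ : N → Prop) (h1 : Ev idx T φ)
    (h : ∀ u ∈ T, φ u → ψ u) : Ev idx T ψ := by
  obtain ⟨i1, h1⟩ := h1
  exact ⟨i1, fun u hu hi => h u hu (h1 u hu hi)⟩

omit [WellFoundedLT I] in
theorem ScaleB_false (hI : RegN I) (idx : N → I) (T : Set N) (hT : Ub (idx '' T)) (φ : N → Prop)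
    (h1 : Ev idx T φ) (h : ∀ u ∈ T, ¬ φ u) : False := by
  obtain ⟨i1, h1⟩ := h1
  obtain ⟨_, ⟨u, hu, rfl⟩, hi⟩ := hT i1
  exact h u hu (h1 u hu hi)

/-- An increasing unbounded sequence of regular length `> ν`. -/
theorem exists_inc_unb (hI : RegN I) (idx : N → I) (T : Set N) (hT : Ub (idx '' T)) (y : N → K)
    (hy : ∀ u ∈ T, ℵ₀ ≤ cf (y u)) (ν : Cardinal.{0}) (hν : ℵ₀ ≤ ν) (hb : Bd ν idx T y) :
    ∃ (L : Type) (_ : LinearOrder L) (_ : WellFoundedLT L) (f : L → N → K), RegK L ∧ ν < #L ∧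
      (∀ ξ, ∀ u ∈ T, f ξ u < y u) ∧ (∀ ξ ξ', ξ < ξ' → Ev idx T (fun u => f ξ u < f ξ' u)) ∧
      ¬ ∃ g : N → K, (∀ u ∈ T, g u < y u) ∧ ∀ ξ, Ev idx T (fun u => f ξ u ≤ g u) := by
  classical
  -- the function `g + 1`
  have hup : ∀ g g' : {g : N → K // ∀ u ∈ T, g u < y u}, ∃ h : {g : N → K // ∀ u ∈ T, g u < y u},
      ∀ u ∈ T, g.1 u < h.1 u ∧ g'.1 u < h.1 u := by
    intro g g'
    have : ∀ u, ∃ w, u ∈ T → (g.1 u < w ∧ g'.1 u < w) ∧ w < y u := by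
      intro u
      by_cases hu : u ∈ T
      · obtain ⟨w, hw1, hw2⟩ := exists_btw (hy u hu) (max_lt (g.2 u hu) (g'.2 u hu))
        exact ⟨w, fun _ => ⟨⟨(le_max_left _ _).trans_lt hw1, (le_max_right _ _).trans_lt hw1⟩, hw2⟩⟩
      · exact ⟨g.1 u, fun h => absurd h hu⟩
    choose w hw using this
    exact ⟨⟨w, fun u hu => (hw u hu).2⟩, fun u hu => (hw u hu).1⟩
  let r : {g : N → K // ∀ u ∈ T, g u < y u} → {g : N → K // ∀ u ∈ T, g u < y u} → Prop :=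
    fun g g' => g = g' ∨ Ev idx T (fun u => g.1 u < g'.1 u)
  have hr : ∀ g, r g g := fun g => Or.inl rfl
  have htr : ∀ g g' g'', r g g' → r g' g'' → r g g'' := by
    rintro g g' g'' (rfl | h1) (rfl | h2)
    · exact Or.inl rfl
    · exact Or.inr h2
    · exact Or.inr h1
    · exact Or.inr (ScaleB_mono idx T _ _ (ScaleB_and idx T _ _ h1 h2) (fun u _ h => h.1.trans h.2))
  have hdir : ∀ g g', ∃ h, r g h ∧ r g' h := by
    intro g g'
    obtain ⟨h, hh⟩ := hup g g'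
    exact ⟨h, Or.inr (ScaleB_all hI idx T _ fun u hu => (hh u hu).1),
      Or.inr (ScaleB_all hI idx T _ fun u hu => (hh u hu).2)⟩
  have hnot : ∀ g h : {g : N → K // ∀ u ∈ T, g u < y u}, (∀ u ∈ T, g.1 u < h.1 u) → ¬ r h g := by
    rintro g h hgh (rfl | h1)
    · exact ScaleB_false hI idx T hT _ (ScaleB_all hI idx T _ hgh) (fun u _ => lt_irrefl _)
    · exact ScaleB_false hI idx T hT _ h1 (fun u hu h2 => lt_asymm h2 (hgh u hu))
  have hunb : ∀ g, ∃ h, ¬ r h g := by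
    intro g
    obtain ⟨h, hh⟩ := hup g g
    exact ⟨h, hnot g h fun u hu => (hh u hu).1⟩
  have hne : Nonempty {g : N → K // ∀ u ∈ T, g u < y u} := by
    obtain ⟨h, hh, -⟩ := hb Empty (by
      rw [mk_eq_zero]; exact zero_le) (fun a => a.elim) (fun a => a.elim)
    exact ⟨⟨h, hh⟩⟩
  obtain ⟨L', iL1, iL2, x, hx1, hx2, hinf, hsm, hreg⟩ :=
    Pool.Agent.LibBV24.exists_tower r hr htr hdir hunb hne
  have hνL : ν < #L' := by
    by_contra hcon
    rw [not_lt] at hcon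
    obtain ⟨h, hh1, hh2⟩ := hb L' hcon (fun a => (x a).1) (fun a => (x a).2)
    obtain ⟨h', hh'⟩ := hup ⟨h, hh1⟩ ⟨h, hh1⟩
    obtain ⟨a, ha⟩ := hx2 h'
    exact ha (Or.inr (ScaleB_mono idx T _ _ (hh2 a) (fun u hu h3 => h3.trans_lt (hh' u hu).1)))
  have hL : RegK L' := ⟨hν.trans_lt hνL, hsm, hreg⟩
  have hnx : ∀ a, ∃ b, a < b ∧ Ev idx T (fun u => (x a).1 u < (x b).1 u) := by
    intro a
    obtain ⟨b, hb'⟩ := hx2 (x a)
    have hab : a < b := by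
      by_contra hcon
      exact hb' (hx1 b a (not_lt.1 hcon))
    rcases hx1 a b hab.le with h | h
    · exact absurd (h ▸ hr (x a)) hb'
    · exact ⟨b, hab, h⟩
  choose nx hnx1 hnx2 using hnx
  obtain ⟨e, -, he1, he2⟩ := Pool.Agent.LibGP76.exists_seq hL (T := L') (fun _ _ => True) id
    (fun _ t => nx t) (by
      intro j z
      obtain ⟨w, hw⟩ := Pool.Agent.LibGP76.exists_gt' hL z
      exact ⟨w, hw, trivial⟩)
  simp only [id] at he1 he2
  refine ⟨L', iL1, iL2, fun ξ => (x (e ξ)).1, hL, hνL, fun ξ => (x (e ξ)).2, ?_, ?_⟩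
  · intro ξ ξ' h
    rcases hx1 _ _ (he2 ξ ξ' h).le with h1 | h1
    · have := hnx2 (e ξ)
      rw [h1] at this
      exact this
    · exact ScaleB_mono idx T _ _ (ScaleB_and idx T _ _ (hnx2 (e ξ)) h1) (fun u _ h => h.1.trans h.2)
  · rintro ⟨g, hg1, hg2⟩
    obtain ⟨h', hh'⟩ := hup ⟨g, hg1⟩ ⟨g, hg1⟩
    obtain ⟨a, ha⟩ := hx2 h'
    apply ha
    refine htr _ _ _ (hx1 a (e a) (he1 a).le) (Or.inr ?_)
    exact ScaleB_mono idx T _ _ (hg2 a) (fun u hu h3 => h3.trans_lt (hh' u hu).1)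

end Pool.Agent.LibGS
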