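import Pool.Agent.LibGS.Cof
import Pool.Agent.LibGP76.WM

/-! [GS76 ScaleC] True scales. -/

set_option autoImplicit false

namespace Pool.Agent.LibGS

open Cardinal Set Order
open Pool.Agent.LibGP76 (RegK Ub Cl fl Stat)

variable {K I L N : Type} [LinearOrder K] [WellFoundedLT K] [LinearOrder I] [WellFoundedLT I]
  [LinearOrder L] [WellFoundedLT L] {th : I → Cardinal.{0}} {t : I → K}

/-- TRUE SCALES. PROOF. Suppose not. Let `Z = (succ #I).ord.ToType` (`RegK Z` by `LibGP76.regK_ord`).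
For `h : N → K` with `h u < y u` on `T` let `ξ(h)` be such that `f ξ ≤ h` fails unboundedly often on `T`
for all `ξ ≥ ξ(h)` (`hunb`, `hinc`), let `D(h) = {u ∈ T | h u < f (ξ(h)) u}` (unbounded) and choose
`G(h)` with `G(h) u < y u` on `D(h)` such that for all `ξ` unboundedly many `u ∈ D(h)` have
`f ξ u < G(h) u` (otherwise `D(h)` with `f` is a true scale: `T' = D(h)`). By recursion on `ζ : Z` choose
`h ζ u < y u` above `h ζ' u` and (if `u ∈ D(h ζ')`) above `G(h ζ') u` for all `ζ' < ζ` (`cf_sup`,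
`#(Iio ζ) ≤ #I < cf (y u)`). Let `ξ` be `≥ ξ(h ζ)` for all `ζ` (`RegK L`, `#Z = succ #I < #L`) and
`V ζ = {u ∈ T | h ζ u < f ξ u}`: decreasing in `ζ`; for `ζ' < ζ` the set `V ζ' \ V ζ` is nonempty: almost
all `u ∈ D(h ζ')` are in `V ζ'` (`f (ξ(h ζ')) ≤ f ξ` almost everywhere), and unboundedly many of them have
`f ξ u < G(h ζ') u ≤ h ζ u`. For `u ∈ T` with `u ∉ V ζ` for some `ζ` let `ζ u` be the least such `ζ`; as
`#T ≤ #I < #Z` (`Sel`) there is `ζ₁` above all `ζ u`; then `V ζ₁ = V ζ₂` for `ζ₂ > ζ₁`. Contradiction. -/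
theorem true_scale (hI : RegN I) (hL : RegK L) (hIL : succ #I < #L) (idx : N → I) (T : Set N)
    (hT : Sel idx T) (y : N → K) (hy : ∀ u ∈ T, succ #I < cf (y u)) (f : L → N → K)
    (hlt : ∀ ξ, ∀ u ∈ T, f ξ u < y u)
    (hinc : ∀ ξ ξ', ξ < ξ' → Ev idx T (fun u => f ξ u < f ξ' u))
    (hunb : ¬ ∃ g : N → K, (∀ u ∈ T, g u < y u) ∧ ∀ ξ, Ev idx T (fun u => f ξ u ≤ g u)) :
    ∃ T' ⊆ T, Sel idx T' ∧ TS idx T' y f := by
  classical
  by_contra hcon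
  have hcI : ∀ u ∈ T, ℵ₀ ≤ cf (y u) := fun u hu =>
    hI.inf.trans ((le_succ #I).trans (hy u hu).le)
  -- the functions `G h`
  have hstep : ∀ h : {h : N → K // ∀ u ∈ T, h u < y u}, ∃ (ξ : L) (g : N → K),
      (∀ u ∈ T, h.1 u < f ξ u → g u < y u) ∧
      ∀ ξ', ∀ i₀, ∃ u ∈ T, h.1 u < f ξ u ∧ i₀ < idx u ∧ f ξ' u < g u := by
    rintro ⟨h, hh⟩
    have h1 : ∃ ξ, ¬ Ev idx T (fun u => f ξ u ≤ h u) := by
      by_contra hc
      push Not at hc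
      exact hunb ⟨h, hh, hc⟩
    obtain ⟨ξ, hξ⟩ := h1
    have hD : Sel idx {u | u ∈ T ∧ h u < f ξ u} := by
      refine ⟨fun a ha b hb hab => hT.1 ha.1 hb.1 hab, fun i₀ => ?_⟩
      by_contra hc
      refine hξ ⟨i₀, fun u hu hi => ?_⟩
      by_contra hlt'
      exact hc ⟨idx u, ⟨u, ⟨hu, not_le.1 hlt'⟩, rfl⟩, hi⟩
    have h2 : ¬ TS idx {u | u ∈ T ∧ h u < f ξ u} y f := fun hts =>
      hcon ⟨_, fun u hu => hu.1, hD, hts⟩
    have h3 : ¬ ∀ g : N → K, (∀ u ∈ {u | u ∈ T ∧ h u < f ξ u}, g u < y u) →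
        ∃ ξ', Ev idx {u | u ∈ T ∧ h u < f ξ u} (fun u => g u ≤ f ξ' u) := by
      intro hc
      refine h2 ⟨fun ξ' u hu => hlt ξ' u hu.1, fun ξ' ξ'' hlt' => ?_, hc⟩
      obtain ⟨i₀, hi₀⟩ := hinc ξ' ξ'' hlt'
      exact ⟨i₀, fun u hu hi => hi₀ u hu.1 hi⟩
    push Not at h3
    obtain ⟨g, hg1, hg2⟩ := h3
    refine ⟨ξ, g, fun u hu hu' => hg1 u ⟨hu, hu'⟩, fun ξ' i₀ => ?_⟩
    have h4 := hg2 ξ'
    by_contra hc
    refine h4 ⟨i₀, fun u hu hi => ?_⟩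
    by_contra hlt'
    exact hc ⟨u, hu.1, hu.2, hi, not_le.1 hlt'⟩
  choose X G hG1 hG2 using hstep
  -- the well-order of type `(succ #I)`
  have hreg : (succ #I).IsRegular := isRegular_succ hI.inf
  have hunc : ℵ₀ < succ #I := lt_succ_iff.2 hI.inf
  obtain ⟨Z, iZ, iW, hZ, hZc⟩ : ∃ (Z : Type) (_ : LinearOrder Z) (_ : WellFoundedLT Z), RegK Z ∧
      #Z = succ #I :=
    ⟨(succ #I).ord.ToType, inferInstance, inferInstance, Pool.Agent.LibGP76.regK_ord hreg hunc,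
      mk_ord_toType _⟩
  -- the choice at `ζ`
  have hchoice : ∀ (ζ : Z) (p : ∀ ζ' : Z, ζ' < ζ → {h : N → K // ∀ u ∈ T, h u < y u}),
      ∃ h : {h : N → K // ∀ u ∈ T, h u < y u}, ∀ u ∈ T, ∀ (ζ' : Z) (hζ : ζ' < ζ),
        (p ζ' hζ).1 u < h.1 u ∧ ((p ζ' hζ).1 u < f (X (p ζ' hζ)) u → G (p ζ' hζ) u < h.1 u) := by
    intro ζ p
    have hw : ∀ u, ∃ w, u ∈ T → w < y u ∧ ∀ (ζ' : Z) (hζ : ζ' < ζ),
        (p ζ' hζ).1 u < w ∧ ((p ζ' hζ).1 u < f (X (p ζ' hζ)) u → G (p ζ' hζ) u < w) := by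
      intro u
      by_cases hu : u ∈ T
      · have hcard : #(Set.Iio ζ) < cf (y u) := by
          have := hZ.small ζ
          rw [hZc] at this
          exact this.trans (hy u hu)
        obtain ⟨w, hw1, hw2⟩ := cf_sup (hcI u hu) hcard
          (fun z : Set.Iio ζ => max ((p z.1 z.2).1 u)
            (if (p z.1 z.2).1 u < f (X (p z.1 z.2)) u then G (p z.1 z.2) u else (p z.1 z.2).1 u))
          (fun z => by
            refine max_lt ((p z.1 z.2).2 u hu) ?_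
            split_ifs with hc
            · exact hG1 _ u hu hc
            · exact (p z.1 z.2).2 u hu)
        refine ⟨w, fun _ => ⟨hw1, fun ζ' hζ => ?_⟩⟩
        have h5 := hw2 ⟨ζ', hζ⟩
        refine ⟨(le_max_left _ _).trans_lt h5, fun hc => ?_⟩
        have h6 := (le_max_right _ _).trans_lt h5
        rw [if_pos hc] at h6
        exact h6
      · exact ⟨y u, fun hu' => absurd hu' hu⟩
    choose w hw using hw
    exact ⟨⟨w, fun u hu => (hw u hu).1⟩, fun u hu => (hw u hu).2⟩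
  choose cho hcho using hchoice
  let hh : Z → {h : N → K // ∀ u ∈ T, h u < y u} := (wellFounded_lt (α := Z)).fix cho
  have hhe : ∀ ζ, hh ζ = cho ζ (fun ζ' _ => hh ζ') := fun ζ => WellFounded.fix_eq _ _ _
  have hh1 : ∀ ζ' ζ, ζ' < ζ → ∀ u ∈ T, (hh ζ').1 u < (hh ζ).1 u ∧
      ((hh ζ').1 u < f (X (hh ζ')) u → G (hh ζ') u < (hh ζ).1 u) := by
    intro ζ' ζ hζ u hu
    have h5 := hcho ζ (fun ζ' _ => hh ζ') u hu ζ' hζ
    rw [← hhe ζ] at h5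
    exact h5
  obtain ⟨c, hc⟩ := Pool.Agent.LibGP76.exists_sup hL (show #Z < #L by rw [hZc]; exact hIL)
    (fun ζ => X (hh ζ))
  -- witnesses
  have hwit : ∀ ζ' ζ, ζ' < ζ → ∃ u ∈ T, (hh ζ').1 u < f c u ∧ f c u < (hh ζ).1 u := by
    intro ζ' ζ hζ
    obtain ⟨i₀, hi₀⟩ := hinc _ _ (hc ζ')
    obtain ⟨u, hu, h1, h2, h3⟩ := hG2 (hh ζ') c i₀
    exact ⟨u, hu, h1.trans (hi₀ u hu h2), h3.trans ((hh1 ζ' ζ hζ u hu).2 h1)⟩
  have hsucc : ∀ ζ : Z, ∃ s, ζ < s ∧ ∀ ζ', ζ < ζ' → s ≤ ζ' := by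
    intro ζ
    obtain ⟨z, hz⟩ := Pool.Agent.LibGP76.exists_gt' hZ ζ
    obtain ⟨s, hs, hmin⟩ := wellFounded_lt.has_min {z : Z | ζ < z} ⟨z, hz⟩
    exact ⟨s, hs, fun ζ' hζ' => not_lt.1 (hmin ζ' hζ')⟩
  choose s hs1 hs2 using hsucc
  choose v hvT hv1 hv2 using fun ζ => hwit ζ (s ζ) (hs1 ζ)
  have hmono : ∀ ζ' ζ, ζ' ≤ ζ → ∀ u ∈ T, (hh ζ').1 u ≤ (hh ζ).1 u := by
    intro ζ' ζ hζ u hu
    rcases hζ.lt_or_eq with h1 | h1
    · exact (hh1 ζ' ζ h1 u hu).1.le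
    · rw [h1]
  have hne : ∀ ζ' ζ, ζ' < ζ → v ζ' ≠ v ζ := by
    intro ζ' ζ hζ he
    have h1 := hv2 ζ'
    have h2 := hv1 ζ
    rw [← he] at h2
    exact absurd (h1.trans_le (hmono _ _ (hs2 ζ' ζ hζ) _ (hvT ζ'))) (not_lt.2 h2.le)
  have hinj : Function.Injective (fun ζ : Z => (⟨v ζ, hvT ζ⟩ : T)) := by
    intro a b hab
    have hab' : v a = v b := congrArg Subtype.val hab
    rcases lt_trichotomy a b with h1 | h1 | h1
    · exact absurd hab' (hne a b h1)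
    · exact h1
    · exact absurd hab'.symm (hne b a h1)
  have h1 : #Z ≤ #T := mk_le_of_injective hinj
  have h2 : #T ≤ #I := mk_le_of_injective (f := fun u : T => idx u) (fun a b hab =>
    Subtype.ext (hT.1 a.2 b.2 hab))
  rw [hZc] at h1
  exact absurd (h1.trans h2) (not_le.2 (lt_succ _))

end Pool.Agent.LibGS
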