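import Pool.Agent.LibGS.ScaleA
import Pool.Agent.LibGS.ScaleB
import Pool.Agent.LibGS.ScaleC

/-! Existence of true scales. -/

set_option autoImplicit false

namespace Pool.Agent.LibGS

open Cardinal Set Order
open Pool.Agent.LibGP76 (RegK Ub Cl fl Stat)

variable {K I L N : Type} [LinearOrder K] [WellFoundedLT K] [LinearOrder I] [WellFoundedLT I]
  [LinearOrder L] [WellFoundedLT L] {th : I → Cardinal.{0}} {t : I → K}

theorem exists_ts (hI : RegN I) (idx : N → I) (T : Set N) (hT : Sel idx T) (y : N → K)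
    (hy : ∀ u ∈ T, succ #I < cf (y u)) (ν : Cardinal.{0}) (hν : succ #I ≤ ν)
    (hb : Bd ν idx T y) :
    ∃ T' ⊆ T, Sel idx T' ∧ ∃ (L : Type) (_ : LinearOrder L) (_ : WellFoundedLT L)
      (f : L → N → K), RegK L ∧ ν < #L ∧ TS idx T' y f := by
  obtain ⟨L, i1, i2, f, hL, hνL, h1, h2, h3⟩ := exists_inc_unb hI idx T hT.2 y
    (fun u hu => (hI.inf.trans (le_succ _)).trans (hy u hu).le) ν
    ((hI.inf.trans (le_succ _)).trans hν) hb
  obtain ⟨T', hT', hs, hts⟩ := true_scale hI hL (hν.trans_lt hνL) idx T hT y hy f h1 h2 h3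
  exact ⟨T', hT', hs, L, i1, i2, f, hL, hνL, hts⟩

end Pool.Agent.LibGS
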