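import Pool.Agent.LibGS.Cof

/-! [GS76 Proc] Long processes of clubs. -/

set_option autoImplicit false

namespace Pool.Agent.LibGS

open Cardinal Set Order
open Pool.Agent.LibGP76 (RegK Ub Cl fl Stat)

variable {K N Z : Type} [LinearOrder K] [WellFoundedLT K] [LinearOrder Z] [WellFoundedLT Z]

theorem Proc_rec (y : N → K) (Q : Set N) (F : (N → K → K) → N → K → K) :
    ∃ Φ : Z → N → K → K, ∀ ζ u x, (¬ (u ∈ Q ∧ x < y u) → Φ ζ u x = x) ∧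
      (u ∈ Q → x < y u → (∃ w, ∀ ζ' < ζ, Φ ζ' u x ≤ w ∧ F (Φ ζ') u x ≤ w) →
        IsLeast {w | ∀ ζ' < ζ, Φ ζ' u x ≤ w ∧ F (Φ ζ') u x ≤ w} (Φ ζ u x)) := by
  classical
  let step : (ζ : Z) → ((ζ' : Z) → ζ' < ζ → N → K → K) → N → K → K := fun ζ ih u x =>
    if h : (u ∈ Q ∧ x < y u) ∧ ∃ w, ∀ ζ' (hz : ζ' < ζ), ih ζ' hz u x ≤ w ∧ F (ih ζ' hz) u x ≤ w then
      (wellFounded_lt (α := K)).min {w | ∀ ζ' (hz : ζ' < ζ), ih ζ' hz u x ≤ w ∧ F (ih ζ' hz) u x ≤ w}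
        h.2 else x
  have hfix : ∀ ζ, (wellFounded_lt (α := Z)).fix step ζ =
      step ζ (fun ζ' _ => (wellFounded_lt (α := Z)).fix step ζ') :=
    fun ζ => WellFounded.fix_eq _ _ _
  refine ⟨(wellFounded_lt (α := Z)).fix step, fun ζ u x => ⟨fun h => ?_, fun h1 h2 h3 => ?_⟩⟩
  · rw [hfix ζ]
    exact dif_neg (fun h' => h h'.1)
  · have e : (wellFounded_lt (α := Z)).fix step ζ u x = (wellFounded_lt (α := K)).min
        {w | ∀ ζ' (_ : ζ' < ζ), (wellFounded_lt (α := Z)).fix step ζ' u x ≤ w ∧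
          F ((wellFounded_lt (α := Z)).fix step ζ') u x ≤ w} h3 := by
      rw [hfix ζ]
      exact dif_pos ⟨⟨h1, h2⟩, h3⟩
    rw [e]
    constructor
    · exact (wellFounded_lt (α := K)).min_mem _ h3
    · intro w hw
      exact not_lt.1 ((wellFounded_lt (α := K)).not_lt_min _ hw)

/-- A process of length `Z`: clubs `Φ ζ u` of the points `y u`, `u ∈ Q`, decreasing with `ζ`, such that
the answer `F (Φ ζ)` is absorbed at all later stages. -/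
theorem proc (y : N → K) (Q : Set N) (hQ : ∀ u ∈ Q, ℵ₀ ≤ cf (y u) ∧ #Z < cf (y u))
    (F : (N → K → K) → N → K → K)
    (hF : ∀ b : N → K → K, (∀ u ∈ Q, Clb (b u) (y u)) → ∀ u ∈ Q, Clb (F b u) (y u)) :
    ∃ (Φ : Z → N → K → K) (bs : N → K → K), (∀ ζ, ∀ u ∈ Q, Clb (Φ ζ u) (y u)) ∧
      (∀ ζ ζ', ζ ≤ ζ' → ∀ u x, Φ ζ u x ≤ Φ ζ' u x) ∧
      (∀ ζ ζ', ζ < ζ' → ∀ u ∈ Q, ∀ x < y u, F (Φ ζ) u x ≤ Φ ζ' u x) ∧
      (∀ u ∈ Q, Clb (bs u) (y u)) ∧ ∀ ζ, ∀ u ∈ Q, ∀ x, Φ ζ u x ≤ bs u x := by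
  classical
  obtain ⟨Φ, hΦ⟩ := Proc_rec (Z := Z) y Q F
  have hcl : ∀ ζ, ∀ u ∈ Q, Clb (Φ ζ u) (y u) := by
    intro ζ
    induction ζ using (wellFounded_lt (α := Z)).induction with
    | _ ζ ih =>
    intro u hu
    have hF' : ∀ ζ' < ζ, Clb (F (Φ ζ') u) (y u) := fun ζ' hζ' => hF _ (ih ζ' hζ') u hu
    have hsmall : #(Iio ζ) < cf (y u) := (mk_set_le _).trans_lt (hQ u hu).2
    have hex : ∀ x < y u, ∃ w, w < y u ∧ ∀ ζ' < ζ, Φ ζ' u x ≤ w ∧ F (Φ ζ') u x ≤ w := by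
      intro x hx
      obtain ⟨w1, h1, h1'⟩ := cf_sup (hQ u hu).1 hsmall (fun ζ' : Iio ζ => Φ ζ' u x)
        (fun ζ' => (ih ζ' ζ'.2 u hu).mem x hx)
      obtain ⟨w2, h2, h2'⟩ := cf_sup (hQ u hu).1 hsmall (fun ζ' : Iio ζ => F (Φ ζ') u x)
        (fun ζ' => (hF' ζ' ζ'.2).mem x hx)
      exact ⟨max w1 w2, max_lt h1 h2, fun ζ' hζ' => ⟨(h1' ⟨ζ', hζ'⟩).le.trans (le_max_left _ _),
        (h2' ⟨ζ', hζ'⟩).le.trans (le_max_right _ _)⟩⟩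
    have hL : ∀ x < y u, IsLeast {w | ∀ ζ' < ζ, Φ ζ' u x ≤ w ∧ F (Φ ζ') u x ≤ w} (Φ ζ u x) := by
      intro x hx
      obtain ⟨w, _, hw⟩ := hex x hx
      exact (hΦ ζ u x).2 hu hx ⟨w, hw⟩
    have hlt : ∀ x < y u, Φ ζ u x < y u := by
      intro x hx
      obtain ⟨w, hw1, hw⟩ := hex x hx
      exact ((hL x hx).2 hw).trans_lt hw1
    refine ⟨?_, hlt⟩
    intro x x' hxx
    by_cases hx' : x' < y u
    · have hx : x < y u := hxx.trans_lt hx'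
      refine (hL x hx).2 ?_
      intro ζ' hζ'
      have := (hL x' hx').1 ζ' hζ'
      exact ⟨((ih ζ' hζ' u hu).mono x x' hxx).trans this.1, ((hF' ζ' hζ').mono x x' hxx).trans this.2⟩
    · rw [(hΦ ζ u x').1 (fun h => hx' h.2)]
      by_cases hx : x < y u
      · exact (hlt x hx).le.trans (not_lt.1 hx')
      · rw [(hΦ ζ u x).1 (fun h => hx h.2)]
        exact hxx
  have hbd : ∀ ζ, ∀ u ∈ Q, ∀ x < y u, ∀ ζ' < ζ, Φ ζ' u x ≤ Φ ζ u x ∧ F (Φ ζ') u x ≤ Φ ζ u x := by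
    intro ζ u hu x hx
    have hsmall : #(Iio ζ) < cf (y u) := (mk_set_le _).trans_lt (hQ u hu).2
    obtain ⟨w1, h1, h1'⟩ := cf_sup (hQ u hu).1 hsmall (fun ζ' : Iio ζ => Φ ζ' u x)
      (fun ζ' => (hcl ζ' u hu).mem x hx)
    obtain ⟨w2, h2, h2'⟩ := cf_sup (hQ u hu).1 hsmall (fun ζ' : Iio ζ => F (Φ ζ') u x)
      (fun ζ' => (hF _ (hcl ζ') u hu).mem x hx)
    exact ((hΦ ζ u x).2 hu hx ⟨max w1 w2, fun ζ' hζ' => ⟨(h1' ⟨ζ', hζ'⟩).le.trans (le_max_left _ _),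
        (h2' ⟨ζ', hζ'⟩).le.trans (le_max_right _ _)⟩⟩).1
  have hbs : ∀ u x, ∃ w, (¬ (u ∈ Q ∧ x < y u) → w = x) ∧
      (u ∈ Q → x < y u → w < y u ∧ IsLeast {w | ∀ ζ, Φ ζ u x ≤ w} w) := by
    intro u x
    by_cases h : u ∈ Q ∧ x < y u
    · obtain ⟨w1, h1, h1'⟩ := cf_sup (hQ u h.1).1 (hQ u h.1).2 (fun ζ : Z => Φ ζ u x)
        (fun ζ => (hcl ζ u h.1).mem x h.2)
      have hne : ({w | ∀ ζ, Φ ζ u x ≤ w} : Set K).Nonempty := ⟨w1, fun ζ => (h1' ζ).le⟩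
      have hleast : IsLeast {w | ∀ ζ, Φ ζ u x ≤ w} ((wellFounded_lt (α := K)).min _ hne) :=
        ⟨(wellFounded_lt (α := K)).min_mem _ hne,
          fun w hw => not_lt.1 ((wellFounded_lt (α := K)).not_lt_min _ hw)⟩
      exact ⟨_, fun h' => absurd h h', fun _ _ =>
        ⟨(hleast.2 (fun ζ => (h1' ζ).le : w1 ∈ {w | ∀ ζ, Φ ζ u x ≤ w})).trans_lt h1, hleast⟩⟩
    · exact ⟨x, fun _ => rfl, fun h1 h2 => absurd ⟨h1, h2⟩ h⟩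
  choose bs hbs1 hbs2 using hbs
  refine ⟨Φ, bs, hcl, ?_, fun ζ ζ' h u hu x hx => (hbd ζ' u hu x hx ζ h).2, ?_, ?_⟩
  · intro ζ ζ' h u x
    rcases h.eq_or_lt with rfl | h
    · exact le_rfl
    · by_cases hx : u ∈ Q ∧ x < y u
      · exact (hbd ζ' u hx.1 x hx.2 ζ h).1
      · rw [(hΦ ζ u x).1 hx, (hΦ ζ' u x).1 hx]
  · intro u hu
    refine ⟨?_, fun x hx => (hbs2 u x hu hx).1⟩
    intro x x' hxx
    by_cases hx' : x' < y u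
    · have hx : x < y u := hxx.trans_lt hx'
      refine (hbs2 u x hu hx).2.2 ?_
      intro ζ
      exact ((hcl ζ u hu).mono x x' hxx).trans ((hbs2 u x' hu hx').2.1 ζ)
    · rw [hbs1 u x' (fun h => hx' h.2)]
      by_cases hx : x < y u
      · exact (hbs2 u x hu hx).1.le.trans (not_lt.1 hx')
      · rw [hbs1 u x (fun h => hx h.2)]
        exact hxx
  · intro ζ u hu x
    by_cases hx : x < y u
    · exact (hbs2 u x hu hx).2.1 ζ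
    · rw [hbs1 u x (fun h => hx h.2), (hΦ ζ u x).1 (fun h => hx h.2)]

end Pool.Agent.LibGS
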