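import Pool.Agent.LibGS.Tree
import Pool.Agent.LibGS.Proc
import Pool.Agent.LibGP76.WM

/-! [GS76 Stage] The stage lemma. -/

set_option autoImplicit false

namespace Pool.Agent.LibGS

open Cardinal Set Order
open Pool.Agent.LibGP76 (RegK Ub Cl fl Stat)
open Pool.Agent.LibGPR (Lad)

variable {K I L N : Type} [LinearOrder K] [WellFoundedLT K] [LinearOrder I] [WellFoundedLT I]
  [LinearOrder L] [WellFoundedLT L]

/-- A common bound for a small set of stages. -/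
theorem exists_ge_all {Z A : Type} [LinearOrder Z] [WellFoundedLT Z] (hZ : RegK Z) (hA : #A < #Z)
    (g : A → Z) : ∃ z, ∀ a, g a ≤ z := by
  obtain ⟨c, hc⟩ := hZ.reg (Set.range g) (mk_range_le.trans_lt hA)
  exact ⟨c, fun a => (hc _ ⟨a, rfl⟩).le⟩

/-- THE STAGE LEMMA. `T₀` is a selection with a true scale `f` of length `L`; `σ r u` are cardinals. There
are clubs `b u` of `y u`, `u ∈ T₀`, such that for all `X` and unbounded `T ⊆ T₀` with `X` unbounded in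
`P u ∩ y u` for all `u ∈ T` there is `δ ∈ S` such that for all `r < r'` in `I` and almost all `u ∈ T` there
is a point `y'` of the tree from `f (e δ r') u`, above `f (e δ r) u`, of cofinality `> σ r u`, at which
`X ∩ P u` is unbounded.

PROOF. Suppose not: for every `b` with `∀ u ∈ T₀, Clb (b u) (y u)` there are `X b`, `T b` such that for
every `δ ∈ S` with `Lad (e δ) δ` there are `r < r'` for which the statement fails. Let
`F b u = fun x => max (b u x) (nx x)` with `nx` from `exists_next` for `X b ∩ P u` if `u ∈ T b`, and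
`F b u = b u` otherwise. Apply `proc` with `Z = (succ #I).ord.ToType`, `Q = T₀`: `Φ`, `bs`.
For `β : L`, `u ∈ T₀`, `r : I` with `succ (σ r u) < cf (y u)` choose `z β r u ∈ Cl (bs u)` with
`f β u < z < y u`, `cf z = succ (σ r u)` (`exists_cl_cf`); let `g β u < y u` be above all `z β r u`, `r : I`
(`cf_sup`, `#I < cf (y u)`), and choose `E β > β` with `Ev (g β u ≤ f (E β) u)` (`TS.cof`, monotone by
`TS.inc`). Take `δ ∈ S` for `E`. For `r < r'`: `e δ r < e δ r' ∈ Cl E`, so `E (e δ r) < e δ r'`, and for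
almost all `u ∈ T₀`: `f (e δ r) u < z (e δ r) r u ≤ g (e δ r) u ≤ f (E (e δ r)) u < f (e δ r') u`; here
`z := z (e δ r) r u` lies in `Cl (bs u) ⊆ Cl (Φ ζ u)` for all `ζ` (`Cl_anti`), `σ r u < cf z`. So `stab` gives
`y'` and `ζ₀ = ζ₀(r, r', u)`. Let `ζ` be `≥` all `ζ₀(r, r', u)` (`exists_ge_all`; `#(I × I × T₀) ≤ #I < #Z`,
as `#T₀ ≤ #I` by `Sel`) and consider `X = X (Φ ζ)`, `T = T (Φ ζ)`: for all `r < r'` and almost all
`u ∈ T ⊆ T₀`, `y'` is in the tree for `Φ ζ u` from `f (e δ r') u`, above `z > f (e δ r) u`, `σ r u < cf y'`,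
and `y' ∈ Cl (Φ ζ' u)` for some `ζ' > ζ`, where `F (Φ ζ) u x ≤ Φ ζ' u x` for `x < y u`, so `y'` is closed
under `nx` and `Acc (X ∩ P u) y'` by `exists_next` (`y' ≤ y u`). This contradicts the choice of `X`, `T`. -/
theorem stage (hI : RegN I) (hL : RegK L) {C : K → Set K} (hC : CofSys C) (idx : N → I)
    (T₀ : Set N) (hT₀ : Sel idx T₀) (y : N → K) (P : N → Set K) (f : L → N → K)
    (hf : TS idx T₀ y f) (hy : ∀ u ∈ T₀, succ #I < cf (y u)) (σ : I → N → Cardinal.{0})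
    (hσ : ∀ r u, ℵ₀ ≤ σ r u) (hσ2 : ∀ r, Ev idx T₀ (fun u => succ (σ r u) < cf (y u)))
    (S : Set L) (e : L → I → L)
    (hS : ∀ E : L → L, ∃ δ ∈ S, Lad (e δ) δ ∧ ∀ i, e δ i ∈ Cl E) :
    ∃ b : N → K → K, (∀ u ∈ T₀, Clb (b u) (y u)) ∧ ∀ (X : Set K) (T : Set N), T ⊆ T₀ →
      Ub (idx '' T) → (∀ u ∈ T, Acc (X ∩ P u) (y u)) → ∃ δ ∈ S, Lad (e δ) δ ∧
        ∀ r r', r < r' → Ev idx T (fun u => ∃ y', Tr C (σ r u) (b u) (f (e δ r') u) y' ∧
          f (e δ r) u < y' ∧ σ r u < cf y' ∧ Acc (X ∩ P u) y') := by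
  classical
  have _ := hL
  by_contra hcon
  push Not at hcon
  -- the counterexamples
  have h0 : ∀ b : N → K → K, ∃ (X : Set K) (T : Set N), (∀ u ∈ T₀, Clb (b u) (y u)) →
      (T ⊆ T₀ ∧ Ub (idx '' T) ∧ (∀ u ∈ T, Acc (X ∩ P u) (y u)) ∧ ∀ δ ∈ S, Lad (e δ) δ →
        ∃ r r', r < r' ∧ ¬ Ev idx T (fun u => ∃ y', Tr C (σ r u) (b u) (f (e δ r') u) y' ∧
          f (e δ r) u < y' ∧ σ r u < cf y' ∧ Acc (X ∩ P u) y')) := by
    intro b
    by_cases hb : ∀ u ∈ T₀, Clb (b u) (y u)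
    · obtain ⟨X, T, h1, h2, h3, h4⟩ := hcon b hb
      exact ⟨X, T, fun _ => ⟨h1, h2, h3, h4⟩⟩
    · exact ⟨∅, ∅, fun h => absurd h hb⟩
  choose X T hXT using h0
  have hnx : ∀ (b : N → K → K) (u : N), ∃ n : K → K, Acc (X b ∩ P u) (y u) →
      Clb n (y u) ∧ ∀ c ∈ Cl n, c ≤ y u → Acc (X b ∩ P u) c := by
    intro b u
    by_cases h1 : Acc (X b ∩ P u) (y u)
    · obtain ⟨n, hn⟩ := exists_next h1
      exact ⟨n, fun _ => hn⟩
    · exact ⟨id, fun h => absurd h h1⟩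
  choose nx hnx using hnx
  set F : (N → K → K) → N → K → K := fun b u x => if u ∈ T b then max (b u x) (nx b u x) else b u x
    with hFdef
  have hF : ∀ b : N → K → K, (∀ u ∈ T₀, Clb (b u) (y u)) → ∀ u ∈ T₀, Clb (F b u) (y u) := by
    intro b hb u hu
    have hbu := hb u hu
    by_cases h1 : u ∈ T b
    · have h2 := (hnx b u ((hXT b hb).2.2.1 u h1)).1
      have h3 : F b u = fun x => max (b u x) (nx b u x) := by
        funext x
        simp only [hFdef]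
        rw [if_pos h1]
      rw [h3]
      refine ⟨fun x x' hx => max_le_max (hbu.mono x x' hx) (h2.mono x x' hx), fun x hx => ?_⟩
      exact max_lt (hbu.mem x hx) (h2.mem x hx)
    · have h3 : F b u = b u := by
        funext x
        simp only [hFdef]
        rw [if_neg h1]
      rw [h3]
      exact hbu
  -- the process
  have hreg : (succ #I).IsRegular := isRegular_succ hI.inf
  have hZ : RegK (succ #I).ord.ToType :=
    Pool.Agent.LibGP76.regK_ord hreg (hI.inf.trans_lt (lt_succ #I))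
  have hZc : #((succ #I).ord.ToType) = succ #I := mk_ord_toType _
  have hyinf : ∀ u ∈ T₀, ℵ₀ ≤ cf (y u) := fun u hu =>
    hI.inf.trans ((le_succ #I).trans (hy u hu).le)
  obtain ⟨Φ, bs, hΦ1, hΦ2, hΦ3, hbs1, hbs2⟩ := proc (Z := (succ #I).ord.ToType) y T₀
    (fun u hu => ⟨hyinf u hu, by rw [hZc]; exact hy u hu⟩) F hF
  -- the points `z`
  have hz : ∀ (β : L) (r : I) (u : N), ∃ z : K, u ∈ T₀ → succ (σ r u) < cf (y u) →
      f β u < z ∧ z < y u ∧ z ∈ Cl (bs u) ∧ cf z = succ (σ r u) := by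
    intro β r u
    by_cases h1 : u ∈ T₀ ∧ succ (σ r u) < cf (y u)
    · obtain ⟨z, hz⟩ := exists_cl_cf (hbs1 u h1.1) (isRegular_succ (hσ r u)) h1.2 (hf.lt β u h1.1)
      exact ⟨z, fun _ _ => hz⟩
    · exact ⟨f β u, fun h2 h3 => absurd ⟨h2, h3⟩ h1⟩
  choose z hz using hz
  have hg : ∀ (β : L) (u : N), ∃ w : K, u ∈ T₀ → w < y u ∧
      ∀ r, succ (σ r u) < cf (y u) → z β r u < w := by
    intro β u
    by_cases h1 : u ∈ T₀
    · obtain ⟨w, hw, hw2⟩ := cf_sup (hyinf u h1) (ι := I) ((lt_succ #I).trans (hy u h1))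
        (fun r => if succ (σ r u) < cf (y u) then z β r u else f β u) (by
          intro r
          split_ifs with h2
          · exact (hz β r u h1 h2).2.1
          · exact hf.lt β u h1)
      refine ⟨w, fun _ => ⟨hw, fun r hr => ?_⟩⟩
      have h3 := hw2 r
      rwa [if_pos hr] at h3
    · exact ⟨f β u, fun h2 => absurd h2 h1⟩
  choose g hg using hg
  have hE : ∀ β : L, ∃ ξ : L, Ev idx T₀ (fun u => g β u ≤ f ξ u) := fun β =>
    hf.cof (g β) (fun u hu => (hg β u hu).1)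
  choose E hE using hE
  obtain ⟨δ, hδS, hδL, hδE⟩ := hS E
  -- the facts for `r < r'`
  have hgood : ∀ r r', r < r' → Ev idx T₀ (fun u => succ (σ r u) < cf (y u) ∧
      z (e δ r) r u ≤ f (e δ r') u) := by
    intro r r' hr
    have h1 : E (e δ r) < e δ r' := hδE r' (e δ r) (hδL.1 r r' hr)
    obtain ⟨i₁, hi₁⟩ := hf.inc _ _ h1
    obtain ⟨i₂, hi₂⟩ := hE (e δ r)
    obtain ⟨i₃, hi₃⟩ := hσ2 r
    refine ⟨max i₁ (max i₂ i₃), fun u hu hi => ?_⟩
    have e1 := hi₁ u hu ((le_max_left _ _).trans_lt hi)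
    have e2 := hi₂ u hu (((le_max_left _ _).trans (le_max_right _ _)).trans_lt hi)
    have e3 := hi₃ u hu (((le_max_right _ _).trans (le_max_right _ _)).trans_lt hi)
    exact ⟨e3, (((hg (e δ r) u hu).2 r e3).trans_le (e2.trans e1.le)).le⟩
  have hstab : ∀ (q : I × I × T₀), ∃ (y' : K) (ζ₀ : (succ #I).ord.ToType),
      (succ (σ q.1 q.2.2) < cf (y q.2.2) ∧ z (e δ q.1) q.1 q.2.2 ≤ f (e δ q.2.1) q.2.2) →
      z (e δ q.1) q.1 q.2.2 ≤ y' ∧ y' ≤ f (e δ q.2.1) q.2.2 ∧ σ q.1 q.2.2 < cf y' ∧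
      (∀ ζ, y' ∈ Cl (Φ ζ q.2.2)) ∧
      ∀ ζ, ζ₀ ≤ ζ → Tr C (σ q.1 q.2.2) (Φ ζ q.2.2) (f (e δ q.2.1) q.2.2) y' := by
    rintro ⟨r, r', u, hu⟩
    have hne : Nonempty (succ #I).ord.ToType := Pool.Agent.LibGP76.nonempty_of_regK hZ
    by_cases h1 : succ (σ r u) < cf (y u) ∧ z (e δ r) r u ≤ f (e δ r') u
    · obtain ⟨hz1, hz2, hz3, hz4⟩ := hz (e δ r) r u hu h1.1
      obtain ⟨y', ζ₀, h2⟩ := stab hC (σ r u) (fun ζ => Φ ζ u) (fun ζ ζ' h x => hΦ2 ζ ζ' h u x)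
        (z (e δ r) r u) (fun ζ => Pool.Agent.LibGP76.Cl_anti (hbs2 ζ u hu) hz3)
        (by rw [hz4]; exact lt_succ _) (f (e δ r') u) h1.2
      exact ⟨y', ζ₀, fun _ => h2⟩
    · exact ⟨f (e δ r') u, Classical.arbitrary _, fun h => absurd h h1⟩
  choose Y ζ₀ hY using hstab
  have hT₀c : #T₀ ≤ #I := by
    refine mk_le_of_injective (f := fun u : T₀ => idx u) ?_
    intro u u' h
    exact Subtype.ext (hT₀.1 u.2 u'.2 h)
  have hAc : #(I × I × T₀) < #((succ #I).ord.ToType) := by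
    simp only [hZc, mk_prod, lift_id]
    refine lt_of_le_of_lt ?_ (lt_succ #I)
    calc #I * (#I * #T₀) ≤ #I * (#I * #I) := mul_le_mul' le_rfl (mul_le_mul' le_rfl hT₀c)
      _ = #I := by rw [mul_eq_self hI.inf, mul_eq_self hI.inf]
  obtain ⟨ζ, hζ⟩ := exists_ge_all hZ hAc ζ₀
  obtain ⟨ζ', hζ'⟩ := Pool.Agent.LibGP76.exists_gt' hZ ζ
  obtain ⟨hTT₀, _, hTacc, hTno⟩ := hXT (Φ ζ) (hΦ1 ζ)
  obtain ⟨r, r', hr, hno⟩ := hTno δ hδS hδL
  apply hno
  obtain ⟨i₀, hi₀⟩ := hgood r r' hr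
  refine ⟨i₀, fun u hu hi => ?_⟩
  have huT := hTT₀ hu
  have h1 := hi₀ u huT hi
  obtain ⟨h2, h3, h4, h5, h6⟩ := hY ⟨r, r', u, huT⟩ h1
  obtain ⟨hz1, hz2, hz3, hz4⟩ := hz (e δ r) r u huT h1.1
  have hYy : Y ⟨r, r', u, huT⟩ < y u := lt_of_le_of_lt h3 (hf.lt (e δ r') u huT)
  refine ⟨Y ⟨r, r', u, huT⟩, h6 ζ (hζ _), lt_of_lt_of_le hz1 h2, h4, ?_⟩
  refine (hnx (Φ ζ) u (hTacc u hu)).2 _ ?_ hYy.le
  intro w hw
  have h7 : nx (Φ ζ) u w ≤ F (Φ ζ) u w := by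
    simp only [hFdef]
    rw [if_pos hu]
    exact le_max_right _ _
  exact lt_of_le_of_lt (h7.trans (hΦ3 ζ ζ' hζ' u huT w (hw.trans hYy))) (h5 ζ' w hw)

end Pool.Agent.LibGS
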