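import Pool.Agent.LibGS.ADens
import Pool.Agent.LibGS.Stage
import Pool.Agent.LibGS.Scale
import Pool.Agent.LibGS.Guess

/-! [GS76 AOne] Case A: one selection. -/

set_option autoImplicit false

namespace Pool.Agent.LibGS

open Cardinal Set Order
open Pool.Agent.LibGP76 (RegK Ub Cl fl Stat)
open Pool.Agent.LibGPR (Lad)

variable {K L : Type} [LinearOrder K] [WellFoundedLT K] [LinearOrder L] [WellFoundedLT L]
  {th : ℕ → Cardinal.{0}} {t : ℕ → K} {ix : K → ℕ}

omit [WellFoundedLT K] in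
theorem AOne_card (hA : Amb K ℕ th t) : ℵ₀ ≤ #K ∧ succ #ℕ < #K := by
  have h1 := (hA.mu 0).trans (hA.lt 0)
  have h2 : succ #ℕ < #K := by
    refine lt_of_le_of_lt ?_ h1
    exact ((le_succ _).trans (le_succ _)).trans (le_succ _)
  refine ⟨?_, h2⟩
  rw [← mk_nat]
  exact ((le_succ _).trans h2.le)

/-- One selection `M`: levels with labels in `K × K`. PROOF. `exists_guess` with `I = ℕ`,
`Lab = K × K` (`#(K × K) = #K ≤ #L`): `lab`, `e`. For every label `a` apply `stage` with `S = {δ | lab δ = a}`,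
`σ r u = th u.i` (`succ (th u.i) < cf u.y` for `u ∈ M`: `th u.i < cf u.y`, so `succ (th u.i) ≤ cf u.y`, and
equality is impossible because `u` is bad and `th u.i` is regular): clubs `b a`. Let
`Q δ u = {q | ∃ r, q = f (e δ r) u ∨ Tr C (th u.i) (b (lab δ) u) (f (e δ r) u) q}` (`card_QA`) and use
`densA`. -/
theorem one_selA (hA : Amb K ℕ th t) (hreg : ∀ n, (th n).IsRegular) (hL : RegK L)
    (hKL : #K < #L) {N M : Set (Node K)} (hN : SysA ix th N) (hMN : M ⊆ N)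
    (hM : Sel Node.i M) (hbad : ∀ u ∈ M, Bad u) (f : L → Node K → K)
    (hf : TS Node.i M Node.y f) :
    ∃ (lab : L → K × K) (Q : L → Node K → Set K), ∀ (X : Set K) (a : K × K) (T : Set (Node K)),
      T ⊆ M → Ub (Node.i '' T) → (∀ u ∈ T, Acc (X ∩ u.P) u.y) → ∃ δ, lab δ = a ∧
        ∃ T' ⊆ nxA th M (Q δ), Sel Node.i T' ∧
          (∀ u' ∈ T', Acc (X ∩ u'.P) u'.y ∧ ∃ u ∈ T, u'.P ⊆ u.P ∧ u'.i = u.i) ∧
          ∀ B : Set K, (∃ n, ∀ x ∈ B, n < ix x → ∃ u' ∈ T', x ∈ u'.P) → FlA ix M f δ B := by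
  obtain ⟨hK, hNK⟩ := AOne_card hA
  have hne : Nonempty K := by
    rw [← mk_ne_zero_iff]
    exact (aleph0_pos.trans_le hK).ne'
  have hth : ∀ n, ℵ₀ ≤ th n := fun n => (hreg n).aleph0_le
  obtain ⟨C, hC⟩ := exists_cofsys (K := K)
  have hLab : #(K × K) ≤ #L := by
    rw [mk_prod, lift_id, mul_eq_self hK]
    exact hKL.le
  obtain ⟨lab, e, hg⟩ := exists_guess hA.reg hL (hNK.trans hKL) (K × K) hLab
  have hst := fun a : K × K => stage hA.reg hL hC Node.i M hM Node.y Node.P f hf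
    (fun u hu => by
      have h1 := hN.big u (hMN hu)
      refine lt_of_le_of_lt ?_ ((hA.mu u.i).trans h1)
      exact ((le_succ _).trans (le_succ _)).trans (le_succ _))
    (fun _ u => th u.i) (fun _ u => hth u.i)
    (fun _ => ⟨0, fun u hu _ => by
      have h1 := hN.big u (hMN hu)
      refine lt_of_le_of_ne (succ_le_of_lt h1) fun h2 => ?_
      exact hbad u hu ⟨th u.i, hreg u.i, h2.symm⟩⟩)
    {δ | lab δ = a} e (fun E => by
      obtain ⟨δ, h1, h2, h3⟩ := hg a E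
      exact ⟨δ, h1, h2, h3⟩)
  choose b _ hb using hst
  refine ⟨lab, fun δ u => {q | ∃ r, q = f (e δ r) u ∨
    Tr C (th u.i) (b (lab δ) u) (f (e δ r) u) q}, fun X a T hTM hT hX => ?_⟩
  obtain ⟨δ, h1, h2, h3⟩ := hb a X T hTM hT hX
  have h4 : lab δ = a := h1
  subst h4
  refine ⟨δ, rfl, ?_⟩
  exact densA hth hN hMN hM f hf hC (b (lab δ)) (e δ) δ h2 _
    (fun u _ => card_QA hC (hth u.i) (b (lab δ) u) (fun r => f (e δ r) u))
    (fun u _ r => ⟨r, Or.inl rfl⟩) (fun u _ r q h => ⟨r, Or.inr h⟩) X T hTM hT h3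

end Pool.Agent.LibGS
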