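import Pool.Agent.LibGS.Defs

/-! [GS76 Code] Counting lemmas for classes of coded sets. -/

set_option autoImplicit false

namespace Pool.Agent.LibGS

open Cardinal Set Order
open Pool.Agent.LibGP76 (RegK Ub Cl fl Stat)

variable {K I N : Type} [LinearOrder K] [WellFoundedLT K] [LinearOrder I] [WellFoundedLT I]
  {th : I → Cardinal.{0}} {t : I → K}

/-- Sets of cardinality `≥ c` for all `c < #K` have cardinality `#K`. -/
theorem card_eq_of_ge (B : Set K) (h : ∀ c < #K, c ≤ #B) (hs : ∀ c < #K, succ c < #K) :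
    #B = #K := by
  refine le_antisymm (mk_set_le B) ?_
  by_contra hcon
  rw [not_le] at hcon
  exact absurd (h _ (hs _ hcon)) (not_le.2 (lt_succ _))

/-- `#K` is a limit cardinal. -/
theorem amb_succ (hA : Amb K I th t) : ∀ c < #K, succ c < #K := by
  intro c hc
  obtain ⟨i, hi⟩ := hA.sup c hc
  exact lt_of_le_of_lt (succ_le_of_lt hi) (hA.lt i)

private theorem code_I_lt (hA : Amb K I th t) : #I < #K := by
  have hne : Nonempty I := by
    rw [← mk_ne_zero_iff]
    exact (aleph0_pos.trans_le hA.reg.inf).ne'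
  obtain ⟨i⟩ := hne
  have h1 : #I ≤ succ (succ (succ (succ #I))) :=
    (le_succ _).trans ((le_succ _).trans ((le_succ _).trans (le_succ _)))
  exact lt_of_le_of_lt h1 ((hA.mu i).trans (hA.lt i))

private theorem code_inf (hA : Amb K I th t) : ℵ₀ ≤ #K := hA.reg.inf.trans (code_I_lt hA).le

/-- Small unions. -/
theorem small_iUnion (hA : Amb K I th t) (D : Set K) (E : I → Set K)
    (hD : ∀ x ∈ D, ∃ i, x ∈ E i) (c : Cardinal.{0}) (hc : c < #K) (hE : ∀ i, #(E i) ≤ c) :
    #D < #K := by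
  have h1 : #D ≤ #(⋃ i, E i : Set K) := by
    refine mk_le_mk_of_subset ?_
    intro x hx
    obtain ⟨i, hi⟩ := hD x hx
    exact mem_iUnion.2 ⟨i, hi⟩
  have h2 : #(⋃ i, E i : Set K) ≤ #I * c := by
    refine (mk_iUnion_le_sum_mk).trans ?_
    refine (sum_le_sum _ (fun _ => c) hE).trans ?_
    rw [sum_const']
  exact lt_of_le_of_lt (h1.trans h2) (mul_lt_of_lt (code_inf hA) (code_I_lt hA) hc)

/-- If `#C = #K` then for every `c < #K` almost all `i` satisfy `c ≤ #(C ∩ Iio (t i))`. (Otherwise, by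
`tmono` and `tcof`, `C` is the union of `#I` sets of cardinality `≤ c`.) -/
theorem code_large (hA : Amb K I th t) (C : Set K) (hC : #C = #K) (c : Cardinal.{0})
    (hc : c < #K) : ∃ i₀, ∀ i, i₀ ≤ i → c ≤ #(C ∩ Iio (t i) : Set K) := by
  by_contra hcon
  push Not at hcon
  have h1 : ∀ i, #(C ∩ Iio (t i) : Set K) ≤ c := by
    intro i
    obtain ⟨j, hij, hj⟩ := hcon i
    refine (mk_le_mk_of_subset ?_).trans hj.le
    intro x hx
    exact ⟨hx.1, lt_of_lt_of_le hx.2 (hA.tmono i j hij)⟩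
  have h2 := small_iUnion hA C (fun i => C ∩ Iio (t i)) (fun x hx => by
    obtain ⟨i, hi⟩ := hA.tcof x
    exact ⟨i, hx, hi⟩) c hc h1
  rw [hC] at h2
  exact lt_irrefl _ h2

/-- The union of the codes is large. -/
theorem code_union (hA : Amb K I th t) (idx : N → I) (T : Set N) (hT : Ub (idx '' T))
    (C : Set K) (hC : #C = #K) (B : Set K) (Bu : N → Set K) (hB : ∀ u ∈ T, Bu u ⊆ B)
    (hcard : ∀ u ∈ T, #(Bu u) = #(C ∩ Iio (t (idx u)) : Set K)) : #B = #K := by
  refine card_eq_of_ge B (fun c hc => ?_) (amb_succ hA)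
  obtain ⟨i₀, hi₀⟩ := code_large hA C hC c hc
  obtain ⟨i, ⟨u, hu, rfl⟩, hi⟩ := hT i₀
  have h1 := hi₀ (idx u) hi.le
  rw [← hcard u hu] at h1
  exact h1.trans (mk_le_mk_of_subset (hB u hu))

/-- Bounded unions of small sets: if `D ⊆ ⋃ i ≤ i₀, E i` and `#(E i) < #K` with `#(E i) ≤ th i`. -/
theorem small_bdd (hA : Amb K I th t) (D : Set K) (E : I → Set K) (i₀ : I)
    (hD : ∀ x ∈ D, ∃ i ≤ i₀, x ∈ E i) (hE : ∀ i, #(E i) ≤ th i) : #D < #K := by
  have hmono : ∀ i, i ≤ i₀ → th i ≤ th i₀ := by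
    intro i hi
    rcases eq_or_lt_of_le hi with h | h
    · rw [h]
    · exact ((le_succ _).trans ((le_succ _).trans ((le_succ _).trans ((le_succ _).trans
        (le_succ _))))).trans (hA.step i i₀ h)
  refine small_iUnion hA D (fun i => {x | i ≤ i₀ ∧ x ∈ E i}) (fun x hx => ?_) (th i₀) (hA.lt i₀)
    (fun i => ?_)
  · obtain ⟨i, hi, hx'⟩ := hD x hx
    exact ⟨i, hi, hx'⟩
  · by_cases hi : i ≤ i₀
    · exact (mk_le_mk_of_subset (fun x hx => hx.2)).trans ((hE i).trans (hmono i hi))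
    · have h0 : {x | i ≤ i₀ ∧ x ∈ E i} = (∅ : Set K) := by
        ext x
        simp [hi]
      rw [h0, mk_eq_zero]
      exact bot_le

end Pool.Agent.LibGS
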