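import Pool.Agent.LibGPR.Thin
import Pool.Agent.LibGPR.Walk
import Pool.Agent.LibGP76.WM
import Pool.Agent.LibGP76.Dich

/-!
# The local coder

`K` is a regular cardinal `> ℵ₁` and `L = (#K)⁺`, `Θ` a well-order of cardinality `< #K`.  To every
unbounded `T ⊆ L` and `c ⊆ Θ` one can assign a subset `A T c` of `T` of cardinality `#c` such that
`#(A T c ∩ A T' c') ≤ #(c ∩ c') + ℵ₀`.
-/

set_option autoImplicit false

namespace Pool.Agent.LibGS.LC

open Cardinal Set Order
open Pool.Agent.LibGP76 Pool.Agent.LibGPR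

universe u

variable {K L : Type u} [LinearOrder K] [LinearOrder L]

/-- `z` is not the limit of countably many smaller points (and it is not the least point). -/
def NC (z : K) : Prop := (∃ y, y < z) ∧ ∀ e : ℕ → K, (∀ n, e n < z) → ∃ y < z, ∀ n, e n < y

/-- The points below `d` with number `< z`. -/
def PP (F : L → L → K) (z : K) (d : L) : Set L := {x | x < d ∧ F d x < z}

/-- `e`, restricted to `y`, is cofinal in `γ`. -/
def SmT (y : K) (e : K → L) (γ : L) : Prop := ∀ x < γ, ∃ i < y, x ≤ e i ∧ e i < γ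

/-- `F` numbers the points below `d` by elements of `K`. -/
def Num (F : L → L → K) : Prop := ∀ d x x', x < d → x' < d → F d x = F d x' → x = x'

/-- Data: every `γ` has a short cofinal sequence or a ladder. -/
def Dat (y : L → K) (e : L → K → L) : Prop := ∀ γ, SmT (y γ) (e γ) γ ∨ Lad (e γ) γ

/-- Good pairs. -/
def GoodP (F : L → L → K) (y : L → K) (e : L → K → L) (z : K) (d : L) : Prop :=
  (∀ γ ∈ PP F z d, ∀ x < γ, (F γ x < z ↔ F d x < z)) ∧
  (∀ γ, (γ ∈ PP F z d ∨ γ = d) → SmT (y γ) (e γ) γ →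
    ∀ i < y γ, e γ i < γ → e γ i ∈ PP F z d) ∧
  (∀ γ, (γ ∈ PP F z d ∨ γ = d) → Lad (e γ) γ →
    (∀ i < z, e γ i ∈ PP F z d) ∧ ∀ x ∈ PP F z d, x < γ → ∃ i < z, x < e γ i)

theorem exists_nc [WellFoundedLT K] (h : RegK K) (h1 : ℵ₁ < #K) (b : K → K) (η : K) :
    ∃ z ∈ Cl b, η < z ∧ NC z := by
  have hW : RegK (ℵ₁ : Cardinal.{u}).ord.ToType := regK_ord isRegular_aleph_one aleph0_lt_aleph_one
  have hc : #(ℵ₁ : Cardinal.{u}).ord.ToType = ℵ₁ := mk_ord_toType _
  obtain ⟨σ, z, hσ, -, hη, hcl⟩ := exists_lad hW h (by rw [hc]; exact h1) b η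
  obtain ⟨j0⟩ := nonempty_of_regK hW
  have hηz : η < z := (hη j0).trans (hσ.2.1 j0)
  refine ⟨z, hcl, hηz, ⟨η, hηz⟩, fun e he => ?_⟩
  choose j hj using fun n => hσ.2.2 (e n) (he n)
  obtain ⟨c, hc⟩ := exists_sup_nat hW j
  exact ⟨σ c, hσ.2.1 c, fun n => (hj n).trans (hσ.1 _ _ (hc n))⟩

/-- Numberings exist. -/
theorem exists_num (hL : RegK L) (hLK : #L = succ #K) : ∃ F : L → L → K, Num F := by
  classical
  have h1 : ∀ d : L, ∃ f : L → K, ∀ x x', x < d → x' < d → f x = f x' → x = x' := by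
    intro d
    have h2 : #(Set.Iio d) ≤ #K := by
      have := hL.small d
      rw [hLK] at this
      exact Order.lt_succ_iff.1 this
    obtain ⟨φ⟩ := (Cardinal.le_def _ _).1 h2
    have hK : Nonempty K := by
      rw [← mk_ne_zero_iff]
      intro h0
      have h3 := hL.unc
      rw [hLK, h0] at h3
      have h4 : (succ (0 : Cardinal.{u})) = 1 := Cardinal.succ_zero
      rw [h4] at h3
      exact absurd h3 (not_lt.2 one_lt_aleph0.le)
    obtain ⟨k0⟩ := hK
    refine ⟨fun x => if hx : x < d then φ ⟨x, hx⟩ else k0, ?_⟩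
    intro x x' hx hx' heq
    simp only [dif_pos hx, dif_pos hx'] at heq
    exact congrArg Subtype.val (φ.injective heq)
  choose F hF using h1
  exact ⟨F, hF⟩

variable [WellFoundedLT K] [WellFoundedLT L]

/-- Every point has a short cofinal sequence or a ladder. -/
theorem exists_dat (h : RegK K) (hL : RegK L) (hLK : #L = succ #K) :
    ∃ (y : L → K) (e : L → K → L), Dat y e := by
  classical
  obtain ⟨e, he⟩ := exists_enum h hL hLK
  have hkey : ∀ γ : L, ∃ (y : K) (f : K → L), SmT y f γ ∨ Lad f γ := by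
    intro γ
    by_cases hs : ∃ y, SmT y (e γ) γ
    · obtain ⟨y, hy⟩ := hs
      exact ⟨y, e γ, Or.inl hy⟩
    · push Not at hs
      have h1 : ∀ j : K, ∃ x < γ, ∀ i < j, e γ i < γ → e γ i < x := by
        intro j
        have h2 := hs j
        unfold SmT at h2
        push Not at h2
        obtain ⟨x, hx, h3⟩ := h2
        refine ⟨x, hx, fun i hi hlt => ?_⟩
        by_contra hcon
        exact absurd (h3 i hi (not_lt.1 hcon)) (not_le.2 hlt)
      have h2 : ∀ j : K, ∃ x : L, (∀ i < j, e γ i < γ → e γ i < x) ∧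
          ∀ w : L, (∀ i < j, e γ i < γ → e γ i < w) → x ≤ w := by
        intro j
        obtain ⟨x0, -, hx0⟩ := h1 j
        obtain ⟨x, hx, hm⟩ := wellFounded_lt.has_min
          {w : L | ∀ i < j, e γ i < γ → e γ i < w} ⟨x0, hx0⟩
        exact ⟨x, hx, fun w hw => not_lt.1 (hm w hw)⟩
      choose g hg1 hg2 using h2
      obtain ⟨σ, hσ, -⟩ := thin h g γ
        (fun i j hij => hg2 i _ (fun k hk hlt => hg1 j k (hk.trans_le hij) hlt))
        (fun i => by
          obtain ⟨x, hx, hx2⟩ := h1 i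
          exact (hg2 i x hx2).trans_lt hx)
        (fun ν hν => by
          obtain ⟨i, hi⟩ := he γ ν hν
          obtain ⟨j, hj⟩ := exists_gt' h i
          refine ⟨j, ?_⟩
          have := hg1 j i hj (by rw [hi]; exact hν)
          rwa [hi] at this)
      obtain ⟨k0⟩ := nonempty_of_regK h
      exact ⟨k0, σ, Or.inr hσ⟩
  choose y f hf using hkey
  exact ⟨y, f, hf⟩

omit [WellFoundedLT K] in
/-- Diagonal intersections. -/
theorem exists_diag (h : RegK K) (B : K → K → K) :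
    ∃ b : K → K, ∀ z ∈ Cl b, ∀ u < z, z ∈ Cl (B u) := by
  choose c hc using fun x u : K => exists_sup_Iic h x (B u)
  choose b hb using fun x : K => exists_sup_Iic h x (c x)
  refine ⟨b, fun z hz u hu w hw => ?_⟩
  have h1 : max u w < z := max_lt hu hw
  exact (hc (max u w) u w (le_max_right _ _)).trans
    ((hb (max u w) u (le_max_left _ _)).trans (hz _ h1))

omit [WellFoundedLT K] [WellFoundedLT L] in
/-- The pairs `(z, d)` are good for the `z` in a closed unbounded set. -/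
theorem exists_good (h : RegK K) {F : L → L → K} (hF : Num F) (y : L → K)
    (e : L → K → L) (d : L) : ∃ b : K → K, ∀ z ∈ Cl b, (∃ w, w < z) → GoodP F y e z d := by
  classical
  -- decoding
  have hdec : ∀ γ : L, ∃ f : K → L, ∀ x < γ, f (F γ x) = x := by
    intro γ
    refine ⟨fun u => if hu : ∃ x < γ, F γ x = u then hu.choose else γ, fun x hx => ?_⟩
    have hu : ∃ x' < γ, F γ x' = F γ x := ⟨x, hx, rfl⟩
    show (if hu : ∃ x' < γ, F γ x' = F γ x then hu.choose else γ) = x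
    rw [dif_pos hu]
    exact hF γ _ _ hu.choose_spec.1 hx hu.choose_spec.2
  choose dec hdec using hdec
  have hidx : ∀ γ x : L, ∃ i : K, Lad (e γ) γ → x < γ → x < e γ i := by
    intro γ x
    by_cases h1 : Lad (e γ) γ ∧ x < γ
    · obtain ⟨i, hi⟩ := h1.1.2.2 x h1.2
      exact ⟨i, fun _ _ => hi⟩
    · obtain ⟨k0⟩ := nonempty_of_regK h
      exact ⟨k0, fun h2 h3 => absurd ⟨h2, h3⟩ h1⟩
  choose idx hidx using hidx
  have hR : ∀ γ : L, ∃ b : K → K, ∀ z ∈ Cl b, (∃ w, w < z) →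
      (∀ x < γ, x < d → (F γ x < z ↔ F d x < z)) ∧
      (∀ i < y γ, F d (e γ i) < z) ∧
      (∀ i < z, F d (e γ i) < z) ∧ (∀ x, x < d → F d x < z → idx γ x < z) := by
    intro γ
    obtain ⟨c, hc⟩ := exists_sup_Iio h (y γ) (fun i => F d (e γ i))
    refine ⟨fun u => max (max (F d (dec γ u)) (F γ (dec d u)))
      (max c (max (F d (e γ u)) (idx γ (dec d u)))), fun z hz hw => ?_⟩
    have h1 : ∀ u < z, F d (dec γ u) < z := fun u hu =>
      lt_of_le_of_lt ((le_max_left _ _).trans (le_max_left _ _)) (hz u hu)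
    have h2 : ∀ u < z, F γ (dec d u) < z := fun u hu =>
      lt_of_le_of_lt ((le_max_right _ _).trans (le_max_left _ _)) (hz u hu)
    have h3 : ∀ u < z, c < z := fun u hu =>
      lt_of_le_of_lt ((le_max_left _ _).trans (le_max_right _ _)) (hz u hu)
    have h4 : ∀ u < z, F d (e γ u) < z := fun u hu =>
      lt_of_le_of_lt ((le_max_left _ _).trans ((le_max_right _ _).trans (le_max_right _ _)))
        (hz u hu)
    have h5 : ∀ u < z, idx γ (dec d u) < z := fun u hu =>
      lt_of_le_of_lt ((le_max_right _ _).trans ((le_max_right _ _).trans (le_max_right _ _)))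
        (hz u hu)
    refine ⟨fun x hx hxd => ⟨fun h6 => ?_, fun h6 => ?_⟩, fun i hi => ?_, h4, fun x hx h6 => ?_⟩
    · have := h1 _ h6
      rwa [hdec γ x hx] at this
    · have := h2 _ h6
      rwa [hdec d x hxd] at this
    · obtain ⟨w, hw⟩ := hw
      exact (hc i hi).trans (h3 w hw)
    · have := h5 _ h6
      rwa [hdec d x hx] at this
  choose B hB using hR
  obtain ⟨b1, hb1⟩ := exists_diag h (fun u => B (dec d u))
  refine ⟨fun u => max (b1 u) (B d u), fun z hz hw => ?_⟩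
  have hz1 : z ∈ Cl b1 := Cl_max_left b1 (B d) hz
  have hz2 : z ∈ Cl (B d) := Cl_max_right b1 (B d) hz
  have hγ : ∀ γ, (γ ∈ PP F z d ∨ γ = d) → z ∈ Cl (B γ) := by
    rintro γ (hγ | rfl)
    · have := hb1 z hz1 (F d γ) hγ.2
      simp only [hdec d γ hγ.1] at this
      exact this
    · exact hz2
  have hle : ∀ γ, (γ ∈ PP F z d ∨ γ = d) → γ ≤ d := by
    rintro γ (hγ | rfl)
    · exact hγ.1.le
    · exact le_refl _
  refine ⟨fun γ hγd x hx => ?_, fun γ hγd _ i hi hlt => ?_, fun γ hγd hlad => ⟨fun i hi => ?_,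
    fun x hx hxγ => ?_⟩⟩
  · exact (hB γ z (hγ γ (Or.inl hγd)) hw).1 x hx (hx.trans hγd.1)
  · exact ⟨hlt.trans_le (hle γ hγd), (hB γ z (hγ γ hγd) hw).2.1 i hi⟩
  · exact ⟨(hlad.2.1 i).trans_le (hle γ hγd), (hB γ z (hγ γ hγd) hw).2.2.1 i hi⟩
  · exact ⟨idx γ x, (hB γ z (hγ γ hγd) hw).2.2.2 x hx.1 hx.2, hidx γ x hlad hxγ⟩

omit [WellFoundedLT K] in
/-- Closure under countable limits. -/
theorem good_lim {F : L → L → K} {y : L → K} {e : L → K → L} (hD : Dat y e)
    {z : K} {d : L} (hg : GoodP F y e z d) (hz : NC z) (ξ : ℕ → L) (hξ : ∀ n, ξ n ∈ PP F z d)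
    (γ : L) (h1 : ∀ n, ξ n < γ) (h2 : ∀ w < γ, ∃ n, w < ξ n) : γ ∈ PP F z d ∨ γ = d := by
  classical
  have hγd : γ ≤ d := by
    by_contra hcon
    obtain ⟨n, hn⟩ := h2 d (not_le.1 hcon)
    exact lt_asymm hn (hξ n).1
  obtain ⟨γ', ⟨hγ1, hγ2⟩, hm⟩ := wellFounded_lt.has_min
    {w : L | (w ∈ PP F z d ∨ w = d) ∧ γ ≤ w} ⟨d, Or.inr rfl, hγd⟩
  have hm' : ∀ w ∈ PP F z d, γ ≤ w → ¬ w < γ' := fun w hw hγw => hm w ⟨Or.inl hw, hγw⟩
  rcases hγ2.eq_or_lt with rfl | hlt
  · exact hγ1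
  · exfalso
    rcases hD γ' with hs | hl
    · obtain ⟨i, hi, h3, h4⟩ := hs γ hlt
      exact hm' _ (hg.2.1 γ' hγ1 hs i hi h4) h3 h4
    · obtain ⟨h3, h4⟩ := hg.2.2 γ' hγ1 hl
      choose i hi1 hi2 using fun n => h4 (ξ n) (hξ n) ((h1 n).trans hlt)
      obtain ⟨w, hw1, hw2⟩ := hz.2 i hi1
      refine hm' _ (h3 w hw1) ?_ (hl.2.1 w)
      by_contra hcon
      rw [not_le] at hcon
      obtain ⟨n, hn⟩ := h2 _ hcon
      exact lt_asymm hn ((hi2 n).trans (hl.1 _ _ (hw2 n)))

omit [WellFoundedLT K] in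
theorem mk_pp_lt (h : RegK K) {F : L → L → K} (hF : Num F) (z : K) (d : L) :
    #(PP F z d) < #K := by
  have h1 : Function.Injective (fun x : PP F z d => (⟨F d x.1, x.2.2⟩ : Set.Iio z)) := by
    intro x x' hxx
    exact Subtype.ext (hF d _ _ x.2.1 x'.2.1 (congrArg Subtype.val hxx))
  exact (mk_le_of_injective h1).trans_lt (h.small z)

/-- A small well-order embeds into `K`. -/
theorem exists_emb {Θ : Type u} [LinearOrder Θ] [WellFoundedLT Θ] (h : RegK K) (hΘ : #Θ < #K) :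
    ∃ ι : Θ → K, StrictMono ι := by
  classical
  have hb : ∀ (j : Θ) (f : (i : Θ) → i < j → K), ∃ z, ∀ i (hi : i < j), f i hi < z := by
    intro j f
    obtain ⟨z, hz⟩ := exists_sup h ((mk_set_le (Set.Iio j)).trans_lt hΘ)
      (fun i : Set.Iio j => f i.1 i.2)
    exact ⟨z, fun i hi => hz ⟨i, hi⟩⟩
  choose sp hsp using hb
  let σ : Θ → K := wellFounded_lt.fix (fun j rec => sp j rec)
  have hσ : ∀ j, σ j = sp j (fun i _ => σ i) := fun j => wellFounded_lt.fix_eq _ j
  refine ⟨σ, fun i j hij => ?_⟩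
  rw [hσ j]
  exact hsp j (fun i _ => σ i) i hij

/-- Club guessing. -/
theorem guess {Θ : Type u} [LinearOrder Θ] [WellFoundedLT Θ] (h : RegK K) (hω : ℵ₁ < #K)
    (hL : RegK L) (hLK : #L = succ #K) (hΘ : #Θ < #K) {F : L → L → K} (hF : Num F)
    (y : L → K) (e : L → K → L) :
    ∃ (E : L → L) (z : K), NC z ∧ ∀ N : L → L, ∃ d, GoodP F y e z d ∧
      (∀ x ∈ PP F z d, fl E x ∈ Cl N) ∧
      ∃ ε : Θ → L, StrictMono ε ∧ ∀ j, ∃ x ∈ PP F z d, fl E x = ε j := by
  classical
  by_contra hcon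
  push Not at hcon
  have hKL : #K < #L := by rw [hLK]; exact lt_succ #K
  choose N0 hN0 using hcon
  have hNs : ∀ E : L → L, ∃ N : L → L, ∀ (z : K) (hz : NC z) x, N0 E z hz x ≤ N x := by
    intro E
    choose N hN using fun x : L => exists_sup hL hKL
      (fun z : K => if hz : NC z then N0 E z hz x else x)
    refine ⟨N, fun z hz x => ?_⟩
    have := hN x z
    rw [dif_pos hz] at this
    exact this.le
  choose N hN using hNs
  have hsup : ∀ (j : K) (f : (i : K) → i < j → (L → L)), ∃ B : L → L, ∀ i (hi : i < j) x,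
      f i hi x ≤ B x := by
    intro j f
    choose B hB using fun x : L => exists_sup hL ((h.small j).trans hKL)
      (fun i : Set.Iio j => f i.1 i.2 x)
    exact ⟨B, fun i hi x => (hB x ⟨i, hi⟩).le⟩
  choose sp hsp using hsup
  let Φ : K → L → L := wellFounded_lt.fix (fun j rec => sp j (fun i hi =>
    fun x => max (rec i hi x) (N (rec i hi) x)))
  have hΦ : ∀ j, Φ j = sp j (fun i _ => fun x => max (Φ i x) (N (Φ i) x)) :=
    fun j => wellFounded_lt.fix_eq _ j
  have hΦle : ∀ i j, i < j → ∀ x, max (Φ i x) (N (Φ i) x) ≤ Φ j x := by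
    intro i j hij x
    rw [hΦ j]
    exact hsp j (fun i _ => fun x => max (Φ i x) (N (Φ i) x)) i hij x
  have hΦmono : ∀ i j, i ≤ j → ∀ x, Φ i x ≤ Φ j x := by
    intro i j hij x
    rcases hij.lt_or_eq with hij | rfl
    · exact (le_max_left _ _).trans (hΦle i j hij x)
    · exact le_refl _
  choose Ψ hΨ using fun x : L => exists_sup hL hKL (fun i : K => Φ i x)
  obtain ⟨η⟩ := nonempty_of_regK hL
  obtain ⟨σ, d, hσ1, hσ2, -, -⟩ := exists_lad h hL hKL Ψ η
  obtain ⟨ι, hι⟩ := exists_emb (Θ := Θ) h hΘ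
  obtain ⟨η2, hη2⟩ := exists_sup h hΘ (fun j : Θ => F d (σ (ι j)))
  obtain ⟨b, hb⟩ := exists_good h hF y e d
  obtain ⟨z, hz1, hz2, hz3⟩ := exists_nc h hω b η2
  have hgood := hb z hz1 hz3.1
  have hmin : ∀ ξ : L, ∃ m : K, ∀ i : K, fl (Φ m) ξ ≤ fl (Φ i) ξ := by
    intro ξ
    have hKne : Nonempty K := nonempty_of_regK h
    obtain ⟨w, ⟨m, rfl⟩, hw⟩ := (wellFounded_lt (α := L)).has_min
      (range fun i : K => fl (Φ i) ξ) (range_nonempty _)
    exact ⟨m, fun i => not_lt.1 (hw _ ⟨i, rfl⟩)⟩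
  choose mm hmm using hmin
  obtain ⟨i, hi⟩ := exists_sup h (mk_pp_lt h hF z d) (fun x : PP F z d => mm x.1)
  obtain ⟨i', hi'⟩ := exists_gt' h i
  have hε := hN0 (Φ i) z hz3 d hgood (fun x hx => by
    have heq : fl (Φ i) x = fl (Φ i') x := by
      apply le_antisymm
      · exact (fl_anti (hΦmono _ _ (hi ⟨x, hx⟩).le) _).trans (hmm x i')
      · exact fl_anti (hΦmono _ _ hi'.le) _
    rw [heq]
    exact Cl_anti (fun w => (hN (Φ i) z hz3 w).trans ((le_max_right _ _).trans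
      (hΦle i i' hi' w))) (fl_mem (Φ i') x)) (fun j => σ (ι j))
    (fun j j' hjj => hσ1.1 _ _ (hι hjj))
  obtain ⟨j, hj⟩ := hε
  refine hj (σ (ι j)) ⟨hσ1.2.1 _, (hη2 j).trans hz2⟩ ?_
  have hcl : σ (ι j) ∈ Cl (Φ i) := Cl_anti (fun w => (hΨ w i).le) (hσ2 (ι j))
  exact le_antisymm (fl_le _ _) (le_fl hcl (le_refl _))

omit [LinearOrder K] [WellFoundedLT K] in
/-- Agreement of the enumerations of two sets which agree below `w`. -/
theorem enum_agree {Θ : Type u} [LinearOrder Θ] [WellFoundedLT Θ] {D D' : Set L} {w : L}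
    {f f' : Θ → L} (hf : StrictMono f) (hf' : StrictMono f') (hfD : ∀ j, f j ∈ D)
    (hfD' : ∀ j, f' j ∈ D') (hi : ∀ j, ∀ v ∈ D, v < f j → ∃ i, f i = v)
    (hi' : ∀ j, ∀ v ∈ D', v < f' j → ∃ i, f' i = v)
    (hD : ∀ v < w, v ∈ D ↔ v ∈ D') (j : Θ) (hj : f j < w) : f' j = f j := by
  induction j using WellFoundedLT.induction with
  | _ j ih =>
    have ih' : ∀ i < j, f' i = f i := fun i hij => ih i hij ((hf hij).trans hj)
    rcases lt_trichotomy (f' j) (f j) with h1 | h1 | h1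
    · exfalso
      obtain ⟨i, hi2⟩ := hi j (f' j) ((hD _ (h1.trans hj)).2 (hfD' j)) h1
      have h2 : i < j := hf.lt_iff_lt.1 (by rw [hi2]; exact h1)
      have h3 := ih' i h2
      rw [hi2] at h3
      exact h2.ne (hf'.injective h3)
    · exact h1
    · exfalso
      obtain ⟨i, hi2⟩ := hi' j (f j) ((hD _ hj).1 (hfD j)) h1
      have h2 : i < j := hf'.lt_iff_lt.1 (by rw [hi2]; exact h1)
      have h3 := ih' i h2
      rw [hi2] at h3
      exact h2.ne (hf.injective h3.symm)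

omit [LinearOrder K] [WellFoundedLT K] in
/-- Initial enumerations. -/
theorem exists_init {Θ : Type u} [LinearOrder Θ] [WellFoundedLT Θ] {D : Set L} {ε : Θ → L}
    (hε : StrictMono ε) (hD : ∀ j, ε j ∈ D) : ∃ f : Θ → L, StrictMono f ∧ (∀ j, f j ∈ D) ∧
      ∀ j, ∀ v ∈ D, v < f j → ∃ i, f i = v := by
  classical
  let g : (fun a b : Θ => a < b) ↪r (fun a b : D => a < b) :=
    RelEmbedding.ofMonotone (fun j => ⟨ε j, hD j⟩) (fun i j hij => hε hij)
  let f := g.collapse
  refine ⟨fun j => (f j : D).1, fun i j hij => ?_, fun j => (f j).2, fun j v hv hvj => ?_⟩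
  · exact f.map_rel_iff.2 hij
  · obtain ⟨i, hi⟩ := f.mem_range_of_rel' (b := ⟨v, hv⟩) (a := j) hvj
    exact ⟨i, congrArg Subtype.val hi⟩

/-- The local coder. -/
theorem local_coder {Θ : Type u} [LinearOrder Θ] [WellFoundedLT Θ] (h : RegK K) (hω : ℵ₁ < #K)
    (hL : RegK L) (hLK : #L = succ #K) (hΘ : #Θ < #K) :
    ∃ A : Set L → Set Θ → Set L, (∀ T c, Ub T → A T c ⊆ T ∧ #(A T c) = #c) ∧
      ∀ T T' c c', Ub T → Ub T' →
        #(A T c ∩ A T' c' : Set L) ≤ #(c ∩ c' : Set Θ) + ℵ₀ := by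
  classical
  obtain ⟨F, hF⟩ := exists_num hL hLK
  obtain ⟨y, e, hD⟩ := exists_dat h hL hLK
  obtain ⟨E, z, hz, hG⟩ := guess (Θ := Θ) h hω hL hLK hΘ hF y e
  have hL' : Nonempty L := nonempty_of_regK hL
  obtain ⟨l0⟩ := hL'
  -- the functions `N` and the enumerations
  have hT : ∀ T : Set L, ∃ (N : L → L) (d : L) (f : Θ → L), Ub T →
      (∀ x, N x ∈ T ∧ x < N x) ∧ GoodP F y e z d ∧ (∀ x ∈ PP F z d, fl E x ∈ Cl N) ∧
      StrictMono f ∧ (∀ j, f j ∈ (fl E '' PP F z d)) ∧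
      ∀ j, ∀ v ∈ (fl E '' PP F z d), v < f j → ∃ i, f i = v := by
    intro T
    by_cases hT : Ub T
    · choose N hN using hT
      obtain ⟨d, h1, h2, ε, h3, h4⟩ := hG N
      obtain ⟨f, hf1, hf2, hf3⟩ := exists_init (D := fl E '' PP F z d) h3 (fun j => by
        obtain ⟨x, hx, hx2⟩ := h4 j
        exact ⟨x, hx, hx2⟩)
      exact ⟨N, d, f, fun _ => ⟨hN, h1, h2, hf1, hf2, hf3⟩⟩
    · exact ⟨fun _ => l0, l0, fun _ => l0, fun h' => absurd h' hT⟩
  choose N d f hT using hT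
  have hmono : ∀ T, Ub T → StrictMono (fun j => N T (f T j)) := by
    intro T hTu i j hij
    obtain ⟨h1, -, h3, h4, h5, -⟩ := hT T hTu
    obtain ⟨x, hx, hx2⟩ := h5 j
    have h6 := h3 x hx
    rw [hx2] at h6
    exact (h6 _ (h4 hij)).trans (h1 _).2
  refine ⟨fun T c => (fun j => N T (f T j)) '' c, fun T c hTu => ⟨?_, ?_⟩, ?_⟩
  · rintro _ ⟨j, -, rfl⟩
    exact ((hT T hTu).1 _).1
  · exact mk_image_eq (hmono T hTu).injective
  · intro T T' c c' hTu hTu'
    obtain ⟨hN, hg, hcl, hf, hfD, hfi⟩ := hT T hTu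
    obtain ⟨hN', hg', hcl', hf', hfD', hfi'⟩ := hT T' hTu'
    set D : Set L := fl E '' PP F z (d T) with hDdef
    set D' : Set L := fl E '' PP F z (d T') with hDdef'
    set X : Set L := (fun j => N T (f T j)) '' c ∩ (fun j => N T' (f T' j)) '' c' with hX
    have hDcl : ∀ v ∈ D, v ∈ Cl (N T) := by
      rintro _ ⟨x, hx, rfl⟩
      exact hcl x hx
    have hDcl' : ∀ v ∈ D', v ∈ Cl (N T') := by
      rintro _ ⟨x, hx, rfl⟩
      exact hcl' x hx
    -- the points with agreement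
    have hA : #{x | x ∈ X ∧ ∀ v < x, v ∈ D ↔ v ∈ D'} ≤ #(c ∩ c' : Set Θ) := by
      have hsub : {x | x ∈ X ∧ ∀ v < x, v ∈ D ↔ v ∈ D'} ⊆ (fun j => N T (f T j)) '' (c ∩ c') := by
        rintro x ⟨⟨⟨j, hj, hjx⟩, ⟨j', hj', hjx'⟩⟩, hag⟩
        simp only at hjx hjx'
        have h1 : f T j < x := by rw [← hjx]; exact (hN _).2
        have h1' : f T' j' < x := by rw [← hjx']; exact (hN' _).2
        have h2 : ∀ v ∈ D, v < x → v ≤ f T j := by
          intro v hv hvx
          by_contra hcon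
          have h3 := hDcl v hv _ (not_le.1 hcon)
          rw [hjx] at h3
          exact lt_asymm h3 hvx
        have h2' : ∀ v ∈ D', v < x → v ≤ f T' j' := by
          intro v hv hvx
          by_contra hcon
          have h3 := hDcl' v hv _ (not_le.1 hcon)
          rw [hjx'] at h3
          exact lt_asymm h3 hvx
        have h4 : f T j = f T' j' := le_antisymm
          (h2' _ ((hag _ h1).1 (hfD j)) h1) (h2 _ ((hag _ h1').2 (hfD' j')) h1')
        have h5 : f T' j = f T j := enum_agree hf hf' hfD hfD' hfi hfi' hag j h1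
        have h6 : j = j' := hf'.injective (h5.trans h4)
        refine ⟨j, ⟨hj, ?_⟩, hjx⟩
        rw [h6]
        exact hj'
      exact (mk_le_mk_of_subset hsub).trans mk_image_le
    -- the points without agreement are finite in number
    have hB : ({x | x ∈ X ∧ ¬ ∀ v < x, v ∈ D ↔ v ∈ D'} : Set L).Finite := by
      by_contra hinf
      obtain ⟨x, hx, hxm⟩ := exists_incr hinf
      have hxX : ∀ n, x n ∈ X := fun n => (hx n).1
      choose j hj hjx using fun n => (hxX n).1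
      choose j' hj' hjx' using fun n => (hxX n).2
      simp only at hjx hjx'
      obtain ⟨g0, hg0⟩ := exists_sup_nat hL x
      obtain ⟨γ, hγ, hm⟩ := wellFounded_lt.has_min {w : L | ∀ n, x n < w} ⟨g0, hg0⟩
      have hcof : ∀ w < γ, ∃ n, w < x n := by
        intro w hw
        have h1 : ¬ (w ∈ {w : L | ∀ n, x n < w}) := fun h' => hm w h' hw
        simp only [mem_setOf_eq, not_forall, not_lt] at h1
        obtain ⟨n, hn⟩ := h1
        exact ⟨n + 1, hn.trans_lt (hxm (Nat.lt_succ_self n))⟩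
      -- one side
      have hside : ∀ (T : Set L) (c : Set Θ) (hTu : Ub T) (j : ℕ → Θ)
          (hjx : ∀ n, N T (f T (j n)) = x n), (γ ∈ PP F z (d T) ∨ γ = d T) ∧
          ∀ v < γ, v ∈ fl E '' PP F z (d T) ↔ ∃ u, u < γ ∧ u ∈ PP F z (d T) ∧ fl E u = v := by
        intro T c hTu j hjx
        obtain ⟨hN, hg, hcl, hf, hfD, hfi⟩ := hT T hTu
        have hjm : StrictMono j := by
          intro m n hmn
          by_contra hcon
          have h1 := (hmono T hTu).monotone (not_lt.1 hcon)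
          simp only [hjx] at h1
          exact absurd (hxm hmn) (not_lt.2 h1)
        have hfx : ∀ n, f T (j n) < x n := fun n => by
          rw [← hjx n]
          exact (hN _).2
        have hxf : ∀ n, x n < f T (j (n + 1)) := fun n => by
          rw [← hjx n]
          obtain ⟨u, hu, hu2⟩ := hfD (j (n + 1))
          have h6 := hcl u hu
          rw [hu2] at h6
          exact h6 _ (hf (hjm (Nat.lt_succ_self n)))
        choose ξ hξ1 hξ2 using fun n => hfD (j n)
        have hfcl : ∀ n, f T (j n) ∈ Cl E := fun n => by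
          rw [← hξ2 n]
          exact fl_mem E _
        have hξf : ∀ n, ξ n < f T (j (n + 1)) := by
          intro n
          by_contra hcon
          have h1 := le_fl (hfcl (n + 1)) (not_lt.1 hcon)
          rw [hξ2 n] at h1
          exact absurd (hf (hjm (Nat.lt_succ_self n))) (not_lt.2 h1)
        have hfξ : ∀ n, f T (j n) ≤ ξ n := fun n => by
          rw [← hξ2 n]
          exact fl_le E _
        refine ⟨good_lim hD hg hz ξ hξ1 γ (fun n => ((hξf n).trans (hfx _)).trans (hγ _)) ?_, ?_⟩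
        · intro w hw
          obtain ⟨n, hn⟩ := hcof w hw
          exact ⟨n + 1, hn.trans ((hxf n).trans_le (hfξ _))⟩
        · intro v hv
          constructor
          · rintro ⟨u, hu, hu2⟩
            refine ⟨u, ?_, hu, hu2⟩
            by_contra hcon
            obtain ⟨n, hn⟩ := hcof v hv
            have h3 : f T (j (n + 1)) ≤ u := ((hfx _).trans (hγ _)).le.trans (not_lt.1 hcon)
            have h4 := le_fl (hfcl (n + 1)) h3
            rw [hu2] at h4
            exact absurd (hn.trans (hxf n)) (not_lt.2 h4)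
          · rintro ⟨u, -, hu, hu2⟩
            exact ⟨u, hu, hu2⟩
      obtain ⟨h1, h2⟩ := hside T c hTu j hjx
      obtain ⟨h1', h2'⟩ := hside T' c' hTu' j' hjx'
      have hP : ∀ T, GoodP F y e z (d T) → (γ ∈ PP F z (d T) ∨ γ = d T) → ∀ u < γ,
          (u ∈ PP F z (d T) ↔ F γ u < z) := by
        intro T hg hγd u hu
        rcases hγd with h3 | h3
        · constructor
          · intro h4
            exact (hg.1 γ h3 u hu).2 h4.2
          · intro h4
            exact ⟨hu.trans h3.1, (hg.1 γ h3 u hu).1 h4⟩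
        · subst h3
          exact ⟨fun h4 => h4.2, fun h4 => ⟨hu, h4⟩⟩
      apply (hx 0).2
      intro v hv
      have hvγ : v < γ := hv.trans (hγ 0)
      rw [h2 v hvγ, h2' v hvγ]
      constructor
      · rintro ⟨u, hu1, hu2, hu3⟩
        exact ⟨u, hu1, (hP T' hg' h1' u hu1).2 ((hP T hg h1 u hu1).1 hu2), hu3⟩
      · rintro ⟨u, hu1, hu2, hu3⟩
        exact ⟨u, hu1, (hP T hg h1 u hu1).2 ((hP T' hg' h1' u hu1).1 hu2), hu3⟩
    have hsplit : X ⊆ {x | x ∈ X ∧ ∀ v < x, v ∈ D ↔ v ∈ D'} ∪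
        {x | x ∈ X ∧ ¬ ∀ v < x, v ∈ D ↔ v ∈ D'} := by
      intro x hx
      by_cases h1 : ∀ v < x, v ∈ D ↔ v ∈ D'
      · exact Or.inl ⟨hx, h1⟩
      · exact Or.inr ⟨hx, h1⟩
    refine (mk_le_mk_of_subset hsplit).trans ((mk_union_le _ _).trans (add_le_add hA ?_))
    exact (lt_aleph0_iff_finite.2 hB.to_subtype).le

end Pool.Agent.LibGS.LC
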