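import Pool.Agent.LibGS.Defs
import Pool.Agent.LibGS.LC

/-! The local coder at a point of good cofinality. -/

set_option autoImplicit false

namespace Pool.Agent.LibGS

open Cardinal Set Order
open Pool.Agent.LibGP76 (RegK Ub Cl fl Stat)
open Pool.Agent.LibGPR (Lad)

variable {K : Type} [LinearOrder K] [WellFoundedLT K]

/-- A function which tends to infinity along `y`. -/
theorem LC.exists_idx {L : Type} [LinearOrder L] [WellFoundedLT L] (hL : RegK L) (y : K)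
    (hy : cf y = #L) : ∃ π : K → L, ∀ ξ : L, ∃ w < y, ∀ x, w ≤ x → x < y → ξ < π x := by
  classical
  obtain ⟨S, hS, hSc⟩ := Order.exists_cof_eq (Set.Iio y)
  have hc : #S = #L := by
    rw [hSc]
    exact hy
  obtain ⟨φ⟩ := Cardinal.eq.1 hc
  have hex : ∀ x : K, ∃ ξ : L, x < y → (x ≤ ((φ.symm ξ : S) : Set.Iio y).1 ∧
      ∀ η : L, x ≤ ((φ.symm η : S) : Set.Iio y).1 → ξ ≤ η) := by
    intro x
    by_cases hx : x < y
    · obtain ⟨s, hs, hxs⟩ := hS ⟨x, hx⟩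
      obtain ⟨ξ, hξ, hm⟩ := wellFounded_lt.has_min
        {η : L | x ≤ ((φ.symm η : S) : Set.Iio y).1} ⟨φ ⟨s, hs⟩, by
          simp only [mem_setOf_eq, Equiv.symm_apply_apply]
          exact hxs⟩
      exact ⟨ξ, fun _ => ⟨hξ, fun η hη => not_lt.1 (hm η hη)⟩⟩
    · obtain ⟨l0⟩ := LibGP76.nonempty_of_regK hL
      exact ⟨l0, fun h => absurd h hx⟩
  choose π hπ using hex
  refine ⟨π, fun ξ => ?_⟩
  have h1 : #((fun η : L => ((φ.symm η : S) : Set.Iio y)) '' Set.Iic ξ) < #L :=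
    mk_image_le.trans_lt (LibGP76.small_Iic hL ξ)
  have h2 : ¬ IsCofinal ((fun η : L => ((φ.symm η : S) : Set.Iio y)) '' Set.Iic ξ) := by
    intro h3
    have h4 := Order.cof_le h3
    rw [← hy] at h1
    exact absurd h1 (not_lt.2 h4)
  unfold IsCofinal at h2
  push Not at h2
  obtain ⟨w, hw⟩ := h2
  refine ⟨w.1, w.2, fun x hwx hxy => ?_⟩
  obtain ⟨h3, -⟩ := hπ x hxy
  by_contra hcon
  have h4 := hw _ ⟨π x, not_lt.1 hcon, rfl⟩
  exact absurd (hwx.trans h3) (not_le.2 h4)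

/-- The local coder at a point `y` of good cofinality `l⁺`, for subsets of `Iio s`, `#(Iio s) < l`. -/
theorem local_at (_hs : ∀ c : K, #(Set.Iio c) < #K) (y s : K) (l : Cardinal.{0}) (hl : l.IsRegular)
    (hl2 : succ (succ ℵ₀) ≤ l) (hy : cf y = succ l) (hls : #(Set.Iio s) < l) :
    ∃ A : Set K → Set K → Set K,
      (∀ T c, T ⊆ Iio y → Acc T y → c ⊆ Iio s → A T c ⊆ T ∧ #(A T c) = #c) ∧
      ∀ T T' c c', T ⊆ Iio y → T' ⊆ Iio y → Acc T y → Acc T' y → c ⊆ Iio s → c' ⊆ Iio s →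
        #(A T c ∩ A T' c' : Set K) ≤ #(c ∩ c' : Set K) + ℵ₀ := by
  classical
  have hl0 : ℵ₀ < l := ((lt_succ ℵ₀).trans (lt_succ _)).trans_le hl2
  have hl1 : (ℵ₁ : Cardinal.{0}) < l := by
    have h1 : (ℵ₁ : Cardinal.{0}) = succ ℵ₀ := succ_aleph0.symm
    rw [h1]
    exact (lt_succ _).trans_le hl2
  have hK' : RegK l.ord.ToType := LibGP76.regK_ord hl hl0
  have hL : RegK (succ l).ord.ToType :=
    LibGP76.regK_ord (isRegular_succ hl.aleph0_le) (hl0.trans (lt_succ l))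
  have hK'c : #l.ord.ToType = l := mk_ord_toType _
  have hLc : #(succ l).ord.ToType = succ l := mk_ord_toType _
  obtain ⟨A, hA1, hA2⟩ := LC.local_coder (K := l.ord.ToType) (L := (succ l).ord.ToType)
    (Θ := Set.Iio s) hK' (by rw [hK'c]; exact hl1) hL (by rw [hLc, hK'c])
    (by rw [hK'c]; exact hls)
  obtain ⟨π, hπ⟩ := LC.exists_idx hL y (by rw [hy, hLc])
  -- selectors
  have hsel : ∀ T : Set K, ∃ g : (succ l).ord.ToType → K, ∀ ξ ∈ π '' T, g ξ ∈ T ∧ π (g ξ) = ξ := by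
    intro T
    refine ⟨fun ξ => if h : ξ ∈ π '' T then h.choose else y, fun ξ hξ => ?_⟩
    show (if h : ξ ∈ π '' T then h.choose else y) ∈ T ∧
      π (if h : ξ ∈ π '' T then h.choose else y) = ξ
    rw [dif_pos hξ]
    exact hξ.choose_spec
  choose g hg using hsel
  have hub : ∀ T : Set K, T ⊆ Iio y → Acc T y → Ub (π '' T) := by
    intro T hT hacc ξ
    obtain ⟨w, hw, hw2⟩ := hπ ξ
    obtain ⟨x, hx, hx1, hx2⟩ := hacc w hw
    exact ⟨π x, ⟨x, hx, rfl⟩, hw2 x hx1.le hx2⟩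
  have hcc : ∀ c : Set K, c ⊆ Iio s → #((fun x : Set.Iio s => x.1) ⁻¹' c) = #c := by
    intro c hc
    refine Cardinal.mk_preimage_of_injective_of_subset_range (fun x : Set.Iio s => x.1) c
      Subtype.val_injective ?_
    rw [Subtype.range_val]
    exact hc
  refine ⟨fun T c => g T '' (A (π '' T) ((fun x : Set.Iio s => x.1) ⁻¹' c)), ?_, ?_⟩
  · intro T c hT hacc hc
    obtain ⟨h1, h2⟩ := hA1 (π '' T) ((fun x : Set.Iio s => x.1) ⁻¹' c) (hub T hT hacc)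
    constructor
    · rintro _ ⟨ξ, hξ, rfl⟩
      exact (hg T ξ (h1 hξ)).1
    · rw [← hcc c hc, ← h2]
      refine mk_image_eq_of_injOn _ _ ?_
      intro ξ hξ ξ' hξ' heq
      rw [← (hg T ξ (h1 hξ)).2, ← (hg T ξ' (h1 hξ')).2, heq]
  · intro T T' c c' hT hT' hacc hacc' hc hc'
    have h1 := (hA1 (π '' T) ((fun x : Set.Iio s => x.1) ⁻¹' c) (hub T hT hacc)).1
    have h1' := (hA1 (π '' T') ((fun x : Set.Iio s => x.1) ⁻¹' c') (hub T' hT' hacc')).1
    have h2 := hA2 (π '' T) (π '' T') ((fun x : Set.Iio s => x.1) ⁻¹' c)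
      ((fun x : Set.Iio s => x.1) ⁻¹' c') (hub T hT hacc) (hub T' hT' hacc')
    have h3 : ((fun x : Set.Iio s => x.1) ⁻¹' c) ∩ ((fun x : Set.Iio s => x.1) ⁻¹' c') =
        (fun x : Set.Iio s => x.1) ⁻¹' (c ∩ c') := rfl
    rw [h3, hcc (c ∩ c') (fun x hx => hc hx.1)] at h2
    refine le_trans ?_ h2
    have hin : ∀ x ∈ (g T '' (A (π '' T) ((fun x : Set.Iio s => x.1) ⁻¹' c)) ∩
        g T' '' (A (π '' T') ((fun x : Set.Iio s => x.1) ⁻¹' c')) : Set K),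
        π x ∈ (A (π '' T) ((fun x : Set.Iio s => x.1) ⁻¹' c) ∩
          A (π '' T') ((fun x : Set.Iio s => x.1) ⁻¹' c')) ∧ g T (π x) = x := by
      rintro x ⟨⟨ξ, hξ, hξx⟩, ⟨ξ', hξ', hξx'⟩⟩
      have h4 := (hg T ξ (h1 hξ)).2
      rw [hξx] at h4
      have h5 := (hg T' ξ' (h1' hξ')).2
      rw [hξx'] at h5
      rw [h4]
      refine ⟨⟨hξ, ?_⟩, hξx⟩
      rw [← h4, h5]
      exact hξ'
    refine Cardinal.mk_le_of_injective (f := fun x => (⟨π x.1, (hin x.1 x.2).1⟩ :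
      (A (π '' T) ((fun x : Set.Iio s => x.1) ⁻¹' c) ∩
          A (π '' T') ((fun x : Set.Iio s => x.1) ⁻¹' c') : Set _))) ?_
    intro x x' hxx
    have h6 : π x.1 = π x'.1 := congrArg Subtype.val hxx
    have h7 := (hin x.1 x.2).2
    have h8 := (hin x'.1 x'.2).2
    rw [h6, h8] at h7
    exact Subtype.ext h7.symm

end Pool.Agent.LibGS
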