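import Pool.Agent.LibGS.ADefs
import Pool.Agent.LibGS.Cof
import Pool.Agent.LibGS.Code
import Pool.Agent.LibGS.LCAt

/-! [GS76 ARun, AClass] Case A: sets which do not stop. -/

set_option autoImplicit false

namespace Pool.Agent.LibGS

open Cardinal Set Order
open Pool.Agent.LibGP76 (RegK Ub Cl fl Stat)

variable {K : Type} [LinearOrder K] [WellFoundedLT K] {th : ℕ → Cardinal.{0}} {t : ℕ → K}
  {ix : K → ℕ}

/-- The invariant of the run. -/
def ARun_Inv (m : Mach ix th) (N₀ : {N : Set (Node K) // SysA ix th N}) (X : Set K)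
    (N : {N : Set (Node K) // SysA ix th N}) (T : Set (Node K)) : Prop :=
  ∃ s n, (s n).1 = N ∧ AdmA m N₀ X s n T

/-- One step of the run. -/
def ARun_Step (m : Mach ix th) (X : Set K) (N : {N : Set (Node K) // SysA ix th N})
    (T : Set (Node K)) (j : ℕ) (d : m.Dt N) (T' : Set (Node K)) (u : Node K) : Prop :=
  (u ∈ T ∧ u ∈ N.1) ∧ j < u.i ∧
    ((m.lb N d).1 ∈ u.P ∧ (m.lb N d).2 < u.y ∧ cf (m.lb N d).2 = succ (th u.i) ∧
      Acc (X ∩ u.P) (m.lb N d).2) ∧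
    (∀ u' ∈ T', ∃ u₁ ∈ T, u'.P ⊆ u₁.P) ∧
    ∀ B : Set K, (∃ n', ∀ x ∈ B, n' < ix x → ∃ u' ∈ T', x ∈ u'.P) → m.Fl N d B

theorem ARun_step (hA : Amb K ℕ th t) (hreg : ∀ n, (th n).IsRegular) (m : Mach ix th)
    (N₀ : {N : Set (Node K) // SysA ix th N}) (X : Set K) (hX : ¬ StopsA m N₀ X)
    (N : {N : Set (Node K) // SysA ix th N}) (T : Set (Node K)) (hInv : ARun_Inv m N₀ X N T)
    (j : ℕ) : ∃ (d : m.Dt N) (T' : Set (Node K)) (u : Node K), ARun_Step m X N T j d T' u ∧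
      ARun_Inv m N₀ X (m.nx N d) T' := by
  classical
  have _ := hA
  obtain ⟨s, n, hN, hadm⟩ := hInv
  obtain ⟨hch, hTN, hSel, hacc, hfol⟩ := hadm
  -- the bad nodes
  set T₁ : Set (Node K) := {u | u ∈ T ∧ Bad u} with hT₁
  have hSel₁ : Sel Node.i T₁ := by
    refine ⟨hSel.1.mono (fun u hu => hu.1), ?_⟩
    by_contra hcon
    unfold Ub at hcon
    push Not at hcon
    obtain ⟨c, hc⟩ := hcon
    apply hX
    refine ⟨s, n, {u | u ∈ T ∧ c < u.i}, ⟨hch, fun u hu => hTN hu.1,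
      ⟨hSel.1.mono (fun u hu => hu.1), ?_⟩, fun u hu => hacc u hu.1, ?_⟩, ?_⟩
    · intro c'
      obtain ⟨_, ⟨u, hu, rfl⟩, hlt⟩ := hSel.2 (max c c')
      exact ⟨u.i, ⟨u, ⟨hu, (le_max_left _ _).trans_lt hlt⟩, rfl⟩, (le_max_right _ _).trans_lt hlt⟩
    · rintro k hk B ⟨n', hn'⟩
      refine hfol k hk B ⟨n', fun x hx hix => ?_⟩
      obtain ⟨u, hu, hxu⟩ := hn' x hx hix
      exact ⟨u, hu.1, hxu⟩
    · rintro u ⟨hu, hcu⟩ hbad
      exact absurd hcu (not_lt.2 (hc u.i ⟨u, ⟨hu, hbad⟩, rfl⟩))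
  obtain ⟨_, ⟨u, hu, rfl⟩, hju⟩ := hSel₁.2 j
  have huT : u ∈ T := hu.1
  have huN : u ∈ N.1 := by
    have := hTN huT
    rwa [hN] at this
  have hbig : th u.i < cf u.y := N.2.big u huN
  have hsucc : succ (th u.i) < cf u.y := by
    refine lt_of_le_of_ne (succ_le_of_lt hbig) ?_
    intro h
    exact hu.2 ⟨th u.i, hreg u.i, h.symm⟩
  have hne : ∃ a, a < u.y := by
    by_contra hcon
    push Not at hcon
    have h1 : Set.Iio u.y = ∅ := by
      ext a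
      simp only [mem_Iio, mem_empty_iff_false, iff_false, not_lt]
      exact hcon a
    have h2 := cf_le u.y
    rw [h1, Cardinal.mk_eq_zero] at h2
    exact absurd (hbig.trans_le h2) (not_lt.2 (zero_le))
  obtain ⟨a, ha⟩ := hne
  obtain ⟨x₀, hx₀, _, _⟩ := hacc u huT a ha
  obtain ⟨b, hb, hb2⟩ := exists_next (hacc u huT)
  obtain ⟨w, _, hwy, hwb, hwc⟩ := exists_cl_cf hb (isRegular_succ (hreg u.i).aleph0_le) hsucc ha
  have hTN' : T₁ ⊆ N.1 := by
    intro v hv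
    have := hTN hv.1
    rwa [hN] at this
  obtain ⟨d, hd, T', hT'N, hSel', hT', hfol'⟩ := m.dens N X (x₀, w) T₁ hTN' hSel₁
    (fun v hv => ⟨hv.2, hacc v hv.1⟩)
  refine ⟨d, T', u, ⟨⟨huT, huN⟩, hju, ?_, ?_, hfol'⟩, ?_⟩
  · rw [hd]
    exact ⟨hx₀.2, hwy, hwc, hb2 w hwb hwy.le⟩
  · intro u' hu'
    obtain ⟨_, u₁, hu₁, hsub, _⟩ := hT' u' hu'
    exact ⟨u₁, hu₁.1, hsub⟩
  · -- the invariant
    set s' : ℕ → Σ N, m.Dt N := Function.update (Function.update s n ⟨N, d⟩) (n + 1)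
      ⟨m.nx N d, Classical.choice (m.ne _)⟩ with hs'
    have e1 : s' (n + 1) = ⟨m.nx N d, Classical.choice (m.ne _)⟩ := by
      rw [hs', Function.update_self]
    have e2 : s' n = ⟨N, d⟩ := by
      rw [hs', Function.update_of_ne (by omega), Function.update_self]
    have e3 : ∀ k, k < n → s' k = s k := by
      intro k hk
      rw [hs', Function.update_of_ne (by omega), Function.update_of_ne (by omega)]
    have e4 : ∀ k, k ≤ n → (s' k).1 = (s k).1 := by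
      intro k hk
      rcases hk.lt_or_eq with h | h
      · rw [e3 k h]
      · rw [h, e2, hN]
    refine ⟨s', n + 1, by rw [e1], ⟨?_, ?_⟩, ?_, hSel', fun v hv => (hT' v hv).1, ?_⟩
    · rw [e4 0 (Nat.zero_le n)]
      exact hch.1
    · intro k hk
      rcases (Nat.lt_succ_iff.1 hk).lt_or_eq with h | h
      · rw [e4 (k + 1) h, e3 k h]
        exact hch.2 k h
      · rw [h, e1, e2]
    · rw [e1]
      exact hT'N
    · rintro k hk B ⟨n', hn'⟩
      rcases (Nat.lt_succ_iff.1 hk).lt_or_eq with h | h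
      · rw [e3 k h]
        refine hfol k h B ⟨n', fun x hx hix => ?_⟩
        obtain ⟨u', hu', hxu'⟩ := hn' x hx hix
        obtain ⟨_, u₁, hu₁, hsub, _⟩ := hT' u' hu'
        exact ⟨u₁, hu₁.1, hsub hxu'⟩
      · rw [h, e2]
        exact hfol' B ⟨n', hn'⟩

/-- [ARun] The run of a set `X` that does not stop. PROOF. State: `(N, T)` with
`Inv (N, T) := ∃ s n, (s n).1 = N ∧ AdmA m N₀ X s n T`; the initial state is `(N₀, T₀)` (`n = 0`, with any
data, `m.ne`). STEP from `(N, T)`, given `j : ℕ`: only finitely many (boundedly many) nodes of `T` are not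
bad, otherwise they form a selection showing `StopsA`; let `T₁` be the set of the bad nodes `u ∈ T`
(still a selection), choose `u ∈ T₁` with `j < u.i`. There is `w < u.y` with `cf w = succ (th u.i)`,
`Acc (X ∩ u.P) w` (`exists_next`, `exists_cl_cf`; `succ (th u.i) < cf u.y` since `u` is bad and `th u.i` is
regular). Choose `x₀ ∈ X ∩ u.P`. Apply `m.dens` to `T₁` and the label `(x₀, w)`: `d`, `T'`. The next state is
`(m.nx N d, T')`: `Inv` holds with `s` changed at `n` and `n + 1` (sets almost contained in `⋃ T'` are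
almost contained in `⋃ T`). Iterate (`Nat.rec` on the subtype of the states with `Inv`, carrying `u.i`). -/
theorem runA (hA : Amb K ℕ th t) (hreg : ∀ n, (th n).IsRegular) (m : Mach ix th)
    (N₀ : {N : Set (Node K) // SysA ix th N}) (X : Set K) (hX : ¬ StopsA m N₀ X)
    (T₀ : Set (Node K)) (hT₀ : T₀ ⊆ N₀.1) (hS : Sel Node.i T₀)
    (hacc : ∀ u ∈ T₀, Acc (X ∩ u.P) u.y) :
    ∃ (s : ℕ → Σ N, m.Dt N) (T : ℕ → Set (Node K)) (u : ℕ → Node K), (s 0).1 = N₀ ∧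
      (∀ k, (s (k + 1)).1 = m.nx (s k).1 (s k).2) ∧ (∀ k, u k ∈ T k ∧ u k ∈ (s k).1.1) ∧
      (∀ k, (u k).i < (u (k + 1)).i) ∧
      (∀ k, ((m.lb (s k).1 (s k).2).1 ∈ (u k).P ∧ (m.lb (s k).1 (s k).2).2 < (u k).y ∧
        cf (m.lb (s k).1 (s k).2).2 = succ (th (u k).i) ∧
        Acc (X ∩ (u k).P) (m.lb (s k).1 (s k).2).2)) ∧
      (∀ k, ∀ u' ∈ T (k + 1), ∃ u₁ ∈ T k, u'.P ⊆ u₁.P) ∧
      ∀ k, ∀ B : Set K, (∃ n', ∀ x ∈ B, n' < ix x → ∃ u' ∈ T (k + 1), x ∈ u'.P) →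
        m.Fl (s k).1 (s k).2 B := by
  classical
  have h0 : ARun_Inv m N₀ X N₀ T₀ := by
    refine ⟨fun _ => ⟨N₀, Classical.choice (m.ne N₀)⟩, 0, rfl, ⟨rfl, fun k hk => ?_⟩, hT₀, hS, hacc,
      fun k hk => ?_⟩
    · exact absurd hk (Nat.not_lt_zero k)
    · exact absurd hk (Nat.not_lt_zero k)
  let Q : Type := {p : {N : Set (Node K) // SysA ix th N} × Set (Node K) × ℕ //
    ARun_Inv m N₀ X p.1 p.2.1}
  have hstep : ∀ q : Q, ∃ (d : m.Dt q.1.1) (T' : Set (Node K)) (u : Node K),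
      ARun_Step m X q.1.1 q.1.2.1 q.1.2.2 d T' u ∧ ARun_Inv m N₀ X (m.nx q.1.1 d) T' :=
    fun q => ARun_step hA hreg m N₀ X hX q.1.1 q.1.2.1 q.2 q.1.2.2
  choose d T' u hd hinv using hstep
  let next : Q → Q := fun q => ⟨(m.nx q.1.1 (d q), T' q, (u q).i), hinv q⟩
  let seq : ℕ → Q := fun k => Nat.rec (⟨(N₀, T₀, 0), h0⟩ : Q) (fun _ q => next q) k
  have hseq : ∀ k, seq (k + 1) = next (seq k) := fun k => rfl
  refine ⟨fun k => ⟨(seq k).1.1, d (seq k)⟩, fun k => (seq k).1.2.1, fun k => u (seq k), rfl,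
    fun k => rfl, fun k => (hd (seq k)).1, ?_, fun k => (hd (seq k)).2.2.1,
    fun k => (hd (seq k)).2.2.2.1, fun k => (hd (seq k)).2.2.2.2⟩
  intro k
  exact (hd (seq (k + 1))).2.1

end Pool.Agent.LibGS
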