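import Pool.Agent.LibGS.AOne
import Pool.Agent.LibGS.Scale

/-! [GS76 AStage] Case A: the machine of all stages. -/

set_option autoImplicit false

namespace Pool.Agent.LibGS

open Cardinal Set Order
open Pool.Agent.LibGP76 (RegK Ub Cl fl Stat)
open Pool.Agent.LibGPR (Lad)

variable {K L : Type} [LinearOrder K] [WellFoundedLT K] [LinearOrder L] [WellFoundedLT L]
  {th : ℕ → Cardinal.{0}} {t : ℕ → K} {ix : K → ℕ}

/-- The selections of bad nodes with a true scale. -/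
def AStage_S (K : Type) [LinearOrder K] (N : Set (Node K)) : Set (Set (Node K)) :=
  {M | M ⊆ N ∧ Sel Node.i M ∧ (∀ u ∈ M, Bad u) ∧
    ∃ (L : Type) (_ : LinearOrder L) (_ : WellFoundedLT L) (f : L → Node K → K),
      RegK L ∧ #K < #L ∧ TS Node.i M Node.y f}

/-- The levels of one selection. -/
theorem AStage_sel (hA : Amb K ℕ th t) (hreg : ∀ n, (th n).IsRegular) {N : Set (Node K)}
    (hN : SysA ix th N) {M : Set (Node K)} (hM : M ∈ AStage_S K N) :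
    ∃ (L : Type) (lab : L → K × K) (Q : L → Node K → Set K) (Fl : L → Set K → Prop),
      (∀ δ δ' B B', δ ≠ δ' → Fl δ B → Fl δ' B' → ∃ n, ∀ x ∈ B ∩ B', ix x ≤ n) ∧
      (∀ δ B, Fl δ B → ∃ n, ∀ x ∈ B, n < ix x → ∃ u ∈ M, x ∈ u.P) ∧
      ∀ (X : Set K) (a : K × K) (T : Set (Node K)),
        T ⊆ M → Ub (Node.i '' T) → (∀ u ∈ T, Acc (X ∩ u.P) u.y) → ∃ δ, lab δ = a ∧
          ∃ T' ⊆ nxA th M (Q δ), Sel Node.i T' ∧
            (∀ u' ∈ T', Acc (X ∩ u'.P) u'.y ∧ ∃ u ∈ T, u'.P ⊆ u.P ∧ u'.i = u.i) ∧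
            ∀ B : Set K, (∃ n, ∀ x ∈ B, n < ix x → ∃ u' ∈ T', x ∈ u'.P) → Fl δ B := by
  obtain ⟨hMN, hs, hbad, L, i1, i2, f, hL, hKL, hf⟩ := hM
  obtain ⟨lab, Q, h⟩ := one_selA hA hreg hL hKL hN hMN hs hbad f hf
  refine ⟨L, lab, Q, fun δ B => FlA ix M f δ B, ?_, ?_, h⟩
  · intro δ δ' B B' hδ hB hB'
    exact flA_same hN hMN f hδ hB hB'
  · rintro δ B ⟨-, n, hn⟩
    refine ⟨n, fun x hx hix => ?_⟩
    obtain ⟨u, hu, hxu, -⟩ := hn x hx hix
    exact ⟨u, hu, hxu⟩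

/-- The data of one stage. -/
theorem AStage_one (hA : Amb K ℕ th t) (hreg : ∀ n, (th n).IsRegular)
    (N : {N : Set (Node K) // SysA ix th N}) :
    ∃ (D : Type) (_ : Nonempty D) (nx : D → {N : Set (Node K) // SysA ix th N})
      (lb : D → K × K) (Fl : D → Set K → Prop),
      (∀ d d' B B', d ≠ d' → Fl d B → Fl d' B' → ∃ n, ∀ x ∈ B ∩ B', ix x ≤ n) ∧
      (∀ d B, Fl d B → ∃ n, ∀ x ∈ B, n < ix x → ∃ u ∈ N.1, Bad u ∧ x ∈ u.P) ∧
      ∀ (X : Set K) (a : K × K) (T : Set (Node K)), T ⊆ N.1 → Sel Node.i T →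
        (∀ u ∈ T, Bad u ∧ Acc (X ∩ u.P) u.y) →
        ∃ d, lb d = a ∧ ∃ T' ⊆ (nx d).1, Sel Node.i T' ∧
          (∀ u' ∈ T', Acc (X ∩ u'.P) u'.y ∧ ∃ u ∈ T, u'.P ⊆ u.P ∧ u'.i = u.i) ∧
          ∀ B : Set K, (∃ n, ∀ x ∈ B, n < ix x → ∃ u' ∈ T', x ∈ u'.P) → Fl d B := by
  obtain ⟨N, hN⟩ := N
  obtain ⟨hK, hNK⟩ := AOne_card hA
  have hne : Nonempty K := by
    rw [← mk_ne_zero_iff]
    exact (aleph0_pos.trans_le hK).ne'
  obtain ⟨k₀⟩ := hne
  obtain ⟨MM, hMS, hMd, hMm⟩ := exists_mad Node.i (AStage_S K N) (fun T hT => hT.2.1.2)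
  have hsel := fun M : MM => AStage_sel hA hreg hN (hMS M.2)
  choose L lab Q Fl h1 h2 h3 using hsel
  have hemp : SysA ix th (∅ : Set (Node K)) :=
    ⟨fun u hu => absurd hu (notMem_empty u), fun u hu => absurd hu (notMem_empty u),
      fun u hu => absurd hu (notMem_empty u)⟩
  refine ⟨Option (Σ M : MM, L M), ⟨none⟩,
    fun d => d.elim ⟨∅, hemp⟩ (fun d => ⟨nxA th d.1.1 (Q d.1 d.2),
      sysA_nx hN (hMS d.1.2).1 (Q d.1 d.2)⟩),
    fun d => d.elim (k₀, k₀) (fun d => lab d.1 d.2),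
    fun d B => d.elim False (fun d => Fl d.1 d.2 B), ?_, ?_, ?_⟩
  · rintro (_ | ⟨M, δ⟩) (_ | ⟨M', δ'⟩) B B' hd hB hB'
    · exact hB.elim
    · exact hB.elim
    · exact hB'.elim
    · simp only [Option.elim_some] at hB hB'
      by_cases hMM : M = M'
      · subst hMM
        refine h1 M δ δ' B B' (fun h => hd ?_) hB hB'
        rw [h]
      · have hMM' : M.1 ≠ M'.1 := fun h => hMM (Subtype.ext h)
        have h4 := hMd M.1 M.2 M'.1 M'.2 hMM'
        obtain ⟨n, hn⟩ := h2 M δ B hB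
        obtain ⟨n', hn'⟩ := h2 M' δ' B' hB'
        have h5 : ∃ m, ∀ u ∈ M.1 ∩ M'.1, u.i ≤ m := by
          by_contra hcon
          push Not at hcon
          apply h4
          intro m
          obtain ⟨u, hu, hum⟩ := hcon m
          exact ⟨u.i, ⟨u, hu, rfl⟩, hum⟩
        obtain ⟨m, hm⟩ := h5
        refine ⟨max m (max n n'), fun x hx => ?_⟩
        by_contra hcon
        rw [not_le, max_lt_iff, max_lt_iff] at hcon
        obtain ⟨u, hu, hxu⟩ := hn x hx.1 hcon.2.1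
        obtain ⟨u', hu', hxu'⟩ := hn' x hx.2 hcon.2.2
        have huN := (hMS M.2).1 hu
        have huN' := (hMS M'.2).1 hu'
        have huu : u = u' := by
          by_contra hne
          exact Set.disjoint_left.1 (hN.disj u huN u' huN' hne) hxu hxu'
        subst huu
        have h6 := hm u ⟨hu, hu'⟩
        have h7 := (hN.sub u huN x hxu).2
        omega
  · rintro (_ | ⟨M, δ⟩) B hB
    · exact hB.elim
    · obtain ⟨n, hn⟩ := h2 M δ B hB
      refine ⟨n, fun x hx hix => ?_⟩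
      obtain ⟨u, hu, hxu⟩ := hn x hx hix
      exact ⟨u, (hMS M.2).1 hu, (hMS M.2).2.2.1 u hu, hxu⟩
  · intro X a T hTN hT hbX
    have hcf : ∀ u ∈ T, th (Node.i u) < cf (Node.y u) := fun u hu => hN.big u (hTN hu)
    obtain ⟨T₁, hT₁, hs₁, L₁, i1, i2, f₁, hL₁, hKL₁, hf₁⟩ := exists_ts hA.reg Node.i T hT Node.y
      (fun u hu => by
        refine lt_of_le_of_lt ?_ ((hA.mu u.i).trans (hcf u hu))
        exact ((le_succ _).trans (le_succ _)).trans (le_succ _)) #K hNK.le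
      (bd_of_cf hA Node.i T Node.y hcf)
    have hTS : T₁ ∈ AStage_S K N :=
      ⟨hT₁.trans hTN, hs₁, fun u hu => (hbX u (hT₁ hu)).1, L₁, i1, i2, f₁, hL₁, hKL₁, hf₁⟩
    obtain ⟨M, hM, hU⟩ := hMm T₁ hTS
    obtain ⟨δ, hδ, T', hT', hs', hq, hB⟩ := h3 ⟨M, hM⟩ X a (T₁ ∩ M) inter_subset_right hU
      (fun u hu => (hbX u (hT₁ hu.1)).2)
    refine ⟨some ⟨⟨M, hM⟩, δ⟩, hδ, T', hT', hs', fun u' hu' => ?_, hB⟩
    obtain ⟨h4, u, hu, h5⟩ := hq u' hu'
    exact ⟨h4, u, hT₁ hu.1, h5⟩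

/-- The machine. PROOF. Fix a system `N`. Let `S` be the set of all `M ⊆ N` with `Sel Node.i M`, all nodes
bad, which have a true scale: there are `L`, `f` with `RegK L`, `#K < #L`, `TS Node.i M Node.y f`. Let `MM` be
from `exists_mad`. For `M ∈ MM` choose `L M`, `f M` and `lab`, `Q` by `one_selA`. Let
`Dt = Option (Σ M : MM, L M)`, `nx (M, δ) = nxA th M (Q M δ)` (`sysA_nx`), `lb (M, δ) = lab M δ`,
`Fl (M, δ) B = FlA ix M (f M) δ B`; `none` is junk: `nx none = ∅`, `Fl none B = False`. `orth`: `flA_same`,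
`flA_diff`. `bad`: second half of `FlA`. `dens`: `T` contains some `T₁ ∈ S` (`exists_ts` with `ν = #K`,
`bd_of_cf`; `#K < #L`), so there is `M ∈ MM` with `T₁ ∩ M` unbounded; apply `one_selA` to `T₁ ∩ M`. -/
theorem exists_machA (hA : Amb K ℕ th t) (hreg : ∀ n, (th n).IsRegular) (ix : K → ℕ) :
    Nonempty (Mach ix th) := by
  have h := fun N : {N : Set (Node K) // SysA ix th N} => AStage_one hA hreg N
  choose D ne nx lb Fl h1 h2 h3 using h
  exact ⟨⟨D, ne, nx, lb, Fl, h1, h2, h3⟩⟩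

end Pool.Agent.LibGS
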