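import Pool.Agent.LibGS.ADefs
import Pool.Agent.LibGS.Code
import Pool.Agent.LibGS.LCAt

/-! [GS76 AStop] Case A: classes of stopping sets. -/

set_option autoImplicit false

namespace Pool.Agent.LibGS

open Cardinal Set Order
open Pool.Agent.LibGP76 (RegK Ub Cl fl Stat)

variable {K : Type} [LinearOrder K] [WellFoundedLT K] {th : ℕ → Cardinal.{0}} {t : ℕ → K}
  {ix : K → ℕ}

/-- The local coders. -/
private theorem aStop_coder (hA : Amb K ℕ th t) (htt : ∀ n, #(Set.Iio (t n)) < th n) :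
    ∃ A : K → ℕ → Set K → Set K → Set K, ∀ y n, Good (cf y) → th n < cf y →
      (∀ T c, T ⊆ Iio y → Acc T y → c ⊆ Iio (t n) → A y n T c ⊆ T ∧ #(A y n T c) = #c) ∧
      ∀ T T' c c', T ⊆ Iio y → T' ⊆ Iio y → Acc T y → Acc T' y → c ⊆ Iio (t n) →
        c' ⊆ Iio (t n) → #(A y n T c ∩ A y n T' c' : Set K) ≤ #(c ∩ c' : Set K) + ℵ₀ := by
  have h : ∀ y n, ∃ A : Set K → Set K → Set K, Good (cf y) → th n < cf y →
      (∀ T c, T ⊆ Iio y → Acc T y → c ⊆ Iio (t n) → A T c ⊆ T ∧ #(A T c) = #c) ∧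
      ∀ T T' c c', T ⊆ Iio y → T' ⊆ Iio y → Acc T y → Acc T' y → c ⊆ Iio (t n) →
        c' ⊆ Iio (t n) → #(A T c ∩ A T' c' : Set K) ≤ #(c ∩ c' : Set K) + ℵ₀ := by
    intro y n
    by_cases hg : Good (cf y) ∧ th n < cf y
    · obtain ⟨⟨l, hl, hy⟩, hn⟩ := hg
      have h1 : th n ≤ l := by
        rw [hy] at hn
        exact Order.lt_succ_iff.1 hn
      have h2 : succ (succ ℵ₀) ≤ l := by
        have h3 := hA.mu n
        rw [Cardinal.mk_nat] at h3
        have h4 : succ (succ (ℵ₀ : Cardinal.{0})) ≤ succ (succ (succ (succ ℵ₀))) :=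
          (Order.le_succ _).trans (Order.le_succ _)
        exact (h4.trans h3.le).trans h1
      obtain ⟨A, hA1, hA2⟩ := local_at hA.small y (t n) l hl h2 hy ((htt n).trans_le h1)
      exact ⟨A, fun _ _ => ⟨hA1, hA2⟩⟩
    · exact ⟨fun _ _ => ∅, fun h1 h2 => absurd ⟨h1, h2⟩ hg⟩
  choose A hAA using h
  exact ⟨A, hAA⟩

/-- The witnesses for the classes. -/
private structure AStopW (m : Mach ix th) (N₀ : {N : Set (Node K) // SysA ix th N}) (t : ℕ → K)
    (A : K → ℕ → Set K → Set K → Set K) (C B : Set K) (s : ℕ → Σ N, m.Dt N) (n : ℕ)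
    (T : Set (Node K)) (X : Node K → Set K) : Prop where
  cC : #C = #K
  ch : ChainA m N₀ s n
  sub : T ⊆ (s n).1.1
  sel : Sel Node.i T
  good : ∀ u ∈ T, ¬ Bad u
  fl : ∀ k < n, m.Fl (s k).1 (s k).2 B
  hX : ∀ u ∈ T, X u ⊆ u.P ∧ Acc (X u) u.y
  hB : B = ⋃ u ∈ T, A u.y u.i (X u) (C ∩ Iio (t u.i))

private theorem aStop_eq (m : Mach ix th) (a a' : Σ N, m.Dt N) (h : a.1 = a'.1) {B B' : Set K}
    (hF : m.Fl a.1 a.2 B) (hF' : m.Fl a'.1 a'.2 B') (hnb : ¬ ∃ n, ∀ x ∈ B ∩ B', ix x ≤ n) :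
    a = a' := by
  obtain ⟨N, d⟩ := a
  obtain ⟨N', d'⟩ := a'
  have h' : N = N' := h
  subst h'
  by_contra hne
  have hdd : d ≠ d' := by
    rintro rfl
    exact hne rfl
  exact hnb (m.orth N d d' B B' hdd hF hF')

/-- two chains followed by sets with unbounded intersection agree. -/
private theorem aStop_chain (m : Mach ix th) (N₀ : {N : Set (Node K) // SysA ix th N})
    {s s' : ℕ → Σ N, m.Dt N} {n n' : ℕ} (hc : ChainA m N₀ s n) (hc' : ChainA m N₀ s' n')
    {B B' : Set K} (hF : ∀ k < n, m.Fl (s k).1 (s k).2 B)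
    (hF' : ∀ k < n', m.Fl (s' k).1 (s' k).2 B') (hnb : ¬ ∃ n, ∀ x ∈ B ∩ B', ix x ≤ n) :
    ∀ k, k ≤ n → k ≤ n' → (s k).1 = (s' k).1 := by
  intro k
  induction k with
  | zero =>
    intro _ _
    rw [hc.1, hc'.1]
  | succ k ih =>
    intro h1 h2
    have h3 := aStop_eq m (s k) (s' k) (ih (by omega) (by omega)) (hF k (by omega))
      (hF' k (by omega)) hnb
    rw [hc.2 k (by omega), hc'.2 k (by omega), h3]

/-- the nodes of the points of the set. -/
private theorem aStop_node {m : Mach ix th} {N₀ : {N : Set (Node K) // SysA ix th N}}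
    {A : K → ℕ → Set K → Set K → Set K}
    (hAA : ∀ y n, Good (cf y) → th n < cf y →
      (∀ T c, T ⊆ Iio y → Acc T y → c ⊆ Iio (t n) → A y n T c ⊆ T ∧ #(A y n T c) = #c) ∧
      ∀ T T' c c', T ⊆ Iio y → T' ⊆ Iio y → Acc T y → Acc T' y → c ⊆ Iio (t n) →
        c' ⊆ Iio (t n) → #(A y n T c ∩ A y n T' c' : Set K) ≤ #(c ∩ c' : Set K) + ℵ₀)
    {C B : Set K} {s : ℕ → Σ N, m.Dt N} {n : ℕ} {T : Set (Node K)} {X : Node K → Set K}
    (hw : AStopW m N₀ t A C B s n T X) {x : K} (hx : x ∈ B) :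
    ∃ u ∈ T, x ∈ u.P ∧ x ∈ A u.y u.i (X u) (C ∩ Iio (t u.i)) := by
  rw [hw.hB] at hx
  simp only [mem_iUnion] at hx
  obtain ⟨u, hu, hx⟩ := hx
  have hg : Good (cf u.y) := not_not.1 (hw.good u hu)
  have hsys := (s n).1.2
  have h1 := (hAA u.y u.i hg (hsys.big u (hw.sub hu))).1 (X u) (C ∩ Iio (t u.i))
    (fun z hz => (hsys.sub u (hw.sub hu) z ((hw.hX u hu).1 hz)).1) (hw.hX u hu).2
    inter_subset_right
  exact ⟨u, hu, (hw.hX u hu).1 (h1.1 hx), hx⟩

/-- chains of different lengths: contradiction. -/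
private theorem aStop_lt {m : Mach ix th} {N₀ : {N : Set (Node K) // SysA ix th N}}
    {A : K → ℕ → Set K → Set K → Set K}
    (hAA : ∀ y n, Good (cf y) → th n < cf y →
      (∀ T c, T ⊆ Iio y → Acc T y → c ⊆ Iio (t n) → A y n T c ⊆ T ∧ #(A y n T c) = #c) ∧
      ∀ T T' c c', T ⊆ Iio y → T' ⊆ Iio y → Acc T y → Acc T' y → c ⊆ Iio (t n) →
        c' ⊆ Iio (t n) → #(A y n T c ∩ A y n T' c' : Set K) ≤ #(c ∩ c' : Set K) + ℵ₀)
    {C B : Set K} {s : ℕ → Σ N, m.Dt N} {n : ℕ} {T : Set (Node K)} {X : Node K → Set K}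
    (hw : AStopW m N₀ t A C B s n T X)
    {C' B' : Set K} {s' : ℕ → Σ N, m.Dt N} {n' : ℕ} {T' : Set (Node K)} {X' : Node K → Set K}
    (hw' : AStopW m N₀ t A C' B' s' n' T' X') (hlt : n < n')
    (hnb : ¬ ∃ n, ∀ x ∈ B ∩ B', ix x ≤ n) : False := by
  have h1 := aStop_chain m N₀ hw.ch hw'.ch hw.fl hw'.fl hnb n le_rfl hlt.le
  obtain ⟨n₀, hn₀⟩ := m.bad (s' n).1 (s' n).2 B' (hw'.fl n hlt)
  apply hnb
  refine ⟨n₀, fun x hx => ?_⟩
  by_contra hcon
  obtain ⟨u', hu', hbad, hxu'⟩ := hn₀ x hx.2 (not_le.1 hcon)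
  obtain ⟨u, hu, hxu, -⟩ := aStop_node hAA hw hx.1
  have hu2 : u ∈ (s' n).1.1 := by
    rw [← h1]
    exact hw.sub hu
  by_cases huu : u = u'
  · rw [← huu] at hbad
    exact hw.good u hu hbad
  · exact Set.disjoint_left.1 ((s' n).1.2.disj u hu2 u' hu' huu) hxu hxu'

/-- The classes of stopping sets. PROOF. Choose local coders `A y n` (`local_at` with `s = t n`) for all
`y`, `n` with `Good (cf y)`, `th n < cf y` (`cf y = succ l` gives `th n ≤ l`, `#(Iio (t n)) < th n`,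
`ℵ₂ < th n` by `hA.mu`). `Cls C B` iff there are `s`, `n`, `T` with `ChainA m N₀ s n`, `T ⊆ (s n).1`,
`Sel Node.i T`, no node of `T` bad, `∀ k < n, m.Fl (s k).1 (s k).2 B`, and sets `X u`, `u ∈ T`, with
`X u ⊆ Iio u.y`, `Acc (X u) u.y`, `B = ⋃ u ∈ T, A u.y u.i (X u) (C ∩ Iio (t u.i))`, `X u ⊆ u.P`.
`#B = #K`: `code_union`. Density: `X u = X ∩ u.P`; `B` follows by the last clause of `AdmA`.
ORTHOGONALITY. Let `s n T B`, `s' n' T' B'`, `#(C ∩ C') < #K`. If there is `n₁` with `ix x ≤ n₁` for all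
`x ∈ B ∩ B'` then `#(B ∩ B') < #K` (`{x | ix x ≤ n₁}` is small by `hix`). So suppose not. By induction on `k`,
`s k = s' k` for all `k < min n n'` (`(s k).1 = (s' k).1` by `ChainA`, then `m.orth`), and
`(s k).1 = (s' k).1` for `k ≤ min n n'`. If `n < n'`: by `m.bad` almost all `x ∈ B'` are in a bad node of
`(s n).1 = (s' n).1`, but every `x ∈ B` is in a node of `T` which is not bad: the nodes are equal by
`SysA.disj`, contradiction. If `n = n'` then `x ∈ B ∩ B'` lies in `u ∈ T`, `u' ∈ T'`, `u = u'`; so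
`B ∩ B'` is the union over `n` of sets `E n` (index `n`) with `#(E n) ≤ #(C ∩ C') + ℵ₀` (`local_at`), and
`small_iUnion` applies. -/
theorem classes_stopA (hA : Amb K ℕ th t) (htt : ∀ n, #(Set.Iio (t n)) < th n)
    (hix : ∀ n, #{x | ix x < n} ≤ th n) (m : Mach ix th)
    (N₀ : {N : Set (Node K) // SysA ix th N}) :
    ∃ Cls : Set K → Set K → Prop, (∀ C B, Cls C B → #B = #K) ∧
      (∀ C C', #(C ∩ C' : Set K) < #K → ∀ B B', Cls C B → Cls C' B' → #(B ∩ B' : Set K) < #K) ∧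
      ∀ X, StopsA m N₀ X → ∀ C : Set K, #C = #K → ∃ B, B ⊆ X ∧ Cls C B := by
  classical
  obtain ⟨A, hAA⟩ := aStop_coder hA htt
  have hK0 : ℵ₀ < #K := by
    have h1 := hA.mu 0
    rw [Cardinal.mk_nat] at h1
    have h4 : (ℵ₀ : Cardinal.{0}) ≤ succ (succ (succ (succ ℵ₀))) :=
      (((Order.le_succ _).trans (Order.le_succ _)).trans (Order.le_succ _)).trans
        (Order.le_succ _)
    exact (h4.trans_lt h1).trans (hA.lt 0)
  refine ⟨fun C B => ∃ s n T X, AStopW m N₀ t A C B s n T X, ?_, ?_, ?_⟩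
  · rintro C B ⟨s, n, T, X, hw⟩
    refine code_union hA Node.i T hw.sel.2 C hw.cC B
      (fun u => A u.y u.i (X u) (C ∩ Iio (t u.i))) ?_ ?_
    · intro u hu x hx
      rw [hw.hB]
      simp only [mem_iUnion]
      exact ⟨u, hu, hx⟩
    · intro u hu
      have hg : Good (cf u.y) := not_not.1 (hw.good u hu)
      have hsys := (s n).1.2
      exact ((hAA u.y u.i hg (hsys.big u (hw.sub hu))).1 (X u) (C ∩ Iio (t u.i))
        (fun z hz => (hsys.sub u (hw.sub hu) z ((hw.hX u hu).1 hz)).1) (hw.hX u hu).2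
        inter_subset_right).2
  · rintro C C' hCC B B' ⟨s, n, T, X, hw⟩ ⟨s', n', T', X', hw'⟩
    by_cases hnb : ∃ n, ∀ x ∈ B ∩ B', ix x ≤ n
    · obtain ⟨n₁, hn₁⟩ := hnb
      have h1 : (B ∩ B' : Set K) ⊆ {x | ix x < n₁ + 1} := fun x hx =>
        Nat.lt_succ_of_le (hn₁ x hx)
      exact (mk_le_mk_of_subset h1).trans_lt ((hix (n₁ + 1)).trans_lt (hA.lt _))
    · rcases lt_trichotomy n n' with hlt | heq | hlt
      · exact (aStop_lt hAA hw hw' hlt hnb).elim
      · subst heq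
        have hN := aStop_chain m N₀ hw.ch hw'.ch hw.fl hw'.fl hnb n le_rfl le_rfl
        refine small_iUnion hA (B ∩ B') (fun i => {x | x ∈ B ∩ B' ∧ ix x = i})
          (fun x hx => ⟨ix x, hx, rfl⟩) (#(C ∩ C' : Set K) + ℵ₀)
          (add_lt_of_lt hK0.le hCC hK0) ?_
        intro i
        by_cases hne : ({x | x ∈ B ∩ B' ∧ ix x = i} : Set K).Nonempty
        · obtain ⟨x₀, hx₀, hix₀⟩ := hne
          obtain ⟨u, hu, hxu, hxA⟩ := aStop_node hAA hw hx₀.1
          have hsys := (s n).1.2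
          have hui : u.i = i := by
            rw [← hix₀]
            exact ((hsys.sub u (hw.sub hu) x₀ hxu).2).symm
          have hu' : u ∈ T' := by
            obtain ⟨u', hu', hxu', -⟩ := aStop_node hAA hw' hx₀.2
            have h2 : u' ∈ (s n).1.1 := by
              rw [hN]
              exact hw'.sub hu'
            by_cases huu : u = u'
            · rw [huu]; exact hu'
            · exact (Set.disjoint_left.1 (hsys.disj u (hw.sub hu) u' h2 huu) hxu hxu').elim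
          have hg : Good (cf u.y) := not_not.1 (hw.good u hu)
          have hsub : ({x | x ∈ B ∩ B' ∧ ix x = i} : Set K) ⊆
              A u.y u.i (X u) (C ∩ Iio (t u.i)) ∩ A u.y u.i (X' u) (C' ∩ Iio (t u.i)) := by
            rintro x ⟨hx, hxi⟩
            constructor
            · obtain ⟨v, hv, hxv, hxvA⟩ := aStop_node hAA hw hx.1
              have h3 : v.i = u.i := by
                rw [hui, ← hxi]
                exact ((hsys.sub v (hw.sub hv) x hxv).2).symm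
              have h4 : v = u := hw.sel.1 hv hu h3
              rw [h4] at hxvA
              exact hxvA
            · obtain ⟨v, hv, hxv, hxvA⟩ := aStop_node hAA hw' hx.2
              have h3 : v.i = u.i := by
                rw [hui, ← hxi]
                exact (((s' n).1.2.sub v (hw'.sub hv) x hxv).2).symm
              have h4 : v = u := hw'.sel.1 hv hu' h3
              rw [h4] at hxvA
              exact hxvA
          have h5 := (hAA u.y u.i hg (hsys.big u (hw.sub hu))).2 (X u) (X' u)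
            (C ∩ Iio (t u.i)) (C' ∩ Iio (t u.i))
            (fun z hz => (hsys.sub u (hw.sub hu) z ((hw.hX u hu).1 hz)).1)
            (fun z hz => (hsys.sub u (hw.sub hu) z ((hw'.hX u hu').1 hz)).1)
            (hw.hX u hu).2 (hw'.hX u hu').2 inter_subset_right inter_subset_right
          have h6 : #((C ∩ Iio (t u.i)) ∩ (C' ∩ Iio (t u.i)) : Set K) ≤ #(C ∩ C' : Set K) :=
            mk_le_mk_of_subset (fun x hx => ⟨hx.1.1, hx.2.1⟩)
          exact ((mk_le_mk_of_subset hsub).trans h5).trans (add_le_add h6 le_rfl)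
        · rw [Set.not_nonempty_iff_eq_empty.1 hne]
          simp
      · have hnb' : ¬ ∃ n, ∀ x ∈ B' ∩ B, ix x ≤ n := by
          rw [inter_comm]
          exact hnb
        exact (aStop_lt hAA hw' hw hlt hnb').elim
  · rintro X ⟨s, n, T, ⟨hch, hsub, hsel, hacc, hfl⟩, hgood⟩ C hC
    have hw : AStopW m N₀ t A C (⋃ u ∈ T, A u.y u.i (X ∩ u.P) (C ∩ Iio (t u.i))) s n T
        (fun u => X ∩ u.P) := by
      refine ⟨hC, hch, hsub, hsel, hgood, ?_, fun u hu => ⟨inter_subset_right, hacc u hu⟩, rfl⟩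
      intro k hk
      apply hfl k hk
      refine ⟨0, fun x hx _ => ?_⟩
      simp only [mem_iUnion] at hx
      obtain ⟨u, hu, hx⟩ := hx
      have hg : Good (cf u.y) := not_not.1 (hgood u hu)
      have hsys := (s n).1.2
      have h1 := (hAA u.y u.i hg (hsys.big u (hsub hu))).1 (X ∩ u.P) (C ∩ Iio (t u.i))
        (fun z hz => (hsys.sub u (hsub hu) z hz.2).1) (hacc u hu) inter_subset_right
      exact ⟨u, hu, (h1.1 hx).2⟩
    refine ⟨_, ?_, s, n, T, _, hw⟩
    intro x hx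
    simp only [mem_iUnion] at hx
    obtain ⟨u, hu, hx⟩ := hx
    have hg : Good (cf u.y) := not_not.1 (hgood u hu)
    have hsys := (s n).1.2
    have h1 := (hAA u.y u.i hg (hsys.big u (hsub hu))).1 (X ∩ u.P) (C ∩ Iio (t u.i))
      (fun z hz => (hsys.sub u (hsub hu) z hz.2).1) (hacc u hu) inter_subset_right
    exact (h1.1 hx).1

end Pool.Agent.LibGS
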