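import Pool.Agent.LibGS.BChart1
import Pool.Agent.LibGS.Scale

/-! [GS76 BChart] Case B: all charts. -/

set_option autoImplicit false

namespace Pool.Agent.LibGS

open Cardinal Set Order
open Pool.Agent.LibGP76 (RegK Ub Cl fl Stat)
open Pool.Agent.LibGPR (Lad)

variable {K I L : Type} [LinearOrder K] [WellFoundedLT K] [LinearOrder I] [WellFoundedLT I]
  [LinearOrder L] [WellFoundedLT L] {th : I → Cardinal.{0}} {t : I → K}

/-- ALL CHARTS. PROOF. Blocks `u = (i, ρ)`, `P u = {x | ix x = i ∧ Fs x = ρ}`. Let `S` be the set of all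
`M : Set (I × K)` with `Sel Prod.fst M`, `th u.1 < cf u.2` on `M`, which have a true scale: there are
`L`, `f` with `RegK L`, `#K < #L`, `TS Prod.fst M Prod.snd f`. Let `MM` be from `exists_mad`; apply
`one_chart` to every `M ∈ MM`; `DD = Σ M : MM, DD M`. Cross-disjointness for `M ≠ M'`: let `r₀` be a bound
of `Prod.fst '' (M ∩ M')`; a common point of `R r i` and `R' r' i'` lies in one block `u ∈ M ∩ M'`
(`u = u'` as both contain `x`), `r < i = u.1 ≤ r₀`. DENSITY: for `X ∈ p` the blocks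
`(i', ρ)` with `th i' < cf ρ`, `Acc (X ∩ P (i', ρ)) ρ`, one for each possible `i'`, form a selection `T₀`
(`hX`); by `exists_ts` (`ν = #K`, `bd_of_cf`, `hA.mu`) it contains some `T₁ ∈ S`, and there is `M ∈ MM` with
`T₁ ∩ M` unbounded. -/
theorem exists_charts (hA : Amb K I th t) (ix : K → I) (Fs : K → K) (p : Ultrafilter K)
    (hX : ∀ X ∈ p, ∀ i, ∃ i' > i, ∃ ρ, th i' < cf ρ ∧
        Acc {x | x ∈ X ∧ ix x = i' ∧ Fs x = ρ} ρ) :
    ∃ (DD : Type) (R : DD → I → I → Set K) (NS0 : DD → Set (I × I × K)),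
      (∀ d r i r' i', (r, i) ≠ (r', i') → Disjoint (R d r i) (R d r' i')) ∧
      (∀ d d', d ≠ d' → ∃ r₀, ∀ r i r' i', r₀ < r → r₀ < r' →
        Disjoint (R d r i) (R d' r' i')) ∧
      (∀ d r, #{q | q ∈ NS0 d ∧ q.1 = r} ≤ succ (th r)) ∧
      (∀ d, ∀ q ∈ NS0 d, succ (succ (th q.1)) ≤ cf q.2.2) ∧
      ∀ X ∈ p, ∃ d, ∀ r, ∃ i y, (r, i, y) ∈ NS0 d ∧ Acc (X ∩ R d r i) y := by
  classical
  set P : I × K → Set K := fun u => {x | ix x = u.1 ∧ Fs x = u.2} with hPdef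
  have hP : ∀ u u', u ≠ u' → Disjoint (P u) (P u') := by
    intro u u' huu
    rw [Set.disjoint_left]
    rintro x ⟨h1, h2⟩ ⟨h3, h4⟩
    exact huu (Prod.ext (h1.symm.trans h3) (h2.symm.trans h4))
  set S : Set (Set (I × K)) := {M | Sel Prod.fst M ∧ (∀ u ∈ M, th u.1 < cf u.2) ∧
    ∃ (L : Type) (_ : LinearOrder L) (_ : WellFoundedLT L) (f : L → I × K → K),
      RegK L ∧ #K < #L ∧ TS Prod.fst M Prod.snd f} with hSdef
  obtain ⟨MM, hMM, hmad, hmax⟩ := exists_mad (N := I × K) (I := I) Prod.fst S (fun T hT => hT.1.2)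
  have key : ∀ M : MM, ∃ (DD : Type) (R : DD → I → I → Set K) (NS0 : DD → Set (I × I × K)),
      (∀ d r i r' i', (r, i) ≠ (r', i') → Disjoint (R d r i) (R d r' i')) ∧
      (∀ d d', d ≠ d' → ∃ r₀, ∀ r i r' i', r₀ < r → r₀ < r' →
        Disjoint (R d r i) (R d' r' i')) ∧
      (∀ d r, #{q | q ∈ NS0 d ∧ q.1 = r} ≤ succ (th r)) ∧
      (∀ d, ∀ q ∈ NS0 d, succ (succ (th q.1)) ≤ cf q.2.2) ∧
      (∀ d r i x, x ∈ R d r i → ∃ u ∈ (M : Set (I × K)), u.1 = i ∧ r < i ∧ x ∈ P u) ∧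
      ∀ (X : Set K) (T : Set (I × K)), T ⊆ (M : Set (I × K)) → Ub (Prod.fst '' T) →
        (∀ u ∈ T, Acc (X ∩ P u) u.2) →
        ∃ d, ∀ r, ∃ i y, (r, i, y) ∈ NS0 d ∧ Acc (X ∩ R d r i) y := by
    rintro ⟨M, hM⟩
    obtain ⟨hs, hc, L', i1, i2, f, hL, hKL, hf⟩ := hMM hM
    exact one_chart hA hL hKL P hP M hs hc f hf
  choose DD R NS0 h1 h2 h3 h4 h5 h6 using key
  refine ⟨Σ M : MM, DD M, fun d => R d.1 d.2, fun d => NS0 d.1 d.2, fun d => h1 d.1 d.2, ?_,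
    fun d => h3 d.1 d.2, fun d => h4 d.1 d.2, ?_⟩
  · rintro ⟨M, d⟩ ⟨M', d'⟩ hne
    by_cases hMM' : M = M'
    · subst hMM'
      exact h2 M d d' (fun h => hne (by rw [h]))
    · have h7 := hmad M.1 M.2 M'.1 M'.2 (fun h => hMM' (Subtype.ext h))
      simp only [Ub] at h7
      push Not at h7
      obtain ⟨r₀, hr₀⟩ := h7
      refine ⟨r₀, fun r i r' i' hr hr' => ?_⟩
      rw [Set.disjoint_left]
      intro x hx hx'
      obtain ⟨u, hu, hui, hri, hxu⟩ := h5 M d r i x hx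
      obtain ⟨u', hu', hui', hri', hxu'⟩ := h5 M' d' r' i' x hx'
      have huu : u = u' := by
        by_contra hne'
        exact (Set.disjoint_left.1 (hP u u' hne')) hxu hxu'
      subst huu
      have h8 := hr₀ u.1 ⟨u, ⟨hu, hu'⟩, rfl⟩
      rw [hui] at h8
      exact absurd (hr.trans hri) (not_lt.2 h8)
  · intro X hXp
    set A : Set I := {i' | ∃ ρ, th i' < cf ρ ∧ Acc (X ∩ P (i', ρ)) ρ} with hAdef
    have hAr : ∀ i', ∃ ρ, i' ∈ A → th i' < cf ρ ∧ Acc (X ∩ P (i', ρ)) ρ := by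
      intro i'
      by_cases hi : i' ∈ A
      · obtain ⟨ρ, hρ⟩ := hi
        exact ⟨ρ, fun _ => hρ⟩
      · exact ⟨t i', fun h => absurd h hi⟩
    choose ρ hρ using hAr
    set T₀ : Set (I × K) := {u | u.1 ∈ A ∧ u.2 = ρ u.1} with hT₀def
    have hT₀ : Sel Prod.fst T₀ := by
      refine ⟨?_, ?_⟩
      · rintro u ⟨hu, hu2⟩ v ⟨hv, hv2⟩ huv
        exact Prod.ext huv (by rw [hu2, hv2, huv])
      · intro i
        obtain ⟨i', hi', ρ', hρ1, hρ2⟩ := hX X hXp i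
        refine ⟨i', ⟨(i', ρ i'), ⟨⟨ρ', hρ1, ?_⟩, rfl⟩, rfl⟩, hi'⟩
        intro w hw
        obtain ⟨x, hx, hx2⟩ := hρ2 w hw
        exact ⟨x, ⟨hx.1, hx.2.1, hx.2.2⟩, hx2⟩
    have hcf : ∀ u ∈ T₀, th u.1 < cf u.2 := by
      rintro ⟨i, z⟩ ⟨hu, hu2⟩
      simp only at hu hu2
      subst hu2
      exact (hρ i hu).1
    have hmu : ∀ i, succ #I < th i := fun i => lt_of_le_of_lt
      ((le_succ _).trans ((le_succ _).trans (le_succ _))) (hA.mu i)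
    obtain ⟨i₀⟩ : Nonempty I := Cardinal.mk_ne_zero_iff.1
      (Cardinal.aleph0_pos.trans_le hA.reg.inf).ne'
    obtain ⟨T₁, hT₁, hsel, L', i1, i2, f, hL, hKL, hf⟩ := exists_ts (K := K) hA.reg Prod.fst T₀ hT₀
      Prod.snd (fun u hu => (hmu u.1).trans (hcf u hu)) #K ((hmu i₀).trans (hA.lt i₀)).le
      (bd_of_cf hA Prod.fst T₀ Prod.snd hcf)
    obtain ⟨M, hM, hub⟩ := hmax T₁ ⟨hsel, fun u hu => hcf u (hT₁ hu), L', i1, i2, f, hL, hKL, hf⟩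
    obtain ⟨d, hd⟩ := h6 ⟨M, hM⟩ X (T₁ ∩ M) Set.inter_subset_right hub (by
      rintro ⟨i, z⟩ ⟨hu, -⟩
      obtain ⟨hu1, hu2⟩ := hT₁ hu
      simp only at hu1 hu2
      subst hu2
      exact (hρ i hu1).2)
    exact ⟨⟨⟨M, hM⟩, d⟩, hd⟩

end Pool.Agent.LibGS
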