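import Pool.Agent.LibGS.BThr
import Pool.Agent.LibGS.Stage
import Pool.Agent.LibGS.Guess

/-! [GS76 BChart1] Case B: the charts of one selection of blocks. -/

set_option autoImplicit false

namespace Pool.Agent.LibGS

open Cardinal Set Order
open Pool.Agent.LibGP76 (RegK Ub Cl fl Stat)
open Pool.Agent.LibGPR (Lad)

variable {K I L : Type} [LinearOrder K] [WellFoundedLT K] [LinearOrder I] [WellFoundedLT I]
  [LinearOrder L] [WellFoundedLT L] {th : I → Cardinal.{0}} {t : I → K}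

/-- THE CHARTS OF ONE SELECTION `M` of blocks `u = (i, ρ)` (`P u` the set of points of the block).
PROOF. `exists_guess` with `Lab = PUnit`: ladders `e`. `stage` with `N = I × K`, `idx = Prod.fst`,
`y = Prod.snd`, `T₀ = M`, `S = univ`, `σ r u = succ (th r)`: `succ (succ (th r)) < cf u.2` if `r < u.1`
(`hA.step`): clubs `b`. `DD = {δ // Lad (e δ) δ}`. For `δ` let `thr` be from `exists_thr`,
`R r i = {x | ∃ u ∈ M, u.1 = i ∧ thr r < i ∧ x ∈ P u ∧ f (e δ r) u < x ∧ x < f (e δ (nxt r)) u}` and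
`NS0 = {(r, i, y) | ∃ u ∈ M, u.1 = i ∧ thr r < i ∧ Tr C (succ (th r)) (b u) (f (e δ (nxt r)) u) y ∧
f (e δ r) u < y ∧ succ (th r) < cf y}`.
(1) If `i ≠ i'` the blocks are different, hence disjoint (`hP`; `u.1 = i ≠ i' = u'.1`). If `i = i'` and
`r < r'` then `u = u'` (`Sel`), `nxt r ≤ r'`, `x < f (e (nxt r)) u ≤ f (e r') u < x`.
(2) Let `δ < δ'`. Choose `s` with `δ < e δ' s` (`Lad`) and `i₁` with `f δ u ≤ f (e δ' s) u` for `i₁ < u.1`.
Let `r₀ = max s i₁`. For `r, r' > r₀` and `x ∈ R δ r i ∩ R δ' r' i'`: same block `u`, `i = i' > thr r ≥ i₁`,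
`x < f (e δ (nxt r)) u < f δ u ≤ f (e δ' s) u ≤ f (e δ' r') u < x` (`s ≤ r'`, `thr' r' < i`).
(3) `#(Tr ...) ≤ succ (th r)` (`card_tr`), `#M ≤ #I ≤ th r`.
(6) DENSITY: `stage` gives `δ`; for given `r` take `u ∈ T` with `thr r < u.1` for which the point `y'` for
the pair `r < nxt r` exists; `Acc (X ∩ R r u.1) y'`: points of `X ∩ P u` between `max w (f (e δ r) u)` and
`y' ≤ f (e δ (nxt r)) u` (`tr_le`). -/
theorem one_chart (hA : Amb K I th t) (hL : RegK L) (hKL : #K < #L) (P : I × K → Set K)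
    (hP : ∀ u u', u ≠ u' → Disjoint (P u) (P u')) (M : Set (I × K)) (hM : Sel Prod.fst M)
    (hMc : ∀ u ∈ M, th u.1 < cf u.2) (f : L → I × K → K) (hf : TS Prod.fst M Prod.snd f) :
    ∃ (DD : Type) (R : DD → I → I → Set K) (NS0 : DD → Set (I × I × K)),
      (∀ d r i r' i', (r, i) ≠ (r', i') → Disjoint (R d r i) (R d r' i')) ∧
      (∀ d d', d ≠ d' → ∃ r₀, ∀ r i r' i', r₀ < r → r₀ < r' →
        Disjoint (R d r i) (R d' r' i')) ∧
      (∀ d r, #{q | q ∈ NS0 d ∧ q.1 = r} ≤ succ (th r)) ∧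
      (∀ d, ∀ q ∈ NS0 d, succ (succ (th q.1)) ≤ cf q.2.2) ∧
      (∀ d r i x, x ∈ R d r i → ∃ u ∈ M, u.1 = i ∧ r < i ∧ x ∈ P u) ∧
      ∀ (X : Set K) (T : Set (I × K)), T ⊆ M → Ub (Prod.fst '' T) →
        (∀ u ∈ T, Acc (X ∩ P u) u.2) →
        ∃ d, ∀ r, ∃ i y, (r, i, y) ∈ NS0 d ∧ Acc (X ∩ R d r i) y := by
  classical
  have hI := hA.reg
  have hIne : Nonempty I := by
    rw [← mk_ne_zero_iff]
    intro h0
    have := hI.inf
    rw [h0] at this
    exact absurd this (not_le.2 aleph0_pos)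
  have hIth : ∀ i : I, succ (succ #I) ≤ th i := fun i =>
    ((le_succ _).trans (le_succ _)).trans (hA.mu i).le
  have hIth1 : ∀ i : I, succ #I ≤ th i := fun i => (le_succ _).trans (hIth i)
  have hIth0 : ∀ i : I, #I ≤ th i := fun i => (le_succ _).trans (hIth1 i)
  have hinf : ∀ i : I, ℵ₀ ≤ succ (th i) := fun i =>
    hI.inf.trans ((hIth0 i).trans (le_succ _))
  have hIL : succ #I < #L := by
    obtain ⟨i⟩ := hIne
    exact ((hIth1 i).trans_lt (hA.lt i)).trans hKL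
  have hLab : #PUnit.{1} ≤ #L := by
    rw [mk_punit]
    exact one_le_aleph0.trans hL.unc.le
  obtain ⟨lab, e, he⟩ := exists_guess (L := L) hI hL hIL PUnit.{1} hLab
  obtain ⟨C, hC⟩ := exists_cofsys (K := K)
  obtain ⟨b, hb1, hb2⟩ := stage (C := C) hI hL hC Prod.fst M hM Prod.snd P f hf
    (fun u hu => ((hIth1 u.1)).trans_lt (hMc u hu)) (fun r _ => succ (th r))
    (fun r _ => hinf r)
    (fun r => ⟨r, fun u hu hr => by
      have h1 := hA.step r u.1 hr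
      refine lt_of_le_of_lt ?_ (hMc u hu)
      refine le_trans ?_ h1
      exact ((le_succ _).trans (le_succ _)).trans (le_succ _)⟩)
    Set.univ e
    (fun E => by
      obtain ⟨δ, -, h1, h2⟩ := he PUnit.unit E
      exact ⟨δ, mem_univ _, h1, h2⟩)
  obtain ⟨nxt, hn1, hn2⟩ := exists_nxt hI
  have hthr := fun d : {δ : L // Lad (e δ) δ} => exists_thr hI M f hf nxt hn1 (e d.1) d.1 d.2
  choose thr ht1 ht2 using hthr
  let R : {δ : L // Lad (e δ) δ} → I → I → Set K := fun d r i =>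
    {x | ∃ u ∈ M, u.1 = i ∧ thr d r < i ∧ x ∈ P u ∧ f (e d.1 r) u < x ∧ x < f (e d.1 (nxt r)) u}
  let NS0 : {δ : L // Lad (e δ) δ} → Set (I × I × K) := fun d =>
    {q | ∃ u ∈ M, u.1 = q.2.1 ∧ thr d q.1 < q.2.1 ∧
      Tr C (succ (th q.1)) (b u) (f (e d.1 (nxt q.1)) u) q.2.2 ∧ f (e d.1 q.1) u < q.2.2 ∧
      succ (th q.1) < cf q.2.2}
  have hsame : ∀ u u' : I × K, ∀ x, x ∈ P u → x ∈ P u' → u = u' := by
    intro u u' x h1 h2
    by_contra hne
    exact (Set.disjoint_left.1 (hP u u' hne)) h1 h2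
  have hMI : #M ≤ #I := by
    refine mk_le_of_injective (f := fun u : M => u.1.1) ?_
    intro u u' h
    exact Subtype.ext (hM.1 u.2 u'.2 h)
  have hkey : ∀ d r r' u x, r < r' → u ∈ M → thr d r' < u.1 → x < f (e d.1 (nxt r)) u →
      f (e d.1 r') u < x → False := by
    intro d r r' u x hr hu h1 h2 h3
    have h4 := (ht2 d r' u hu h1).1 (nxt r) (hn2 r r' hr)
    exact lt_irrefl x ((h2.trans_le h4).trans h3)
  have hkey2 : ∀ d d' : {δ : L // Lad (e δ) δ}, d.1 < d'.1 → ∃ r₀, ∀ r i r' i', r₀ < r → r₀ < r' →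
      ∀ x, x ∈ R d r i → x ∈ R d' r' i' → False := by
    intro d d' hdd
    obtain ⟨s, hs⟩ := d'.2.2.2 d.1 hdd
    obtain ⟨i₁, hi₁⟩ := hf.inc _ _ hs
    refine ⟨max s i₁, ?_⟩
    rintro r i r' i' hr hr' x ⟨u, hu, hui, h1, h2, h3, h4⟩ ⟨u', hu', hui', h1', h2', h3', h4'⟩
    obtain rfl := hsame u u' x h2 h2'
    subst hui
    have e1 : f (e d.1 (nxt r)) u < f d.1 u := (ht2 d r u hu h1).2.2
    have e2 : i₁ < u.1 := ((le_max_right s i₁).trans_lt hr).trans_le ((ht1 d r).trans h1.le)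
    have e3 : f d.1 u < f (e d'.1 s) u := hi₁ u hu e2
    have e4 : f (e d'.1 s) u ≤ f (e d'.1 r') u := by
      refine (ht2 d' r' u hu ?_).1 s ((le_max_left s i₁).trans hr'.le)
      rw [hui']
      exact h1'
    exact lt_irrefl x ((((h4.trans e1).trans e3).trans_le e4).trans h3')
  refine ⟨{δ : L // Lad (e δ) δ}, R, NS0, ?_, ?_, ?_, ?_, ?_, ?_⟩
  · intro d r i r' i' hne
    rw [Set.disjoint_left]
    rintro x ⟨u, hu, hui, h1, h2, h3, h4⟩ ⟨u', hu', hui', h1', h2', h3', h4'⟩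
    obtain rfl := hsame u u' x h2 h2'
    subst hui
    have hrr : r ≠ r' := by
      rintro rfl
      exact hne (by rw [hui'])
    rcases lt_or_gt_of_ne hrr with h | h
    · exact hkey d r r' u x h hu (by rw [hui']; exact h1') h4 h3'
    · exact hkey d r' r u x h hu h1 h4' h3
  · intro d d' hne
    have hne' : d.1 ≠ d'.1 := fun h => hne (Subtype.ext h)
    rcases lt_or_gt_of_ne hne' with h | h
    · obtain ⟨r₀, hr₀⟩ := hkey2 d d' h
      refine ⟨r₀, fun r i r' i' hr hr' => ?_⟩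
      rw [Set.disjoint_left]
      exact fun x hx hx' => hr₀ r i r' i' hr hr' x hx hx'
    · obtain ⟨r₀, hr₀⟩ := hkey2 d' d h
      refine ⟨r₀, fun r i r' i' hr hr' => ?_⟩
      rw [Set.disjoint_left]
      exact fun x hx hx' => hr₀ r' i' r i hr' hr x hx' hx
  · intro d r
    have hsub : {q | q ∈ NS0 d ∧ q.1 = r} ⊆ ⋃ u : M, (fun y : K => (r, u.1.1, y)) ''
        {y | Tr C (succ (th r)) (b u.1) (f (e d.1 (nxt r)) u.1) y} := by
      rintro ⟨r', i, y⟩ ⟨⟨u, hu, hui, h1, h2, h3, h4⟩, hr⟩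
      simp only at hui h1 h2 h3 h4 hr
      subst hr
      refine mem_iUnion.2 ⟨⟨u, hu⟩, y, h2, ?_⟩
      simp only
      rw [hui]
    refine (mk_le_mk_of_subset hsub).trans ?_
    refine (mk_iUnion_le _).trans ?_
    have h5 : (⨆ u : M, #((fun y : K => (r, u.1.1, y)) ''
        {y | Tr C (succ (th r)) (b u.1) (f (e d.1 (nxt r)) u.1) y} : Set (I × I × K))) ≤
        succ (th r) := by
      refine ciSup_le' ?_
      intro u
      refine mk_image_le.trans ?_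
      exact card_tr hC (hinf r) (b u.1) _
    exact (mul_le_mul' (hMI.trans ((hIth0 r).trans (le_succ _))) h5).trans
      (mul_eq_self (hinf r)).le
  · rintro d q ⟨u, hu, hui, h1, h2, h3, h4⟩
    exact succ_le_of_lt h4
  · rintro d r i x ⟨u, hu, hui, h1, h2, h3, h4⟩
    exact ⟨u, hu, hui, (ht1 d r).trans_lt h1, h2⟩
  · intro X T hT hUb hAcc
    obtain ⟨δ, -, hδ, h⟩ := hb2 X T hT hUb hAcc
    refine ⟨⟨δ, hδ⟩, fun r => ?_⟩
    obtain ⟨i₀, hi₀⟩ := h r (nxt r) (hn1 r)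
    obtain ⟨i, ⟨u, hu, rfl⟩, hi⟩ := hUb (max i₀ (thr ⟨δ, hδ⟩ r))
    obtain ⟨y', h1, h2, h3, h4⟩ := hi₀ u hu ((le_max_left _ _).trans_lt hi)
    have h5 : thr ⟨δ, hδ⟩ r < u.1 := (le_max_right _ _).trans_lt hi
    refine ⟨u.1, y', ⟨u, hT hu, rfl, h5, h1, h2, h3⟩, ?_⟩
    intro w hw
    obtain ⟨x, ⟨hx1, hx2⟩, hx3, hx4⟩ := h4 (max w (f (e δ r) u)) (max_lt hw h2)
    refine ⟨x, ⟨hx1, u, hT hu, rfl, h5, hx2, (le_max_right _ _).trans_lt hx3, ?_⟩,
      (le_max_left _ _).trans_lt hx3, hx4⟩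
    exact hx4.trans_le (tr_le hC h1)

end Pool.Agent.LibGS
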