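import Pool.Agent.LibGS.Defs

/-! Case B (`cf α > ω`): definitions. A chart consists of pairwise disjoint sets `R r i`; its points are
the triples `(r, i, y)`. -/

set_option autoImplicit false

namespace Pool.Agent.LibGS

open Cardinal Set Order
open Pool.Agent.LibGP76 (RegK Ub Cl fl Stat)

variable {K I Λ : Type} [LinearOrder K] [LinearOrder I]

/-- `X` is unbounded at a selection of points of a system of the chart with bounding number `≥ α⁺⁺`. -/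
def TypeI (th : I → Cardinal.{0}) (R : I → I → Set K) (NS : Λ → Set (I × I × K)) (X : Set K) :
    Prop :=
  ∃ ξ, ∃ T ⊆ NS ξ, Sel Prod.fst T ∧
    (∀ q ∈ T, succ (succ (th q.1)) ≤ cf q.2.2 ∧ Acc (X ∩ R q.1 q.2.1) q.2.2) ∧
    Bd (succ #K) Prod.fst T (fun q => q.2.2)

/-- `(r, i, y)` is the least point of the system `S` above `x`. -/
def IsNx (S : Set (I × I × K)) (r i : I) (x y : K) : Prop :=
  (r, i, y) ∈ S ∧ x < y ∧ ∀ y', (r, i, y') ∈ S → x < y' → y ≤ y'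

/-- The STEP property of a chain of systems: see `one_step`, `exists_flat`. -/
def StepB (th : I → Cardinal.{0}) (R : I → I → Set K) [LT Λ] (NS : Λ → Set (I × I × K)) : Prop :=
  ∀ (X : Set K) (ξ : Λ) (w : I → I × K) (A : Set I) (g : I → K),
    (∀ r ∈ A, Lim r ∧ (r, w r) ∈ NS ξ ∧ ¬ Good (cf (w r).2) ∧ Acc (X ∩ R r (w r).1) (w r).2 ∧
      g r < (w r).2) →
    (∀ T : Set (I × I × K), T ⊆ {q | ∃ r ∈ A, q = (r, w r)} → Sel Prod.fst T →
      ¬ Bd (succ #K) Prod.fst T (fun q => q.2.2)) →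
    ∃ (ξ' : Λ) (w' : I → I × K) (E : I → I), ξ < ξ' ∧ ∀ r ∈ A, r ∈ Cl E →
      (r, w' r) ∈ NS ξ' ∧ (w' r).1 = (w r).1 ∧ g r < (w' r).2 ∧ (w' r).2 < (w r).2 ∧
        Acc (X ∩ R r (w' r).1) (w' r).2

/-- Flat systems. -/
structure Flat (th : I → Cardinal.{0}) (R : I → I → Set K) [LT Λ] (NS0 : Set (I × I × K))
    (NS : Λ → Set (I × I × K)) : Prop where
  card : ∀ ξ r, #{q | q ∈ NS ξ ∧ q.1 = r} ≤ succ (th r)
  big : ∀ ξ, ∀ q ∈ NS ξ, succ (succ (th q.1)) ≤ cf q.2.2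
  base : ∀ ξ, NS0 ⊆ NS ξ
  mono : ∀ ξ ξ', ξ < ξ' → ∃ r₀, ∀ q ∈ NS ξ, r₀ < q.1 → q ∈ NS ξ'
  step : StepB th R NS

end Pool.Agent.LibGS
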