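import Pool.Agent.LibGS.BMain
import Pool.Agent.LibGS.Code
import Pool.Agent.LibGS.LCAt

/-! [GS76 BDens] Case B: density of the Type II classes. -/

set_option autoImplicit false

namespace Pool.Agent.LibGS

open Cardinal Set Order
open Pool.Agent.LibGP76 (RegK Ub Cl fl Stat)

variable {K I Λ : Type} [LinearOrder K] [WellFoundedLT K] [LinearOrder I] [WellFoundedLT I]
  [LinearOrder Λ] [WellFoundedLT Λ] {th : I → Cardinal.{0}} {t : I → K}

/-- The frame of a Type II class at level `δ`: a selection `T` of good points of `NS δ` and sets `Y q`,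
`q ∈ T`, unbounded in `q`, whose elements have `q` as next point of `NS δ`, such that for every `β < δ`
and almost all `q` the next point of `NS β` is bad or equal to `q`. -/
structure FrameB (th : I → Cardinal.{0}) (R : I → I → Set K) (NS : Λ → Set (I × I × K)) (δ : Λ)
    (T : Set (I × I × K)) (Y : I × I × K → Set K) : Prop where
  sel : Sel Prod.fst T
  sub : T ⊆ NS δ
  good : ∀ q ∈ T, Good (cf q.2.2)
  cont : ∀ q ∈ T, Y q ⊆ R q.1 q.2.1
  acc : ∀ q ∈ T, Acc (Y q) q.2.2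
  nx : ∀ q ∈ T, ∀ x ∈ Y q, IsNx (NS δ) q.1 q.2.1 x q.2.2
  low : ∀ β < δ, ∃ r₀, ∀ q ∈ T, r₀ < q.1 → ∀ x ∈ Y q, ∀ y, IsNx (NS β) q.1 q.2.1 x y →
    Good (cf y) → y = q.2.2

/-- Recursion along a well-order. -/
theorem BDens.exists_rec {J M : Type} [LinearOrder J] [WellFoundedLT J]
    (P : ∀ j : J, (Set.Iio j → M) → M → Prop) (h : ∀ j f, ∃ c, P j f c) :
    ∃ γ : J → M, ∀ j, P j (fun j' => γ j'.1) (γ j) := by
  choose G hG using h
  refine ⟨(wellFounded_lt (α := J)).fix (fun j rec => G j (fun j' => rec j'.1 j'.2)), fun j => ?_⟩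
  rw [WellFounded.fix_eq]
  exact hG j _

/-- Few points of a system lie below a point of large cofinality. -/
theorem BDens.bdd_pts (S : Set (I × I × K)) (r i : I) (z : K) (c : Cardinal.{0}) (hc : ℵ₀ ≤ c)
    (hS : #{q | q ∈ S ∧ q.1 = r} ≤ succ c) (hz : succ (succ c) ≤ cf z) (Q : Set K)
    (hQ : ∀ y ∈ Q, (r, i, y) ∈ S ∧ y < z) : ∃ w, w < z ∧ ∀ y ∈ Q, y < w := by
  have h0 : ℵ₀ ≤ cf z := hc.trans (((le_succ _).trans (le_succ _)).trans hz)
  refine cf_bdd h0 Q (fun y hy => (hQ y hy).2) ?_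
  refine lt_of_le_of_lt ?_ ((lt_succ (succ c)).trans_le hz)
  refine le_trans ?_ hS
  refine Cardinal.mk_le_of_injective (f := fun y : Q =>
    (⟨(r, i, y.1), (hQ y.1 y.2).1, rfl⟩ : {q | q ∈ S ∧ q.1 = r})) ?_
  intro y y' h
  have h1 : ((r, i, y.1) : I × I × K) = (r, i, y'.1) := congrArg Subtype.val h
  have h2 : y.1 = y'.1 := congrArg (fun q : I × I × K => q.2.2) h1
  exact Subtype.ext h2

/-- [BDens] DENSITY. PROOF. By `main_claim` choose `ε β > β`, `E β`, `w β` for every `β : Λ`. By recursion on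
`j : I` choose `γ j : Λ` with `ε (γ j') < γ j` for all `j' < j` (`RegK Λ`, `#I < #Λ`); let `δ` be the least
element above all `γ j`. By recursion on `j` choose `r j : I`, above `j` and all `r j'` (`j' < j`), a limit
in `Cl (E (γ j))` (`LibGP76.exists_cl_om` or: limits of `Cl` are stationary), above the thresholds of
`Flat.mono` for `γ j' < γ j` (`j' < j`; fewer than `#I` many), for `ε (γ j) < δ` and for `γ j < δ`.
Let `q j = (r j, w (γ j) (r j))`, `T = {q j | j : I}`, `i = (w₀ (r j)).1`, and let `Y (q j)` be the set of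
the `x ∈ X ∩ R (r j) i` with `x < (q j).2.2` which are above all `y' < (q j).2.2` with
`(r j, i, y') ∈ NS δ` and, if `w (γ j) (r j) ≠ w₀ (r j)`, above all `y' < (w₀ (r j)).2` with
`(r j, i, y') ∈ NS (γ j)` (these are below `(q j).2.2` by `main_claim`); in both cases at most
`succ (th r)` points, so they are bounded below `(q j).2.2` (`cf_bdd`), hence `acc`.
`nx`: `q j ∈ NS (ε (γ j))`, so `q j ∈ NS δ` by the choice of `r j`.
`low`: let `β < δ`, `β < γ k`. Let `r₀` be above `r k` and the threshold of `Flat.mono` for `β < γ k`. Let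
`r₀ < r j` (so `k < j`), `x ∈ Y (q j)`, `y` the next point of `NS β`. All points of `NS β` of index `r j` are
in `NS (γ k)`, hence in `NS (γ j)` (and in `NS δ`). If `w (γ j) (r j) = w₀ (r j)`: `q j ∈ NS0 ⊆ NS β`, so
`y ≤ (q j).2.2`, and `x < y < (q j).2.2` is impossible since `(r j, i, y) ∈ NS δ`. Otherwise
`(r j, w₀ (r j)) ∈ NS0 ⊆ NS β`, `y ≤ (w₀ (r j)).2`, and `y < (w₀ (r j)).2` is impossible since
`(r j, i, y) ∈ NS (γ j)` would give `y < x`. So `y = (w₀ (r j)).2`, which is not good (second alternative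
of `main_claim`). -/
theorem dens_two (hA : Amb K I th t) (hI : RegK I) (hL : RegK Λ) (hΛ : #Λ = succ #K)
    (R : I → I → Set K) (NS0 : Set (I × I × K)) (NS : Λ → Set (I × I × K))
    (hF : Flat th R NS0 NS) (X : Set K)
    (hX0 : ∀ r, Lim r → ∃ i y, (r, i, y) ∈ NS0 ∧ Acc (X ∩ R r i) y)
    (hX : ¬ TypeI th R NS X) :
    ∃ (δ : Λ) (T : Set (I × I × K)) (Y : I × I × K → Set K), FrameB th R NS δ T Y ∧
      ∀ q ∈ T, Y q ⊆ X := by
  classical
  obtain ⟨i₀⟩ := LibGP76.nonempty_of_regK hI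
  have hIth : ∀ r : I, #I < th r := fun r =>
    lt_of_le_of_lt ((((le_succ _).trans (le_succ _)).trans (le_succ _)).trans (le_succ _)) (hA.mu r)
  have hth : ∀ r : I, ℵ₀ ≤ th r := fun r => hA.reg.inf.trans (hIth r).le
  have hIΛ : #I < #Λ := by
    rw [hΛ]
    exact ((hIth i₀).trans (hA.lt i₀)).trans (lt_succ _)
  -- the points `w₀`
  have h1 : ∀ r : I, ∃ v : I × K, Lim r → (r, v) ∈ NS0 ∧ Acc (X ∩ R r v.1) v.2 := by
    intro r
    by_cases hr : Lim r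
    · obtain ⟨i, y, h1, h2⟩ := hX0 r hr
      exact ⟨(i, y), fun _ => ⟨h1, h2⟩⟩
    · exact ⟨(i₀, t i₀), fun h => absurd h hr⟩
  choose w₀ hw using h1
  choose ε E w hε hM using main_claim hA hI hL R NS0 NS hF X w₀ hw hX
  -- the levels
  obtain ⟨γ, hγ⟩ := BDens.exists_rec (J := I) (M := Λ)
    (fun j f c => ∀ j' : Set.Iio j, ε (f j') < c) (by
      intro j f
      exact LibGP76.exists_sup hL ((hI.small j).trans hIΛ) (fun j' => ε (f j')))
  have hγε : ∀ j j', j' < j → ε (γ j') < γ j := fun j j' h => hγ j ⟨j', h⟩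
  have hγm : ∀ j j', j' < j → γ j' < γ j := fun j j' h => (hε _).trans (hγε j j' h)
  have h2 : ({c : Λ | ∀ j, γ j < c} : Set Λ).Nonempty := by
    obtain ⟨c, hc⟩ := LibGP76.exists_sup hL hIΛ γ
    exact ⟨c, hc⟩
  obtain ⟨δ, hδ, hδmin⟩ := (wellFounded_lt (α := Λ)).has_min _ h2
  have hδcof : ∀ β < δ, ∃ k, β < γ k := by
    intro β hβ
    by_contra hcon
    push Not at hcon
    refine hδmin β (fun j => ?_) hβ
    obtain ⟨k, hk⟩ := LibGP76.exists_gt' hI j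
    exact (hγm k j hk).trans_le (hcon k)
  have hδε : ∀ j, ε (γ j) < δ := by
    intro j
    obtain ⟨k, hk⟩ := LibGP76.exists_gt' hI j
    exact (hγε k j hk).trans (hδ k)
  -- thresholds
  have h3 : ∀ ξ ξ' : Λ, ∃ r₀ : I, ξ < ξ' → ∀ q ∈ NS ξ, r₀ < q.1 → q ∈ NS ξ' := by
    intro ξ ξ'
    by_cases h : ξ < ξ'
    · obtain ⟨r₀, hr₀⟩ := hF.mono ξ ξ' h
      exact ⟨r₀, fun _ => hr₀⟩
    · exact ⟨i₀, fun h' => absurd h' h⟩
  choose ρ hρ using h3
  -- the indices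
  obtain ⟨r, hr⟩ := BDens.exists_rec (J := I) (M := I)
    (fun j f c => j < c ∧ (∀ j', f j' < c) ∧ Lim c ∧ c ∈ Cl (E (γ j)) ∧
      (∀ j' : Set.Iio j, ρ (γ j'.1) (γ j) < c) ∧ ρ (ε (γ j)) δ < c ∧ ρ (γ j) δ < c) (by
      intro j f
      obtain ⟨c₁, hc₁⟩ := LibGP76.exists_sup hI (hI.small j) f
      obtain ⟨c₂, hc₂⟩ := LibGP76.exists_sup hI (hI.small j)
        (fun j' : Set.Iio j => ρ (γ j'.1) (γ j))
      obtain ⟨c, hc, hcl, e, he1, he2⟩ := LibGP76.exists_cl_om hI (E (γ j))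
        (max (max c₁ c₂) (max (max (ρ (ε (γ j)) δ) (ρ (γ j) δ)) j))
      have h4 := (max_lt_iff.1 hc).1
      have h5 := (max_lt_iff.1 hc).2
      have h6 := (max_lt_iff.1 h5).1
      refine ⟨c, (max_lt_iff.1 h5).2, fun j' => (hc₁ j').trans (max_lt_iff.1 h4).1,
        ⟨⟨e 0, he1 0⟩, fun s hs => ?_⟩, hcl, fun j' => (hc₂ j').trans (max_lt_iff.1 h4).2,
        (max_lt_iff.1 h6).1, (max_lt_iff.1 h6).2⟩
      obtain ⟨n, hn⟩ := he2 s hs
      exact ⟨e n, hn, he1 n⟩)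
  have hrj : ∀ j, j < r j := fun j => (hr j).1
  have hrm : StrictMono r := fun j' j h => (hr j).2.1 ⟨j', h⟩
  have hrL : ∀ j, Lim (r j) := fun j => (hr j).2.2.1
  have hrE : ∀ j, r j ∈ Cl (E (γ j)) := fun j => (hr j).2.2.2.1
  have hrρ : ∀ j j', j' < j → ρ (γ j') (γ j) < r j := fun j j' h => (hr j).2.2.2.2.1 ⟨j', h⟩
  have hrρ1 : ∀ j, ρ (ε (γ j)) δ < r j := fun j => (hr j).2.2.2.2.2.1
  have hrρ2 : ∀ j, ρ (γ j) δ < r j := fun j => (hr j).2.2.2.2.2.2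
  clear hr
  -- the points
  have hq : ∀ j, (r j, w (γ j) (r j)) ∈ NS (ε (γ j)) ∧ Good (cf (w (γ j) (r j)).2) ∧
      (w (γ j) (r j)).1 = (w₀ (r j)).1 ∧
      Acc (X ∩ R (r j) (w (γ j) (r j)).1) (w (γ j) (r j)).2 ∧
      (w (γ j) (r j)).2 ≤ (w₀ (r j)).2 ∧
      (w (γ j) (r j) = w₀ (r j) ∨ (¬ Good (cf (w₀ (r j)).2) ∧
        ∀ y', (r j, (w₀ (r j)).1, y') ∈ NS (γ j) → y' < (w₀ (r j)).2 →
          y' < (w (γ j) (r j)).2)) :=
    fun j => hM (γ j) (r j) (hrE j) (hrL j)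
  set z : I → K := fun j => (w (γ j) (r j)).2 with hz
  set i : I → I := fun j => (w₀ (r j)).1 with hi
  have hqe : ∀ j, (r j, w (γ j) (r j)) = (r j, i j, z j) := fun j =>
    Prod.ext rfl (Prod.ext (hq j).2.2.1 rfl)
  set Yj : I → Set K := fun j => {x | x ∈ X ∩ R (r j) (i j) ∧ x < z j ∧
    (∀ y', y' < z j → (r j, i j, y') ∈ NS δ → y' < x) ∧
    (w (γ j) (r j) ≠ w₀ (r j) → ∀ y', y' < (w₀ (r j)).2 → (r j, i j, y') ∈ NS (γ j) → y' < x)}
    with hYj
  have hinj : ∀ j j' : I, ((r j, i j, z j) : I × I × K) = (r j', i j', z j') → j = j' :=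
    fun j j' h => hrm.injective (congrArg Prod.fst h)
  have hqδ : ∀ j, (r j, i j, z j) ∈ NS δ := by
    intro j
    rw [← hqe j]
    exact hρ _ _ (hδε j) _ (hq j).1 (hrρ1 j)
  have hbig : ∀ j, succ (succ (th (r j))) ≤ cf (z j) := by
    intro j
    exact hF.big (ε (γ j)) _ (hq j).1
  have hacc : ∀ j, Acc (Yj j) (z j) := by
    intro j v hv
    obtain ⟨w1, hw1, hw1'⟩ := BDens.bdd_pts (NS δ) (r j) (i j) (z j) (th (r j)) (hth _)
      (hF.card δ (r j)) (hbig j) {y' | (r j, i j, y') ∈ NS δ ∧ y' < z j} (fun y hy => hy)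
    have h4 : ∃ w2, w2 < z j ∧ (w (γ j) (r j) ≠ w₀ (r j) → ∀ y', y' < (w₀ (r j)).2 →
        (r j, i j, y') ∈ NS (γ j) → y' < w2) := by
      by_cases hne : w (γ j) (r j) = w₀ (r j)
      · exact ⟨v, hv, fun h => absurd hne h⟩
      · obtain ⟨w2, hw2, hw2'⟩ := BDens.bdd_pts (NS (γ j)) (r j) (i j) (z j) (th (r j)) (hth _)
          (hF.card (γ j) (r j)) (hbig j)
          {y' | (r j, i j, y') ∈ NS (γ j) ∧ y' < (w₀ (r j)).2} (fun y hy => ⟨hy.1, by
            rcases (hq j).2.2.2.2.2 with h | h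
            · exact absurd h hne
            · exact h.2 y hy.1 hy.2⟩)
        exact ⟨w2, hw2, fun _ y' h5 h6 => hw2' y' ⟨h6, h5⟩⟩
    obtain ⟨w2, hw2, hw2'⟩ := h4
    obtain ⟨x, hx, hvx, hxz⟩ := (hq j).2.2.2.1 (max v (max w1 w2)) (max_lt hv (max_lt hw1 hw2))
    have h5 := (max_lt_iff.1 hvx).2
    refine ⟨x, ⟨?_, hxz, ?_, ?_⟩, (max_lt_iff.1 hvx).1, hxz⟩
    · rw [(hq j).2.2.1] at hx
      exact hx
    · intro y' h6 h7
      exact (hw1' y' ⟨h7, h6⟩).trans (max_lt_iff.1 h5).1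
    · intro hne y' h6 h7
      exact (hw2' hne y' h6 h7).trans (max_lt_iff.1 h5).2
  refine ⟨δ, Set.range (fun j => ((r j, i j, z j) : I × I × K)),
    fun q => {x | ∃ j, ((r j, i j, z j) : I × I × K) = q ∧ x ∈ Yj j}, ?_, ?_⟩
  · refine ⟨⟨?_, ?_⟩, ?_, ?_, ?_, ?_, ?_, ?_⟩
    · rintro _ ⟨j, rfl⟩ _ ⟨j', rfl⟩ h
      have h4 : j = j' := hrm.injective h
      rw [h4]
    · intro c
      exact ⟨r c, ⟨_, ⟨c, rfl⟩, rfl⟩, hrj c⟩
    · rintro _ ⟨j, rfl⟩
      exact hqδ j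
    · rintro _ ⟨j, rfl⟩
      exact (hq j).2.1
    · rintro _ ⟨j, rfl⟩ x ⟨j', hj', hx⟩
      have h4 := hinj _ _ hj'
      subst h4
      exact hx.1.2
    · rintro _ ⟨j, rfl⟩ v hv
      obtain ⟨x, hx, h4, h5⟩ := hacc j v hv
      exact ⟨x, ⟨j, rfl, hx⟩, h4, h5⟩
    · rintro _ ⟨j, rfl⟩ x ⟨j', hj', hx⟩
      have h4 := hinj _ _ hj'
      subst h4
      refine ⟨hqδ _, hx.2.1, fun y' h5 h6 => ?_⟩
      by_contra hcon
      rw [not_le] at hcon
      exact lt_asymm h6 (hx.2.2.1 y' hcon h5)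
    · intro β hβ
      obtain ⟨k, hk⟩ := hδcof β hβ
      refine ⟨max (r k) (ρ β (γ k)), ?_⟩
      rintro _ ⟨j, rfl⟩ hrr x ⟨j', hj', hx⟩ y hy hgood
      have h4 := hinj _ _ hj'
      subst h4
      have hkj : k < j' := hrm.lt_iff_lt.1 (max_lt_iff.1 hrr).1
      have h5 : (r j', i j', y) ∈ NS (γ k) := hρ _ _ hk _ hy.1 (max_lt_iff.1 hrr).2
      have h6 : (r j', i j', y) ∈ NS (γ j') := hρ _ _ (hγm _ _ hkj) _ h5 (hrρ _ _ hkj)
      have h7 : (r j', i j', y) ∈ NS δ := hρ _ _ (hδ j') _ h6 (hrρ2 j')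
      have h8 : (r j', i j', (w₀ (r j')).2) ∈ NS β := hF.base β (hw (r j') (hrL j')).1
      have h9 : y ≤ (w₀ (r j')).2 :=
        hy.2.2 _ h8 (lt_of_lt_of_le hx.2.1 (hq j').2.2.2.2.1)
      have hxy : x < y := hy.2.1
      show y = z j'
      by_cases hne : w (γ j') (r j') = w₀ (r j')
      · have h10 : z j' = (w₀ (r j')).2 := congrArg Prod.snd hne
        rcases h9.lt_or_eq with h11 | h11
        · rw [← h10] at h11
          exact absurd (hx.2.2.1 y h11 h7) (lt_asymm hxy)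
        · rw [h11, h10]
      · rcases h9.lt_or_eq with h11 | h11
        · exact absurd (hx.2.2.2 hne y h11 h6) (lt_asymm hxy)
        · rcases (hq j').2.2.2.2.2 with h12 | h12
          · exact absurd h12 hne
          · rw [h11] at hgood
            exact absurd hgood h12.1
  · rintro _ ⟨j, rfl⟩ x ⟨j', hj', hx⟩
    exact hx.1.1

end Pool.Agent.LibGS
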