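import Pool.Agent.LibGS.BOne

/-! [GS76 BFlat] Case B: flat systems. -/

set_option autoImplicit false

namespace Pool.Agent.LibGS

open Cardinal Set Order
open Pool.Agent.LibGP76 (RegK Ub Cl fl Stat)

variable {K I Λ : Type} [LinearOrder K] [WellFoundedLT K] [LinearOrder I] [WellFoundedLT I]
  [LinearOrder Λ] [WellFoundedLT Λ] {th : I → Cardinal.{0}} {t : I → K}

/-- FLAT SYSTEMS. PROOF. Let `Ok S` be the hypotheses `hS`, `hS2` of `one_step` for `S`; choose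
`G S : Λ → Λ → I → Set (I × I × K)` for all `S` with `Ok S` (and `G S = ∅` otherwise). Let `D` be from
`exists_filt`. By `wellFounded_lt.fix` on `Λ`: `q ∈ NS ξ` iff `q ∈ NS0` or there is `ξ' ∈ D ξ q.1` with
`q ∈ NS ξ'` or `∃ η ∈ D ξ q.1, ∃ ε ∈ D ξ q.1, ∃ s < q.1, q ∈ G (NS ξ') η ε s`. By induction `Ok (NS ξ)`:
at index `r` there are at most `succ (th r) + th r * (succ (th r) + th r * th r * #I * succ (th r))`
elements. `mono`: `ξ ∈ D ξ' r` for all `r ≥ r₀`. STEP: for `ξ`, `X w A g` take `η`, `ε`, `w'`, `E₁` from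
`one_step` for `NS ξ`, `ξ'` above `ξ`, `η` and all `ε s` (`RegK Λ`), and for `s : I` let `ρ s` be an index
such that `ξ, η, ε s ∈ D ξ' r` for all `r ≥ ρ s`; let `E s` be above `E₁ s` and `ρ s`. For
`r ∈ A ∩ Cl E` with `(r, w' r) ∈ G (NS ξ) η (ε s) s`, `s < r`: `ρ s < r`, so `(r, w' r) ∈ NS ξ'`. -/
theorem exists_flat (hA : Amb K I th t) (hI : RegK I) (hL : RegK Λ) (hΛ : #Λ = succ #K)
    (R : I → I → Set K) (NS0 : Set (I × I × K))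
    (hS : ∀ r, #{q | q ∈ NS0 ∧ q.1 = r} ≤ succ (th r))
    (hS2 : ∀ q ∈ NS0, succ (succ (th q.1)) ≤ cf q.2.2) :
    ∃ NS : Λ → Set (I × I × K), Flat th R NS0 NS := by
  classical
  have hmu : ∀ i, #I < th i := fun i =>
    (lt_succ #I).trans_le ((le_succ _).trans ((le_succ _).trans ((le_succ _).trans (hA.mu i).le)))
  have hths : ∀ i, ℵ₀ ≤ succ (th i) := fun i =>
    hA.reg.inf.trans ((hmu i).le.trans (le_succ _))
  -- the operator `G`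
  have hGex : ∀ S : Set (I × I × K), ∃ G : Λ → Λ → I → Set (I × I × K),
      ((∀ r, #{q | q ∈ S ∧ q.1 = r} ≤ succ (th r)) ∧
        (∀ q ∈ S, succ (succ (th q.1)) ≤ cf q.2.2)) →
      (∀ η ε s r, #{q | q ∈ G η ε s ∧ q.1 = r} ≤ succ (th r)) ∧
      (∀ η ε s, ∀ q ∈ G η ε s, succ (succ (th q.1)) ≤ cf q.2.2) ∧
      ∀ (X : Set K) (w : I → I × K) (A : Set I) (g : I → K),
        (∀ r ∈ A, Lim r ∧ (r, w r) ∈ S ∧ ¬ Good (cf (w r).2) ∧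
          Acc (X ∩ R r (w r).1) (w r).2 ∧ g r < (w r).2) →
        (∀ T : Set (I × I × K), T ⊆ {q | ∃ r ∈ A, q = (r, w r)} → Sel Prod.fst T →
          ¬ Bd (succ #K) Prod.fst T (fun q => q.2.2)) →
        ∃ (η : Λ) (ε : I → Λ) (w' : I → I × K) (E : I → I), ∀ r ∈ A, r ∈ Cl E →
          (∃ s < r, (r, w' r) ∈ G η (ε s) s) ∧ (w' r).1 = (w r).1 ∧ g r < (w' r).2 ∧
            (w' r).2 < (w r).2 ∧ Acc (X ∩ R r (w' r).1) (w' r).2 := by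
    intro S
    by_cases hok : (∀ r, #{q | q ∈ S ∧ q.1 = r} ≤ succ (th r)) ∧
        (∀ q ∈ S, succ (succ (th q.1)) ≤ cf q.2.2)
    · obtain ⟨G, hG⟩ := one_step hA hI hL hΛ R S hok.1 hok.2
      exact ⟨G, fun _ => hG⟩
    · exact ⟨fun _ _ _ => ∅, fun h => absurd h hok⟩
  choose G hG using hGex
  obtain ⟨D, hD1, hD2, hD3, hD4⟩ := exists_filt hA hL hΛ
  -- the recursion
  let NS : Λ → Set (I × I × K) := (wellFounded_lt (α := Λ)).fix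
    (fun ξ (p : ∀ ξ', ξ' < ξ → Set (I × I × K)) => {q : I × I × K | q ∈ NS0 ∨
      ∃ (ξ' : Λ) (h : ξ' < ξ), ξ' ∈ D ξ q.1 ∧ (q ∈ p ξ' h ∨
        ∃ η ∈ D ξ q.1, ∃ ε ∈ D ξ q.1, ∃ s < q.1, q ∈ G (p ξ' h) η ε s)})
  have hNS : ∀ ξ, NS ξ = {q : I × I × K | q ∈ NS0 ∨
      ∃ (ξ' : Λ) (_ : ξ' < ξ), ξ' ∈ D ξ q.1 ∧ (q ∈ NS ξ' ∨
        ∃ η ∈ D ξ q.1, ∃ ε ∈ D ξ q.1, ∃ s < q.1, q ∈ G (NS ξ') η ε s)} :=
    fun ξ => WellFounded.fix_eq _ _ _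
  have hmem : ∀ ξ q, q ∈ NS ξ ↔ q ∈ NS0 ∨ ∃ ξ' ∈ D ξ q.1, (q ∈ NS ξ' ∨
        ∃ η ∈ D ξ q.1, ∃ ε ∈ D ξ q.1, ∃ s < q.1, q ∈ G (NS ξ') η ε s) := by
    intro ξ q
    rw [hNS ξ]
    constructor
    · rintro (h | ⟨ξ', _, h1, h2⟩)
      · exact Or.inl h
      · exact Or.inr ⟨ξ', h1, h2⟩
    · rintro (h | ⟨ξ', h1, h2⟩)
      · exact Or.inl h
      · exact Or.inr ⟨ξ', hD1 _ _ _ h1, h1, h2⟩
  have hok : ∀ ξ, (∀ r, #{q | q ∈ NS ξ ∧ q.1 = r} ≤ succ (th r)) ∧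
      (∀ q ∈ NS ξ, succ (succ (th q.1)) ≤ cf q.2.2) := by
    intro ξ
    induction ξ using WellFoundedLT.induction with
    | _ ξ ih =>
      refine ⟨fun r => ?_, fun q hq => ?_⟩
      · have hDr : #(D ξ r) ≤ succ (th r) := (hD4 ξ r).trans (le_succ _)
        have hIr : #(Set.Iio r) ≤ succ (th r) :=
          (hA.reg.small r).le.trans ((hmu r).le.trans (le_succ _))
        have hsub : {q : I × I × K | q ∈ NS ξ ∧ q.1 = r} ⊆ {q | q ∈ NS0 ∧ q.1 = r} ∪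
            ⋃ ξ' : D ξ r, ({q | q ∈ NS ξ'.1 ∧ q.1 = r} ∪
              ⋃ η : D ξ r, ⋃ ε : D ξ r, ⋃ s : Set.Iio r,
                {q | q ∈ G (NS ξ'.1) η.1 ε.1 s.1 ∧ q.1 = r}) := by
          rintro q ⟨hq, hr⟩
          rcases (hmem ξ q).1 hq with h | ⟨ξ', h1, h | ⟨η, h2, ε, h3, s, h4, h5⟩⟩
          · exact Or.inl ⟨h, hr⟩
          · refine Or.inr (mem_iUnion.2 ⟨⟨ξ', by rw [← hr]; exact h1⟩, Or.inl ⟨h, hr⟩⟩)
          · refine Or.inr (mem_iUnion.2 ⟨⟨ξ', by rw [← hr]; exact h1⟩, Or.inr ?_⟩)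
            exact mem_iUnion.2 ⟨⟨η, by rw [← hr]; exact h2⟩, mem_iUnion.2 ⟨⟨ε, by rw [← hr]; exact h3⟩,
              mem_iUnion.2 ⟨⟨s, by rw [← hr]; exact h4⟩, h5, hr⟩⟩⟩
        have hU : ∀ {A : Type} (F : A → Set (I × I × K)), #A ≤ succ (th r) →
            (∀ a, #(F a) ≤ succ (th r)) → #(⋃ a, F a : Set (I × I × K)) ≤ succ (th r) := by
          intro A F hA' hF
          exact (mk_iUnion_le F).trans ((mul_le_mul' hA' (ciSup_le' hF)).trans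
            (mul_eq_self (hths r)).le)
        have hun : ∀ {P Q : Set (I × I × K)}, #P ≤ succ (th r) → #Q ≤ succ (th r) →
            #(P ∪ Q : Set (I × I × K)) ≤ succ (th r) := by
          intro P Q hP hQ
          exact (mk_union_le P Q).trans ((add_le_add hP hQ).trans (add_eq_self (hths r)).le)
        refine (mk_le_mk_of_subset hsub).trans (hun (hS r) (hU _ hDr fun ξ' => ?_))
        have hlt := hD1 _ _ _ ξ'.2
        refine hun ((ih _ hlt).1 r) (hU _ hDr fun η => hU _ hDr fun ε => hU _ hIr fun s => ?_)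
        exact (hG _ (ih _ hlt)).1 _ _ _ r
      · rcases (hmem ξ q).1 hq with h | ⟨ξ', h1, h | ⟨η, h2, ε, h3, s, h4, h5⟩⟩
        · exact hS2 q h
        · exact (ih _ (hD1 _ _ _ h1)).2 q h
        · exact (hG _ (ih _ (hD1 _ _ _ h1))).2.1 _ _ _ q h5
  refine ⟨NS, ⟨fun ξ => (hok ξ).1, fun ξ => (hok ξ).2, fun ξ q hq => (hmem ξ q).2 (Or.inl hq),
    ?_, ?_⟩⟩
  · intro ξ ξ' hlt
    obtain ⟨r₀, hr₀⟩ := hD3 ξ' ξ hlt
    exact ⟨r₀, fun q hq hr => (hmem ξ' q).2 (Or.inr ⟨ξ, hD2 _ _ _ hr.le hr₀, Or.inl hq⟩)⟩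
  · intro X ξ w A g hA1 hA2
    obtain ⟨η, ε, w', E₁, hE₁⟩ := (hG _ (hok ξ)).2.2 X w A g hA1 hA2
    have hIΛ : #I < #Λ := by
      have hne : Nonempty I := by
        rw [← mk_ne_zero_iff]
        intro h0
        have := hA.reg.inf
        rw [h0] at this
        exact absurd this (not_le.2 aleph0_pos)
      obtain ⟨i⟩ := hne
      rw [hΛ]
      exact ((hmu i).trans (hA.lt i)).trans (lt_succ _)
    obtain ⟨c, hc⟩ := Pool.Agent.LibGP76.exists_sup hL hIΛ ε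
    obtain ⟨ξ', hξ'⟩ := Pool.Agent.LibGP76.exists_gt' hL (max c (max ξ η))
    have h1 : ξ < ξ' := ((le_max_left _ _).trans (le_max_right _ _)).trans_lt hξ'
    have h2 : η < ξ' := ((le_max_right _ _).trans (le_max_right _ _)).trans_lt hξ'
    have h3 : ∀ s, ε s < ξ' := fun s => (hc s).trans ((le_max_left _ _).trans_lt hξ')
    have hρ : ∀ s, ∃ ρ, ξ ∈ D ξ' ρ ∧ η ∈ D ξ' ρ ∧ ε s ∈ D ξ' ρ := by
      intro s
      obtain ⟨r1, hr1⟩ := hD3 ξ' ξ h1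
      obtain ⟨r2, hr2⟩ := hD3 ξ' η h2
      obtain ⟨r3, hr3⟩ := hD3 ξ' (ε s) (h3 s)
      exact ⟨max r1 (max r2 r3), hD2 _ _ _ (le_max_left _ _) hr1,
        hD2 _ _ _ ((le_max_left _ _).trans (le_max_right _ _)) hr2,
        hD2 _ _ _ ((le_max_right _ _).trans (le_max_right _ _)) hr3⟩
    choose ρ hρ1 hρ2 hρ3 using hρ
    refine ⟨ξ', w', fun s => max (E₁ s) (ρ s), h1, fun r hr hrC => ?_⟩
    obtain ⟨⟨s, hs, hsG⟩, h4⟩ := hE₁ r hr (Pool.Agent.LibGP76.Cl_max_left _ _ hrC)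
    have hle : ρ s ≤ r := ((le_max_right _ _).trans_lt (hrC s hs)).le
    exact ⟨(hmem ξ' _).2 (Or.inr ⟨ξ, hD2 _ _ _ hle (hρ1 s), Or.inr ⟨η, hD2 _ _ _ hle (hρ2 s),
      ε s, hD2 _ _ _ hle (hρ3 s), s, hs, hsG⟩⟩), h4⟩

end Pool.Agent.LibGS
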