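import Pool.Agent.LibGS.BDefs
import Pool.Agent.LibGS.Cof

/-! [GS76 BMain] Case B: the main claim. -/

set_option autoImplicit false

namespace Pool.Agent.LibGS

open Cardinal Set Order
open Pool.Agent.LibGP76 (RegK Ub Cl fl Stat)

variable {K I Λ : Type} [LinearOrder K] [WellFoundedLT K] [LinearOrder I] [WellFoundedLT I]
  [LinearOrder Λ] [WellFoundedLT Λ] {th : I → Cardinal.{0}} {t : I → K}

/-- MAIN CLAIM. PROOF. For `r : I` let `g r < (w₀ r).2` be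
above all `y' < (w₀ r).2` with `(r, (w₀ r).1, y') ∈ NS β` (`cf_bdd`: at most `succ (th r)` such `y'`,
`succ (succ (th r)) ≤ cf (w₀ r).2`). Define by recursion on `n` (state: `ξ n > β`, `w n : I → I × K`,
`A n : Set I`, with `∀ r ∈ A n, Lim r ∧ (r, w n r) ∈ NS (ξ n) ∧ ¬ Good (cf (w n r).2) ∧ Acc .. ∧
g r < (w n r).2 ∧ (w n r).1 = (w₀ r).1`): `A 0 = {r | Lim r, w₀ r not good}`, `w 0 = w₀`, `ξ 0 = β⁺` any point
above `β` (`Flat.base`); given stage `n`, `Flat.step` (the second hypothesis holds because otherwise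
`TypeI th R NS X`) gives `ξ'`, `w'`, `E n`; `ξ (n+1) = ξ'`, `w (n+1) = w'`,
`A (n+1) = {r ∈ A n ∩ Cl (E n) | (w' r).2 not good}`. Let `ε` be above all `ξ n` (`RegK Λ` is uncountable).
For every `n` let `ρ n` be the threshold of `Flat.mono` for `ξ n < ε`. Let `E : I → I` be above all `E n`
and all `ρ n` (`RegK I` is uncountable). Let `r ∈ Cl E`, `Lim r` (so there is `s < r`, and `ρ n < r` for
all `n`, `r ∈ Cl (E n)`). If `w₀ r` is good take `w r = w₀ r`. Otherwise `r ∈ A 0`, and not `r ∈ A n` for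
all `n`, since then `(w n r).2` would be an infinite decreasing sequence. Let `n` be the least with
`r ∉ A (n + 1)`: then `w (n+1) r` is good, `(r, w (n+1) r) ∈ NS (ξ (n+1))`, take `w r = w (n+1) r`;
`g r < (w r).2 < (w₀ r).2`. -/
theorem main_claim (hA : Amb K I th t) (hI : RegK I) (hL : RegK Λ) (R : I → I → Set K)
    (NS0 : Set (I × I × K)) (NS : Λ → Set (I × I × K)) (hF : Flat th R NS0 NS) (X : Set K)
    (w₀ : I → I × K)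
    (hw : ∀ r, Lim r → (r, w₀ r) ∈ NS0 ∧ Acc (X ∩ R r (w₀ r).1) (w₀ r).2)
    (hX : ¬ TypeI th R NS X) (β : Λ) :
    ∃ (ε : Λ) (E : I → I) (w : I → I × K), β < ε ∧ ∀ r ∈ Cl E, Lim r →
      (r, w r) ∈ NS ε ∧ Good (cf (w r).2) ∧ (w r).1 = (w₀ r).1 ∧
        Acc (X ∩ R r (w r).1) (w r).2 ∧ (w r).2 ≤ (w₀ r).2 ∧
        (w r = w₀ r ∨ (¬ Good (cf (w₀ r).2) ∧
          ∀ y', (r, (w₀ r).1, y') ∈ NS β → y' < (w₀ r).2 → y' < (w r).2)) := by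
  classical
  -- the function g
  have hg : ∀ r, ∃ v : K, Lim r → (v < (w₀ r).2 ∧
      ∀ y', (r, (w₀ r).1, y') ∈ NS β → y' < (w₀ r).2 → y' < v) := by
    intro r
    by_cases hr : Lim r
    · have hbig : succ (succ (th r)) ≤ cf (w₀ r).2 := hF.big β (r, w₀ r) (hF.base β (hw r hr).1)
      have hinf : ℵ₀ ≤ cf (w₀ r).2 := by
        have h1 : ℵ₀ ≤ th r := by
          refine hA.reg.inf.trans (le_trans ?_ (hA.mu r).le)
          exact (le_succ _).trans ((le_succ _).trans ((le_succ _).trans (le_succ _)))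
        exact h1.trans ((le_succ _).trans ((le_succ _).trans hbig))
      have hcard : #{y' : K | (r, (w₀ r).1, y') ∈ NS β ∧ y' < (w₀ r).2} < cf (w₀ r).2 := by
        refine lt_of_le_of_lt ?_ ((lt_succ _).trans_le hbig)
        refine le_trans ?_ (hF.card β r)
        refine Cardinal.mk_le_of_injective
          (f := fun y' : {y' : K | (r, (w₀ r).1, y') ∈ NS β ∧ y' < (w₀ r).2} =>
            (⟨(r, (w₀ r).1, y'.1), y'.2.1, rfl⟩ : {q | q ∈ NS β ∧ q.1 = r})) ?_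
        intro a b hab
        have h1 := congrArg (fun q : {q | q ∈ NS β ∧ q.1 = r} => q.1.2.2) hab
        exact Subtype.ext h1
      obtain ⟨v, hv, hv2⟩ := cf_bdd hinf {y' : K | (r, (w₀ r).1, y') ∈ NS β ∧ y' < (w₀ r).2}
        (fun s hs => hs.2) hcard
      exact ⟨v, fun _ => ⟨hv, fun y' h1 h2 => hv2 y' ⟨h1, h2⟩⟩⟩
    · exact ⟨(w₀ r).2, fun h => absurd h hr⟩
  choose g hg using hg
  -- a point above β
  obtain ⟨β1, hβ1⟩ : ∃ β1 : Λ, β < β1 := by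
    obtain ⟨c, hc⟩ := hL.reg {β} (by
      rw [Cardinal.mk_singleton]
      exact lt_of_lt_of_le Cardinal.one_lt_aleph0 hL.unc.le)
    exact ⟨c, hc β rfl⟩
  -- states
  obtain ⟨Inv, hInv⟩ : ∃ Inv : Λ × (I → I × K) × Set I → Prop, ∀ σ, Inv σ ↔ (β < σ.1 ∧
      ∀ r ∈ σ.2.2, (Lim r ∧ (r, σ.2.1 r) ∈ NS σ.1 ∧ ¬ Good (cf (σ.2.1 r).2) ∧
        Acc (X ∩ R r (σ.2.1 r).1) (σ.2.1 r).2 ∧ g r < (σ.2.1 r).2) ∧
        (σ.2.1 r).1 = (w₀ r).1 ∧ (σ.2.1 r).2 ≤ (w₀ r).2) := ⟨_, fun σ => Iff.rfl⟩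
  have hstep : ∀ σ : {σ // Inv σ}, ∃ (σ' : {σ // Inv σ}) (E : I → I), σ.1.1 < σ'.1.1 ∧
      (∀ r ∈ σ.1.2.2, r ∈ Cl E →
        (r, σ'.1.2.1 r) ∈ NS σ'.1.1 ∧ (σ'.1.2.1 r).1 = (σ.1.2.1 r).1 ∧ g r < (σ'.1.2.1 r).2 ∧
          (σ'.1.2.1 r).2 < (σ.1.2.1 r).2 ∧ Acc (X ∩ R r (σ'.1.2.1 r).1) (σ'.1.2.1 r).2) ∧
      ∀ r, r ∈ σ'.1.2.2 ↔ (r ∈ σ.1.2.2 ∧ r ∈ Cl E ∧ ¬ Good (cf (σ'.1.2.1 r).2)) := by
    rintro ⟨⟨ξ, w, A⟩, hσ⟩
    have hσ' := (hInv _).1 hσ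
    simp only at hσ'
    obtain ⟨hβξ, hA'⟩ := hσ'
    obtain ⟨ξ', w', E, hξ, hE⟩ := hF.step X ξ w A g (fun r hr => (hA' r hr).1) (by
      intro T hT hTs hTb
      refine hX ⟨ξ, T, ?_, hTs, ?_, hTb⟩
      · intro q hq
        obtain ⟨r, hr, rfl⟩ := hT hq
        exact (hA' r hr).1.2.1
      · intro q hq
        obtain ⟨r, hr, rfl⟩ := hT hq
        exact ⟨hF.big ξ _ (hA' r hr).1.2.1, (hA' r hr).1.2.2.2.1⟩)
    refine ⟨⟨(ξ', w', {r | r ∈ A ∧ r ∈ Cl E ∧ ¬ Good (cf (w' r).2)}), (hInv _).2 ⟨?_, ?_⟩⟩, E, hξ,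
      hE, fun r => Iff.rfl⟩
    · exact hβξ.trans hξ
    · rintro r ⟨hr, hrE, hrG⟩
      obtain ⟨h1, h2, h3, h4, h5⟩ := hE r hr hrE
      obtain ⟨⟨k1, k2, k3, k4, k5⟩, k6, k7⟩ := hA' r hr
      exact ⟨⟨k1, h1, hrG, h5, h3⟩, h2.trans k6, h4.le.trans k7⟩
  choose nx Ef hnx1 hnx2 hnx3 using hstep
  obtain ⟨s0, hs0a, hs0b⟩ : ∃ s0 : {σ // Inv σ}, (∀ r, Lim r → ¬ Good (cf (w₀ r).2) →
      r ∈ s0.1.2.2) ∧ ∀ r, s0.1.2.1 r = w₀ r := by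
    refine ⟨⟨(β1, w₀, {r | Lim r ∧ ¬ Good (cf (w₀ r).2)}), (hInv _).2 ⟨hβ1, ?_⟩⟩,
      fun r h1 h2 => ⟨h1, h2⟩, fun r => rfl⟩
    rintro r ⟨h1, h2⟩
    exact ⟨⟨h1, hF.base _ (hw r h1).1, h2, (hw r h1).2, (hg r h1).1⟩, rfl, le_rfl⟩
  obtain ⟨s, hsz, hss⟩ : ∃ s : ℕ → {σ // Inv σ}, s 0 = s0 ∧ ∀ n, s (n + 1) = nx (s n) :=
    ⟨fun n => Nat.rec s0 (fun _ σ => nx σ) n, rfl, fun n => rfl⟩
  -- the level ε
  have hctL : ∀ f : ℕ → Λ, ∃ c, ∀ n, f n < c := by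
    intro f
    obtain ⟨c, hc⟩ := hL.reg (Set.range f) (lt_of_le_of_lt
      (Cardinal.mk_range_le.trans (by simp)) hL.unc)
    exact ⟨c, fun n => hc _ ⟨n, rfl⟩⟩
  have hctI : ∀ f : ℕ → I, ∃ c, ∀ n, f n < c := by
    intro f
    obtain ⟨c, hc⟩ := hI.reg (Set.range f) (lt_of_le_of_lt
      (Cardinal.mk_range_le.trans (by simp)) hI.unc)
    exact ⟨c, fun n => hc _ ⟨n, rfl⟩⟩
  obtain ⟨ε, hε⟩ := hctL (fun n => (s n).1.1)
  choose ρ hρ using fun n : ℕ => hF.mono (s n).1.1 ε (hε n)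
  obtain ⟨c1, hc1⟩ := hctI ρ
  have hE : ∀ i : I, ∃ c, (∀ n, Ef (s n) i < c) ∧ c1 ≤ c := by
    intro i
    obtain ⟨c2, hc2⟩ := hctI (fun n => Ef (s n) i)
    exact ⟨max c1 c2, fun n => lt_max_of_lt_right (hc2 n), le_max_left _ _⟩
  choose E hE1 hE2 using hE
  have hβε : β < ε := ((hInv _).1 (s 0).2).1.trans (hε 0)
  have key : ∀ r, ∃ v : I × K, r ∈ Cl E → Lim r →
      (r, v) ∈ NS ε ∧ Good (cf v.2) ∧ v.1 = (w₀ r).1 ∧
        Acc (X ∩ R r v.1) v.2 ∧ v.2 ≤ (w₀ r).2 ∧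
        (v = w₀ r ∨ (¬ Good (cf (w₀ r).2) ∧
          ∀ y', (r, (w₀ r).1, y') ∈ NS β → y' < (w₀ r).2 → y' < v.2)) := by
    intro r
    by_cases hr : r ∈ Cl E ∧ Lim r
    swap
    · exact ⟨w₀ r, fun h1 h2 => absurd ⟨h1, h2⟩ hr⟩
    obtain ⟨hrE, hrL⟩ := hr
    by_cases hG : Good (cf (w₀ r).2)
    · exact ⟨w₀ r, fun _ _ => ⟨hF.base _ (hw r hrL).1, hG, rfl, (hw r hrL).2, le_rfl, Or.inl rfl⟩⟩
    obtain ⟨s1, hs1⟩ := hrL.1
    have hρr : ∀ n, ρ n < r := fun n =>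
      (hc1 n).trans_le ((hE2 s1).trans (hrE s1 hs1).le)
    have hCl : ∀ n, r ∈ Cl (Ef (s n)) := fun n y hy => (hE1 y n).trans (hrE y hy)
    have hr0 : r ∈ (s 0).1.2.2 := by
      rw [hsz]
      exact hs0a r hrL hG
    have hex : ∃ n, r ∉ (s n).1.2.2 := by
      by_contra hcon
      push Not at hcon
      obtain ⟨x, ⟨n, rfl⟩, hn⟩ := wellFounded_lt.has_min
        (Set.range (fun n => ((s n).1.2.1 r).2)) ⟨_, 0, rfl⟩
      refine hn ((s (n + 1)).1.2.1 r).2 ⟨n + 1, rfl⟩ ?_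
      rw [hss n]
      exact (hnx2 (s n) r (hcon n) (hCl n)).2.2.2.1
    obtain ⟨m, hm⟩ : ∃ m, Nat.find hex = m + 1 := by
      rcases Nat.eq_zero_or_pos (Nat.find hex) with h | h
      · have h1 := Nat.find_spec hex
        rw [h] at h1
        exact absurd hr0 h1
      · exact ⟨Nat.find hex - 1, by omega⟩
    have hrm : r ∈ (s m).1.2.2 := by
      by_contra hcon
      exact Nat.find_min hex (m := m) (by omega) hcon
    have hrm1 : r ∉ (s (m + 1)).1.2.2 := by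
      have h1 := Nat.find_spec hex
      rwa [hm] at h1
    obtain ⟨h1, h2, h3, h4, h5⟩ := hnx2 (s m) r hrm (hCl m)
    obtain ⟨⟨k1, k2, k3, k4, k5⟩, k6, k7⟩ := ((hInv _).1 (s m).2).2 r hrm
    have hgood : Good (cf ((nx (s m)).1.2.1 r).2) := by
      by_contra hcon
      apply hrm1
      rw [hss m]
      exact (hnx3 (s m) r).2 ⟨hrm, hCl m, hcon⟩
    refine ⟨(nx (s m)).1.2.1 r, fun _ _ => ⟨?_, hgood, h2.trans k6, h5, h4.le.trans k7,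
      Or.inr ⟨hG, fun y' hy1 hy2 => ((hg r hrL).2 y' hy1 hy2).trans h3⟩⟩⟩
    have h6 := hρ (m + 1) (r, (s (m + 1)).1.2.1 r)
    rw [hss m] at h6
    exact h6 h1 (hρr (m + 1))
  choose w hw2 using key
  exact ⟨ε, E, w, hβε, hw2⟩

end Pool.Agent.LibGS
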