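import Pool.Agent.LibGS.Tree
import Pool.Agent.LibGS.Proc
import Pool.Agent.LibGS.Stage
import Pool.Agent.LibPcf.Base

/-! [GS76 BPg] Case B: the refinement lemma PG. -/

set_option autoImplicit false

namespace Pool.Agent.LibGS

open Cardinal Set Order
open Pool.Agent.LibGP76 (RegK Ub Cl fl Stat)

variable {K I Λ N : Type} [LinearOrder K] [WellFoundedLT K] [LinearOrder I] [WellFoundedLT I]
  [LinearOrder Λ] [WellFoundedLT Λ]

/-- PG. `Q` is a set of at most `ν` nodes, `f` a sequence of length `Λ`. There are clubs `b u` of `y u`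
such that for every `X` and every `T ⊆ Q` on which `f` is cofinal, with `X` unbounded in `P u ∩ y u` for
`u ∈ T`, and for every `g` below `y` on `T` there is `ε` such that for almost all `u ∈ T` there is a point
`y'` of the tree from `f ε u`, above `g u`, of cofinality `> σ u`, at which `X ∩ P u` is unbounded.

PROOF. Suppose not: for every `b` (with `∀ u ∈ Q, Clb (b u) (y u)`) there are `X b`, `T b`, `g b` such that
no `ε` works. Let `F b u = fun x => max (b u x) (nx x)` with `nx` from `exists_next` for `X b ∩ P u` if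
`u ∈ T b`, `F b u = b u` otherwise. Apply `proc` with `Z = (succ ν).ord.ToType` (`#Z = succ ν < cf (y u)`):
`Φ`, `bs`. Write `X ζ = X (Φ ζ)` etc. For `u ∈ Q` let `g' u < y u` be above `g ζ u` for all `ζ` with
`u ∈ T ζ` (`cf_sup`) and `z u ∈ Cl (bs u)` with `g' u < z u < y u`, `cf (z u) = succ (σ u)`
(`exists_cl_cf`). For every `ζ` there is `ε ζ` with `Ev (T ζ) (z u ≤ f (ε ζ) u)` (cofinality of `f` on
`T ζ`); let `ε` be above all `ε ζ` (`RegK Λ`, `#Z < #Λ`); so `Ev (T ζ) (z u ≤ f ε u)` for all `ζ`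
(`hinc`). For `u ∈ Q` with `z u ≤ f ε u` let `y' u`, `ζ₀ u` be from `stab` (`Φ · u`, `z u`, `x = f ε u`). Let
`ζ ≥` all `ζ₀ u` (`#Q ≤ ν < #Z`). Then for almost all `u ∈ T ζ` the point `y' u` is in the tree for
`Φ ζ u`, `g ζ u < g' u < z u ≤ y' u`, and `y' u ∈ Cl (Φ ζ' u)` for some `ζ' > ζ`, so it is closed under
`nx`, `Acc (X ζ ∩ P u) (y' u)`. So `ε` works for `X ζ`, `T ζ`, `g ζ`: contradiction. -/
theorem pg {C : K → Set K} (hC : CofSys C) (hΛ : RegK Λ) (idx : N → I) (y : N → K)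
    (P : N → Set K) (Q : Set N) (ν : Cardinal.{0}) (hν : ℵ₀ ≤ ν) (hQ : #Q ≤ ν)
    (hνΛ : succ ν < #Λ) (hy : ∀ u ∈ Q, succ ν < cf (y u)) (σ : N → Cardinal.{0})
    (hσ : ∀ u, ℵ₀ ≤ σ u) (hσ2 : ∀ u ∈ Q, succ (σ u) < cf (y u)) (f : Λ → N → K)
    (hf : ∀ ε, ∀ u ∈ Q, f ε u < y u)
    (hinc : ∀ ε ε', ε < ε' → Ev idx Q (fun u => f ε u ≤ f ε' u)) :
    ∃ b : N → K → K, (∀ u ∈ Q, Clb (b u) (y u)) ∧ ∀ (X : Set K) (T : Set N), T ⊆ Q →
      (∀ g : N → K, (∀ u ∈ T, g u < y u) → ∃ ε, Ev idx T (fun u => g u ≤ f ε u)) →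
      (∀ u ∈ T, Acc (X ∩ P u) (y u)) → ∀ g : N → K, (∀ u ∈ T, g u < y u) →
        ∃ ε, Ev idx T (fun u => ∃ y', Tr C (σ u) (b u) (f ε u) y' ∧ g u < y' ∧ σ u < cf y' ∧
          Acc (X ∩ P u) y') := by
  classical
  by_contra hcon
  push Not at hcon
  -- the counterexamples
  have hc : ∀ b : N → K → K, ∃ (X : Set K) (T : Set N) (g : N → K), (∀ u ∈ Q, Clb (b u) (y u)) →
      T ⊆ Q ∧ (∀ g : N → K, (∀ u ∈ T, g u < y u) → ∃ ε, Ev idx T (fun u => g u ≤ f ε u)) ∧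
      (∀ u ∈ T, Acc (X ∩ P u) (y u)) ∧ (∀ u ∈ T, g u < y u) ∧
      ∀ ε, ¬ Ev idx T (fun u => ∃ y', Tr C (σ u) (b u) (f ε u) y' ∧ g u < y' ∧ σ u < cf y' ∧
          Acc (X ∩ P u) y') := by
    intro b
    by_cases hb : ∀ u ∈ Q, Clb (b u) (y u)
    · obtain ⟨X, T, h1, h2, h3, g, h4, h5⟩ := hcon b hb
      exact ⟨X, T, g, fun _ => ⟨h1, h2, h3, h4, h5⟩⟩
    · exact ⟨∅, ∅, y, fun h => absurd h hb⟩
  choose X T g hc using hc
  have hnx : ∀ (b : N → K → K) (u : N), ∃ nx : K → K,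
      ((∀ u ∈ Q, Clb (b u) (y u)) → u ∈ T b → Clb nx (y u) ∧ ∀ c ∈ Cl nx, c ≤ y u →
        Acc (X b ∩ P u) c) := by
    intro b u
    by_cases h : (∀ u ∈ Q, Clb (b u) (y u)) ∧ u ∈ T b
    · obtain ⟨nx, h1, h2⟩ := exists_next ((hc b h.1).2.2.1 u h.2)
      exact ⟨nx, fun _ _ => ⟨h1, h2⟩⟩
    · exact ⟨id, fun h1 h2 => absurd ⟨h1, h2⟩ h⟩
  choose nx hnx using hnx
  obtain ⟨Z, iZ1, iZ2, hZ, hZc⟩ := LibPcf.exists_regK_succ ν hν
  have hZne := LibGP76.nonempty_of_regK hZ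
  obtain ⟨Φ, bs, hΦ1, hΦ2, hΦ3, hbs1, hbs2⟩ := proc (Z := Z) y Q
    (fun u hu => ⟨(hν.trans (le_succ _)).trans (hy u hu).le, by rw [hZc]; exact hy u hu⟩)
    (fun b u x => if u ∈ T b then max (b u x) (nx b u x) else b u x)
    (by
      intro b hb u hu
      by_cases h : u ∈ T b
      · obtain ⟨h1, -⟩ := hnx b u hb h
        refine ⟨fun x x' hx => ?_, fun z hz => ?_⟩
        · simp only [if_pos h]
          exact max_le_max ((hb u hu).mono x x' hx) (h1.mono x x' hx)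
        · simp only [if_pos h]
          exact max_lt ((hb u hu).mem z hz) (h1.mem z hz)
      · refine ⟨fun x x' hx => ?_, fun z hz => ?_⟩
        · simp only [if_neg h]
          exact (hb u hu).mono x x' hx
        · simp only [if_neg h]
          exact (hb u hu).mem z hz)
  have hcΦ : ∀ ζ, _ := fun ζ => hc (Φ ζ) (hΦ1 ζ)
  have hZlt : ∀ u ∈ Q, #Z < cf (y u) := fun u hu => by rw [hZc]; exact hy u hu
  have hinf : ∀ u ∈ Q, ℵ₀ ≤ cf (y u) := fun u hu => (hν.trans (le_succ _)).trans (hy u hu).le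
  -- the points `z u`
  have hz : ∀ u, ∃ z, u ∈ Q → z < y u ∧ z ∈ Cl (bs u) ∧ σ u < cf z ∧
      ∀ ζ, u ∈ T (Φ ζ) → g (Φ ζ) u < z := by
    intro u
    by_cases hu : u ∈ Q
    · obtain ⟨g', hg1, hg2⟩ := cf_sup (hinf u hu) (hZlt u hu)
        (fun ζ => if u ∈ T (Φ ζ) then g (Φ ζ) u else f (LibGP76.nonempty_of_regK hΛ).some u)
        (by
          intro ζ
          by_cases h : u ∈ T (Φ ζ)
          · simp only [if_pos h]
            exact (hcΦ ζ).2.2.2.1 u h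
          · simp only [if_neg h]
            exact hf _ u hu)
      obtain ⟨z, hz1, hz2, hz3, hz4⟩ := exists_cl_cf (hbs1 u hu) (isRegular_succ (hσ u))
        (hσ2 u hu) hg1
      refine ⟨z, fun _ => ⟨hz2, hz3, by rw [hz4]; exact lt_succ _, fun ζ hζ => ?_⟩⟩
      have h1 := hg2 ζ
      simp only [if_pos hζ] at h1
      exact h1.trans hz1
    · exact ⟨y u, fun h => absurd h hu⟩
  choose z hz using hz
  -- the level `ε`
  have hε0 : ∀ ζ, ∃ ε, Ev idx (T (Φ ζ)) (fun u => z u ≤ f ε u) := fun ζ =>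
    (hcΦ ζ).2.1 z (fun u hu => (hz u ((hcΦ ζ).1 hu)).1)
  choose ε0 hε0 using hε0
  obtain ⟨ε, hε⟩ := LibGP76.exists_sup hΛ (by rw [hZc]; exact hνΛ) ε0
  have hev : ∀ ζ, Ev idx (T (Φ ζ)) (fun u => z u ≤ f ε u) := by
    intro ζ
    obtain ⟨i₀, h0⟩ := hε0 ζ
    obtain ⟨i₁, h1⟩ := hinc (ε0 ζ) ε (hε ζ)
    exact ⟨max i₀ i₁, fun u hu hi => (h0 u hu ((le_max_left _ _).trans_lt hi)).trans
      (h1 u ((hcΦ ζ).1 hu) ((le_max_right _ _).trans_lt hi))⟩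
  -- stabilisation
  have hst : ∀ u : Q, ∃ (y' : K) (ζ₀ : Z), z u ≤ f ε u → z u ≤ y' ∧ y' ≤ f ε u ∧ σ u < cf y' ∧
      (∀ ζ, y' ∈ Cl (Φ ζ u)) ∧ ∀ ζ, ζ₀ ≤ ζ → Tr C (σ u) (Φ ζ u) (f ε u) y' := by
    intro u
    by_cases h : z u ≤ f ε u
    · obtain ⟨y', ζ₀, h1⟩ := stab hC (σ u) (fun ζ => Φ ζ u) (fun ζ ζ' hζ x => hΦ2 ζ ζ' hζ u x) (z u)
        (fun ζ => LibGP76.Cl_anti (hbs2 ζ u u.2) (hz u u.2).2.1) (hz u u.2).2.2.1 (f ε u) h
      exact ⟨y', ζ₀, fun _ => h1⟩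
    · exact ⟨y u, hZne.some, fun h' => absurd h' h⟩
  choose y' ζ₀ hst using hst
  obtain ⟨ζ, hζ⟩ := LibGP76.exists_sup hZ (by rw [hZc]; exact lt_succ_iff.2 hQ) ζ₀
  obtain ⟨ζ', hζ'⟩ := LibGP76.exists_gt' hZ ζ
  obtain ⟨h1, -, h3, h4, h5⟩ := hcΦ ζ
  apply h5 ε
  obtain ⟨i₀, h0⟩ := hev ζ
  refine ⟨i₀, fun u hu hi => ?_⟩
  have huQ := h1 hu
  obtain ⟨k1, k2, k3, k4, k5⟩ := hst ⟨u, huQ⟩ (h0 u hu hi)
  have hyy : y' ⟨u, huQ⟩ < y u := k2.trans_lt (hf ε u huQ)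
  refine ⟨y' ⟨u, huQ⟩, k5 ζ (hζ ⟨u, huQ⟩).le, ((hz u huQ).2.2.2 ζ hu).trans_le k1, k3, ?_⟩
  refine (hnx (Φ ζ) u (hΦ1 ζ) hu).2 _ (fun w hw => ?_) hyy.le
  refine lt_of_le_of_lt ?_ (k4 ζ' w hw)
  have h6 := hΦ3 ζ ζ' hζ' u huQ w (hw.trans hyy)
  simp only [if_pos hu] at h6
  exact (le_max_right _ _).trans h6

end Pool.Agent.LibGS
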