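import Pool.Agent.LibGS.Defs
import Pool.Agent.LibPcf.Fin

/-! [GS76 Pcf] Filtrations, capture, cofinal sequences: the interface statements. -/

set_option autoImplicit false

namespace Pool.Agent.LibGS

open Cardinal Set Order
open Pool.Agent.LibGP76 (RegK Ub Cl fl Stat nonempty_of_regK exists_gt' not_stat)
open Pool.Agent.LibGPR (Lad)
open Pool.Agent.LibPcf (CofGt Thetas UbR BB BddOn)

variable {K I Λ L N W : Type} [LinearOrder K] [WellFoundedLT K] [LinearOrder I] [WellFoundedLT I]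
  [LinearOrder Λ] [WellFoundedLT Λ] [LinearOrder L] [WellFoundedLT L]
  {th : I → Cardinal.{0}} {t : I → K}

omit [WellFoundedLT K] in
theorem cofGt_of_lt {y : K} {c : Cardinal.{0}} (h : c < cf y) : CofGt y c := by
  intro S hS hSy
  by_contra hcon
  push Not at hcon
  have h1 : IsCofinal {s : Set.Iio y | s.1 ∈ S} := by
    rintro ⟨b, hb⟩
    obtain ⟨s, hs, hbs⟩ := hcon b hb
    exact ⟨⟨s, hSy s hs⟩, hs, hbs⟩
  have h2 : #{s : Set.Iio y | s.1 ∈ S} ≤ #S := by
    refine mk_le_of_injective (f := fun s => ⟨s.1.1, s.2⟩) ?_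
    intro a b hab
    exact Subtype.ext (Subtype.ext (congrArg (fun z : S => z.1) hab))
  have h3 := (Order.cof_le h1).trans (h2.trans hS)
  exact absurd h (not_lt.2 h3)

omit [WellFoundedLT K] in
theorem lt_of_cofGt {y : K} {c : Cardinal.{0}} (h : CofGt y c) : c < cf y := by
  by_contra hcon
  rw [not_lt] at hcon
  obtain ⟨S, hS, hSc⟩ := Order.exists_cof_eq (Set.Iio y)
  obtain ⟨b, hb, hb2⟩ := h (Subtype.val '' S) (mk_image_le.trans (by rw [hSc]; exact hcon))
    (by rintro _ ⟨s, _, rfl⟩; exact s.2)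
  obtain ⟨s, hs, hbs⟩ := hS ⟨b, hb⟩
  exact absurd (hb2 s.1 ⟨s, hs, rfl⟩) (not_lt.2 hbs)

omit [WellFoundedLT K] in
theorem exists_lt_of_cf {y : K} {c : Cardinal.{0}} (h : c < cf y) : ∃ b, b < y := by
  obtain ⟨b, hb, -⟩ := cofGt_of_lt h ∅ (by rw [mk_eq_zero]; exact bot_le)
    (fun s hs => absurd hs (notMem_empty s))
  exact ⟨b, hb⟩

omit [WellFoundedLT K] [WellFoundedLT I] in
theorem Amb.inf (hA : Amb K I th t) (r : I) : ℵ₀ ≤ th r :=
  hA.reg.inf.trans (((le_succ _).trans <| (le_succ _).trans <| (le_succ _).trans <|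
    (le_succ _)).trans (hA.mu r).le)

omit [WellFoundedLT K] [WellFoundedLT I] in
theorem Amb.thetas (hA : Amb K I th t) : Thetas I #K th where
  lim := hA.sup
  lt := hA.lt
  gap := hA.step
  cont := hA.cont
  base := fun r => (hA.mu r).le
  inf := hA.inf

omit [WellFoundedLT K] [WellFoundedLT I] in
theorem Amb.infK (hA : Amb K I th t) : ℵ₀ ≤ #K := by
  have h1 : #I ≠ 0 := (aleph0_pos.trans_le hA.reg.inf).ne'
  obtain ⟨r⟩ := mk_ne_zero_iff.1 h1
  exact (hA.inf r).trans (hA.lt r).le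

omit [WellFoundedLT K] [WellFoundedLT I] [WellFoundedLT Λ] in
/-- Filtrations of the initial segments of `Λ` (`#Λ = α⁺`). -/
theorem exists_filt (hA : Amb K I th t) (hL : RegK Λ) (hΛ : #Λ = succ #K) :
    ∃ D : Λ → I → Set Λ, (∀ δ r, ∀ β ∈ D δ r, β < δ) ∧ (∀ δ r r', r ≤ r' → D δ r ⊆ D δ r') ∧
      (∀ δ, ∀ β < δ, ∃ r, β ∈ D δ r) ∧ ∀ δ r, #(D δ r) ≤ th r := by
  have hIio : ∀ ξ : Λ, #(Set.Iio ξ) ≤ #K := fun ξ => by
    have := hL.small ξ
    rw [hΛ] at this
    exact lt_succ_iff.1 this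
  choose Δ hΔ1 hΔ2 hΔ3 hΔ4 using fun ξ : Λ => LibPcf.exists_filt hA.thetas (Set.Iio ξ) (hIio ξ)
  exact ⟨Δ, fun δ r β hβ => hΔ3 δ r hβ, hΔ1, hΔ4, hΔ2⟩

/-- Capturing arrays (T+ and Fodor's filtrations). -/
theorem capture (hA : Amb K I th t) (hI : RegK I) (hL : RegK Λ) (hΛ : #Λ = succ #K)
    (S : I → Set W) (hS : ∀ r, #(S r) ≤ succ (th r)) :
    ∃ Kt : Λ → I → Set (I × W), (∀ η s, #(Kt η s) ≤ th s) ∧
      (∀ η s, ∀ q ∈ Kt η s, s < q.1 ∧ q.2 ∈ S q.1) ∧
      ∀ w : I → W, ∃ (η : Λ) (E : I → I), ∀ r ∈ Cl E, Lim r → w r ∈ S r →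
        ∃ s < r, (r, w r) ∈ Kt η s := by
  classical
  haveI := nonempty_of_regK hI
  have hθ := hA.thetas
  have hsK : ∀ r, succ (th r) < #K := by
    intro r
    obtain ⟨r', hr'⟩ := exists_gt' hI r
    exact ((le_succ _).trans <| (le_succ _).trans <| (le_succ _).trans <| (le_succ _)).trans
      (hθ.gap r r' hr') |>.trans_lt (hθ.lt r')
  -- the points
  obtain ⟨O, iO1, iO2, y, hy1, hy2⟩ : ∃ (O : Type) (_ : LinearOrder O) (_ : WellFoundedLT O)
      (y : I → O), (∀ r, #(Set.Iio (y r)) = succ (th r)) ∧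
        ∀ r, ∀ e < y r, #(Set.Iic e) ≤ th r := by
    choose y hy1 hy2 using fun r => LibGP76.exists_pt (κ := #K) (hsK r)
    refine ⟨(#K).ord.ToType, inferInstance, inferInstance, y, hy2, fun r e he => ?_⟩
    have h1 : #(Set.Iio e) ≤ th r := by
      rw [← LibGP76.card_idx e, ← lt_succ_iff, ← lt_ord, ← hy1 r]
      exact LibGP76.idx_lt_idx.2 he
    have h2 : Set.Iic e ⊆ insert e (Set.Iio e) := by
      intro x hx
      rcases (mem_Iic.1 hx).lt_or_eq with h | rfl
      · exact mem_insert_of_mem _ h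
      · exact mem_insert _ _
    refine (mk_le_mk_of_subset h2).trans (mk_insert_le.trans ?_)
    exact (add_le_add h1 le_rfl).trans (add_one_eq (hA.inf r)).le
  have hcof : ∀ r, CofGt (y r) (th r) := by
    intro r Q hQ hQy
    by_contra hcon
    push Not at hcon
    have h1 : Set.Iio (y r) ⊆ ⋃ q : Q, Set.Iic q.1 := by
      intro b hb
      obtain ⟨q, hq, hbq⟩ := hcon b hb
      exact mem_iUnion.2 ⟨⟨q, hq⟩, hbq⟩
    have h2 := (mk_le_mk_of_subset h1).trans mk_iUnion_le_sum_mk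
    have h3 : Cardinal.sum (fun q : Q => #(Set.Iic q.1)) ≤ th r := by
      refine (sum_le_mk_mul_iSup _).trans ?_
      refine (mul_le_mul' hQ (?_ : _ ≤ th r)).trans (mul_eq_self (hA.inf r)).le
      by_cases hne : Nonempty Q
      · exact ciSup_le fun q => hy2 r q.1 (hQy q.1 q.2)
      · haveI := not_nonempty_iff.1 hne
        rw [ciSup_of_empty]
        exact bot_le
    rw [hy1 r] at h2
    exact absurd (h2.trans h3) (not_le.2 (lt_succ _))
  obtain ⟨g, hg1, hg2, hg3⟩ := LibPcf.tplus hI hθ hL hΛ y hcof hy2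
  -- the enumerations of `S r`
  have hφ : ∀ r, Nonempty (S r ↪ Set.Iio (y r)) := fun r => by
    have h1 := hS r
    rw [← hy1 r] at h1
    exact h1
  let φ : ∀ r, S r ↪ Set.Iio (y r) := fun r => (hφ r).some
  -- the parts
  have hpn : ∀ (η : Λ) (r : I), ∃ pn : O → I, Lim r → (∀ x ∈ Set.Iio (g η r), pn x < r) ∧
      ∀ s, #{x | x ∈ Set.Iio (g η r) ∧ pn x ≤ s} ≤ th s := by
    intro η r
    by_cases h : Lim r
    · obtain ⟨pn, h1, h2⟩ := LibPcf.exists_parts hθ h (Set.Iio (g η r))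
        ((mk_le_mk_of_subset Set.Iio_subset_Iic_self).trans (hy2 r _ (hg1 η r)))
      exact ⟨pn, fun _ => ⟨h1, h2⟩⟩
    · exact ⟨fun _ => r, fun h' => absurd h' h⟩
  choose pn hpn using hpn
  refine ⟨fun η s => {q | s < q.1 ∧ Lim q.1 ∧ ∃ h : q.2 ∈ S q.1,
    (φ q.1 ⟨q.2, h⟩).1 < g η q.1 ∧ pn η q.1 (φ q.1 ⟨q.2, h⟩).1 ≤ s}, ?_, ?_, ?_⟩
  · intro η s
    have h1 : #{q : I × W | s < q.1 ∧ Lim q.1 ∧ ∃ h : q.2 ∈ S q.1,
        (φ q.1 ⟨q.2, h⟩).1 < g η q.1 ∧ pn η q.1 (φ q.1 ⟨q.2, h⟩).1 ≤ s} ≤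
        #(Σ r : {r : I // Lim r}, {x : O | x ∈ Set.Iio (g η r.1) ∧ pn η r.1 x ≤ s}) := by
      refine mk_le_of_injective (f := fun q => ⟨⟨q.1.1, q.2.2.1⟩,
        ⟨(φ q.1.1 ⟨q.1.2, q.2.2.2.choose⟩).1, q.2.2.2.choose_spec⟩⟩) ?_
      rintro ⟨⟨r, v⟩, hq1, hq2, hq3, hq4⟩ ⟨⟨r', v'⟩, hq1', hq2', hq3', hq4'⟩ hqq
      simp only [Sigma.mk.injEq, Subtype.mk.injEq] at hqq
      obtain ⟨h2, h3⟩ := hqq
      subst h2
      have h4 := Subtype.ext_iff.1 (eq_of_heq h3)
      have h5 := (φ r).injective (Subtype.ext h4)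
      have h6 : v = v' := congrArg (fun z : S r => z.1) h5
      subst h6
      rfl
    refine h1.trans ?_
    rw [mk_sigma]
    refine (sum_le_mk_mul_iSup _).trans ?_
    refine (mul_le_mul' ((mk_subtype_le _).trans (hθ.mkM s)) (?_ : _ ≤ th s)).trans
      (mul_eq_self (hA.inf s)).le
    by_cases hne : Nonempty {r : I // Lim r}
    · exact ciSup_le fun r => (hpn η r.1 r.2).2 s
    · haveI := not_nonempty_iff.1 hne
      rw [ciSup_of_empty]
      exact bot_le
  · rintro η s q ⟨h1, h2, h3, -⟩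
    exact ⟨h1, h3⟩
  · intro w
    have hpos : ∀ r, ∃ b, b < y r := by
      intro r
      obtain ⟨b, hb, -⟩ := hcof r ∅ (by rw [mk_eq_zero]; exact bot_le)
        (fun s hs => absurd hs (notMem_empty s))
      exact ⟨b, hb⟩
    choose b0 hb0 using hpos
    obtain ⟨η, hη⟩ := hg3 (fun r => if h : w r ∈ S r then (φ r ⟨w r, h⟩).1 else b0 r) (by
      intro r
      by_cases h : w r ∈ S r
      · simp only [dif_pos h]
        exact (φ r ⟨w r, h⟩).2
      · simp only [dif_neg h]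
        exact hb0 r)
    obtain ⟨b, η₀, hb⟩ := not_stat hη
    refine ⟨η, fun x => max (b x) η₀, fun r hr hlim hw => ?_⟩
    obtain ⟨x, hx⟩ := hlim.1
    have hr0 : η₀ < r := (le_max_right _ _).trans_lt (hr x hx)
    have hrb : r ∈ Cl b := LibGP76.Cl_anti (fun x => le_max_left _ _) hr
    have h1 : (φ r ⟨w r, hw⟩).1 < g η r := by
      by_contra hno
      refine hb r ?_ hr0 hrb
      show g η r ≤ _
      rw [dif_pos hw]
      exact not_lt.1 hno
    have h2 := (hpn η r hlim).1 _ h1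
    exact ⟨_, h2, h2, hlim, hw, h1, le_rfl⟩

/-- UNI + ND: a sequence of length `α⁺` on a set `Q` of at most `th s` nodes of index `> s` which is
cofinal on every selection `T ⊆ Q` without unbounded subset of bounding number `≥ α⁺⁺`. -/
theorem exists_cof_seq (hA : Amb K I th t) (hI : RegK I) (hL : RegK Λ) (hΛ : #Λ = succ #K)
    (idx : N → I) (y : N → K) (Q : Set N) (s : I) (hQ : #Q ≤ th s)
    (hQy : ∀ u ∈ Q, s < idx u ∧ th (idx u) < cf (y u)) :
    ∃ f : Λ → N → K, (∀ ε, ∀ u ∈ Q, f ε u < y u) ∧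
      (∀ ε ε', ε < ε' → Ev idx Q (fun u => f ε u ≤ f ε' u)) ∧
      ∀ T ⊆ Q, Sel idx T → Small (succ #K) idx T y → ∀ g : N → K, (∀ u ∈ T, g u < y u) →
        ∃ ε, Ev idx T (fun u => g u ≤ f ε u) := by
  classical
  have hΛne := nonempty_of_regK hL
  have hθ := hA.thetas
  obtain ⟨f, hf1, hf2, hf3⟩ := LibPcf.exists_f (W := Q) hI hθ hL hΛ (fun u => idx u.1)
    (fun u => y u.1) (fun u => cofGt_of_lt (hQy u.1 u.2).2)
    (fun _ s' => {u | s' = s})
    (by
      intro ξ s'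
      by_cases h : s' = s
      · subst h
        exact (mk_set_le _).trans hQ
      · have : {u : Q | s' = s} = ∅ := by
          ext u
          simp [h]
        rw [this, mk_eq_zero]
        exact bot_le)
    (by
      rintro ξ s' w rfl
      exact (hQy w.1 w.2).1)
  refine ⟨fun ε u => if h : u ∈ Q then f ε ⟨u, h⟩ else y u, ?_, ?_, ?_⟩
  · intro ε u hu
    simp only [dif_pos hu]
    exact hf1 ε ⟨u, hu⟩
  · intro ε ε' hε
    obtain ⟨r₀, hr₀⟩ := hf2 ε ε' hε
    refine ⟨r₀, fun u hu hr => ?_⟩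
    simp only [dif_pos hu]
    exact (hr₀ ⟨u, hu⟩ hr.le).le
  · intro T hTQ hT hsm g hg
    have hpos : ∀ u : Q, ∃ b, b < y u.1 := fun u => exists_lt_of_cf (hQy u.1 u.2).2
    choose b0 hb0 using hpos
    obtain ⟨ε, r₀, h⟩ := hf3 hΛne.some s {u | u.1 ∈ T} (fun u _ => rfl)
      (by
        refine mk_le_of_injective (f := fun u : {u : Q | u.1 ∈ T} => idx u.1.1) ?_
        intro u u' huu
        exact Subtype.ext (Subtype.ext (hT.1 u.2 u'.2 huu)))
      (by
        intro T' hT' hub hBB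
        refine hsm (Subtype.val '' T') (by rintro _ ⟨u, hu, rfl⟩; exact hT' hu) ?_ ?_
        · intro c
          obtain ⟨c', hc'⟩ := exists_gt' hI c
          obtain ⟨w, hw, hr⟩ := hub c'
          exact ⟨idx w.1, ⟨w.1, ⟨w, hw, rfl⟩, rfl⟩, hc'.trans_le hr⟩
        · intro A hAc gA hgA
          have h1 : #A ≤ #Λ := by rwa [hΛ]
          obtain ⟨φ⟩ := h1
          by_cases hAne : Nonempty A
          swap
          · refine ⟨fun u => if h : u ∈ Q then b0 ⟨u, h⟩ else y u, ?_, fun a => (hAne ⟨a⟩).elim⟩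
            rintro u ⟨v, hv, rfl⟩
            simp only [dif_pos v.2]
            exact hb0 v
          have hinv := Function.leftInverse_invFun φ.injective
          obtain ⟨b, hb1, hb2⟩ := hBB (fun ξ w => if w ∈ T' then gA (Function.invFun φ ξ) w.1
            else b0 w) (by
              intro ξ w
              by_cases hw : w ∈ T'
              · simp only [if_pos hw]
                exact hgA _ w.1 ⟨w, hw, rfl⟩
              · simp only [if_neg hw]
                exact hb0 w)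
          refine ⟨fun u => if h : u ∈ Q then b ⟨u, h⟩ else y u, ?_, fun a => ?_⟩
          · rintro u ⟨v, hv, rfl⟩
            simp only [dif_pos v.2]
            exact hb1 v
          · obtain ⟨r₀, hr₀⟩ := hb2 (φ a)
            refine ⟨r₀, ?_⟩
            rintro u ⟨v, hv, rfl⟩ hr
            have h2 := hr₀ v hv hr.le
            simp only [if_pos hv, hinv a] at h2
            simp only [dif_pos v.2]
            exact h2)
      (fun w => if h : w.1 ∈ T then g w.1 else b0 w)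
      (by
        intro w
        by_cases h : w.1 ∈ T
        · simp only [dif_pos h]
          exact hg _ h
        · simp only [dif_neg h]
          exact hb0 w)
    refine ⟨ε, r₀, fun u hu hr => ?_⟩
    have h2 := h ⟨u, hTQ hu⟩ hu hr.le
    simp only [dif_pos hu] at h2
    simp only [dif_pos (hTQ hu)]
    exact h2.le

end Pool.Agent.LibGS
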