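import Pool.Agent.LibGS.BDefs
import Pool.Agent.LibGS.BPg
import Pool.Agent.LibGS.Pcf

/-! [GS76 BOne] Case B: one step for an arbitrary system. -/

set_option autoImplicit false

namespace Pool.Agent.LibGS

open Cardinal Set Order
open Pool.Agent.LibGP76 (RegK Ub Cl fl Stat)

variable {K I Λ : Type} [LinearOrder K] [WellFoundedLT K] [LinearOrder I] [WellFoundedLT I]
  [LinearOrder Λ] [WellFoundedLT Λ] {th : I → Cardinal.{0}} {t : I → K}

/-- [BOne] Refinement of a system `S` by sets `G η ε s`. PROOF. Let `S'` be the set of the `q ∈ S` which are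
not good; `capture` for the sets `{(i, y) | (r, i, y) ∈ S'}` gives `Kt η s : Set (I × I × K)`. Fix `η`, `s`:
`exists_cof_seq` with `N = I × I × K`, `idx = Prod.fst`, `y q = q.2.2`, `Q = Kt η s` gives `f`; `pg` with
`ν = th s`, `P q = R q.1 q.2.1`, `σ q = succ (th q.1)` gives `b` (for `q ∈ Kt η s`: `s < q.1`, so
`succ (th s) < th q.1 < cf q.2.2`; `succ (succ (th q.1)) < cf q.2.2` since `≤` and equality would make
`q` good, `succ (th q.1)` being regular). Let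
`G η ε s = {(r, i, y') | ∃ y, (r, i, y) ∈ Kt η s ∧ Tr C (succ (th r)) (b (r, i, y)) (f ε (r, i, y)) y' ∧
succ (th r) < cf y'}`. Cardinality: `#{q ∈ S | q.1 = r} * succ (th r)`.
Given `X w A g` as in the last clause, `capture` for `w` gives `η`, `E₁`. For `s : I` let
`T s = {(r, w r) | r ∈ A ∩ Cl E₁, (r, w r) ∈ Kt η s}`. If `Prod.fst '' T s` is unbounded then
`Sel Prod.fst (T s)` and `Small (succ #K) Prod.fst (T s) _` by the hypothesis, so `f` is cofinal on `T s`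
and `pg` for `g' q = g q.1` gives `ε s` and a threshold `thr s` for the index; if `T s` is bounded let
`thr s` be a bound. Let `E r` be above `E₁ r` and `thr r`. For `r ∈ A ∩ Cl E` there is `s < r` with
`(r, w r) ∈ Kt η s` (`capture`), so `(r, w r) ∈ T s`, `thr s < r`, and the point `y'` exists:
`w' r = ((w r).1, y')`, `y' ≤ f (ε s) (r, w r) < (w r).2` (`tr_le`). -/
theorem one_step (hA : Amb K I th t) (hI : RegK I) (hL : RegK Λ) (hΛ : #Λ = succ #K)
    (R : I → I → Set K) (S : Set (I × I × K)) (hS : ∀ r, #{q | q ∈ S ∧ q.1 = r} ≤ succ (th r))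
    (hS2 : ∀ q ∈ S, succ (succ (th q.1)) ≤ cf q.2.2) :
    ∃ G : Λ → Λ → I → Set (I × I × K),
      (∀ η ε s r, #{q | q ∈ G η ε s ∧ q.1 = r} ≤ succ (th r)) ∧
      (∀ η ε s, ∀ q ∈ G η ε s, succ (succ (th q.1)) ≤ cf q.2.2) ∧
      ∀ (X : Set K) (w : I → I × K) (A : Set I) (g : I → K),
        (∀ r ∈ A, Lim r ∧ (r, w r) ∈ S ∧ ¬ Good (cf (w r).2) ∧
          Acc (X ∩ R r (w r).1) (w r).2 ∧ g r < (w r).2) →
        (∀ T : Set (I × I × K), T ⊆ {q | ∃ r ∈ A, q = (r, w r)} → Sel Prod.fst T →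
          ¬ Bd (succ #K) Prod.fst T (fun q => q.2.2)) →
        ∃ (η : Λ) (ε : I → Λ) (w' : I → I × K) (E : I → I), ∀ r ∈ A, r ∈ Cl E →
          (∃ s < r, (r, w' r) ∈ G η (ε s) s) ∧ (w' r).1 = (w r).1 ∧ g r < (w' r).2 ∧
            (w' r).2 < (w r).2 ∧ Acc (X ∩ R r (w' r).1) (w' r).2 := by
  classical
  obtain ⟨C, hC⟩ := exists_cofsys (K := K)
  have hth : ∀ i, ℵ₀ ≤ th i := fun i => by
    have h1 := hA.mu i
    have h2 := hA.reg.inf
    exact h2.trans ((le_succ _).trans ((le_succ _).trans ((le_succ _).trans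
      ((le_succ _).trans h1.le))))
  have hths : ∀ i, ℵ₀ ≤ succ (th i) := fun i => (hth i).trans (le_succ _)
  obtain ⟨Kt, hKt1, hKt2, hKt3⟩ := capture (W := I × K) hA hI hL hΛ
    (fun r => {w | (r, w) ∈ S ∧ ¬ Good (cf w.2)}) (fun r => by
      refine le_trans (mk_le_of_injective (f := fun w : {w : I × K | (r, w) ∈ S ∧ ¬ Good (cf w.2)} =>
        (⟨(r, w.1), w.2.1, rfl⟩ : {q : I × I × K | q ∈ S ∧ q.1 = r})) ?_) (hS r)
      intro a b hab
      have h1 : ((r, a.1) : I × I × K) = (r, b.1) := congrArg Subtype.val hab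
      exact Subtype.ext (Prod.mk.inj h1).2)
  have hKS : ∀ η s, ∀ q ∈ Kt η s, q ∈ S ∧ ¬ Good (cf q.2.2) := fun η s q hq => (hKt2 η s q hq).2
  have hcf : ∀ q ∈ S, th q.1 < cf q.2.2 := fun q hq =>
    (lt_succ _).trans_le ((le_succ _).trans (hS2 q hq))
  have hex : ∀ η s, ∃ (f : Λ → I × I × K → K) (b : I × I × K → K → K),
      (∀ ε, ∀ u ∈ Kt η s, f ε u < u.2.2) ∧
      ∀ (X : Set K) (T : Set (I × I × K)), T ⊆ Kt η s → Sel Prod.fst T →
        Small (succ #K) Prod.fst T (fun q => q.2.2) →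
        (∀ u ∈ T, Acc (X ∩ R u.1 u.2.1) u.2.2) → ∀ g : I × I × K → K, (∀ u ∈ T, g u < u.2.2) →
        ∃ ε, Ev Prod.fst T (fun u => ∃ y', Tr C (succ (th u.1)) (b u) (f ε u) y' ∧ g u < y' ∧
          succ (th u.1) < cf y' ∧ Acc (X ∩ R u.1 u.2.1) y') := by
    intro η s
    obtain ⟨f, hf1, hf2, hf3⟩ := exists_cof_seq hA hI hL hΛ Prod.fst
      (fun q : I × I × K => q.2.2) (Kt η s) s (hKt1 η s)
      (fun u hu => ⟨(hKt2 η s u hu).1, hcf u (hKS η s u hu).1⟩)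
    obtain ⟨b, hb1, hb2⟩ := pg hC hL Prod.fst (fun q : I × I × K => q.2.2)
      (fun q => R q.1 q.2.1) (Kt η s) (th s) (hth s) (hKt1 η s)
      (by rw [hΛ]; exact (succ_le_of_lt (hA.lt s)).trans_lt (lt_succ _))
      (fun u hu => by
        have h1 := hA.step s u.1 (hKt2 η s u hu).1
        refine lt_of_lt_of_le ?_ (h1.trans (hcf u (hKS η s u hu).1).le)
        exact (lt_succ _).trans_le ((le_succ _).trans ((le_succ _).trans (le_succ _))))
      (fun q => succ (th q.1)) (fun q => hths q.1)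
      (fun u hu => by
        refine lt_of_le_of_ne (hS2 u (hKS η s u hu).1) fun he => ?_
        exact (hKS η s u hu).2 ⟨succ (th u.1), isRegular_succ (hth u.1), he.symm⟩)
      f hf1 hf2
    exact ⟨f, b, hf1, fun X T hT hsel hsm hacc g hg =>
      hb2 X T hT (hf3 T hT hsel hsm) hacc g hg⟩
  choose f b hf hfb using hex
  refine ⟨fun η ε s => {q | ∃ y, (q.1, q.2.1, y) ∈ Kt η s ∧
    Tr C (succ (th q.1)) (b η s (q.1, q.2.1, y)) (f η s ε (q.1, q.2.1, y)) q.2.2 ∧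
    succ (th q.1) < cf q.2.2}, ?_, ?_, ?_⟩
  · intro η ε s r
    have hsub : {q : I × I × K | q ∈ {q : I × I × K | ∃ y, (q.1, q.2.1, y) ∈ Kt η s ∧
        Tr C (succ (th q.1)) (b η s (q.1, q.2.1, y)) (f η s ε (q.1, q.2.1, y)) q.2.2 ∧
        succ (th q.1) < cf q.2.2} ∧ q.1 = r} ⊆
        ⋃ p : {q : I × I × K | q ∈ S ∧ q.1 = r},
          (fun y' => ((r, p.1.2.1, y') : I × I × K)) ''
            {y' | Tr C (succ (th r)) (b η s p.1) (f η s ε p.1) y'} := by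
      rintro ⟨r', i, y'⟩ ⟨⟨y, hy1, hy2, hy3⟩, hr⟩
      have hr' : r' = r := hr
      subst hr'
      refine mem_iUnion.2 ⟨⟨(r', i, y), (hKS η s _ hy1).1, rfl⟩, y', hy2, rfl⟩
    refine (mk_le_mk_of_subset hsub).trans ?_
    refine (mk_iUnion_le _).trans ?_
    refine (mul_le_mul' (hS r) (ciSup_le' fun p => ?_)).trans (mul_eq_self (hths r)).le
    exact mk_image_le.trans (card_tr hC (hths r) _ _)
  · rintro η ε s q ⟨y, _, _, hy⟩
    exact succ_le_of_lt hy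
  · intro X w A g hA1 hA2
    obtain ⟨η, E₁, hE₁⟩ := hKt3 w
    have hT : ∀ s, ∃ (ε : Λ) (thr : I), ∀ u, (∃ r ∈ A, u = (r, w r)) → u ∈ Kt η s → thr < u.1 →
        ∃ y', Tr C (succ (th u.1)) (b η s u) (f η s ε u) y' ∧ g u.1 < y' ∧
          succ (th u.1) < cf y' ∧ Acc (X ∩ R u.1 u.2.1) y' := by
      intro s
      have hinj : ∀ T : Set (I × I × K), T ⊆ {q | ∃ r ∈ A, q = (r, w r)} →
          Set.InjOn Prod.fst T := by
        intro T hT a ha b hb hab
        obtain ⟨r, _, rfl⟩ := hT ha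
        obtain ⟨r', _, rfl⟩ := hT hb
        have : r = r' := hab
        rw [this]
      by_cases hub : Ub (Prod.fst '' {u : I × I × K | (∃ r ∈ A, u = (r, w r)) ∧ u ∈ Kt η s})
      · have hsel : Sel Prod.fst {u : I × I × K | (∃ r ∈ A, u = (r, w r)) ∧ u ∈ Kt η s} :=
          ⟨hinj _ fun u hu => hu.1, hub⟩
        obtain ⟨ε, i₀, hi₀⟩ := hfb η s X _ (fun u hu => hu.2) hsel
          (fun T' hT' hub' => hA2 T' (fun u hu => (hT' hu).1)
            ⟨hinj _ fun u hu => (hT' hu).1, hub'⟩)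
          (by
            rintro u ⟨⟨r, hr, rfl⟩, _⟩
            exact (hA1 r hr).2.2.2.1)
          (fun q => g q.1)
          (by
            rintro u ⟨⟨r, hr, rfl⟩, _⟩
            exact (hA1 r hr).2.2.2.2)
        exact ⟨ε, i₀, fun u hu1 hu2 hu3 => hi₀ u ⟨hu1, hu2⟩ hu3⟩
      · unfold Ub at hub
        push Not at hub
        obtain ⟨c, hc⟩ := hub
        exact ⟨η, c, fun u hu1 hu2 hu3 => absurd hu3 (not_lt.2 (hc u.1 ⟨u, ⟨hu1, hu2⟩, rfl⟩))⟩
    choose ε thr hthr using hT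
    have hw' : ∀ r, ∃ v : I × K, r ∈ A → r ∈ Cl (fun s => max (E₁ s) (thr s)) →
        (∃ s < r, ∃ y, (r, v.1, y) ∈ Kt η s ∧
          Tr C (succ (th r)) (b η s (r, v.1, y)) (f η s (ε s) (r, v.1, y)) v.2 ∧
          succ (th r) < cf v.2) ∧ v.1 = (w r).1 ∧ g r < v.2 ∧
            v.2 < (w r).2 ∧ Acc (X ∩ R r v.1) v.2 := by
      intro r
      by_cases hr : r ∈ A ∧ r ∈ Cl (fun s => max (E₁ s) (thr s))
      · obtain ⟨hrA, hrC⟩ := hr
        have hrE : r ∈ Cl E₁ := Pool.Agent.LibGP76.Cl_max_left _ _ hrC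
        obtain ⟨s, hs, hsK⟩ := hE₁ r hrE (hA1 r hrA).1 ⟨(hA1 r hrA).2.1, (hA1 r hrA).2.2.1⟩
        have hts : thr s < r := (le_max_right _ _).trans_lt (hrC s hs)
        obtain ⟨y', h1, h2, h3, h4⟩ := hthr s (r, w r) ⟨r, hrA, rfl⟩ hsK hts
        refine ⟨((w r).1, y'), fun _ _ => ⟨⟨s, hs, (w r).2, hsK, h1, h3⟩, rfl, h2, ?_, h4⟩⟩
        exact (tr_le hC h1).trans_lt (hf η s (ε s) _ hsK)
      · exact ⟨w r, fun h1 h2 => absurd ⟨h1, h2⟩ hr⟩
    choose w' hw' using hw'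
    exact ⟨η, ε, w', fun s => max (E₁ s) (thr s), fun r hr hrC => hw' r hr hrC⟩

end Pool.Agent.LibGS
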