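import Pool.Agent.LibGS.BDefs

/-! [GS76 BThr] Case B: thresholds. -/

set_option autoImplicit false

namespace Pool.Agent.LibGS

open Cardinal Set Order
open Pool.Agent.LibGP76 (RegK Ub Cl fl Stat)
open Pool.Agent.LibGPR (Lad)

variable {K I L : Type} [LinearOrder K] [WellFoundedLT K] [LinearOrder I] [WellFoundedLT I]
  [LinearOrder L] [WellFoundedLT L] {th : I → Cardinal.{0}} {t : I → K}

/-- Immediate successors in `I`. -/
theorem exists_nxt (hI : RegN I) : ∃ nxt : I → I, (∀ r, r < nxt r) ∧ ∀ r s, r < s → nxt r ≤ s := by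
  have hne : ∀ r : I, (Set.Ioi r).Nonempty := by
    intro r
    obtain ⟨c, hc⟩ := hI.reg {r} (by
      rw [mk_singleton]
      exact one_lt_aleph0.trans_le hI.inf)
    exact ⟨c, hc r rfl⟩
  have h1 : ∀ r : I, ∃ s, r < s ∧ ∀ s', r < s' → s ≤ s' := by
    intro r
    refine ⟨wellFounded_lt.min (Set.Ioi r) (hne r), wellFounded_lt.min_mem (Set.Ioi r) (hne r), ?_⟩
    intro s' hs'
    exact not_lt.1 (wellFounded_lt.not_lt_min (Set.Ioi r) hs')
  choose nxt hn1 hn2 using h1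
  exact ⟨nxt, hn1, hn2⟩

/-- Thresholds of a ladder: for `idx u > thr r` the values `f (e r') u`, `r' ≤ r`, are `≤ f (e r) u`, and
`f (e r) u < f (e (nxt r)) u < f δ u`. (The supremum of fewer than `#I` thresholds.) -/
theorem exists_thr (hI : RegN I) (M : Set (I × K)) (f : L → I × K → K)
    (hf : TS Prod.fst M Prod.snd f) (nxt : I → I) (hn : ∀ r, r < nxt r) (e : I → L) (δ : L)
    (he : Lad e δ) :
    ∃ thr : I → I, (∀ r, r ≤ thr r) ∧ ∀ r, ∀ u ∈ M, thr r < u.1 →
      (∀ r' ≤ r, f (e r') u ≤ f (e r) u) ∧ f (e r) u < f (e (nxt r)) u ∧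
        f (e (nxt r)) u < f δ u := by
  have key : ∀ r : I, ∃ T : I, r ≤ T ∧ ∀ u ∈ M, T < u.1 →
      (∀ r' ≤ r, f (e r') u ≤ f (e r) u) ∧ f (e r) u < f (e (nxt r)) u ∧
        f (e (nxt r)) u < f δ u := by
    intro r
    have h1 : ∀ r' : I, ∃ i₀ : I, r' < r → ∀ u ∈ M, i₀ < u.1 → f (e r') u < f (e r) u := by
      intro r'
      by_cases h : r' < r
      · obtain ⟨i₀, hi₀⟩ := hf.inc (e r') (e r) (he.1 r' r h)
        exact ⟨i₀, fun _ u hu hlt => hi₀ u hu hlt⟩
      · exact ⟨r, fun h' => absurd h' h⟩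
    choose g hg using h1
    obtain ⟨c, hc⟩ := hI.reg (g '' Set.Iio r) (mk_image_le.trans_lt (hI.small r))
    obtain ⟨a, ha⟩ := hf.inc (e r) (e (nxt r)) (he.1 r (nxt r) (hn r))
    obtain ⟨b, hb⟩ := hf.inc (e (nxt r)) δ (he.2.1 (nxt r))
    refine ⟨max (max r c) (max a b), (le_max_left _ _).trans (le_max_left _ _), ?_⟩
    intro u hu hlt
    have hc' : c < u.1 := lt_of_le_of_lt ((le_max_right r c).trans (le_max_left _ _)) hlt
    have ha' : a < u.1 := lt_of_le_of_lt ((le_max_left a b).trans (le_max_right _ _)) hlt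
    have hb' : b < u.1 := lt_of_le_of_lt ((le_max_right a b).trans (le_max_right _ _)) hlt
    refine ⟨?_, ha u hu ha', hb u hu hb'⟩
    intro r' hr'
    rcases eq_or_lt_of_le hr' with h | h
    · rw [h]
    · exact (hg r' h u hu ((hc (g r') (mem_image_of_mem g h)).trans hc')).le
  choose thr h1 h2 using key
  exact ⟨thr, h1, h2⟩

end Pool.Agent.LibGS
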