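import Pool.Agent.LibGS.BDens
import Pool.Agent.LibGS.Code
import Pool.Agent.LibGS.LCAt

/-! [GS76 BTwo] Case B: Type II classes. -/

set_option autoImplicit false

namespace Pool.Agent.LibGS

open Cardinal Set Order
open Pool.Agent.LibGP76 (RegK Ub Cl fl Stat)

variable {K I Λ : Type} [LinearOrder K] [WellFoundedLT K] [LinearOrder I] [WellFoundedLT I]
  [LinearOrder Λ] [WellFoundedLT Λ] {th : I → Cardinal.{0}} {t : I → K}

/-- [BTwo] THE CLASSES. PROOF. Choose local coders `A y r` (`local_at` with `s = t r`) for all `y`, `r` with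
`Good (cf y)`, `succ (succ (th r)) ≤ cf y` (`cf y = succ l` gives `succ (th r) ≤ l`,
`#(Iio (t r)) < th r`, `ℵ₂ ≤ l` by `hA.mu`). `Cls C B` iff there are `δ`, `T`, `Y` with `FrameB th R NS δ T Y`
and `B = ⋃ q ∈ T, A q.2.2 q.1 (Y q) (C ∩ Iio (t q.1))` (`Y q ⊆ Iio q.2.2` by `nx`). `#B = #K`:
`code_union`; the part of `B` of index `≤ r`: `small_bdd` (one `q` for every index, its part has at most
`#(Iio (t q.1)) ≤ th q.1` elements; note that `x ∈ B`, `x ∈ Y q ⊆ R q.1 q.2.1`, `x ∈ R r' i` give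
`r' = q.1`, `i = q.2.1` by `hR`).
ORTHOGONALITY. Let `B, B'` with `δ T Y`, `δ' T' Y'`, `δ ≤ δ'` by symmetry. Let `x ∈ B ∩ B'`, `x ∈ Y q ∩ Y' q'`;
then `q.1 = q'.1`, `q.2.1 = q'.2.1` (`hR`). If `δ = δ'` then `q = q'` (both are the next point of `NS δ`).
If `δ < δ'`, let `r₀` be from `FrameB.low` for `T'`, `Y'` and `β = δ`: if `r₀ < q'.1`, then since `q` is the
next point of `NS δ` above `x` and `q` is good, `q.2.2 = q'.2.2`, so again `q = q'`. If `q = q'` then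
`local_at` bounds the intersection of the parts by `#(C ∩ C') + ℵ₀`. So `B ∩ B'` is the union of a part of
index `≤ r₀` and of sets `E r` with `#(E r) ≤ #(C ∩ C') + ℵ₀`: `small_bdd`, `small_iUnion`. -/
theorem classes_two (hA : Amb K I th t) (hI : RegK I) (R : I → I → Set K)
    (hR : ∀ r i r' i', (r, i) ≠ (r', i') → Disjoint (R r i) (R r' i'))
    (NS0 : Set (I × I × K)) (NS : Λ → Set (I × I × K)) (hF : Flat th R NS0 NS) :
    ∃ Cls : Set K → Set K → Prop,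
      (∀ C B, Cls C B → #B = #K ∧ (∀ x ∈ B, ∃ r i, x ∈ R r i) ∧
        ∀ r, #{x | x ∈ B ∧ ∃ r' i, r' ≤ r ∧ x ∈ R r' i} < #K) ∧
      (∀ C C', #(C ∩ C' : Set K) < #K → ∀ B B', Cls C B → Cls C' B' → #(B ∩ B' : Set K) < #K) ∧
      ∀ X C : Set K, #C = #K → (∃ (δ : Λ) (T : Set (I × I × K)) (Y : I × I × K → Set K),
        FrameB th R NS δ T Y ∧ ∀ q ∈ T, Y q ⊆ X) → ∃ B, B ⊆ X ∧ Cls C B := by
  classical
  have hloc : ∀ (y : K) (r : I), ∃ A : Set K → Set K → Set K,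
      Good (cf y) → succ (succ (th r)) ≤ cf y →
      (∀ T c, T ⊆ Iio y → Acc T y → c ⊆ Iio (t r) → A T c ⊆ T ∧ #(A T c) = #c) ∧
      ∀ T T' c c', T ⊆ Iio y → T' ⊆ Iio y → Acc T y → Acc T' y → c ⊆ Iio (t r) → c' ⊆ Iio (t r) →
        #(A T c ∩ A T' c' : Set K) ≤ #(c ∩ c' : Set K) + ℵ₀ := by
    intro y r
    by_cases h1 : Good (cf y) ∧ succ (succ (th r)) ≤ cf y
    · obtain ⟨⟨l, hl, hyl⟩, h2⟩ := h1
      have h3 : succ (th r) ≤ l := by
        rw [hyl] at h2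
        exact Order.succ_le_succ_iff.1 h2
      have h4 : th r < l := lt_of_lt_of_le (lt_succ _) h3
      have h5 : succ (succ ℵ₀) ≤ l := by
        have h6 := hA.mu r
        have h7 : succ (succ ℵ₀) ≤ succ (succ #I) :=
          Order.succ_le_succ (Order.succ_le_succ hA.reg.inf)
        exact (h7.trans ((le_succ _).trans (le_succ _))).trans (h6.le.trans h4.le)
      obtain ⟨A, hA1, hA2⟩ := local_at hA.small y (t r) l hl h5 hyl ((hA.tle r).trans_lt h4)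
      exact ⟨A, fun _ _ => ⟨hA1, hA2⟩⟩
    · exact ⟨fun _ _ => ∅, fun h h' => absurd ⟨h, h'⟩ h1⟩
  choose A hAc using hloc
  have hinf : ℵ₀ < #K := by
    obtain ⟨i⟩ := LibGP76.nonempty_of_regK hI
    refine lt_of_le_of_lt ?_ (hA.lt i)
    have h6 := hA.mu i
    exact (hA.reg.inf.trans ((((le_succ _).trans (le_succ _)).trans (le_succ _)).trans
      (le_succ _))).trans h6.le
  -- the local coders at the points of a frame
  have hfr : ∀ (δ : Λ) (T : Set (I × I × K)) (Y : I × I × K → Set K), FrameB th R NS δ T Y →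
      ∀ q ∈ T, Y q ⊆ Iio q.2.2 ∧ Good (cf q.2.2) ∧ succ (succ (th q.1)) ≤ cf q.2.2 := by
    intro δ T Y h q hq
    exact ⟨fun x hx => (h.nx q hq x hx).2.1, h.good q hq, hF.big δ q (h.sub hq)⟩
  have hsub : ∀ (δ : Λ) (T : Set (I × I × K)) (Y : I × I × K → Set K), FrameB th R NS δ T Y →
      ∀ q ∈ T, ∀ C : Set K, A q.2.2 q.1 (Y q) (C ∩ Iio (t q.1)) ⊆ Y q ∧
        #(A q.2.2 q.1 (Y q) (C ∩ Iio (t q.1))) = #(C ∩ Iio (t q.1) : Set K) := by
    intro δ T Y h q hq C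
    obtain ⟨h1, h2, h3⟩ := hfr δ T Y h q hq
    exact (hAc _ _ h2 h3).1 _ _ h1 (h.acc q hq) inter_subset_right
  -- the part of bounded index
  have hpart : ∀ (δ : Λ) (T : Set (I × I × K)) (Y : I × I × K → Set K), FrameB th R NS δ T Y →
      ∀ (C : Set K) (r : I), #{x | x ∈ (⋃ q ∈ T, A q.2.2 q.1 (Y q) (C ∩ Iio (t q.1))) ∧
        ∃ r' i, r' ≤ r ∧ x ∈ R r' i} < #K := by
    intro δ T Y h C r
    refine small_bdd hA _ (fun r' => {x | ∃ q ∈ T, q.1 = r' ∧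
      x ∈ A q.2.2 q.1 (Y q) (C ∩ Iio (t q.1))}) r ?_ ?_
    · rintro x ⟨hx, r', i, hr', hxR⟩
      rw [mem_iUnion₂] at hx
      obtain ⟨q, hq, hxq⟩ := hx
      have h1 := h.cont q hq ((hsub δ T Y h q hq C).1 hxq)
      have h2 : (q.1, q.2.1) = (r', i) := by
        by_contra hne
        exact Set.disjoint_left.1 (hR _ _ _ _ hne) h1 hxR
      have h3 : q.1 = r' := congrArg Prod.fst h2
      exact ⟨q.1, h3 ▸ hr', q, hq, rfl, hxq⟩
    · intro r'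
      by_cases h1 : ∃ q ∈ T, q.1 = r'
      · obtain ⟨q, hq, rfl⟩ := h1
        have h2 : {x | ∃ q' ∈ T, q'.1 = q.1 ∧ x ∈ A q'.2.2 q'.1 (Y q') (C ∩ Iio (t q'.1))} ⊆
            A q.2.2 q.1 (Y q) (C ∩ Iio (t q.1)) := by
          rintro x ⟨q', hq', h3, hx⟩
          have h4 : q' = q := h.sel.1 hq' hq h3
          rw [h4] at hx
          exact hx
        refine (mk_le_mk_of_subset h2).trans ?_
        rw [(hsub δ T Y h q hq C).2]
        exact (mk_le_mk_of_subset inter_subset_right).trans (hA.tle q.1)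
      · have h2 : {x | ∃ q' ∈ T, q'.1 = r' ∧ x ∈ A q'.2.2 q'.1 (Y q') (C ∩ Iio (t q'.1))} = ∅ := by
          refine Set.eq_empty_of_forall_notMem ?_
          rintro x ⟨q', hq', h3, _⟩
          exact h1 ⟨q', hq', h3⟩
        rw [h2, Cardinal.mk_eq_zero]
        exact zero_le
  -- the key step of orthogonality
  have horth : ∀ (δ δ' : Λ) (T T' : Set (I × I × K)) (Y Y' : I × I × K → Set K),
      FrameB th R NS δ T Y → FrameB th R NS δ' T' Y' → δ ≤ δ' → ∀ C C' : Set K,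
      #(C ∩ C' : Set K) < #K →
      #((⋃ q ∈ T, A q.2.2 q.1 (Y q) (C ∩ Iio (t q.1))) ∩
        (⋃ q ∈ T', A q.2.2 q.1 (Y' q) (C' ∩ Iio (t q.1))) : Set K) < #K := by
    intro δ δ' T T' Y Y' h h' hδ C C' hCC
    -- the threshold
    have hthr : ∃ r₀ : I, ∀ q ∈ T, ∀ q' ∈ T', ∀ x ∈ Y q, x ∈ Y' q' → r₀ < q.1 → q = q' := by
      have heq : ∀ q ∈ T, ∀ q' ∈ T', ∀ x ∈ Y q, x ∈ Y' q' → q.1 = q'.1 ∧ q.2.1 = q'.2.1 := by
        intro q hq q' hq' x hx hx'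
        have h1 := h.cont q hq hx
        have h1' := h'.cont q' hq' hx'
        have h2 : (q.1, q.2.1) = (q'.1, q'.2.1) := by
          by_contra hne
          exact Set.disjoint_left.1 (hR _ _ _ _ hne) h1 h1'
        exact ⟨(Prod.mk.injEq _ _ _ _ ▸ h2 : q.1 = q'.1 ∧ q.2.1 = q'.2.1).1,
          (Prod.mk.injEq _ _ _ _ ▸ h2 : q.1 = q'.1 ∧ q.2.1 = q'.2.1).2⟩
      rcases hδ.eq_or_lt with hδ1 | hδ1
      · obtain ⟨i⟩ := LibGP76.nonempty_of_regK hI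
        subst hδ1
        refine ⟨i, fun q hq q' hq' x hx hx' _ => ?_⟩
        obtain ⟨h3, h4⟩ := heq q hq q' hq' x hx hx'
        have h5 := h.nx q hq x hx
        have h6 := h'.nx q' hq' x hx'
        rw [← h3, ← h4] at h6
        have h7 : q.2.2 = q'.2.2 := le_antisymm (h5.2.2 _ h6.1 h6.2.1) (h6.2.2 _ h5.1 h5.2.1)
        exact Prod.ext h3 (Prod.ext h4 h7)
      · obtain ⟨r₀, hr₀⟩ := h'.low δ hδ1
        refine ⟨r₀, fun q hq q' hq' x hx hx' hr => ?_⟩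
        obtain ⟨h3, h4⟩ := heq q hq q' hq' x hx hx'
        have h5 := h.nx q hq x hx
        rw [h3, h4] at h5
        have h7 := hr₀ q' hq' (h3 ▸ hr) x hx' q.2.2 h5 (h.good q hq)
        exact Prod.ext h3 (Prod.ext h4 h7)
    obtain ⟨r₀, hr₀⟩ := hthr
    have hcov : ((⋃ q ∈ T, A q.2.2 q.1 (Y q) (C ∩ Iio (t q.1))) ∩
        (⋃ q ∈ T', A q.2.2 q.1 (Y' q) (C' ∩ Iio (t q.1))) : Set K) ⊆
        {x | x ∈ (⋃ q ∈ T, A q.2.2 q.1 (Y q) (C ∩ Iio (t q.1))) ∧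
          ∃ r' i, r' ≤ r₀ ∧ x ∈ R r' i} ∪
        {x | ∃ q ∈ T, q ∈ T' ∧ x ∈ A q.2.2 q.1 (Y q) (C ∩ Iio (t q.1)) ∩
          A q.2.2 q.1 (Y' q) (C' ∩ Iio (t q.1))} := by
      rintro x ⟨hx, hx'⟩
      have hx0 := hx
      rw [mem_iUnion₂] at hx hx'
      obtain ⟨q, hq, hxq⟩ := hx
      obtain ⟨q', hq', hxq'⟩ := hx'
      have h1 := (hsub δ T Y h q hq C).1 hxq
      have h2 := (hsub δ' T' Y' h' q' hq' C').1 hxq'
      rcases le_or_gt q.1 r₀ with h3 | h3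
      · left
        exact ⟨hx0, q.1, q.2.1, h3, h.cont q hq h1⟩
      · right
        have h4 := hr₀ q hq q' hq' x h1 h2 h3
        rw [← h4] at hq' hxq'
        exact ⟨q, hq, hq', hxq, hxq'⟩
    refine (mk_le_mk_of_subset hcov).trans_lt ((mk_union_le _ _).trans_lt
      (add_lt_of_lt hinf.le (hpart δ T Y h C r₀) ?_))
    refine small_iUnion hA _ (fun r => {x | ∃ q ∈ T, q ∈ T' ∧ q.1 = r ∧
      x ∈ A q.2.2 q.1 (Y q) (C ∩ Iio (t q.1)) ∩ A q.2.2 q.1 (Y' q) (C' ∩ Iio (t q.1))}) ?_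
      (#(C ∩ C' : Set K) + ℵ₀) (add_lt_of_lt hinf.le hCC hinf) ?_
    · rintro x ⟨q, hq, hq', hx⟩
      exact ⟨q.1, q, hq, hq', rfl, hx⟩
    · intro r
      by_cases h1 : ∃ q ∈ T, q ∈ T' ∧ q.1 = r
      · obtain ⟨q, hq, hq', rfl⟩ := h1
        have h2 : {x | ∃ q₁ ∈ T, q₁ ∈ T' ∧ q₁.1 = q.1 ∧
            x ∈ A q₁.2.2 q₁.1 (Y q₁) (C ∩ Iio (t q₁.1)) ∩
              A q₁.2.2 q₁.1 (Y' q₁) (C' ∩ Iio (t q₁.1))} ⊆
            A q.2.2 q.1 (Y q) (C ∩ Iio (t q.1)) ∩ A q.2.2 q.1 (Y' q) (C' ∩ Iio (t q.1)) := by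
          rintro x ⟨q₁, hq₁, _, h3, hx⟩
          have h4 : q₁ = q := h.sel.1 hq₁ hq h3
          rw [h4] at hx
          exact hx
        refine (mk_le_mk_of_subset h2).trans ?_
        obtain ⟨h5, h6, h7⟩ := hfr δ T Y h q hq
        obtain ⟨h5', _, _⟩ := hfr δ' T' Y' h' q hq'
        refine ((hAc _ _ h6 h7).2 _ _ _ _ h5 h5' (h.acc q hq) (h'.acc q hq') inter_subset_right
          inter_subset_right).trans ?_
        refine add_le_add (mk_le_mk_of_subset ?_) le_rfl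
        rintro x ⟨⟨h8, _⟩, h9, _⟩
        exact ⟨h8, h9⟩
      · have h2 : {x | ∃ q ∈ T, q ∈ T' ∧ q.1 = r ∧
            x ∈ A q.2.2 q.1 (Y q) (C ∩ Iio (t q.1)) ∩
              A q.2.2 q.1 (Y' q) (C' ∩ Iio (t q.1))} = ∅ := by
          refine Set.eq_empty_of_forall_notMem ?_
          rintro x ⟨q', hq', h3, h4, _⟩
          exact h1 ⟨q', hq', h3, h4⟩
        rw [h2, Cardinal.mk_eq_zero]
        exact zero_le
  refine ⟨fun C B => #C = #K ∧ ∃ (δ : Λ) (T : Set (I × I × K)) (Y : I × I × K → Set K),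
    FrameB th R NS δ T Y ∧ B = ⋃ q ∈ T, A q.2.2 q.1 (Y q) (C ∩ Iio (t q.1)), ?_, ?_, ?_⟩
  · rintro C B ⟨hC, δ, T, Y, h, rfl⟩
    refine ⟨?_, ?_, fun r => hpart δ T Y h C r⟩
    · refine code_union hA Prod.fst T h.sel.2 C hC _
        (fun q => A q.2.2 q.1 (Y q) (C ∩ Iio (t q.1))) ?_ ?_
      · intro q hq x hx
        rw [mem_iUnion₂]
        exact ⟨q, hq, hx⟩
      · intro q hq
        exact (hsub δ T Y h q hq C).2
    · intro x hx
      rw [mem_iUnion₂] at hx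
      obtain ⟨q, hq, hxq⟩ := hx
      exact ⟨q.1, q.2.1, h.cont q hq ((hsub δ T Y h q hq C).1 hxq)⟩
  · rintro C C' hCC B B' ⟨hC, δ, T, Y, h, rfl⟩ ⟨hC', δ', T', Y', h', rfl⟩
    rcases le_total δ δ' with hδ | hδ
    · exact horth δ δ' T T' Y Y' h h' hδ C C' hCC
    · rw [Set.inter_comm]
      rw [Set.inter_comm] at hCC
      exact horth δ' δ T' T Y' Y h' h hδ C' C hCC
  · rintro X C hC ⟨δ, T, Y, h, hYX⟩
    refine ⟨⋃ q ∈ T, A q.2.2 q.1 (Y q) (C ∩ Iio (t q.1)), ?_, hC, δ, T, Y, h, rfl⟩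
    intro x hx
    rw [mem_iUnion₂] at hx
    obtain ⟨q, hq, hxq⟩ := hx
    exact hYX q hq ((hsub δ T Y h q hq C).1 hxq)

end Pool.Agent.LibGS
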