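import Pool.Agent.LibGS.StartB

/-! [GS76 StartC] -/

set_option autoImplicit false

namespace Pool.Agent.LibGS

open Cardinal Set Order
open Pool.Agent.LibGP76 (RegK Ub Cl fl Stat)

variable {K I : Type} [LinearOrder K] [WellFoundedLT K] [LinearOrder I] [WellFoundedLT I]
  {th : I → Cardinal.{0}} {t : I → K}

/-- [Start4] Almost no `x` has `Fs x` as immediate successor. PROOF. `D = {x | ∀ w, x < w → Fs x ≤ w}`,
`D i = {x ∈ D | ix x = i}`: `Fs` is injective on `D`, so `#(D i) ≤ th i`. Suppose `D ∈ p`. The set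
`{x | ix x = i₀}` has less than `#K` elements (`i₁ > i₀`, `#{x | ix x < i₁} ≤ th i₁`), so
`D' = {x ∈ D | i₀ < ix x} ∈ p`. Let `j x = ix x` outside of `D'`; for `x ∈ D'` with `i = ix x`: if `i` has
an immediate predecessor `i'` let `j x = i'`; otherwise `Lim i` and `j x = ` the least `s < i` with
`x ∈ E i s`, where `E i` is a filtration of `D i` (`exists_filt_lim`). Then `j x < ix x` on `D'`, and
`{x | j x < i'}` is contained in the union of `{x | ix x < i'}`, `D i'` and the `E i s` (`s < i' < i`,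
`i` limit): at most `th i' + #I * #I * th i' ≤ th i'` elements. Contradiction to `hix2`. -/
theorem start_succ (hA : Amb K I th t) (i₀ : I) (hbot : ∀ i, i₀ ≤ i) (p : Ultrafilter K)
    (hp : ∀ X ∈ p, #X = #K) (ix : K → I) (hix1 : ∀ i, #{x | ix x < i} ≤ th i)
    (hix2 : ∀ j : K → I, (∀ i, #{x | j x < i} ≤ th i) → {x | j x < ix x} ∉ p)
    (Fs : K → K) (hF1 : ∀ x, x < Fs x) (hF2 : ∀ i, #(Fs '' {x | ix x = i}) ≤ th i) :
    {x | ∀ w, x < w → Fs x ≤ w} ∉ p := by
  classical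
  intro hD
  set D : Set K := {x | ∀ w, x < w → Fs x ≤ w} with hDdef
  have hinj : Set.InjOn Fs D := by
    intro x hx y hy hxy
    rcases lt_trichotomy x y with h | h | h
    · have h1 := hx y h
      have h2 := hF1 y
      rw [← hxy] at h2
      exact absurd h1 (not_le.2 h2)
    · exact h
    · have h1 := hy x h
      have h2 := hF1 x
      rw [hxy] at h2
      exact absurd h1 (not_le.2 h2)
  have hDi : ∀ i, #{x | x ∈ D ∧ ix x = i} ≤ th i := by
    intro i
    have h1 : Set.InjOn Fs {x | x ∈ D ∧ ix x = i} := hinj.mono (fun x hx => hx.1)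
    rw [← Cardinal.mk_image_eq_of_injOn _ _ h1]
    refine le_trans (Cardinal.mk_le_mk_of_subset ?_) (hF2 i)
    exact Set.image_mono (fun x hx => hx.2)
  obtain ⟨i₁, hi₁⟩ : ∃ i₁, i₀ < i₁ := by
    obtain ⟨c, hc⟩ := hA.reg.reg {i₀} (by
      rw [Cardinal.mk_singleton]; exact Cardinal.one_lt_aleph0.trans_le hA.reg.inf)
    exact ⟨c, hc i₀ rfl⟩
  have h0 : {x | ix x = i₀} ∉ p := by
    intro h
    have h1 := hp _ h
    have h2 : #{x | ix x = i₀} ≤ th i₁ := le_trans (Cardinal.mk_le_mk_of_subset (by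
      intro x hx
      show ix x < i₁
      rw [show ix x = i₀ from hx]; exact hi₁)) (hix1 i₁)
    rw [h1] at h2
    exact absurd (hA.lt i₁) (not_lt.2 h2)
  have hD' : {x | x ∈ D ∧ i₀ < ix x} ∈ p := by
    have h1 := Ultrafilter.compl_mem_iff_notMem.2 h0
    filter_upwards [hD, h1] with x hx1 hx2
    exact ⟨hx1, lt_of_le_of_ne (hbot _) (fun h => hx2 h.symm)⟩
  have hE : ∀ i, ∃ E : I → Set K, Lim i → (∀ s < i, #(E s) ≤ th s) ∧
      ∀ x ∈ D, ix x = i → ∃ s < i, x ∈ E s := by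
    intro i
    by_cases hi : Lim i
    · obtain ⟨E, hE1, hE2⟩ := exists_filt_lim hA i hi {x | x ∈ D ∧ ix x = i} (hDi i)
      refine ⟨fun s => Subtype.val '' (E s), fun _ => ⟨fun s hs => Cardinal.mk_image_le.trans (hE1 s hs),
        fun x hx hxi => ?_⟩⟩
      obtain ⟨s, hs, hs2⟩ := hE2 ⟨x, hx, hxi⟩
      exact ⟨s, hs, ⟨x, hx, hxi⟩, hs2, rfl⟩
    · exact ⟨fun _ => ∅, fun h => absurd h hi⟩
  choose E hE using hE
  have key : ∀ x, ∃ j, (¬ (x ∈ D ∧ i₀ < ix x) → j = ix x) ∧ ((x ∈ D ∧ i₀ < ix x) → j < ix x ∧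
      ((∀ s < ix x, s ≤ j) ∨ (Lim (ix x) ∧ x ∈ E (ix x) j))) := by
    intro x
    by_cases hx : x ∈ D ∧ i₀ < ix x
    · by_cases hl : Lim (ix x)
      · obtain ⟨s, hs, hs2⟩ := (hE (ix x) hl).2 x hx.1 rfl
        exact ⟨s, fun h => absurd hx h, fun _ => ⟨hs, Or.inr ⟨hl, hs2⟩⟩⟩
      · have h1 : ∃ s < ix x, ∀ s', s < s' → ¬ s' < ix x := by
          by_contra hcon
          push Not at hcon
          exact hl ⟨⟨i₀, hx.2⟩, hcon⟩
        obtain ⟨s, hs, hs2⟩ := h1
        refine ⟨s, fun h => absurd hx h, fun _ => ⟨hs, Or.inl fun s' hs' => ?_⟩⟩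
        by_contra hcon
        exact hs2 s' (not_le.1 hcon) hs'
    · exact ⟨ix x, fun _ => rfl, fun h => absurd h hx⟩
  choose j hj1 hj2 using key
  refine hix2 j (fun i' => ?_) (Filter.mem_of_superset hD' (fun x hx => (hj2 x hx).1))
  have hI : #I ≤ th i' := (((le_succ _).trans ((le_succ _).trans ((le_succ _).trans
    (le_succ _)))).trans (hA.mu i').le)
  have hinf : ℵ₀ ≤ th i' := hA.reg.inf.trans hI
  have hthm : ∀ s, s < i' → th s ≤ th i' := fun s hs =>
    (((le_succ _).trans ((le_succ _).trans ((le_succ _).trans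
      ((le_succ _).trans (le_succ _))))).trans (hA.step s i' hs))
  have hsub : {x | j x < i'} ⊆ ({x | ix x < i'} ∪ {x | x ∈ D ∧ ix x = i'}) ∪
      ⋃ q : I × I, (if Lim q.1 ∧ q.2 < q.1 ∧ q.2 < i' then E q.1 q.2 else ∅) := by
    intro x hx
    have hx' : j x < i' := hx
    by_cases hxD : x ∈ D ∧ i₀ < ix x
    · obtain ⟨h1, h2 | ⟨h2, h3⟩⟩ := hj2 x hxD
      · rcases lt_trichotomy (ix x) i' with h | h | h
        · exact Or.inl (Or.inl h)
        · exact Or.inl (Or.inr ⟨hxD.1, h⟩)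
        · exact absurd hx' (not_lt.2 (h2 i' h))
      · right
        refine Set.mem_iUnion.2 ⟨(ix x, j x), ?_⟩
        rw [if_pos ⟨h2, h1, hx'⟩]
        exact h3
    · left; left
      show ix x < i'
      rw [← hj1 x hxD]; exact hx'
  refine (Cardinal.mk_le_mk_of_subset hsub).trans ((Cardinal.mk_union_le _ _).trans ?_)
  refine Cardinal.add_le_of_le hinf ((Cardinal.mk_union_le _ _).trans
    (Cardinal.add_le_of_le hinf (hix1 i') (hDi i'))) ?_
  refine (Cardinal.mk_iUnion_le _).trans ?_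
  refine (mul_le_mul' (b := #(I × I)) (c := _) le_rfl (ciSup_le' (a := th i') ?_)).trans ?_
  · rintro ⟨i, s⟩
    dsimp only
    split_ifs with h
    · exact ((hE i h.1).1 s h.2.1).trans (hthm s h.2.2)
    · simp
  · rw [Cardinal.mk_prod, Cardinal.lift_id, Cardinal.mul_eq_self hA.reg.inf]
    exact Cardinal.mul_le_of_le hinf hI le_rfl

end Pool.Agent.LibGS
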