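import Pool.Agent.LibGS.Cof

/-! [GS76 StartD] -/

set_option autoImplicit false

namespace Pool.Agent.LibGS

open Cardinal Set Order
open Pool.Agent.LibGP76 (RegK Ub Cl fl Stat)

variable {K I : Type} [LinearOrder K] [WellFoundedLT K] [LinearOrder I] [WellFoundedLT I]
  {th : I → Cardinal.{0}} {t : I → K}

/-- [Start5] Unboundedness. PROOF. Suppose that `X ∈ p`, `i` are such that for all `i' > i` and all `ρ` with
`th i' < cf ρ` the set `X ∩ {ix = i', Fs = ρ}` is bounded below `ρ`, by `s i' ρ < ρ` (above all its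
elements; `exists_btw`). Choose `C` with `CofSys C`. Let `G x = Fs x` if `x ∉ X` or `ix x ≤ i`; otherwise,
with `i' = ix x`, `ρ = Fs x`: `G x = s i' ρ` if `th i' < cf ρ`; if `cf ρ ≤ th i'` let `G x` be the least
`c ∈ C ρ` with `x < c` if there is one, and `G x = Fs x` otherwise. On `{ix = i'}` the function `G` has at
most `th i'` values (`ρ` has at most `th i'` values, `#(C ρ) ≤ th i'`), `x < G x`. So `{G < Fs} ∉ p`. But
`{G < Fs}` contains all `x ∈ X` with `i < ix x` which are not in the set of `start_succ`: if no `c ∈ C ρ`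
is above `x` then `ρ = Fs x` is the immediate successor of `x`. This set is in `p` since
`{x | ix x ≤ i}` has less than `#K` elements. -/
theorem start_unb (hA : Amb K I th t) (p : Ultrafilter K) (hp : ∀ X ∈ p, #X = #K) (ix : K → I)
    (hix1 : ∀ i, #{x | ix x < i} ≤ th i) (Fs : K → K) (hF1 : ∀ x, x < Fs x)
    (hF2 : ∀ i, #(Fs '' {x | ix x = i}) ≤ th i)
    (hF3 : ∀ G : K → K, (∀ x, x < G x) → (∀ i, #(G '' {x | ix x = i}) ≤ th i) →
        {x | G x < Fs x} ∉ p)
    (hF4 : {x | ∀ w, x < w → Fs x ≤ w} ∉ p) :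
    ∀ X ∈ p, ∀ i, ∃ i' > i, ∃ ρ, th i' < cf ρ ∧ Acc {x | x ∈ X ∧ ix x = i' ∧ Fs x = ρ} ρ := by
  classical
  intro X hX i
  by_contra hcon
  push Not at hcon
  have hth : ∀ j, ℵ₀ ≤ th j := by
    intro j
    have h1 : #I ≤ succ (succ (succ (succ #I))) :=
      (le_succ _).trans ((le_succ _).trans ((le_succ _).trans (le_succ _)))
    exact hA.reg.inf.trans (h1.trans (hA.mu j).le)
  obtain ⟨C, hC⟩ := exists_cofsys (K := K)
  have hs : ∀ (i' : I) (ρ : K), ∃ s : K, i < i' → th i' < cf ρ →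
      s < ρ ∧ ∀ x ∈ X, ix x = i' → Fs x = ρ → x < s := by
    intro i' ρ
    by_cases h1 : i < i' ∧ th i' < cf ρ
    · have h2 := hcon i' h1.1 ρ h1.2
      unfold Acc at h2
      push Not at h2
      obtain ⟨w, hw, hw2⟩ := h2
      obtain ⟨w', hw', hw'2⟩ := exists_btw ((hth i').trans h1.2.le) hw
      refine ⟨w', fun _ _ => ⟨hw'2, fun x hx hxi hxF => ?_⟩⟩
      have h3 := hF1 x
      rw [hxF] at h3
      by_contra hc
      have h4 : w < x := lt_of_lt_of_le hw' (not_lt.1 hc)
      exact absurd h3 (not_lt.2 (hw2 x ⟨hx, hxi, hxF⟩ h4))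
    · exact ⟨ρ, fun ha hb => absurd ⟨ha, hb⟩ h1⟩
  choose s hs using hs
  have hg : ∀ x : K, ∃ g : K, x < g ∧ ((∃ c ∈ C (Fs x), x < c) → g ∈ C (Fs x)) ∧
      (¬ (∃ c ∈ C (Fs x), x < c) → g = Fs x) := by
    intro x
    by_cases h1 : ∃ c ∈ C (Fs x), x < c
    · obtain ⟨c, hc, hxc⟩ := h1
      exact ⟨c, hxc, fun _ => hc, fun h => absurd ⟨c, hc, hxc⟩ h⟩
    · exact ⟨Fs x, hF1 x, fun h => absurd h h1, fun _ => rfl⟩
  choose g hg1 hg2 hg3 using hg
  set G : K → K := fun x => if x ∈ X ∧ i < ix x then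
    (if th (ix x) < cf (Fs x) then s (ix x) (Fs x) else g x) else Fs x with hGdef
  have hG1 : ∀ x, x < G x := by
    intro x
    simp only [hGdef]
    split_ifs with h1 h2
    · exact (hs (ix x) (Fs x) h1.2 h2).2 x h1.1 rfl rfl
    · exact hg1 x
    · exact hF1 x
  have hG2 : ∀ j, #(G '' {x | ix x = j}) ≤ th j := by
    intro j
    set R : Set K := Fs '' {x | ix x = j} with hR
    have hsub : G '' {x | ix x = j} ⊆ (R ∪ (s j '' R)) ∪ ⋃ ρ ∈ {ρ | ρ ∈ R ∧ cf ρ ≤ th j}, C ρ := by
      rintro _ ⟨x, hx, rfl⟩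
      have hx' : ix x = j := hx
      have hxR : Fs x ∈ R := ⟨x, hx, rfl⟩
      simp only [hGdef]
      split_ifs with h1 h2
      · left; right
        rw [hx']
        exact ⟨Fs x, hxR, rfl⟩
      · by_cases h3 : ∃ c ∈ C (Fs x), x < c
        · right
          rw [mem_iUnion₂]
          rw [hx'] at h2
          exact ⟨Fs x, ⟨hxR, not_lt.1 h2⟩, hg2 x h3⟩
        · left; left
          rw [hg3 x h3]
          exact hxR
      · left; left
        exact hxR
    have hRc : #R ≤ th j := hF2 j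
    have h1 : #(R ∪ (s j '' R) : Set K) ≤ th j :=
      (mk_union_le _ _).trans ((add_le_add hRc (mk_image_le.trans hRc)).trans
        (add_eq_self (hth j)).le)
    have h2 : #(⋃ ρ ∈ {ρ | ρ ∈ R ∧ cf ρ ≤ th j}, C ρ : Set K) ≤ th j := by
      refine (mk_biUnion_le _ _).trans ?_
      have h3 : #({ρ | ρ ∈ R ∧ cf ρ ≤ th j} : Set K) ≤ th j :=
        (mk_le_mk_of_subset (fun ρ hρ => hρ.1)).trans hRc
      have h4 : ⨆ ρ : ({ρ | ρ ∈ R ∧ cf ρ ≤ th j} : Set K), #(C ρ.1) ≤ th j := by
        refine ciSup_le' fun ρ => ?_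
        rw [hC.card]
        exact ρ.2.2
      exact (mul_le_mul' h3 h4).trans (mul_eq_self (hth j)).le
    exact (mk_le_mk_of_subset hsub).trans ((mk_union_le _ _).trans ((add_le_add h1 h2).trans
      (add_eq_self (hth j)).le))
  have hG3 := hF3 G hG1 hG2
  -- the elements of large index
  have htail : {x | i < ix x} ∈ p := by
    by_contra h
    have h1 : {x | i < ix x}ᶜ ∈ p := Ultrafilter.compl_mem_iff_notMem.2 h
    have h2 := hp _ h1
    obtain ⟨i', hi'⟩ := hA.sup (th i) (hA.lt i)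
    have hii' : i < i' := by
      by_contra hc
      rcases (not_lt.1 hc).lt_or_eq with h3 | h3
      · have h4 := hA.step i' i h3
        have h5 : th i' ≤ succ (succ (succ (succ (succ (th i'))))) :=
          (le_succ _).trans ((le_succ _).trans ((le_succ _).trans ((le_succ _).trans (le_succ _))))
        exact absurd hi' (not_lt.2 (h5.trans h4))
      · rw [h3] at hi'
        exact lt_irrefl _ hi'
    have h6 : {x | i < ix x}ᶜ ⊆ {x | ix x < i'} := by
      intro x hx
      exact lt_of_le_of_lt (not_lt.1 hx) hii'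
    have h7 := (mk_le_mk_of_subset h6).trans (hix1 i')
    rw [h2] at h7
    exact absurd (hA.lt i') (not_lt.2 h7)
  have hmem : X ∩ {x | i < ix x} ∈ p := p.inter_sets hX htail
  have hunion : {x | G x < Fs x} ∪ {x | ∀ w, x < w → Fs x ≤ w} ∈ p := by
    refine p.sets_of_superset hmem ?_
    rintro x ⟨hxX, hxi⟩
    have hxi' : i < ix x := hxi
    by_cases h1 : th (ix x) < cf (Fs x)
    · left
      show G x < Fs x
      simp only [hGdef]
      rw [if_pos ⟨hxX, hxi'⟩, if_pos h1]
      exact (hs (ix x) (Fs x) hxi' h1).1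
    · by_cases h3 : ∃ c ∈ C (Fs x), x < c
      · left
        show G x < Fs x
        simp only [hGdef]
        rw [if_pos ⟨hxX, hxi'⟩, if_neg h1]
        exact hC.lt _ _ (hg2 x h3)
      · right
        intro w hw
        by_contra hc
        obtain ⟨c, hc1, hc2⟩ := hC.cof (Fs x) w (not_le.1 hc)
        exact h3 ⟨c, hc1, lt_of_lt_of_le hw hc2⟩
  rcases Ultrafilter.union_mem_iff.1 hunion with h | h
  · exact hG3 h
  · exact hF4 h

end Pool.Agent.LibGS
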