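import Pool.Agent.LibGS.StartB
import Pool.Agent.LibGS.StartC
import Pool.Agent.LibGS.StartD

/-! From an ultrafilter which is not `(ω, th i₀)`-regular to blocks. -/

set_option autoImplicit false

namespace Pool.Agent.LibGS

open Cardinal Set Order
open Pool.Agent.LibGP76 (RegK Ub Cl fl Stat)

variable {K I : Type} [LinearOrder K] [WellFoundedLT K] [LinearOrder I] [WellFoundedLT I]
  {th : I → Cardinal.{0}} {t : I → K}

/-- START. -/
theorem start (hA : Amb K I th t) (i₀ : I) (hbot : ∀ i, i₀ ≤ i) (p : Ultrafilter K)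
    (hp : ∀ X ∈ p, #X = #K) (hreg : ¬ OReg p (th i₀)) :
    ∃ (ix : K → I) (Fs : K → K), (∀ i, #{x | ix x < i} ≤ th i) ∧
      ∀ X ∈ p, ∀ i, ∃ i' > i, ∃ ρ, th i' < cf ρ ∧
        Acc {x | x ∈ X ∧ ix x = i' ∧ Fs x = ρ} ρ := by
  obtain ⟨ix, h1, h2⟩ := start_ix hA i₀ hbot p hreg
  obtain ⟨Fs, h3, h4, h5⟩ := start_fs hA i₀ hbot p hreg ix
  exact ⟨ix, Fs, h1, start_unb hA p hp ix h1 Fs h3 h4 h5
    (start_succ hA i₀ hbot p hp ix h1 h2 Fs h3 h4)⟩

end Pool.Agent.LibGS
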