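import Pool.Agent.LibGS.AStage
import Pool.Agent.LibGS.AStop
import Pool.Agent.LibGS.AClass
import Pool.Agent.LibGS.Start

/-! Case A: `cf α = ω`. -/

set_option autoImplicit false

namespace Pool.Agent.LibGS

open Cardinal Set Order
open Pool.Agent.LibGP76 (RegK Ub Cl fl Stat)

variable {K : Type} [LinearOrder K] [WellFoundedLT K] {th : ℕ → Cardinal.{0}} {t : ℕ → K}
  {ix : K → ℕ}

omit [WellFoundedLT K] in
theorem Acc.mono {X Y : Set K} {z : K} (h : Acc X z) (hXY : X ⊆ Y) : Acc Y z := fun w hw => by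
  obtain ⟨x, hx, h1, h2⟩ := h w hw
  exact ⟨x, hXY hx, h1, h2⟩

omit [WellFoundedLT K] in
theorem StopsA.mono {m : Mach ix th} {N₀ : {N : Set (Node K) // SysA ix th N}} {X Y : Set K}
    (h : StopsA m N₀ X) (hXY : X ⊆ Y) : StopsA m N₀ Y := by
  obtain ⟨s, n, T, ⟨h1, h2, h3, h4, h5⟩, h6⟩ := h
  exact ⟨s, n, T, ⟨h1, h2, h3, fun u hu => (h4 u hu).mono (inter_subset_inter_left _ hXY), h5⟩, h6⟩

theorem caseA (hA : Amb K ℕ th t) (htt : ∀ n, #(Set.Iio (t n)) < th n) (hreg : ∀ n, (th n).IsRegular) (p : Ultrafilter K)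
    (hp : ∀ X ∈ p, #X = #K) (hr : ¬ OReg p (th 0)) : GoodS p := by
  classical
  obtain ⟨ix, Fs, h1, h2⟩ := start hA 0 (fun i => Nat.zero_le i) p hp hr
  obtain ⟨m⟩ := exists_machA hA hreg ix
  have hN : SysA ix th {u : Node K | th u.i < cf u.y ∧
      u.P = {x | x < u.y ∧ ix x = u.i ∧ Fs x = u.y}} := by
    refine ⟨?_, fun u hu => hu.1, ?_⟩
    · rintro u ⟨_, hu⟩ x hx
      rw [hu] at hx
      exact ⟨hx.1, hx.2.1⟩
    · rintro u ⟨_, hu⟩ u' ⟨_, hu'⟩ hne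
      rw [Set.disjoint_left]
      intro x hx hx'
      rw [hu] at hx
      rw [hu'] at hx'
      apply hne
      have e1 : u.i = u'.i := hx.2.1.symm.trans hx'.2.1
      have e2 : u.y = u'.y := hx.2.2.symm.trans hx'.2.2
      have e3 : u.P = u'.P := by rw [hu, hu', e1, e2]
      cases u
      cases u'
      simp only at e1 e2 e3
      rw [e1, e2, e3]
  have hT : ∀ X ∈ p, ∃ T₀ ⊆ {u : Node K | th u.i < cf u.y ∧
      u.P = {x | x < u.y ∧ ix x = u.i ∧ Fs x = u.y}}, Sel Node.i T₀ ∧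
        ∀ u ∈ T₀, Acc (X ∩ u.P) u.y := by
    intro X hX
    have h3 : ∀ i : ℕ, ∃ ρ : K, (∃ ρ, th i < cf ρ ∧ Acc {x | x ∈ X ∧ ix x = i ∧ Fs x = ρ} ρ) →
        th i < cf ρ ∧ Acc {x | x ∈ X ∧ ix x = i ∧ Fs x = ρ} ρ := by
      intro i
      by_cases h : ∃ ρ, th i < cf ρ ∧ Acc {x | x ∈ X ∧ ix x = i ∧ Fs x = ρ} ρ
      · obtain ⟨ρ, hρ⟩ := h
        exact ⟨ρ, fun _ => hρ⟩
      · exact ⟨t 0, fun h' => absurd h' h⟩
    choose ρ hρ using h3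
    refine ⟨{u | (th u.i < cf u.y ∧ Acc {x | x ∈ X ∧ ix x = u.i ∧ Fs x = u.y} u.y) ∧
      u.y = ρ u.i ∧ u.P = {x | x < u.y ∧ ix x = u.i ∧ Fs x = u.y}}, ?_, ⟨?_, ?_⟩, ?_⟩
    · rintro u ⟨h4, _, h6⟩
      exact ⟨h4.1, h6⟩
    · rintro u ⟨_, h5, h6⟩ u' ⟨_, h5', h6'⟩ (h7 : u.i = u'.i)
      have e2 : u.y = u'.y := by rw [h5, h5', h7]
      have e3 : u.P = u'.P := by rw [h6, h6', h7, e2]
      cases u
      cases u'
      simp only at h7 e2 e3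
      rw [h7, e2, e3]
    · intro i
      obtain ⟨i', hi', ρ', hρ1, hρ2⟩ := h2 X hX i
      have h8 := hρ i' ⟨ρ', hρ1, hρ2⟩
      exact ⟨i', ⟨⟨i', {x | x < ρ i' ∧ ix x = i' ∧ Fs x = ρ i'}, ρ i'⟩, ⟨h8, rfl, rfl⟩, rfl⟩, hi'⟩
    · rintro u ⟨h4, _, h6⟩ w hw
      obtain ⟨x, hx, hx1, hx2⟩ := h4.2 w hw
      refine ⟨x, ⟨hx.1, ?_⟩, hx1, hx2⟩
      rw [h6]
      exact ⟨hx2, hx.2⟩
  by_cases hS : ∀ X ∈ p, StopsA m ⟨_, hN⟩ X
  · obtain ⟨Cls, c1, c2, c3⟩ := classes_stopA hA htt h1 m ⟨_, hN⟩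
    exact ⟨Cls, c1, c2, fun X hX C hC => c3 X (hS X hX) C hC⟩
  · push Not at hS
    obtain ⟨X₀, hX₀, hns⟩ := hS
    obtain ⟨Cls, c1, c2, c3⟩ := classes_runA hA htt hreg h1 m ⟨_, hN⟩
    refine ⟨Cls, c1, c2, fun X hX C hC => ?_⟩
    obtain ⟨B, hB1, hB2⟩ := c3 (X ∩ X₀) (fun h => hns (h.mono inter_subset_right))
      (hT _ (Filter.inter_mem hX hX₀)) C hC
    exact ⟨B, hB1.trans inter_subset_left, hB2⟩

end Pool.Agent.LibGS
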