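import Pool.Agent.LibGS.TypeOne
import Pool.Agent.LibGS.BTwo
import Pool.Agent.LibGS.BFlat
import Pool.Agent.LibGS.BChart
import Pool.Agent.LibGS.Start
import Pool.Agent.LibGP76.WM

/-! Case B: `cf α > ω`. -/

set_option autoImplicit false

namespace Pool.Agent.LibGS

open Cardinal Set Order
open Pool.Agent.LibGP76 (RegK Ub Cl fl Stat)

variable {K I : Type} [LinearOrder K] [WellFoundedLT K] [LinearOrder I] [WellFoundedLT I]
  {th : I → Cardinal.{0}} {t : I → K}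

omit [WellFoundedLT K] in
theorem Acc.mono' {X Y : Set K} {z : K} (h : Acc X z) (hXY : X ⊆ Y) : Acc Y z := fun w hw => by
  obtain ⟨x, hx, h1, h2⟩ := h w hw
  exact ⟨x, hXY hx, h1, h2⟩

omit [WellFoundedLT K] [WellFoundedLT I] in
theorem TypeI.mono {Λ : Type} {R : I → I → Set K} {NS : Λ → Set (I × I × K)} {X Y : Set K}
    (h : TypeI th R NS X) (hXY : X ⊆ Y) : TypeI th R NS Y := by
  obtain ⟨ξ, T, h1, h2, h3, h4⟩ := h
  exact ⟨ξ, T, h1, h2, fun q hq => ⟨(h3 q hq).1, (h3 q hq).2.mono' (inter_subset_inter_left _ hXY)⟩,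
    h4⟩

/-- Classes of different charts are orthogonal. -/
theorem glue_charts (hA : Amb K I th t) {DD : Type} (R : DD → I → I → Set K)
    (hR : ∀ d d', d ≠ d' → ∃ r₀, ∀ r i r' i', r₀ < r → r₀ < r' →
        Disjoint (R d r i) (R d' r' i')) (Cls : DD → Set K → Set K → Prop)
    (h1 : ∀ d C B, Cls d C B → #B = #K ∧ (∀ x ∈ B, ∃ r i, x ∈ R d r i) ∧
        ∀ r, #{x | x ∈ B ∧ ∃ r' i, r' ≤ r ∧ x ∈ R d r' i} < #K)
    (h2 : ∀ d, ∀ C C', #(C ∩ C' : Set K) < #K → ∀ B B', Cls d C B → Cls d C' B' →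
      #(B ∩ B' : Set K) < #K) :
    ∀ C C', #(C ∩ C' : Set K) < #K → ∀ B B', (∃ d, Cls d C B) → (∃ d, Cls d C' B') →
      #(B ∩ B' : Set K) < #K := by
  classical
  rintro C C' hC B B' ⟨d, hB⟩ ⟨d', hB'⟩
  by_cases hd : d = d'
  · subst hd
    exact h2 d C C' hC B B' hB hB'
  · obtain ⟨r₀, hr₀⟩ := hR d d' hd
    have hinf : ℵ₀ ≤ #K := hA.reg.inf.trans (((le_succ _).trans (le_succ _)).trans
      (((le_succ _).trans (le_succ _)).trans ((hA.mu r₀).trans (hA.lt r₀)).le))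
    refine (mk_le_mk_of_subset (t := {x | x ∈ B ∧ ∃ r' i, r' ≤ r₀ ∧ x ∈ R d r' i} ∪
      {x | x ∈ B' ∧ ∃ r' i, r' ≤ r₀ ∧ x ∈ R d' r' i}) ?_).trans_lt
      ((mk_union_le _ _).trans_lt (add_lt_of_lt hinf ((h1 d C B hB).2.2 r₀)
        ((h1 d' C' B' hB').2.2 r₀)))
    rintro x ⟨hx, hx'⟩
    obtain ⟨r, i, hr⟩ := (h1 d C B hB).2.1 x hx
    obtain ⟨r', i', hr'⟩ := (h1 d' C' B' hB').2.1 x hx'
    by_cases h3 : r ≤ r₀
    · exact Or.inl ⟨hx, r, i, h3, hr⟩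
    · by_cases h4 : r' ≤ r₀
      · exact Or.inr ⟨hx', r', i', h4, hr'⟩
      · exact absurd hr' (Set.disjoint_left.1 (hr₀ r i r' i' (not_le.1 h3) (not_le.1 h4)) hr)

theorem caseB (hA : Amb K I th t) (hI : RegK I) (i₀ : I) (hbot : ∀ i, i₀ ≤ i)
    (p : Ultrafilter K) (hp : ∀ X ∈ p, #X = #K) (hr : ¬ OReg p (th i₀)) : GoodS p := by
  classical
  obtain ⟨ix, Fs, h1, h2⟩ := start hA i₀ hbot p hp hr
  obtain ⟨DD, R, NS0, hR1, hR2, hN1, hN2, hN3⟩ := exists_charts hA ix Fs p h2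
  have hinf : ℵ₀ ≤ #K := hA.reg.inf.trans (((le_succ _).trans (le_succ _)).trans
      (((le_succ _).trans (le_succ _)).trans ((hA.mu i₀).trans (hA.lt i₀)).le))
  let Λ : Type := (succ #K).ord.ToType
  have hL : RegK Λ := LibGP76.regK_ord (isRegular_succ hinf) (hinf.trans_lt (lt_succ _))
  have hΛ : #Λ = succ #K := mk_ord_toType _
  choose NS hNS using fun d => exists_flat (Λ := Λ) hA hI hL hΛ (R d) (NS0 d) (hN1 d) (hN2 d)
  by_cases hT : ∀ X ∈ p, ∃ d, TypeI th (R d) (NS d) X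
  · choose Cls c1 c2 c3 using fun d => type_one (Λ := Λ) hA hI hL hΛ (R d) (hR1 d) (NS d)
      (hNS d).card
    refine ⟨fun C B => ∃ d, Cls d C B, ?_, glue_charts hA R hR2 Cls c1 c2, ?_⟩
    · rintro C B ⟨d, hB⟩
      exact (c1 d C B hB).1
    · intro X hX C hC
      obtain ⟨d, hd⟩ := hT X hX
      obtain ⟨B, hB1, hB2⟩ := c3 d X C hC hd
      exact ⟨B, hB1, d, hB2⟩
  · push Not at hT
    obtain ⟨X₀, hX₀, hT⟩ := hT
    choose Cls c1 c2 c3 using fun d => classes_two (Λ := Λ) hA hI (R d) (hR1 d) (NS0 d) (NS d)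
      (hNS d)
    refine ⟨fun C B => ∃ d, Cls d C B, ?_, glue_charts hA R hR2 Cls c1 c2, ?_⟩
    · rintro C B ⟨d, hB⟩
      exact (c1 d C B hB).1
    · intro X hX C hC
      obtain ⟨d, hd⟩ := hN3 (X ∩ X₀) (Filter.inter_mem hX hX₀)
      obtain ⟨δ, T, Y, hf, hY⟩ := dens_two hA hI hL hΛ (R d) (NS0 d) (NS d) (hNS d) (X ∩ X₀)
        (fun r _ => hd r) (fun h => hT d (h.mono inter_subset_right))
      obtain ⟨B, hB1, hB2⟩ := c3 d (X ∩ X₀) C hC ⟨δ, T, Y, hf, hY⟩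
      exact ⟨B, hB1.trans inter_subset_left, d, hB2⟩

end Pool.Agent.LibGS
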