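import Pool.Agent.LibGP76.Basic
import Pool.Agent.LibGPR.Defs

/-!
Uniform ultrafilters on a singular cardinal: definitions.

`K` is a well-order of type a singular cardinal `α`, `I` a well-order of type `μ = cf α`.
`Cl b` (the points closed under `b`), `fl b x` (the largest element of `Cl b` that is `≤ x`), `Ub`,
`Stat`, `RegK` are from `LibGP76`, `Lad` (ladders) is from `LibGPR`.
A club of a point `y` is always given as `Cl b`, where `b` is MONOTONE and `y ∈ Cl b` (that is, `b`
maps `Iio y` to itself); see `Clb`. (Without monotonicity `Cl b` need not be unbounded in `y`, as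
`#(Iio y)` may be larger than `cf y`.)
-/

set_option autoImplicit false

namespace Pool.Agent.LibGS

open Cardinal Set Order
open Pool.Agent.LibGP76 (RegK Ub Cl fl Stat)
open Pool.Agent.LibGPR (Lad)

/-- Regular infinite well-orders (`RegK` without uncountability). -/
structure RegN (I : Type) [LinearOrder I] : Prop where
  inf : ℵ₀ ≤ #I
  small : ∀ c : I, #(Set.Iio c) < #I
  reg : ∀ S : Set I, #S < #I → ∃ c, ∀ s ∈ S, s < c

/-- Limit elements. -/
def Lim {I : Type} [LinearOrder I] (r : I) : Prop :=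
  (∃ s, s < r) ∧ ∀ s < r, ∃ s', s < s' ∧ s' < r

/-- The cofinality of a point. -/
noncomputable def cf {K : Type} [LinearOrder K] (z : K) : Cardinal.{0} := Order.cof (Set.Iio z)

/-- `X` is unbounded in `z`. -/
def Acc {K : Type} [LinearOrder K] (X : Set K) (z : K) : Prop := ∀ w < z, ∃ x ∈ X, w < x ∧ x < z

/-- Good cardinals: successors of regular cardinals. -/
def Good (κ : Cardinal.{0}) : Prop := ∃ l : Cardinal.{0}, l.IsRegular ∧ κ = succ l

/-- The ambient situation: `#K` is singular of cofinality `#I`, the cardinals `th i` are cofinal in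
`#K`, increasing fast and continuous, the points `t i` are cofinal in `K`. -/
structure Amb (K I : Type) [LinearOrder K] [LinearOrder I] (th : I → Cardinal.{0}) (t : I → K) :
    Prop where
  small : ∀ c : K, #(Set.Iio c) < #K
  reg : RegN I
  mu : ∀ i, succ (succ (succ (succ #I))) < th i
  step : ∀ i j, i < j → succ (succ (succ (succ (succ (th i))))) ≤ th j
  lt : ∀ i, th i < #K
  sup : ∀ c < #K, ∃ i, c < th i
  cont : ∀ r : I, Lim r → ∀ c < th r, ∃ i < r, c < th i
  tle : ∀ i, #(Set.Iio (t i)) ≤ th i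
  tmono : ∀ i j, i ≤ j → t i ≤ t j
  tcof : ∀ x : K, ∃ i, x < t i

/-- Clubs of a point `y`: `Cl b` for a monotone function `b` with `b x < y` for all `x < y`. -/
structure Clb {K : Type} [LinearOrder K] (b : K → K) (y : K) : Prop where
  mono : ∀ x x', x ≤ x' → b x ≤ b x'
  mem : y ∈ Cl b

/-- A choice of cofinal sets. -/
structure CofSys {K : Type} [LinearOrder K] (C : K → Set K) : Prop where
  lt : ∀ y, ∀ c ∈ C y, c < y
  cof : ∀ y, ∀ z < y, ∃ c ∈ C y, z ≤ c
  card : ∀ y, #(C y) = cf y

/-- The floor tree: the root is `fl b x`, and below a point `y` of the tree with `cf y ≤ s` there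
are the points `fl b c`, `c ∈ C y`. -/
inductive Tr {K : Type} [LinearOrder K] [WellFoundedLT K] (C : K → Set K) (s : Cardinal.{0})
    (b : K → K) (x : K) : K → Prop
  | base : Tr C s b x (fl b x)
  | step (y c : K) : Tr C s b x y → cf y ≤ s → c ∈ C y → Tr C s b x (fl b c)

section Sel

variable {I K N L : Type} [LinearOrder I] [LinearOrder K]

/-- Almost all elements of `T` (with respect to the index function `idx`) have the property. -/
def Ev (idx : N → I) (T : Set N) (φ : N → Prop) : Prop := ∃ i₀, ∀ u ∈ T, i₀ < idx u → φ u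

/-- Selections: at most one element of each index, unboundedly many indices. -/
def Sel (idx : N → I) (T : Set N) : Prop := Set.InjOn idx T ∧ Ub (idx '' T)

/-- The bounding number of the product of the `y u`, `u ∈ T`, modulo bounded sets of indices, is
larger than `ν`. -/
def Bd (ν : Cardinal.{0}) (idx : N → I) (T : Set N) (y : N → K) : Prop :=
  ∀ (A : Type), #A ≤ ν → ∀ g : A → N → K, (∀ a, ∀ u ∈ T, g a u < y u) →
    ∃ h : N → K, (∀ u ∈ T, h u < y u) ∧ ∀ a, Ev idx T (fun u => g a u ≤ h u)

/-- No unbounded subset of `T` has a bounding number larger than `ν`. -/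
def Small (ν : Cardinal.{0}) (idx : N → I) (T : Set N) (y : N → K) : Prop :=
  ∀ T' ⊆ T, Ub (idx '' T') → ¬ Bd ν idx T' y

/-- True scales. -/
structure TS [LinearOrder L] (idx : N → I) (T : Set N) (y : N → K) (f : L → N → K) : Prop where
  lt : ∀ ξ, ∀ u ∈ T, f ξ u < y u
  inc : ∀ ξ ξ', ξ < ξ' → Ev idx T (fun u => f ξ u < f ξ' u)
  cof : ∀ g : N → K, (∀ u ∈ T, g u < y u) → ∃ ξ, Ev idx T (fun u => g u ≤ f ξ u)

end Sel

/-- The conclusion for one ultrafilter on `K`. -/
def GoodS {K : Type} (p : Ultrafilter K) : Prop :=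
  ∃ Cls : Set K → Set K → Prop,
    (∀ C B, Cls C B → #B = #K) ∧
    (∀ C C', #(C ∩ C' : Set K) < #K → ∀ B B', Cls C B → Cls C' B' → #(B ∩ B' : Set K) < #K) ∧
    ∀ X ∈ p, ∀ C : Set K, #C = #K → ∃ B, B ⊆ X ∧ Cls C B

/-- `(ω, c)`-regularity. -/
def OReg {K : Type} (p : Ultrafilter K) (c : Cardinal.{0}) : Prop :=
  ∃ (J : Type) (Y : J → Set K), #J = c ∧ (∀ j, Y j ∈ p) ∧ ∀ x, {j | x ∈ Y j}.Finite

end Pool.Agent.LibGS
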