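import Pool.Agent.LibGS.Defs

/-! [GS76 FinO] Regularity of ultrafilters. -/

set_option autoImplicit false

namespace Pool.Agent.LibGS

open Cardinal Set Order
open Pool.Agent.LibGP76 (RegK Ub Cl fl Stat)

variable {K I : Type}

theorem OReg.mono {p : Ultrafilter K} {c c' : Cardinal.{0}} (h : OReg p c) (hc : c' ≤ c) :
    OReg p c' := by
  obtain ⟨J, Y, hJ, hY, hfin⟩ := h
  rw [← hJ] at hc
  obtain ⟨S, hS⟩ := Cardinal.le_mk_iff_exists_set.1 hc
  refine ⟨S, fun j => Y j.1, hS, fun j => hY j.1, fun x => ?_⟩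
  exact (hfin x).preimage (Subtype.val_injective.injOn)

/-- PROOF. Let `#I < κ = #J`-many... Precisely: `J = Σ i, J i` with `#(J i) = th i` and
`Y i : J i → Set K` witnessing `OReg p (th i)`, `Z : I → Set K` witnessing `OReg p #I`; the sets
`Y i j ∩ Z i` witness `OReg p #(Σ i, J i)`: a point `x` lies in `Z i` for finitely many `i`, and for every
`i` in `Y i j` for finitely many `j`. `#(Σ i, J i) = sum th ≥ κ`, since it is `≥ th i` for all `i`; use
`OReg.mono`. -/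
theorem oreg_of_lt {p : Ultrafilter K} (κ : Cardinal.{0}) (th : I → Cardinal.{0})
    (hI : OReg p #I) (hth : ∀ i, OReg p (th i)) (hsup : ∀ c < κ, ∃ i, c < th i) :
    OReg p κ := by
  obtain ⟨J0, Z0, hJ0, hZ0, hZfin0⟩ := hI
  obtain ⟨e⟩ := Cardinal.eq.1 hJ0
  obtain ⟨Z, hZ, hZfin⟩ : ∃ Z : I → Set K, (∀ i, Z i ∈ p) ∧ ∀ x, {i | x ∈ Z i}.Finite :=
    ⟨fun i => Z0 (e.symm i), fun i => hZ0 _, fun x =>
      (hZfin0 x).preimage (e.symm.injective.injOn)⟩
  choose J Y hJ hY hYfin using hth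
  have h1 : OReg p #(Σ i, J i) := by
    refine ⟨Σ i, J i, fun q => Y q.1 q.2 ∩ Z q.1, rfl, fun q => Filter.inter_mem (hY _ _) (hZ _),
      fun x => ?_⟩
    refine Set.Finite.subset ((hZfin x).biUnion (t := fun i => Sigma.mk i '' {j | x ∈ Y i j})
      fun i _ => (hYfin i x).image _) ?_
    rintro ⟨i, j⟩ hq
    exact Set.mem_biUnion (x := i) hq.2 ⟨j, hq.1, rfl⟩
  refine h1.mono ?_
  by_contra hcon
  obtain ⟨i, hi⟩ := hsup _ (not_le.1 hcon)
  rw [← hJ i] at hi
  exact absurd (Cardinal.mk_le_of_injective (sigma_mk_injective (i := i) (β := J))) (not_le.2 hi)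

end Pool.Agent.LibGS
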