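import Pool.Agent.LibGS.RegCore
import Pool.Agent.LibGS.LC

/-! The `(ω, α)`-regular case. -/

set_option autoImplicit false

namespace Pool.Agent.LibGS

open Cardinal Set Order
open Pool.Agent.LibGP76 (RegK Ub Cl fl Stat)

variable {K I : Type} [LinearOrder K] [WellFoundedLT K] [LinearOrder I] [WellFoundedLT I]
  {th : I → Cardinal.{0}} {t : I → K}

/-- The coder, on subsets of an ordered type `K`, with values in subsets of a well-order of type
`(succ (succ s)).ord`. -/
theorem Reg.coder (s : Cardinal.{0}) (hs : succ (succ ℵ₀) ≤ succ s) (Θ : Set K) (hΘ : #Θ ≤ s) :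
    ∃ A : Set (succ (succ s)).ord.ToType → Set K → Set (succ (succ s)).ord.ToType,
      (∀ T c, Ub T → A T c ⊆ T ∧ #(A T c) = #(c ∩ Θ : Set K)) ∧
      ∀ T T' c c', Ub T → Ub T' →
        #(A T c ∩ A T' c' : Set (succ (succ s)).ord.ToType) ≤ #(c ∩ c' : Set K) + ℵ₀ := by
  classical
  have hs0 : ℵ₀ ≤ s := by
    have h1 : succ ℵ₀ ≤ s := by
      have h2 := lt_succ (succ (ℵ₀ : Cardinal.{0}))
      exact lt_succ_iff.1 (h2.trans_le hs)
    exact (le_succ _).trans h1
  have hl : (succ s).IsRegular := isRegular_succ hs0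
  have hl0 : ℵ₀ < succ s := hs0.trans_lt (lt_succ s)
  have hl1 : (ℵ₁ : Cardinal.{0}) < succ s := by
    have h1 : (ℵ₁ : Cardinal.{0}) = succ ℵ₀ := succ_aleph0.symm
    rw [h1]
    exact (lt_succ _).trans_le hs
  have hK' : RegK (succ s).ord.ToType := LibGP76.regK_ord hl hl0
  have hL : RegK (succ (succ s)).ord.ToType :=
    LibGP76.regK_ord (isRegular_succ hl.aleph0_le) (hl0.trans (lt_succ _))
  have hK'c : #(succ s).ord.ToType = succ s := mk_ord_toType _
  have hLc : #(succ (succ s)).ord.ToType = succ (succ s) := mk_ord_toType _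
  obtain ⟨A, hA1, hA2⟩ := LC.local_coder (K := (succ s).ord.ToType)
    (L := (succ (succ s)).ord.ToType) (Θ := Θ) hK' (by rw [hK'c]; exact hl1) hL
    (by rw [hLc, hK'c]) (by rw [hK'c]; exact hΘ.trans_lt (lt_succ s))
  have hcc : ∀ c : Set K, #((fun x : Θ => x.1) ⁻¹' c) = #(c ∩ Θ : Set K) := by
    intro c
    rw [← mk_image_eq (f := fun x : Θ => x.1) Subtype.val_injective]
    have h1 : (fun x : Θ => x.1) '' ((fun x : Θ => x.1) ⁻¹' c) = c ∩ Θ := by
      ext x
      constructor
      · rintro ⟨y, hy, rfl⟩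
        exact ⟨hy, y.2⟩
      · rintro ⟨h1, h2⟩
        exact ⟨⟨x, h2⟩, h1, rfl⟩
    rw [h1]
  refine ⟨fun T c => A T ((fun x : Θ => x.1) ⁻¹' c), ?_, ?_⟩
  · intro T c hT
    obtain ⟨h1, h2⟩ := hA1 T ((fun x : Θ => x.1) ⁻¹' c) hT
    exact ⟨h1, h2.trans (hcc c)⟩
  · intro T T' c c' hT hT'
    refine (hA2 T T' _ _ hT hT').trans ?_
    have h3 : ((fun x : Θ => x.1) ⁻¹' c) ∩ ((fun x : Θ => x.1) ⁻¹' c') =
        (fun x : Θ => x.1) ⁻¹' (c ∩ c') := rfl
    rw [h3, hcc]
    exact add_le_add_left (mk_le_mk_of_subset inter_subset_left) _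

omit [WellFoundedLT I] in
/-- The `(ω, α)`-regular case. -/
theorem reg_case (hA : Amb K I th t) (p : Ultrafilter K) (_hp : ∀ X ∈ p, #X = #K)
    (h : OReg p #K) : GoodS p := by
  classical
  obtain ⟨J, Y, hJ, hY, hfin⟩ := h
  have hI : ℵ₀ ≤ #I := hA.reg.inf
  have hne : Nonempty I := by
    rw [← mk_ne_zero_iff]
    exact (aleph0_pos.trans_le hI).ne'
  have hmu : ∀ i, #I < th i := fun i =>
    ((((lt_succ #I).trans (lt_succ _)).trans (lt_succ _)).trans (lt_succ _)).trans (hA.mu i)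
  have hIK : #I < #K := (hmu (Classical.arbitrary I)).trans (hA.lt _)
  have hK0 : ℵ₀ < #K := hI.trans_lt hIK
  have hth : ∀ i, succ (succ ℵ₀) ≤ succ (th i) := by
    intro i
    refine succ_le_succ ?_
    refine (succ_le_succ hI).trans ?_
    exact ((le_succ _).trans ((le_succ _).trans (le_succ _))).trans (hA.mu i).le
  have hgt : ∀ k : I, ∃ j, k < j := by
    intro k
    obtain ⟨c, hc⟩ := hA.reg.reg {k} (by rw [mk_singleton]; exact one_lt_aleph0.trans_le hI)
    exact ⟨c, hc k rfl⟩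
  have hstep : ∀ i j, i < j → succ (succ (th i)) ≤ th j := fun i j hij =>
    ((le_succ _).trans ((le_succ _).trans (le_succ _))).trans (hA.step i j hij)
  have hLc : ∀ k, #(succ (succ (th k))).ord.ToType = succ (succ (th k)) := fun k =>
    mk_ord_toType _
  have hLK : ∀ k, succ (succ (th k)) ≤ #K := by
    intro k
    obtain ⟨j, hj⟩ := hgt k
    exact (hstep k j hj).trans (hA.lt j).le
  have hth0 : ∀ k, ℵ₀ ≤ th k := fun k => (hI.trans_lt (hmu k)).le
  have hL : ∀ k, RegK (succ (succ (th k))).ord.ToType := fun k =>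
    LibGP76.regK_ord (isRegular_succ ((hth0 k).trans (le_succ _)))
      (((hth0 k).trans_lt (lt_succ _)).trans (lt_succ _))
  -- the index set
  have hsig : #(Σ k : I, (succ (succ (th k))).ord.ToType) = #K := by
    rw [mk_sigma]
    refine le_antisymm ?_ ?_
    · refine (sum_le_sum _ (fun _ => #K) fun k => ?_).trans ?_
      · rw [hLc]
        exact hLK k
      · rw [sum_const']
        exact mul_le_of_le hK0.le hIK.le le_rfl
    · by_contra hcon
      rw [not_le] at hcon
      obtain ⟨i, hi⟩ := hA.sup _ hcon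
      have h1 := le_sum (fun k : I => #(succ (succ (th k))).ord.ToType) i
      simp only [hLc i] at h1
      exact absurd (h1.trans_lt hi) (not_lt.2 ((le_succ _).trans (le_succ _)))
  obtain ⟨e⟩ := Cardinal.eq.1 (hsig.trans hJ.symm)
  have hcod := fun k : I => Reg.coder (K := K) (th k) (hth k) (Set.Iio (t k)) (hA.tle k)
  choose A hA1 hA2 using hcod
  refine Reg.core (L := fun k : I => (succ (succ (th k))).ord.ToType) hI hIK hL ?_
    (fun k => Set.Iio (t k)) hA.tcof A hA1 hA2 p (fun j => Y (e j)) (fun j => hY _) ?_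
  · intro k
    have h1 : #{j : Σ i : I, (succ (succ (th i))).ord.ToType // j.1 < k} ≤
        #(Σ i : {i : I // i < k}, (succ (succ (th i.1))).ord.ToType) := by
      refine mk_le_of_injective (f := fun j => ⟨⟨j.1.1, j.2⟩, j.1.2⟩) ?_
      rintro ⟨⟨i, d⟩, hi⟩ ⟨⟨i', d'⟩, hi'⟩ heq
      have h2 : i = i' := congrArg (fun z => z.1.1) heq
      subst h2
      have h3 : d = d' := by simpa using heq
      subst h3
      rfl
    refine h1.trans_lt ?_
    rw [mk_sigma]
    refine (sum_le_sum _ (fun _ => th k) fun i => ?_).trans_lt ?_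
    · rw [hLc]
      exact hstep i.1 k i.2
    · rw [sum_const', hLc]
      refine lt_of_le_of_lt ?_ ((lt_succ (th k)).trans (lt_succ _))
      exact mul_le_of_le (hth0 k) ((mk_subtype_le _).trans (hmu k).le) le_rfl
  · intro x
    exact (hfin x).preimage e.injective.injOn

end Pool.Agent.LibGS
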