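import Pool.Agent.LibGS.FinA
import Pool.Agent.LibGS.FinO
import Pool.Agent.LibGS.CaseA
import Pool.Agent.LibGS.CaseB
import Pool.Agent.LibGS.Reg
import Pool.Agent.LibGP.Top
import Pool.Agent.LibGP76.WM

/-! Assembly: singular cardinals. -/

set_option autoImplicit false

namespace Pool.Agent.LibGS

open Cardinal Set Order Topology
open Pool.Agent.LibGP76 (RegK Ub Cl fl Stat)

/-- Singular cardinals are limit cardinals. -/
theorem sing_succ {κ : Cardinal.{0}} (hκ : ℵ₀ ≤ κ) (hs : ¬ κ.IsRegular) :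
    ∀ c < κ, succ c < κ := by
  intro c hc
  refine lt_of_le_of_ne (succ_le_of_lt hc) ?_
  intro h
  by_cases h0 : ℵ₀ ≤ c
  · exact hs (h ▸ isRegular_succ h0)
  · rw [not_le] at h0
    obtain ⟨n, rfl⟩ := lt_aleph0.1 h0
    have h1 : succ (n : Cardinal.{0}) < ℵ₀ := by
      refine (succ_le_of_lt ?_).trans_lt (natCast_lt_aleph0 (n := n + 1))
      exact_mod_cast Nat.lt_succ_self n
    rw [h] at h1
    exact absurd hκ (not_le.2 h1)

theorem regN_ord {κ : Cardinal.{0}} (hκ : κ.IsRegular) : RegN κ.ord.ToType := by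
  refine ⟨by rw [mk_ord_toType]; exact hκ.aleph0_le,
    fun c => by rw [mk_ord_toType]; exact mk_Iio_toType_ord_lt c, ?_⟩
  intro S hS
  rw [mk_ord_toType] at hS
  by_contra hcon
  push Not at hcon
  have h1 : IsCofinal S := fun c => by
    obtain ⟨s, hs, hcs⟩ := hcon c
    exact ⟨s, hs, hcs⟩
  have h2 := Order.cof_le h1
  rw [Ordinal.cof_toType, hκ.cof_ord] at h2
  exact absurd hS (not_lt.2 h2)

/-- Every uniform ultrafilter on a singular cardinal is good. -/
theorem sing {κ : Cardinal.{0}} (hκ : ℵ₀ ≤ κ) (hs : ¬ κ.IsRegular)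
    (p : Ultrafilter κ.ord.ToType) (hp : ∀ X ∈ p, #X = #κ.ord.ToType) : GoodS p := by
  classical
  have hKc : #κ.ord.ToType = κ := mk_ord_toType κ
  have hsmall : ∀ c : κ.ord.ToType, #(Set.Iio c) < #κ.ord.ToType := fun c => by
    rw [hKc]; exact mk_Iio_toType_ord_lt c
  have hsucc : ∀ c < #κ.ord.ToType, succ c < #κ.ord.ToType := by
    rw [hKc]; exact sing_succ hκ hs
  have hlim : IsSuccLimit κ.ord := isSuccLimit_ord hκ
  have hμr : (κ.ord.cof).IsRegular := isRegular_cof hlim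
  have hμκ : κ.ord.cof < κ := by
    refine lt_of_le_of_ne (Ordinal.cof_ord_le κ) ?_
    intro h
    exact hs (h ▸ hμr)
  have hK : ℵ₀ < #κ.ord.ToType := by
    rw [hKc]; exact hμr.aleph0_le.trans_lt hμκ
  -- no largest element
  have hgt : ∀ x : κ.ord.ToType, ∃ y, x < y := by
    intro x
    obtain ⟨y, hy, -⟩ := exists_init hsmall _ (hsucc _ (hsmall x))
    refine ⟨y, ?_⟩
    by_contra hcon
    rw [not_lt] at hcon
    have h1 := mk_le_mk_of_subset (Set.Iio_subset_Iio hcon)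
    rw [hy] at h1
    exact absurd h1 (not_le.2 (lt_succ _))
  obtain ⟨S, hS1, hS2⟩ := Order.exists_cof_eq κ.ord.ToType
  have hbd : ∀ S' : Set κ.ord.ToType, #S' < κ.ord.cof → ∃ x, ∀ s ∈ S', s < x := by
    intro S' hS'
    by_contra hcon
    push Not at hcon
    have h1 : IsCofinal S' := fun c => by
      obtain ⟨s, hs, hcs⟩ := hcon c
      exact ⟨s, hs, hcs⟩
    have h2 := Order.cof_le h1
    rw [Ordinal.cof_toType] at h2
    exact absurd hS' (not_lt.2 h2)
  -- the index set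
  let I : Type := (κ.ord.cof).ord.ToType
  have hIc : #I = κ.ord.cof := mk_ord_toType _
  have hIN : RegN I := regN_ord hμr
  have hIS : #I = #S := by rw [hIc, hS2, Ordinal.cof_toType]
  obtain ⟨g⟩ := Cardinal.eq.1 hIS
  have he : ∀ x : κ.ord.ToType, ∃ i : I, x < (g i : κ.ord.ToType) := by
    intro x
    obtain ⟨y, hy⟩ := hgt x
    obtain ⟨s, hs, hys⟩ := hS1 y
    exact ⟨g.symm ⟨s, hs⟩, by rw [g.apply_symm_apply]; exact hy.trans_le hys⟩
  by_cases hreg : OReg p #κ.ord.ToType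
  · obtain ⟨th, t, hA, -⟩ := exists_amb hsmall hIN (by rw [hIc, hKc]; exact hμκ) hsucc
      (fun i => (g i : κ.ord.ToType)) he (by rw [hIc]; exact hbd) 0
      (by rw [hKc]; exact aleph0_pos.trans_le hκ)
    exact reg_case hA p hp hreg
  · have hτ : ∃ τ < #κ.ord.ToType, ¬ OReg p τ := by
      by_contra hcon
      push Not at hcon
      refine hreg (oreg_of_lt (I := I) _ (fun i => #(Set.Iio (g i : κ.ord.ToType)))
        (hcon _ (by rw [hIc, hKc]; exact hμκ)) (fun i => hcon _ (hsmall _)) ?_)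
      intro c hc
      obtain ⟨x, hx, -⟩ := exists_init hsmall _ (hsucc c hc)
      obtain ⟨i, hi⟩ := he x
      refine ⟨i, (lt_succ c).trans_le ?_⟩
      rw [← hx]
      exact mk_le_mk_of_subset (Set.Iio_subset_Iio hi.le)
    obtain ⟨τ, hτ1, hτ2⟩ := hτ
    by_cases hω : κ.ord.cof = ℵ₀
    · have hI0 : #I = #ℕ := by rw [hIc, hω, mk_nat]
      obtain ⟨g'⟩ := Cardinal.eq.1 hI0
      obtain ⟨th, t, hA, htt, hr, hth⟩ := exists_ambA hsmall hK hsucc
        (fun n => (g (g'.symm n) : κ.ord.ToType)) (fun x => by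
          obtain ⟨i, hi⟩ := he x
          exact ⟨g' i, by rw [g'.symm_apply_apply]; exact hi⟩) τ hτ1
      exact caseA hA htt hr p hp (fun h => hτ2 (h.mono (hth 0)))
    · have hIK : RegK I := ⟨by
        rw [hIc]; exact lt_of_le_of_ne hμr.aleph0_le (Ne.symm hω), hIN.small, hIN.reg⟩
      obtain ⟨th, t, hA, hth⟩ := exists_amb hsmall hIN (by rw [hIc, hKc]; exact hμκ) hsucc
        (fun i => (g i : κ.ord.ToType)) he (by rw [hIc]; exact hbd) τ hτ1
      haveI : Nonempty I := LibGP76.nonempty_of_regK hIK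
      obtain ⟨i₀, -, hi₀⟩ := wellFounded_lt.has_min (Set.univ : Set I) Set.univ_nonempty
      exact caseB hA hIK i₀ (fun i => not_lt.1 (hi₀ i (mem_univ i))) p hp
        (fun h => hτ2 (h.mono (hth i₀)))

/-- From good classes to disjoint open sets. -/
theorem open_of_goodS {A K : Type} (e : A ≃ K) (hA : ℵ₀ ≤ #A) (p : LibGP.UPt A)
    (hp : GoodS (p.1.map e)) (F : Set (Set A)) (hF : ∀ s ∈ F, #s = #A)
    (hFF : F.Pairwise fun s t => #(s ∩ t : Set A) < #A) :
    ∃ 𝒪 : Set (Set (LibGP.UPt A)), #𝒪 = #F ∧ 𝒪.PairwiseDisjoint id ∧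
      (∀ O ∈ 𝒪, IsOpen O ∧ p ∈ frontier O) := by
  classical
  have hAK : #A = #K := Cardinal.mk_congr e
  obtain ⟨Cls, h1, h2, h3⟩ := hp
  have hpre : ∀ B : Set K, #(e ⁻¹' B : Set A) = #B := by
    intro B
    have := mk_image_eq (s := e ⁻¹' B) e.injective
    rw [Set.image_preimage_eq _ e.surjective] at this
    exact this.symm
  have himg : ∀ S : Set A, #(e '' S : Set K) = #S := fun S => mk_image_eq e.injective
  choose t ht1 ht2 ht3 using fun s : F => LibGP.exists_halves hA s.1 (hF s.1 s.2)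
  have hCC : ∀ x x' : F × Bool, x ≠ x' →
      #((e '' (t x.1 x.2) ∩ e '' (t x'.1 x'.2) : Set K)) < #K := by
    intro x x' hne
    rw [← image_inter e.injective, himg, ← hAK]
    by_cases hx : x.1 = x'.1
    · have hb : x.2 ≠ x'.2 := fun hb => hne (Prod.ext hx hb)
      have hd : (t x.1 x.2 ∩ t x'.1 x'.2 : Set A) = ∅ := by
        rw [← hx, ← disjoint_iff_inter_eq_empty]
        rcases x.2.eq_false_or_eq_true with k1 | k1 <;>
          rcases x'.2.eq_false_or_eq_true with k2 | k2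
        · exact absurd (k1.trans k2.symm) hb
        · rw [k1, k2]; exact (ht3 _).symm
        · rw [k1, k2]; exact ht3 _
        · exact absurd (k1.trans k2.symm) hb
      rw [hd, mk_eq_zero]
      exact aleph0_pos.trans_le hA
    · refine (mk_le_mk_of_subset (inter_subset_inter (ht1 _ _) (ht1 _ _))).trans_lt ?_
      exact hFF x.1.2 x'.1.2 (fun h' => hx (Subtype.ext h'))
  refine LibGP.open_of_family hA p (F := F) (K := Set K)
    (fun B x => if Cls (e '' (t x.1 x.2)) B then e ⁻¹' B else ∅) ?_ ?_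
  · intro B B' x x' hne
    by_cases hB : Cls (e '' (t x.1 x.2)) B
    · by_cases hB' : Cls (e '' (t x'.1 x'.2)) B'
      · rw [if_pos hB, if_pos hB', ← preimage_inter, hpre, hAK]
        exact h2 _ _ (hCC x x' hne) B B' hB hB'
      · rw [if_neg hB', inter_empty, mk_eq_zero]
        exact aleph0_pos.trans_le hA
    · rw [if_neg hB, empty_inter, mk_eq_zero]
      exact aleph0_pos.trans_le hA
  · intro s hs x
    have hs' : e '' s ∈ p.1.map e := by
      rw [Ultrafilter.mem_map, preimage_image_eq _ e.injective]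
      exact hs
    obtain ⟨B, hB1, hB2⟩ := h3 _ hs' (e '' (t x.1 x.2)) (by rw [himg, ht2, hAK])
    refine ⟨B, ?_⟩
    rw [if_pos hB2, inter_eq_left.2, hpre, hAK]
    · exact h1 _ _ hB2
    · intro y hy
      obtain ⟨z, hz, hzy⟩ := hB1 hy
      rwa [← e.injective hzy]

theorem main_singular {A : Type} (hA : ℵ₀ ≤ #A) (hs : ¬ (#A).IsRegular)
    (p : LibGP.UPt A) (F : Set (Set A)) (hF : ∀ s ∈ F, #s = #A)
    (hFF : F.Pairwise fun s t => #(s ∩ t : Set A) < #A) :
    ∃ 𝒪 : Set (Set (LibGP.UPt A)), #𝒪 = #F ∧ 𝒪.PairwiseDisjoint id ∧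
      (∀ O ∈ 𝒪, IsOpen O ∧ p ∈ frontier O) := by
  classical
  obtain ⟨e⟩ : Nonempty (A ≃ (#A).ord.ToType) := Cardinal.eq.1 (mk_ord_toType #A).symm
  have hAK : #A = #((#A).ord.ToType) := Cardinal.mk_congr e
  refine open_of_goodS e hA p (sing hA hs _ ?_) F hF hFF
  intro X hX
  have h1 := p.2 _ (Ultrafilter.mem_map.1 hX)
  have h2 := mk_image_eq (s := e ⁻¹' X) e.injective
  rw [Set.image_preimage_eq _ e.surjective] at h2
  exact h2.trans (h1.trans hAK)

end Pool.Agent.LibGS
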