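import Pool.Agent.LibGS.Defs

/-! [GS76 FinA] Existence of the ambient data. -/

set_option autoImplicit false

namespace Pool.Agent.LibGS

open Cardinal Set Order
open Pool.Agent.LibGP76 (RegK Ub Cl fl Stat)

variable {K I : Type} [LinearOrder K] [WellFoundedLT K] [LinearOrder I] [WellFoundedLT I]

theorem finA_card_le {A : Type} [LinearOrder A] [WellFoundedLT A] (c : Cardinal.{0})
    (h : ∀ x : A, #(Set.Iio x) < c) : #A ≤ c := by
  have h1 : Ordinal.type (α := A) (· < ·) ≤ c.ord := by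
    by_contra hlt
    rw [not_le] at hlt
    obtain ⟨x, hx⟩ := Ordinal.typein_surj (α := A) (· < ·) hlt
    have h2 := h x
    have h3 : (Ordinal.typein (α := A) (· < ·) x).card = #(Set.Iio x) := Ordinal.card_typein x
    rw [← h3, hx, card_ord] at h2
    exact lt_irrefl _ h2
  have h2 := Ordinal.card_le_card h1
  rwa [Ordinal.card_type, card_ord] at h2

omit [WellFoundedLT K] in
theorem finA_Iio (x : K) (y : Set.Iio x) : #(Set.Iio y) = #(Set.Iio (y : K)) := by
  refine Cardinal.mk_congr ⟨fun z => ⟨z.1.1, z.2⟩, fun z => ⟨⟨z.1, lt_trans z.2 y.2⟩, z.2⟩, ?_, ?_⟩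
  · intro z; rfl
  · intro z; rfl

/-- For every `c < #K` there is a first point with `c` predecessors: the least `x` with
`c ≤ #(Iio x)` (such `x` exists, otherwise `#(Iio x) < c` for all `x`, so the order type of `K` is at most
`c.ord`; e.g. `LibGP76`'s `exists_pt` after `K ≃o (#K).ord.ToType`, or directly: `c < #K` and
`Iio x` of cardinality `≥ c` exists because otherwise `K` embeds into `c.ord`). For this least `x`:
`#(Iio x) = c` (if `c` is infinite or in general: all smaller points have `< c` predecessors, so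
`#(Iio x) ≤ c`). -/
theorem exists_init (hs : ∀ c : K, #(Set.Iio c) < #K) (c : Cardinal.{0}) (hc : c < #K) :
    ∃ x : K, #(Set.Iio x) = c ∧ ∀ y < x, #(Set.Iio y) < c := by
  have hne : {x : K | c ≤ #(Set.Iio x)}.Nonempty := by
    by_contra h
    rw [Set.not_nonempty_iff_eq_empty, Set.eq_empty_iff_forall_notMem] at h
    exact absurd (finA_card_le c (fun x => not_le.1 (h x))) (not_le.2 hc)
  let x := (wellFounded_lt (α := K)).min _ hne
  have hx : c ≤ #(Set.Iio x) := (wellFounded_lt (α := K)).min_mem _ hne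
  have hmin : ∀ y < x, #(Set.Iio y) < c := by
    intro y hy
    by_contra h
    exact (wellFounded_lt (α := K)).not_lt_min {x : K | c ≤ #(Set.Iio x)} (not_lt.1 h) hy
  refine ⟨x, le_antisymm ?_ hx, hmin⟩
  exact finA_card_le c (fun y => by rw [finA_Iio]; exact hmin y y.2)

omit [WellFoundedLT K] in
theorem finA_lt_of_card {x y : K} (h : #(Set.Iio x) < #(Set.Iio y)) : x < y := by
  by_contra hxy
  exact absurd (mk_le_mk_of_subset (Set.Iio_subset_Iio (not_lt.1 hxy))) (not_le.2 h)

/-- five times the successor -/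
noncomputable def finA_s5 (c : Cardinal.{0}) : Cardinal.{0} := succ (succ (succ (succ (succ c))))

theorem finA_le_s5 (c : Cardinal.{0}) : c ≤ finA_s5 c :=
  (le_succ c).trans ((le_succ _).trans ((le_succ _).trans ((le_succ _).trans (le_succ _))))

theorem finA_s5_mono {c d : Cardinal.{0}} (h : c ≤ d) : finA_s5 c ≤ finA_s5 d :=
  succ_le_succ (succ_le_succ (succ_le_succ (succ_le_succ (succ_le_succ h))))

theorem finA_s5_lt {d : Cardinal.{0}} (hsucc : ∀ c < d, succ c < d) {c : Cardinal.{0}} (h : c < d) :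
    finA_s5 c < d :=
  hsucc _ (hsucc _ (hsucc _ (hsucc _ (hsucc _ h))))

theorem finA_nomax (hI : RegN I) (j : I) : ∃ i, j < i := by
  obtain ⟨c, hc⟩ := hI.reg {j} (by
    rw [mk_singleton]
    exact lt_of_lt_of_le one_lt_aleph0 hI.inf)
  exact ⟨c, hc j rfl⟩

omit [WellFoundedLT K] in
theorem finA_rec (e : I → K) (τ : Cardinal.{0}) :
    ∃ th : I → Cardinal.{0}, ∀ i, th i = max (finA_s5 (max τ #I))
      (⨆ j : Set.Iio i, max (finA_s5 (th j)) (succ #(Set.Iio (e j)))) := by
  let step : (i : I) → ((j : I) → j < i → Cardinal.{0}) → Cardinal.{0} := fun i ih =>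
    max (finA_s5 (max τ #I))
      (⨆ j : Set.Iio i, max (finA_s5 (ih j.1 j.2)) (succ #(Set.Iio (e j.1))))
  exact ⟨(wellFounded_lt (α := I)).fix step, fun i => WellFounded.fix_eq _ _ _⟩

/-- General ambient data. PROOF. Define `th` by recursion (`wellFounded_lt.fix`):
`th i = max (succ^5 (max τ #I)) (⨆ j : Iio i, max (succ^5 (th j)) (succ #(Iio (e j))))`. Then
`succ^5 (th j) ≤ th i` for `j < i`; `th i < #K` by induction: all the cardinals in the supremum are `< #K`
(`hsucc`), so each is `≤ #(Iio (x j))` for some `x j : K`, and there is a point above all `x j`, `j < i`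
(`hbd`, `#(Iio i) < #I`). `sup`: `c < #K` is `≤ #(Iio x)` for some `x`, `x < e j`, and `j < i`, so
`c < succ #(Iio (e j)) ≤ th i`. `cont`: let `r` be a limit, `c < th r`; then `c < succ^5 (max τ #I) ≤ th s`
for `s < r`, or there is `j < r` with `c < max (succ^5 (th j)) (succ #(Iio (e j))) ≤ th s` for
`j < s < r` (`lt_ciSup_iff`, bounded families: `Cardinal.bddAbove_range`). `t i` = the point of
`exists_init` for `c = th i`; `tmono`, `tcof` from `exists_init` and `sup`. -/
theorem exists_amb (hs : ∀ c : K, #(Set.Iio c) < #K) (hI : RegN I) (hIK : #I < #K)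
    (hsucc : ∀ c < #K, succ c < #K) (e : I → K) (he : ∀ x, ∃ i, x < e i)
    (hbd : ∀ S : Set K, #S < #I → ∃ x, ∀ s ∈ S, s < x) (τ : Cardinal.{0}) (hτ : τ < #K) :
    ∃ (th : I → Cardinal.{0}) (t : I → K), Amb K I th t ∧ ∀ i, τ ≤ th i := by
  obtain ⟨th, hth⟩ := finA_rec (K := K) (I := I) e τ
  have hbase : ∀ i, finA_s5 (max τ #I) ≤ th i := fun i => by
    rw [hth i]; exact le_max_left _ _
  have hnext : ∀ i j, j < i → max (finA_s5 (th j)) (succ #(Set.Iio (e j))) ≤ th i := by
    intro i j hji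
    rw [hth i]
    refine le_trans ?_ (le_max_right _ _)
    exact le_ciSup (f := fun j : Set.Iio i => max (finA_s5 (th j)) (succ #(Set.Iio (e j))))
      Cardinal.bddAbove_of_small ⟨j, hji⟩
  have hlt : ∀ i, th i < #K := by
    intro i
    induction i using (wellFounded_lt (α := I)).induction with
    | _ i ih =>
    rw [hth i]
    refine max_lt (finA_s5_lt hsucc (max_lt hτ hIK)) ?_
    have hx : ∀ j : Set.Iio i, ∃ x : K,
        #(Set.Iio x) = max (finA_s5 (th j)) (succ #(Set.Iio (e j))) := by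
      intro j
      obtain ⟨x, hx, -⟩ := exists_init hs (max (finA_s5 (th j)) (succ #(Set.Iio (e j))))
        (max_lt (finA_s5_lt hsucc (ih j j.2)) (hsucc _ (hs _)))
      exact ⟨x, hx⟩
    choose x hx using hx
    obtain ⟨z, hz⟩ := hbd (Set.range x) (mk_range_le.trans_lt (hI.small i))
    refine lt_of_le_of_lt (ciSup_le' fun j => ?_) (hs z)
    rw [← hx j]
    exact mk_le_mk_of_subset (Set.Iio_subset_Iio (hz _ (Set.mem_range_self j)).le)
  have hsup : ∀ c < #K, ∃ i, c < th i := by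
    intro c hc
    obtain ⟨x, hx, -⟩ := exists_init hs c hc
    obtain ⟨j, hj⟩ := he x
    obtain ⟨i, hi⟩ := finA_nomax hI j
    refine ⟨i, lt_of_lt_of_le ?_ ((le_max_right _ _).trans (hnext i j hi))⟩
    rw [lt_succ_iff, ← hx]
    exact mk_le_mk_of_subset (Set.Iio_subset_Iio hj.le)
  have hmono : ∀ i j, i ≤ j → th i ≤ th j := by
    intro i j hij
    rcases hij.eq_or_lt with rfl | h
    · exact le_rfl
    · exact (finA_le_s5 _).trans ((le_max_left _ _).trans (hnext j i h))
  have ht : ∀ i, ∃ x : K, #(Set.Iio x) = th i ∧ ∀ y < x, #(Set.Iio y) < th i :=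
    fun i => exists_init hs (th i) (hlt i)
  choose t ht1 ht2 using ht
  refine ⟨th, t, ⟨hs, hI, ?_, ?_, hlt, hsup, ?_, fun i => (ht1 i).le, ?_, ?_⟩, fun i => ?_⟩
  · intro i
    refine lt_of_lt_of_le ?_ (hbase i)
    refine lt_of_le_of_lt ?_ (lt_succ _)
    exact succ_le_succ (succ_le_succ (succ_le_succ (succ_le_succ (le_max_right _ _))))
  · intro i j hij
    exact (le_max_left _ _).trans (hnext j i hij)
  · intro r hr c hc
    rw [hth r, lt_max_iff] at hc
    rcases hc with hc | hc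
    · obtain ⟨s, hs'⟩ := hr.1
      exact ⟨s, hs', hc.trans_le (hbase s)⟩
    · obtain ⟨j, hj⟩ := exists_lt_of_lt_ciSup' hc
      obtain ⟨s, h1, h2⟩ := hr.2 j j.2
      exact ⟨s, h2, hj.trans_le (hnext s j h1)⟩
  · intro i j hij
    by_contra hlt'
    have h1 := ht2 i (t j) (not_le.1 hlt')
    rw [ht1 j] at h1
    exact absurd (hmono i j hij) (not_le.2 h1)
  · intro x
    obtain ⟨i, hi⟩ := hsup _ (hs x)
    exact ⟨i, finA_lt_of_card (by rw [ht1 i]; exact hi)⟩
  · exact (le_max_left _ _).trans ((finA_le_s5 _).trans (hbase i))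

theorem finA_regN : RegN ℕ where
  inf := by simp
  small := fun c => by
    rw [mk_nat]
    exact (Set.finite_Iio c).lt_aleph0
  reg := fun S hS => by
    rw [mk_nat, Cardinal.lt_aleph0_iff_set_finite] at hS
    obtain ⟨b, hb⟩ := hS.bddAbove
    exact ⟨b + 1, fun s hs => Nat.lt_succ_of_le (hb hs)⟩

/-- Ambient data for cofinality `ω`. PROOF. Recursion on `ℕ`: `th 0 = succ^6 (max τ ℵ₀)`,
`th (n + 1) = succ (max (succ^5 (th n)) #(Iio (e n)))`; regular as successors. `t n` = the point of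
`exists_init` for `th' n`, where `th n = succ (th' n)`. -/
theorem exists_ambA (hs : ∀ c : K, #(Set.Iio c) < #K) (hK : ℵ₀ < #K)
    (hsucc : ∀ c < #K, succ c < #K) (e : ℕ → K) (he : ∀ x, ∃ i, x < e i) (τ : Cardinal.{0})
    (hτ : τ < #K) :
    ∃ (th : ℕ → Cardinal.{0}) (t : ℕ → K), Amb K ℕ th t ∧ (∀ n, #(Set.Iio (t n)) < th n) ∧
      (∀ n, (th n).IsRegular) ∧ ∀ n, τ ≤ th n := by
  let a : ℕ → Cardinal.{0} := fun n => Nat.rec (finA_s5 (max τ ℵ₀))
    (fun n c => max (finA_s5 (succ c)) #(Set.Iio (e n))) n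
  have ha0 : a 0 = finA_s5 (max τ ℵ₀) := rfl
  have haS : ∀ n, a (n + 1) = max (finA_s5 (succ (a n))) #(Set.Iio (e n)) := fun n => rfl
  have hstep : ∀ n, finA_s5 (succ (a n)) ≤ a (n + 1) := fun n => by
    rw [haS]; exact le_max_left _ _
  have hmono : Monotone a := monotone_nat_of_le_succ fun n =>
    (le_succ _).trans ((finA_le_s5 _).trans (hstep n))
  have hbase : ∀ n, finA_s5 (max τ ℵ₀) ≤ a n := fun n => by
    rw [← ha0]; exact hmono (Nat.zero_le n)
  have hlt : ∀ n, a n < #K := by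
    intro n
    induction n with
    | zero => exact finA_s5_lt hsucc (max_lt hτ hK)
    | succ n ih => rw [haS]; exact max_lt (finA_s5_lt hsucc (hsucc _ ih)) (hs _)
  have hsup : ∀ c < #K, ∃ i, c ≤ a i := by
    intro c hc
    obtain ⟨x, hx, -⟩ := exists_init hs c hc
    obtain ⟨j, hj⟩ := he x
    refine ⟨j + 1, ?_⟩
    rw [haS, ← hx]
    exact (mk_le_mk_of_subset (Set.Iio_subset_Iio hj.le)).trans (le_max_right _ _)
  have hinf : ∀ n, ℵ₀ ≤ a n := fun n => (le_max_right _ _).trans ((finA_le_s5 _).trans (hbase n))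
  have ht : ∀ n, ∃ x : K, #(Set.Iio x) = a n ∧ ∀ y < x, #(Set.Iio y) < a n :=
    fun n => exists_init hs (a n) (hlt n)
  choose t ht1 ht2 using ht
  refine ⟨fun n => succ (a n), t, ⟨hs, finA_regN, ?_, ?_, fun n => hsucc _ (hlt n), ?_, ?_,
    fun n => ?_, ?_, ?_⟩, fun n => ?_, fun n => isRegular_succ (hinf n), fun n => ?_⟩
  · intro n
    rw [mk_nat]
    refine lt_of_lt_of_le ?_ (le_succ _)
    refine lt_of_lt_of_le ?_ (hbase n)
    refine lt_of_le_of_lt ?_ (lt_succ _)
    exact succ_le_succ (succ_le_succ (succ_le_succ (succ_le_succ (le_max_right _ _))))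
  · intro i j hij
    exact (hstep i).trans ((hmono (Nat.succ_le_of_lt hij)).trans (le_succ _))
  · intro c hc
    obtain ⟨i, hi⟩ := hsup c hc
    exact ⟨i, lt_succ_of_le hi⟩
  · intro r hr c hc
    obtain ⟨s, hs'⟩ := hr.1
    obtain ⟨m, rfl⟩ : ∃ m, r = m + 1 := ⟨r - 1, by omega⟩
    obtain ⟨s', h1, h2⟩ := hr.2 m (Nat.lt_succ_self m)
    omega
  · rw [ht1 n]; exact le_succ _
  · intro i j hij
    by_contra hlt'
    have h1 := ht2 i (t j) (not_le.1 hlt')
    rw [ht1 j] at h1
    exact absurd (hmono hij) (not_le.2 h1)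
  · intro x
    obtain ⟨i, hi⟩ := hsup _ (hsucc _ (hs x))
    refine ⟨i, finA_lt_of_card ?_⟩
    rw [ht1 i]
    exact lt_of_lt_of_le (lt_succ _) hi
  · rw [ht1 n]; exact lt_succ _
  · exact (le_max_left _ _).trans ((finA_le_s5 _).trans ((hbase n).trans (le_succ _)))

end Pool.Agent.LibGS
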