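import Pool.Agent.LibGS.Cof
import Pool.Agent.LibGPR.Guess
import Pool.Agent.LibGPR.SplitL

/-! [GS76 GuessA] Stationary sets of points of cofinality `#I`. -/

set_option autoImplicit false

namespace Pool.Agent.LibGS

open Cardinal Set Order
open Pool.Agent.LibGP76 (RegK Ub Cl fl Stat)
open Pool.Agent.LibGPR (Lad)

variable {I L : Type} [LinearOrder I] [WellFoundedLT I] [LinearOrder L] [WellFoundedLT L]

omit [WellFoundedLT I] in
private theorem guessA_gt (hI : RegN I) (c : I) : ∃ d, c < d := by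
  obtain ⟨d, hd⟩ := hI.reg {c} (by
    rw [Cardinal.mk_singleton]
    exact Cardinal.one_lt_aleph0.trans_le hI.inf)
  exact ⟨d, hd c rfl⟩

omit [WellFoundedLT I] in
private theorem guessA_nonempty (hI : RegN I) : Nonempty I := by
  rw [← Cardinal.mk_ne_zero_iff]
  intro h0
  have h1 := hI.inf
  rw [h0] at h1
  exact absurd h1 (not_le.2 Cardinal.aleph0_pos)

/-- Closed unbounded sets of `L` contain ladders of length `I`. -/
private theorem guessA_lad (hI : RegN I) (hL : RegK L) (hIL : #I < #L) (E : L → L) (η : L) :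
    ∃ (σ : I → L) (δ : L), Lad σ δ ∧ (∀ j, σ j ∈ Cl E) ∧ (∀ j, η < σ j) ∧ δ ∈ Cl E := by
  classical
  have hb : ∀ (j : I) (f : (i : I) → i < j → L), ∃ z, (∀ i (hi : i < j), f i hi < z) ∧
      η < z ∧ z ∈ Cl E := by
    intro j f
    obtain ⟨z, hz⟩ := Pool.Agent.LibGP76.exists_sup hL ((hI.small j).trans hIL)
      (fun i : Set.Iio j => f i.1 i.2)
    obtain ⟨w, hw1, hw2⟩ := Pool.Agent.LibGP76.exists_cl hL E (max z η)
    exact ⟨w, fun i hi => (hz ⟨i, hi⟩).trans (lt_of_le_of_lt (le_max_left _ _) hw1),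
      lt_of_le_of_lt (le_max_right _ _) hw1, hw2⟩
  choose sp hsp1 hsp2 hsp3 using hb
  let σ : I → L := wellFounded_lt.fix (fun j rec => sp j rec)
  have hσ : ∀ j, σ j = sp j (fun i _ => σ i) := fun j => wellFounded_lt.fix_eq _ j
  have h1 : ∀ i j, i < j → σ i < σ j := by
    intro i j hij
    rw [hσ j]
    exact hsp1 j (fun i _ => σ i) i hij
  have h2 : ∀ j, η < σ j := fun j => by
    rw [hσ j]
    exact hsp2 _ _
  have h3 : ∀ j, σ j ∈ Cl E := fun j => by
    rw [hσ j]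
    exact hsp3 _ _
  obtain ⟨δ₀, hδ₀⟩ := Pool.Agent.LibGP76.exists_sup hL hIL σ
  obtain ⟨δ, hδ, hmin⟩ := wellFounded_lt.has_min {ν : L | ∀ j, σ j < ν} ⟨δ₀, hδ₀⟩
  have hcof : ∀ ν < δ, ∃ j, ν < σ j := by
    intro ν hν
    by_contra hcon
    push Not at hcon
    refine hmin ν (fun j => ?_) hν
    obtain ⟨k, hk⟩ := guessA_gt hI j
    exact (h1 j k hk).trans_le (hcon k)
  refine ⟨σ, δ, ⟨h1, hδ, hcof⟩, h3, h2, ?_⟩
  intro y hy
  obtain ⟨j, hj⟩ := hcof y hy
  exact (h3 j y hj).trans (hδ j)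

/-- The points with ladders of type `I` form a stationary set: `LibGPR.stat_cof` (its proof works for
`RegN I`; or `LibGP76.stat_om` and `LibGPR.stat_cof`). -/
theorem stat_cofN (hI : RegN I) (hL : RegK L) (hIL : #I < #L) :
    Stat {x : L | ∃ σ : I → L, Lad σ x} := by
  intro b η
  obtain ⟨σ, δ, hσ, -, hη, hcl⟩ := guessA_lad hI hL hIL b η
  obtain ⟨j⟩ := guessA_nonempty hI
  exact ⟨δ, ⟨σ, hσ⟩, (hη j).trans (hσ.2.1 j), hcl⟩

/-- Splitting this set into `#Lab ≤ #L` stationary sets: `LibGPR.split_cof` for `RegN I` (the same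
proof; for `I` uncountable it is `split_cof`). -/
theorem split_cofN (hI : RegN I) (hL : RegK L) (hIL : #I < #L) (Lab : Type) [Nonempty Lab]
    (hLab : #Lab ≤ #L) :
    ∃ col : L → Lab, ∀ a : Lab, Stat {x : L | col x = a ∧ ∃ σ : I → L, Lad σ x} := by
  classical
  set S : Set L := {δ : L | ∃ σ : I → L, Lad σ δ} with hSdef
  have hS : Stat S := stat_cofN hI hL hIL
  have hP : Pool.Agent.LibGP76.Posit (fun T : Set L => Stat {x | x ∈ T ∧ x ∈ S}) := by
    haveI := Pool.Agent.LibGP76.nonempty_of_regK hL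
    refine ⟨?_, ?_, ?_, ?_⟩
    · intro A hA
      obtain ⟨x, hx⟩ := hA.nonempty
      exact ⟨x, hx.1⟩
    · intro A B hAB hA
      exact hA.mono fun x hx => ⟨hAB hx.1, hx.2⟩
    · intro A η hA
      refine (hA.tail η).mono ?_
      rintro x ⟨⟨hx1, hx2⟩, hx3⟩
      exact ⟨⟨hx1, hx3⟩, hx2⟩
    · intro A f hA hf
      obtain ⟨ζ, hζ⟩ := Pool.Agent.LibGP76.fodor hL hA f (fun x hx => hf x hx.1)
      refine ⟨ζ, hζ.mono ?_⟩
      rintro x ⟨⟨hx1, hx2⟩, hx3⟩
      exact ⟨⟨hx1, hx3⟩, hx2⟩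
  have hex : ∀ x : L, ∃ e : I → L, x ∈ S → Lad e x := by
    intro x
    by_cases hx : x ∈ S
    · obtain ⟨σ, hσ⟩ := hx
      exact ⟨σ, fun _ => hσ⟩
    · exact ⟨fun _ => x, fun h' => absurd h' hx⟩
  choose lad hlad using hex
  obtain ⟨col, hcol⟩ := Pool.Agent.LibGP76.ladder_split hL hP (S := S)
    (hS.mono fun x hx => ⟨hx, hx⟩) (ι := I) hIL
    (fun i x => lad x i) (fun x hx i => (hlad x hx).2.1 i) (fun x hx y hy => (hlad x hx).2.2 y hy)
  obtain ⟨⟨e, he⟩⟩ := (Cardinal.le_def Lab L).1 hLab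
  let ψ : L → Lab := Function.invFun e
  have hψ : ∀ a, ψ (e a) = a := fun a => Function.leftInverse_invFun he a
  refine ⟨fun x => ψ (col x), fun a => ?_⟩
  refine (hcol (e a)).mono ?_
  rintro x ⟨hx1, hx2⟩
  refine ⟨?_, hx2⟩
  show ψ (col x) = a
  rw [show col x = e a from hx1, hψ]

end Pool.Agent.LibGS
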