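import Pool.Agent.LibGS.Defs
import Pool.Agent.LibGP76.Fodor

/-! The `(ω, α)`-regular case: the abstract argument. -/

set_option autoImplicit false

namespace Pool.Agent.LibGS.Reg

open Cardinal Set Order
open Pool.Agent.LibGP76 (RegK Ub Cl fl Stat)

/-- Pigeonhole for unbounded sets. -/
theorem pigeon {L Z : Type} [LinearOrder L] (h : RegK L) {S : Set L} (hS : Ub S) (hZ : #Z < #L)
    (φ : L → Z) : ∃ z, Ub {c | c ∈ S ∧ φ c = z} := by
  by_contra hcon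
  push Not at hcon
  have h1 : ∀ z, ∃ b, ∀ c ∈ S, φ c = z → c ≤ b := by
    intro z
    have h2 := hcon z
    unfold Ub at h2
    push Not at h2
    obtain ⟨b, hb⟩ := h2
    exact ⟨b, fun c hc hz => hb c ⟨hc, hz⟩⟩
  choose b hb using h1
  obtain ⟨c, hc⟩ := LibGP76.exists_sup h hZ b
  obtain ⟨s, hs, hcs⟩ := hS c
  exact absurd (hb (φ s) s hs rfl) (not_le.2 ((hc (φ s)).trans hcs))

theorem mk_finset_lt {Z : Type} {c : Cardinal.{0}} (hc : ℵ₀ < c) (hZ : #Z < c) :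
    #(Finset Z) < c := by
  by_cases hf : Finite Z
  · exact (Cardinal.mk_lt_aleph0_iff.2 inferInstance).trans hc
  · haveI : Infinite Z := not_finite_iff_infinite.1 hf
    rwa [Cardinal.mk_finset_of_infinite]

section

variable {I : Type} [LinearOrder I] {L : I → Type} [∀ k, LinearOrder (L k)]

/-- The lexicographic order. -/
def Lx (j j' : Σ i, L i) : Prop := Sigma.Lex (fun a b => a < b) (fun _ a b => a < b) j j'

theorem lx_iff {i k : I} {d : L i} {c : L k} :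
    Lx ⟨i, d⟩ ⟨k, c⟩ ↔ i < k ∨ ∃ h : i = k, h ▸ d < c := by
  unfold Lx
  rw [Sigma.lex_iff]

theorem lx_irrefl (j : Σ i, L i) : ¬ Lx j j := by
  rintro h
  rcases h with ⟨_, _, h⟩ | ⟨_, _, h⟩
  · exact lt_irrefl _ h
  · exact lt_irrefl _ h

theorem lx_tri (j j' : Σ i, L i) : Lx j j' ∨ j = j' ∨ Lx j' j := by
  obtain ⟨i, d⟩ := j
  obtain ⟨k, c⟩ := j'
  rcases lt_trichotomy i k with h | h | h
  · exact Or.inl (Sigma.Lex.left _ _ h)
  · subst h
    rcases lt_trichotomy d c with h | h | h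
    · exact Or.inl (Sigma.Lex.right _ _ h)
    · exact Or.inr (Or.inl (by rw [h]))
    · exact Or.inr (Or.inr (Sigma.Lex.right _ _ h))
  · exact Or.inr (Or.inr (Sigma.Lex.left _ _ h))

/-- Pressing down for finite subsets of a lexicographic sum. -/
theorem press [∀ k, WellFoundedLT (L k)] (k : I) (h : RegK (L k))
    (hlt : #{j : Σ i, L i // j.1 < k} < #(L k)) (F : L k → Finset (Σ i, L i)) :
    ∃ ρ : Set (Σ i, L i), ρ.Finite ∧ Ub {c : L k | {j | j ∈ F c ∧ Lx j ⟨k, c⟩} = ρ} := by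
  classical
  let R : L k → Finset (L k) := fun c =>
    ((F c).preimage (Sigma.mk k) sigma_mk_injective.injOn).filter (fun d => d < c)
  have hR : ∀ c d, d ∈ R c ↔ (⟨k, d⟩ : Σ i, L i) ∈ F c ∧ d < c := by
    intro c d
    simp only [R, Finset.mem_filter, Finset.mem_preimage]
  have hst : Stat (Set.univ : Set (L k)) := by
    intro b η
    obtain ⟨c, h1, h2⟩ := LibGP76.exists_cl h b η
    exact ⟨c, trivial, h1, h2⟩
  obtain ⟨R₀, hR₀⟩ := LibGP76.fodor_fin h hst R (fun x _ y hy => ((hR x y).1 hy).2)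
  obtain ⟨Q₀, hQ₀⟩ := pigeon h hR₀.ub (mk_finset_lt h.unc hlt)
    (fun c => (F c).subtype (fun j => j.1 < k))
  have hT : ∀ c : L k, (R c = R₀ ∧ (F c).subtype (fun j => j.1 < k) = Q₀) →
      {j | j ∈ F c ∧ Lx j ⟨k, c⟩} =
        {j : Σ i, L i | (∃ hj : j.1 < k, (⟨j, hj⟩ : {j : Σ i, L i // j.1 < k}) ∈ Q₀) ∨
          ∃ d ∈ R₀, j = ⟨k, d⟩} := by
    rintro c ⟨h1, h2⟩
    ext ⟨i, d⟩
    simp only [mem_setOf_eq]
    rw [lx_iff]
    constructor
    · rintro ⟨h3, h4 | ⟨h4, h5⟩⟩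
      · left
        refine ⟨h4, ?_⟩
        rw [← h2, Finset.mem_subtype]
        exact h3
      · right
        subst h4
        refine ⟨d, ?_, rfl⟩
        rw [← h1, hR]
        exact ⟨h3, h5⟩
    · rintro (⟨h3, h4⟩ | ⟨d', h3, h4⟩)
      · rw [← h2, Finset.mem_subtype] at h4
        exact ⟨h4, Or.inl h3⟩
      · rw [← h1, hR] at h3
        rw [h4]
        refine ⟨h3.1, Or.inr ?_⟩
        have h5 : i = k := congrArg Sigma.fst h4
        subst h5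
        have h6 : d = d' := by
          simpa using h4
        exact ⟨rfl, by rw [h6]; exact h3.2⟩
  have hub : Ub {c : L k | {j | j ∈ F c ∧ Lx j ⟨k, c⟩} =
        {j : Σ i, L i | (∃ hj : j.1 < k, (⟨j, hj⟩ : {j : Σ i, L i // j.1 < k}) ∈ Q₀) ∨
          ∃ d ∈ R₀, j = ⟨k, d⟩}} :=
    hQ₀.mono (fun c hc => hT c ⟨hc.1.2, hc.2⟩)
  refine ⟨_, ?_, hub⟩
  haveI := LibGP76.nonempty_of_regK h
  obtain ⟨c, hc, -⟩ := hub (Classical.arbitrary _)
  rw [← show _ = _ from hc]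
  exact (F c).finite_toSet.subset (fun j hj => hj.1)

/-- The abstract form of the `(ω, α)`-regular case. -/
theorem core {K : Type} [∀ k, WellFoundedLT (L k)] (hI : ℵ₀ ≤ #I) (hIK : #I < #K)
    (hL : ∀ k, RegK (L k)) (hlt : ∀ k, #{j : Σ i, L i // j.1 < k} < #(L k))
    (Θ : I → Set K) (hΘ : ∀ x, ∃ k, x ∈ Θ k) (A : ∀ k, Set (L k) → Set K → Set (L k))
    (hA1 : ∀ k T c, Ub T → A k T c ⊆ T ∧ #(A k T c) = #(c ∩ Θ k : Set K))
    (hA2 : ∀ k T T' c c', Ub T → Ub T' →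
      #(A k T c ∩ A k T' c' : Set (L k)) ≤ #(c ∩ c' : Set K) + ℵ₀)
    (p : Ultrafilter K) (Y : (Σ i, L i) → Set K) (hY : ∀ j, Y j ∈ p)
    (hfin : ∀ x, {j | x ∈ Y j}.Finite) : GoodS p := by
  classical
  have hK0 : ℵ₀ < #K := hI.trans_lt hIK
  refine ⟨fun C B => #C = #K ∧ ∃ (x : (Σ i, L i) → K) (T : ∀ k, Set (L k))
      (ρ : I → Set (Σ i, L i)), (∀ j, x j ∈ Y j) ∧ (∀ k, (ρ k).Finite) ∧ (∀ k, Ub (T k)) ∧
      (∀ k, ∀ c ∈ T k, {j | x ⟨k, c⟩ ∈ Y j ∧ Lx j ⟨k, c⟩} = ρ k) ∧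
      B = {y | ∃ k, ∃ c ∈ A k (T k) C, x ⟨k, c⟩ = y}, ?_, ?_, ?_⟩
  · rintro C B ⟨hC, x, T, ρ, hx, hρ, hT, hTρ, rfl⟩
    refine le_antisymm (mk_set_le _) ?_
    by_contra hcon
    rw [not_le] at hcon
    have h1 : ∀ k, #(C ∩ Θ k : Set K) ≤
        #({y | ∃ k, ∃ c ∈ A k (T k) C, x ⟨k, c⟩ = y} : Set K) := by
      intro k
      rw [← (hA1 k (T k) C (hT k)).2]
      have hinj : Set.InjOn (fun c : L k => x ⟨k, c⟩) (T k) := by
        intro c hc c' hc' hcc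
        have hcc' : x ⟨k, c⟩ = x ⟨k, c'⟩ := hcc
        rcases lx_tri (⟨k, c⟩ : Σ i, L i) ⟨k, c'⟩ with h2 | h2 | h2
        · exfalso
          have h3 : (⟨k, c⟩ : Σ i, L i) ∈ ρ k := by
            rw [← hTρ k c' hc']
            exact ⟨by rw [← hcc']; exact hx _, h2⟩
          rw [← hTρ k c hc] at h3
          exact lx_irrefl _ h3.2
        · simpa using h2
        · exfalso
          have h3 : (⟨k, c'⟩ : Σ i, L i) ∈ ρ k := by
            rw [← hTρ k c hc]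
            exact ⟨by rw [hcc']; exact hx _, h2⟩
          rw [← hTρ k c' hc'] at h3
          exact lx_irrefl _ h3.2
      rw [← mk_image_eq_of_injOn (fun c : L k => x ⟨k, c⟩) (A k (T k) C)
        (hinj.mono (hA1 k (T k) C (hT k)).1)]
      refine mk_le_mk_of_subset ?_
      rintro _ ⟨c, hc, rfl⟩
      exact ⟨k, c, hc, rfl⟩
    have h2 : #C ≤ #I * #({y | ∃ k, ∃ c ∈ A k (T k) C, x ⟨k, c⟩ = y} : Set K) := by
      have h3 : C ⊆ ⋃ k, (C ∩ Θ k) := by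
        intro y hy
        obtain ⟨k, hk⟩ := hΘ y
        exact mem_iUnion.2 ⟨k, hy, hk⟩
      refine (mk_le_mk_of_subset h3).trans (mk_iUnion_le_sum_mk.trans ?_)
      refine (sum_le_sum _ _ h1).trans ?_
      rw [sum_const']
    rw [hC] at h2
    exact absurd (mul_lt_of_lt hK0.le hIK hcon) (not_lt.2 h2)
  · rintro C C' hCC B B' ⟨hC, x, T, ρ, hx, hρ, hT, hTρ, rfl⟩ ⟨hC', x', T', ρ', hx', hρ', hT', hTρ', rfl⟩
    have hsub : ({y | ∃ k, ∃ c ∈ A k (T k) C, x ⟨k, c⟩ = y} ∩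
        {y | ∃ k, ∃ c ∈ A k (T' k) C', x' ⟨k, c⟩ = y} : Set K) ⊆
        (⋃ k, x '' (ρ' k)) ∪ (⋃ k, x' '' (ρ k)) ∪
          ⋃ k, (fun c : L k => x ⟨k, c⟩) '' (A k (T k) C ∩ A k (T' k) C') := by
      rintro y ⟨⟨k, c, hc, rfl⟩, ⟨k', c', hc', he⟩⟩
      rcases lx_tri (⟨k, c⟩ : Σ i, L i) ⟨k', c'⟩ with h2 | h2 | h2
      · refine Or.inl (Or.inl (mem_iUnion.2 ⟨k', ⟨k, c⟩, ?_, rfl⟩))
        rw [← hTρ' k' c' ((hA1 k' (T' k') C' (hT' k')).1 hc')]
        exact ⟨by rw [he]; exact hx _, h2⟩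
      · have h3 : k = k' := congrArg Sigma.fst h2
        subst h3
        have h4 : c = c' := by simpa using h2
        subst h4
        exact Or.inr (mem_iUnion.2 ⟨k, c, ⟨hc, hc'⟩, rfl⟩)
      · refine Or.inl (Or.inr (mem_iUnion.2 ⟨k, ⟨k', c'⟩, ?_, he⟩))
        rw [← hTρ k c ((hA1 k (T k) C (hT k)).1 hc)]
        exact ⟨by rw [← he]; exact hx' _, h2⟩
    have hfi : ∀ (z : (Σ i, L i) → K) (r : I → Set (Σ i, L i)), (∀ k, (r k).Finite) →
        #(⋃ k, z '' (r k) : Set K) < #K := by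
      intro z r hr
      refine lt_of_le_of_lt (mk_iUnion_le_sum_mk.trans (sum_le_sum _ (fun _ => ℵ₀) fun k => ?_)) ?_
      · exact ((hr k).image z).lt_aleph0.le
      · rw [sum_const']
        exact mul_lt_of_lt hK0.le hIK hK0
    refine (mk_le_mk_of_subset hsub).trans_lt ?_
    refine (mk_union_le _ _).trans_lt (add_lt_of_lt hK0.le ((mk_union_le _ _).trans_lt
      (add_lt_of_lt hK0.le (hfi x ρ' hρ') (hfi x' ρ hρ))) ?_)
    refine lt_of_le_of_lt (mk_iUnion_le_sum_mk.trans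
      (sum_le_sum _ (fun _ => #(C ∩ C' : Set K) + ℵ₀) fun k => ?_)) ?_
    · exact mk_image_le.trans (hA2 k (T k) (T' k) C C' (hT k) (hT' k))
    · rw [sum_const']
      exact mul_lt_of_lt hK0.le hIK (add_lt_of_lt hK0.le hCC hK0)
  · intro X hX C hC
    have h1 : ∀ j, ∃ x, x ∈ X ∧ x ∈ Y j := fun j => by
      obtain ⟨x, hx⟩ := p.nonempty_of_mem (Filter.inter_mem hX (hY j))
      exact ⟨x, hx.1, hx.2⟩
    choose x hxX hxY using h1
    have h2 := fun k => press k (hL k) (hlt k) (fun c => (hfin (x ⟨k, c⟩)).toFinset)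
    choose ρ hρ hT using h2
    refine ⟨{y | ∃ k, ∃ c ∈ A k {c : L k | {j | j ∈ (hfin (x ⟨k, c⟩)).toFinset ∧
      Lx j ⟨k, c⟩} = ρ k} C, x ⟨k, c⟩ = y}, ?_, hC, x, _, ρ, hxY, hρ, hT, ?_, rfl⟩
    · rintro _ ⟨k, c, -, rfl⟩
      exact hxX _
    · intro k c hc
      rw [← show _ = _ from hc]
      ext j
      simp only [mem_setOf_eq, Set.Finite.mem_toFinset]

end

end Pool.Agent.LibGS.Reg
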