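import Pool.Agent.LibGS.Cof

/-! [GS76 ScaleA] Bounding numbers, maximal almost disjoint families. -/

set_option autoImplicit false

namespace Pool.Agent.LibGS

open Cardinal Set Order
open Pool.Agent.LibGP76 (RegK Ub Cl fl Stat)

variable {K I L N : Type} [LinearOrder K] [WellFoundedLT K] [LinearOrder I] [WellFoundedLT I]
  [LinearOrder L] [WellFoundedLT L] {th : I → Cardinal.{0}} {t : I → K}

omit [WellFoundedLT K] [WellFoundedLT I] in
/-- Every type of cardinality at most `#K` is the increasing union of sets `D i` of cardinality at most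
`th i`: preimages of `Iio (t i)` under an injection into `K`. -/
theorem exists_filt_type (hA : Amb K I th t) (A : Type) (h : #A ≤ #K) :
    ∃ D : I → Set A, (∀ i j, i ≤ j → D i ⊆ D j) ∧ (∀ a, ∃ i, a ∈ D i) ∧ ∀ i, #(D i) ≤ th i := by
  obtain ⟨e⟩ := h
  refine ⟨fun i => e ⁻¹' Set.Iio (t i), ?_, ?_, ?_⟩
  · intro i j hij a ha
    exact lt_of_lt_of_le (show e a < t i from ha) (hA.tmono i j hij)
  · intro a
    exact hA.tcof (e a)
  · intro i
    exact (Cardinal.mk_preimage_of_injective e (Set.Iio (t i)) e.injective).trans (hA.tle i)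

/-- `b(T) > #K` if `cf (y u) > th (idx u)` on `T`. PROOF: with `D` from `exists_filt_type` let `h u < y u`
be above `g a u` for all `a ∈ D (idx u)` (`cf_sup`). If `a ∈ D i` then `g a u ≤ h u` for `idx u > i`. -/
theorem bd_of_cf (hA : Amb K I th t) (idx : N → I) (T : Set N) (y : N → K)
    (hy : ∀ u ∈ T, th (idx u) < cf (y u)) : Bd #K idx T y := by
  classical
  intro A hc g hg
  obtain ⟨D, hD1, hD2, hD3⟩ := exists_filt_type hA A hc
  have key : ∀ u, ∃ w : K, u ∈ T → (w < y u ∧ ∀ a ∈ D (idx u), g a u < w) := by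
    intro u
    by_cases hu : u ∈ T
    · have h1 : ℵ₀ ≤ th (idx u) := by
        refine hA.reg.inf.trans (le_trans ?_ (hA.mu (idx u)).le)
        exact (le_succ _).trans ((le_succ _).trans ((le_succ _).trans (le_succ _)))
      obtain ⟨w, hw, hw2⟩ := cf_sup (h1.trans (hy u hu).le) (ι := D (idx u))
        (lt_of_le_of_lt (hD3 _) (hy u hu)) (fun a => g a.1 u) (fun a => hg a.1 u hu)
      exact ⟨w, fun _ => ⟨hw, fun a ha => hw2 ⟨a, ha⟩⟩⟩
    · exact ⟨y u, fun h => absurd h hu⟩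
  choose h hh using key
  refine ⟨h, fun u hu => (hh u hu).1, fun a => ?_⟩
  obtain ⟨i, hi⟩ := hD2 a
  exact ⟨i, fun u hu hiu => ((hh u hu).2 a (hD1 _ _ hiu.le hi)).le⟩

omit [WellFoundedLT K] [WellFoundedLT I] in
theorem Bd.mono {ν : Cardinal.{0}} {idx : N → I} {T T' : Set N} {y : N → K} (h : Bd ν idx T y)
    (hT : T' ⊆ T) : Bd ν idx T' y := by
  classical
  obtain ⟨h0, hh0, -⟩ := h Empty (by simp) (fun a => a.elim) (fun a => a.elim)
  intro A hc g hg
  obtain ⟨k, hk, hk2⟩ := h A hc (fun a u => if u ∈ T' then g a u else h0 u) (by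
    intro a u hu
    by_cases hu' : u ∈ T'
    · simpa [hu'] using hg a u hu'
    · simpa [hu'] using hh0 u hu)
  refine ⟨k, fun u hu => hk u (hT hu), fun a => ?_⟩
  obtain ⟨i, hi⟩ := hk2 a
  refine ⟨i, fun u hu hiu => ?_⟩
  have := hi u (hT hu) hiu
  simpa [hu] using this

omit [WellFoundedLT K] [WellFoundedLT I] [WellFoundedLT L] in
/-- Restriction of a true scale. -/
theorem TS.mono {idx : N → I} {T T' : Set N} {y : N → K} {f : L → N → K} (h : TS idx T y f)
    (hT : T' ⊆ T) (hy : ∀ u ∈ T, ∃ w, w < y u) : TS idx T' y f := by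
  classical
  refine ⟨fun ξ u hu => h.lt ξ u (hT hu), fun ξ ξ' hξ => ?_, fun g hg => ?_⟩
  · obtain ⟨i, hi⟩ := h.inc ξ ξ' hξ
    exact ⟨i, fun u hu hiu => hi u (hT hu) hiu⟩
  · obtain ⟨ξ, i, hi⟩ := h.cof
      (fun u => if hu : u ∈ T' then g u else if hu2 : u ∈ T then (hy u hu2).choose else g u) (by
        intro u hu
        by_cases hu' : u ∈ T'
        · simpa [hu'] using hg u hu'
        · simpa [hu', hu] using (hy u hu).choose_spec)
    refine ⟨ξ, i, fun u hu hiu => ?_⟩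
    have := hi u (hT hu) hiu
    simpa [hu] using this

omit [WellFoundedLT I] in
/-- Maximal almost disjoint subfamilies (Zorn). -/
theorem exists_mad (idx : N → I) (S : Set (Set N)) (hS : ∀ T ∈ S, Ub (idx '' T)) :
    ∃ M ⊆ S, (∀ T ∈ M, ∀ T' ∈ M, T ≠ T' → ¬ Ub (idx '' (T ∩ T'))) ∧
      ∀ T ∈ S, ∃ T' ∈ M, Ub (idx '' (T ∩ T')) := by
  obtain ⟨M, hM⟩ := zorn_subset
    {M : Set (Set N) | M ⊆ S ∧ ∀ T ∈ M, ∀ T' ∈ M, T ≠ T' → ¬ Ub (idx '' (T ∩ T'))} (by
      intro c hc hch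
      refine ⟨⋃₀ c, ⟨?_, ?_⟩, fun s hs => Set.subset_sUnion_of_mem hs⟩
      · exact Set.sUnion_subset fun s hs => (hc hs).1
      · rintro T ⟨s, hs, hT⟩ T' ⟨s', hs', hT'⟩ hne
        rcases hch.total hs hs' with h | h
        · exact (hc hs').2 T (h hT) T' hT' hne
        · exact (hc hs).2 T hT T' (h hT') hne)
  refine ⟨M, hM.prop.1, hM.prop.2, fun T hT => ?_⟩
  by_contra hcon
  push Not at hcon
  have h1 : insert T M ∈
      {M : Set (Set N) | M ⊆ S ∧ ∀ T ∈ M, ∀ T' ∈ M, T ≠ T' → ¬ Ub (idx '' (T ∩ T'))} := by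
    refine ⟨Set.insert_subset hT hM.prop.1, ?_⟩
    rintro T1 (rfl | h1) T2 (rfl | h2) hne
    · exact absurd rfl hne
    · exact hcon T2 h2
    · rw [Set.inter_comm]
      exact hcon T1 h1
    · exact hM.prop.2 T1 h1 T2 h2 hne
  have h2 : T ∈ M := hM.le_of_ge h1 (Set.subset_insert T M) (Set.mem_insert T M)
  have h3 := hcon T h2
  rw [Set.inter_self] at h3
  exact h3 (hS T hT)

end Pool.Agent.LibGS
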