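import Pool.Agent.LibGS.Cof

/-! [GS76 StartA] Minimal members of classes of functions. -/

set_option autoImplicit false

namespace Pool.Agent.LibGS

open Cardinal Set Order
open Pool.Agent.LibGP76 (RegK Ub Cl fl Stat)

variable {K I : Type} [LinearOrder K] [WellFoundedLT K] [LinearOrder I] [WellFoundedLT I]
  {th : I → Cardinal.{0}} {t : I → K}

/-- [Start1] `p`-minimal members. PROOF. Otherwise for every `f ∈ S` there is `G f ∈ S` with
`{x | G f x < f x} ∈ p`. Let `Z = c.ord.ToType`. By `wellFounded_lt.fix` define `F ζ : K → V`: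
`F ζ x` is the least of the values `F ζ' x`, `G (F ζ') x` (`ζ' < ζ`) and `f₀ x`. By `hmin` (with
`J = Option (Iio ζ × Bool)`, `#J ≤ c`) and induction `F ζ ∈ S`. The sets `X ζ = {x | G (F ζ) x < F ζ x}`
are in `p`, and every `x` lies in only finitely many of them: for `ζ < ζ'`, `x ∈ X ζ` we have
`F ζ' x ≤ G (F ζ) x < F ζ x`, so an infinite set of such `ζ` (contains an increasing sequence) gives an
infinite decreasing sequence in `V`. Hence `OReg p c`. -/
theorem exists_pmin {V : Type} [LinearOrder V] [WellFoundedLT V] (p : Ultrafilter K)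
    (c : Cardinal.{0}) (hc : ℵ₀ ≤ c) (hreg : ¬ OReg p c) (S : Set (K → V)) (hne : S.Nonempty)
    (hmin : ∀ (J : Type), Nonempty J → #J ≤ c → ∀ g : J → K → V, (∀ j, g j ∈ S) →
      ∀ h : K → V, (∀ x, (∃ j, h x = g j x) ∧ ∀ j, h x ≤ g j x) → h ∈ S) :
    ∃ f ∈ S, ∀ g ∈ S, {x | g x < f x} ∉ p := by
  classical
  obtain ⟨f₀, hf₀⟩ := hne
  by_contra hcon
  push Not at hcon
  have hG0 : ∀ f : K → V, ∃ g : K → V, g ∈ S ∧ (f ∈ S → {x | g x < f x} ∈ p) := by
    intro f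
    by_cases hf : f ∈ S
    · obtain ⟨g, hg, hg2⟩ := hcon f hf
      exact ⟨g, hg, fun _ => hg2⟩
    · exact ⟨f₀, hf₀, fun h => absurd h hf⟩
  choose G hG1 hG2 using hG0
  -- pointwise minima
  have hm0 : ∀ (J : Type) (g : J → K → V), Nonempty J → ∃ h : K → V,
      ∀ x, (∃ j, h x = g j x) ∧ ∀ j, h x ≤ g j x := by
    intro J g hJ
    have : ∀ x, ∃ v, (∃ j, v = g j x) ∧ ∀ j, v ≤ g j x := by
      intro x
      obtain ⟨v, ⟨j, hj⟩, hv⟩ := (wellFounded_lt (α := V)).has_min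
        (range fun j => g j x) (range_nonempty _)
      exact ⟨v, ⟨j, hj.symm⟩, fun i => not_lt.1 (hv _ ⟨i, rfl⟩)⟩
    choose h hh using this
    exact ⟨h, hh⟩
  choose mn hmn using fun (J : Type) (hJ : Nonempty J) (g : J → K → V) => hm0 J g hJ
  obtain ⟨Z, hZ1, hZ2, hZs, hZc⟩ : ∃ (Z : Type) (_ : LinearOrder Z) (_ : WellFoundedLT Z),
      (∀ z : Z, #(Set.Iio z) < c) ∧ #Z = c :=
    ⟨c.ord.ToType, inferInstance, inferInstance, fun z => mk_Iio_toType_ord_lt z,
      mk_ord_toType _⟩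
  let F : Z → K → V := wellFounded_lt.fix (fun ζ rec =>
    mn (Option (Set.Iio ζ × Bool)) ⟨none⟩ (fun o => o.elim f₀
      (fun q => if q.2 then rec q.1.1 q.1.2 else G (rec q.1.1 q.1.2))))
  have hF : ∀ ζ, F ζ = mn (Option (Set.Iio ζ × Bool)) ⟨none⟩ (fun o => o.elim f₀
      (fun q => if q.2 then F q.1.1 else G (F q.1.1))) :=
    fun ζ => wellFounded_lt.fix_eq _ ζ
  have hFS : ∀ ζ, F ζ ∈ S := by
    intro ζ
    refine wellFounded_lt.induction (C := fun ζ => F ζ ∈ S) ζ ?_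
    intro ζ ih
    show F ζ ∈ S
    rw [hF ζ]
    refine hmin (Option (Set.Iio ζ × Bool)) ⟨none⟩ ?_ _ ?_ _ (hmn _ _ _)
    · rw [mk_option]
      refine (add_lt_of_lt hc ?_ (one_lt_aleph0.trans_le hc)).le
      rw [mk_prod, lift_id, lift_id]
      refine mul_lt_of_lt hc (hZs ζ) ?_
      rw [mk_bool]
      exact (natCast_lt_aleph0 (n := 2)).trans_le hc
    · intro o
      rcases o with _ | ⟨⟨ζ', hζ'⟩, b⟩
      · exact hf₀
      · rcases b
        · exact hG1 _
        · exact ih ζ' hζ'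
  have hFle : ∀ ζ ζ', ζ < ζ' → ∀ x, F ζ' x ≤ G (F ζ) x := by
    intro ζ ζ' hlt x
    rw [hF ζ']
    exact (hmn (Option (Set.Iio ζ' × Bool)) ⟨none⟩ (fun o => o.elim f₀
      (fun q => if q.2 then F q.1.1 else G (F q.1.1))) x).2 (some (⟨ζ, hlt⟩, false))
  apply hreg
  refine ⟨Z, fun ζ => {x | G (F ζ) x < F ζ x}, hZc, fun ζ => hG2 _ (hFS ζ), fun x => ?_⟩
  -- finiteness
  obtain ⟨A, hA⟩ : ∃ A : Set Z, A = {ζ | x ∈ {x | G (F ζ) x < F ζ x}} := ⟨_, rfl⟩
  rw [← hA]
  have hanti : ∀ a b : A, a < b → F b.1 x < F a.1 x := by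
    intro a b hab
    have ha : G (F a.1) x < F a.1 x := by
      have h3 : a.1 ∈ {ζ | x ∈ {x | G (F ζ) x < F ζ x}} := hA ▸ a.2
      exact h3
    exact (hFle a.1 b.1 hab x).trans_lt ha
  have hgt : WellFoundedGT A := by
    refine ⟨?_⟩
    have hwf : WellFounded (InvImage (· < ·) (fun a : A => F a.1 x)) :=
      InvImage.wf _ wellFounded_lt
    refine Subrelation.wf ?_ hwf
    intro a b hab
    exact hanti b a hab
  haveI : Finite A := Finite.of_wellFoundedLT_wellFoundedGT A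
  exact Set.toFinite A

end Pool.Agent.LibGS
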