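import Pool.Agent.LibGS.StartA
import Pool.Agent.LibPcf.Base

/-! [GS76 StartB] The index function and the block function. -/

set_option autoImplicit false

namespace Pool.Agent.LibGS

open Cardinal Set Order
open Pool.Agent.LibGP76 (RegK Ub Cl fl Stat)

variable {K I : Type} [LinearOrder K] [WellFoundedLT K] [LinearOrder I] [WellFoundedLT I]
  {th : I → Cardinal.{0}} {t : I → K}

omit [WellFoundedLT K] [WellFoundedLT I] in
private theorem sb_thetas (hA : Amb K I th t) : LibPcf.Thetas I #K th where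
  lim := hA.sup
  lt := hA.lt
  gap := hA.step
  cont := hA.cont
  base := fun r => (hA.mu r).le
  inf := fun r => hA.reg.inf.trans (((le_succ _).trans <| (le_succ _).trans <| (le_succ _).trans <|
    (le_succ _)).trans (hA.mu r).le)

omit [WellFoundedLT K] in
/-- Filtrations at limits: put `A` into `(th r).ord.ToType` and let `D s` be the set of the elements of
position `< (th s).ord` (or: whose initial segment has cardinality `< th s`). -/
theorem exists_filt_lim (hA : Amb K I th t) (r : I) (hr : Lim r) (A : Type) (h : #A ≤ th r) :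
    ∃ D : I → Set A, (∀ s < r, #(D s) ≤ th s) ∧ ∀ a, ∃ s < r, a ∈ D s := by
  obtain ⟨pn, h1, h2⟩ := LibPcf.exists_parts (sb_thetas hA) (r := r) hr (Set.univ : Set A)
    (by rw [mk_univ]; exact h)
  refine ⟨fun s => {a | pn a ≤ s}, fun s _ => ?_, fun a => ⟨pn a, h1 a (mem_univ a), le_rfl⟩⟩
  have h3 : {a | pn a ≤ s} ⊆ {a | a ∈ (Set.univ : Set A) ∧ pn a ≤ s} :=
    fun a ha => ⟨mem_univ a, ha⟩
  exact (mk_le_mk_of_subset h3).trans (h2 s)

private theorem sb_union {A V : Type} (c : Cardinal.{0}) (hc : ℵ₀ ≤ c) (hA : #A ≤ c)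
    (E : A → Set V) (hE : ∀ a, #(E a) ≤ c) (D : Set V) (hD : D ⊆ ⋃ a, E a) : #D ≤ c := by
  refine (mk_le_mk_of_subset hD).trans (mk_iUnion_le_sum_mk.trans ((sum_le_mk_mul_iSup _).trans ?_))
  refine (mul_le_mul' hA (?_ : _ ≤ c)).trans (mul_eq_self hc).le
  by_cases hne : Nonempty A
  · exact ciSup_le hE
  · have := not_nonempty_iff.1 hne
    rw [ciSup_of_empty]
    exact bot_le

/-- [Start2] The index function: `exists_pmin` with `V = I`, `c = th i₀` for the class of the `j` with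
`#{x | j x < i} ≤ th i`. Nonempty: `j x = ` the least `i` with `x < t i`. -/
theorem start_ix (hA : Amb K I th t) (i₀ : I) (hbot : ∀ i, i₀ ≤ i) (p : Ultrafilter K)
    (hreg : ¬ OReg p (th i₀)) :
    ∃ ix : K → I, (∀ i, #{x | ix x < i} ≤ th i) ∧
      ∀ j : K → I, (∀ i, #{x | j x < i} ≤ th i) → {x | j x < ix x} ∉ p := by
  classical
  have hθ := sb_thetas hA
  have hj0 : ∀ x : K, ∃ i : I, x < t i ∧ ∀ i', x < t i' → i ≤ i' := by
    intro x
    obtain ⟨i, hi, hmin⟩ := (wellFounded_lt (α := I)).has_min {i | x < t i} (hA.tcof x)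
    exact ⟨i, hi, fun i' hi' => not_lt.1 (hmin i' hi')⟩
  choose j0 hj1 hj2 using hj0
  obtain ⟨f, hf1, hf2⟩ := exists_pmin (V := I) p (th i₀) (hθ.inf i₀) hreg
    {j | ∀ i, #{x | j x < i} ≤ th i}
    ⟨j0, fun i => (mk_le_mk_of_subset (fun x (hx : j0 x < i) =>
      (hj1 x).trans_le (hA.tmono _ _ hx.le))).trans (hA.tle i)⟩
    (by
      intro J hJ hJc g hg h hh i
      refine sb_union (th i) (hθ.inf i) (hJc.trans (hθ.mono (hbot i)))
        (fun j => {x | g j x < i}) (fun j => hg j i) _ ?_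
      intro x hx
      obtain ⟨j, hj⟩ := (hh x).1
      exact mem_iUnion.2 ⟨j, by
        show g j x < i
        rw [← hj]
        exact hx⟩)
  exact ⟨f, hf1, fun j hj => hf2 j hj⟩

/-- [Start3] The block function: `exists_pmin` with `V = K`, `c = th i₀`. Nonempty:
`F x = t i` for the least `i` with `x < t i` (only `#I` values). -/
theorem start_fs (hA : Amb K I th t) (i₀ : I) (hbot : ∀ i, i₀ ≤ i) (p : Ultrafilter K)
    (hreg : ¬ OReg p (th i₀)) (ix : K → I) :
    ∃ Fs : K → K, (∀ x, x < Fs x) ∧ (∀ i, #(Fs '' {x | ix x = i}) ≤ th i) ∧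
      ∀ G : K → K, (∀ x, x < G x) → (∀ i, #(G '' {x | ix x = i}) ≤ th i) →
        {x | G x < Fs x} ∉ p := by
  classical
  have hθ := sb_thetas hA
  choose j0 hj1 using hA.tcof
  obtain ⟨f, hf1, hf2⟩ := exists_pmin (V := K) p (th i₀) (hθ.inf i₀) hreg
    {F | (∀ x, x < F x) ∧ ∀ i, #(F '' {x | ix x = i}) ≤ th i}
    ⟨fun x => t (j0 x), hj1, fun i => by
      refine (mk_le_mk_of_subset (t := range t) ?_).trans (mk_range_le.trans (hθ.mkM i))
      rintro _ ⟨x, -, rfl⟩
      exact ⟨_, rfl⟩⟩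
    (by
      intro J hJ hJc g hg h hh
      refine ⟨fun x => ?_, fun i => ?_⟩
      · obtain ⟨j, hj⟩ := (hh x).1
        rw [hj]
        exact (hg j).1 x
      · refine sb_union (th i) (hθ.inf i) (hJc.trans (hθ.mono (hbot i)))
          (fun j => g j '' {x | ix x = i}) (fun j => (hg j).2 i) _ ?_
        rintro _ ⟨x, hx, rfl⟩
        obtain ⟨j, hj⟩ := (hh x).1
        exact mem_iUnion.2 ⟨j, x, hx, hj.symm⟩)
  exact ⟨f, hf1.1, hf1.2, fun G h1 h2 => hf2 G ⟨h1, h2⟩⟩

end Pool.Agent.LibGS
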