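import Pool.Agent.LibGS.TypeOneA
import Pool.Agent.LibGS.BDefs
import Pool.Agent.LibGS.Scale

/-! [GS76 TypeOne] Type I classes of a chart. -/

set_option autoImplicit false

namespace Pool.Agent.LibGS

open Cardinal Set Order
open Pool.Agent.LibGP76 (RegK Ub Cl fl Stat nonempty_of_regK exists_gt' not_stat exists_sup)
open Pool.Agent.LibGPR (Lad)

variable {K I Λ L N W : Type} [LinearOrder K] [WellFoundedLT K] [LinearOrder I] [WellFoundedLT I]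
  [LinearOrder Λ] [WellFoundedLT Λ] [LinearOrder L] [WellFoundedLT L]
  {th : I → Cardinal.{0}} {t : I → K}

omit [WellFoundedLT K] [WellFoundedLT I] in
/-- The classes at one member `M` of the almost disjoint family. -/
theorem one_member (hA : Amb K I th t) (hI : RegK I) (hL : RegK Λ) (hΛ : #Λ = succ #K)
    (R : I → I → Set K)
    (hR : ∀ r i r' i', (r, i) ≠ (r', i') → Disjoint (R r i) (R r' i'))
    (NS : Λ → Set (I × I × K)) (hN : ∀ ξ r, #{q | q ∈ NS ξ ∧ q.1 = r} ≤ succ (th r))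
    (M : Set (I × I × K)) (hM : Sel Prod.fst M) (hcf : ∀ q ∈ M, succ (succ (th q.1)) ≤ cf q.2.2)
    (hts : ∃ (L : Type) (_ : LinearOrder L) (_ : WellFoundedLT L)
      (f : L → I × I × K → K), RegK L ∧ succ #K < #L ∧ TS Prod.fst M (fun q => q.2.2) f) :
    ∃ (lev : I × I × K → K) (Cls : Set K → Set K → Prop),
      (∀ ξ, Ev Prod.fst M (fun w => ∀ z', (w.1, w.2.1, z') ∈ NS ξ → z' < w.2.2 → z' ≤ lev w)) ∧
      (∀ C B, Cls C B → #B = #K ∧ (∀ x ∈ B, ∃ w ∈ M, x ∈ R w.1 w.2.1 ∧ x < w.2.2 ∧ lev w < x) ∧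
        ∀ r, #{x | x ∈ B ∧ ∃ w ∈ M, x ∈ R w.1 w.2.1 ∧ w.1 ≤ r} < #K) ∧
      (∀ C C', #(C ∩ C' : Set K) < #K → ∀ B B', Cls C B → Cls C' B' → #(B ∩ B' : Set K) < #K) ∧
      ∀ X T₁, T₁ ⊆ M → Ub (Prod.fst '' T₁) → (∀ w ∈ T₁, Acc (X ∩ R w.1 w.2.1) w.2.2) →
        ∀ C : Set K, #C = #K → ∃ B, B ⊆ X ∧ Cls C B := by
  classical
  obtain ⟨L, i1, i2, f, hLr, hKL, hf⟩ := hts
  have hIne := nonempty_of_regK hI
  have hlt : ∀ q ∈ M, succ (th q.1) < cf q.2.2 := fun q hq =>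
    (lt_succ _).trans_le (hcf q hq)
  have hβ0 : ∀ ξ : Λ, ∃ β : L, Ev Prod.fst M (fun w => ∀ z', (w.1, w.2.1, z') ∈ NS ξ →
      z' < w.2.2 → z' ≤ f β w) := by
    intro ξ
    have h1 : ∀ w : I × I × K, ∃ b, w ∈ M → b < w.2.2 ∧ ∀ z', (w.1, w.2.1, z') ∈ NS ξ →
        z' < w.2.2 → z' < b := by
      intro w
      by_cases hw : w ∈ M
      · obtain ⟨b, hb1, hb2⟩ := cofGt_of_lt (hlt w hw) {z' | (w.1, w.2.1, z') ∈ NS ξ ∧ z' < w.2.2}
          (by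
            refine le_trans ?_ (hN ξ w.1)
            refine mk_le_of_injective (f := fun z => ⟨(w.1, w.2.1, z.1), z.2.1, rfl⟩) ?_
            intro z z' hzz
            have := congrArg (fun q : {q | q ∈ NS ξ ∧ q.1 = w.1} => q.1.2.2) hzz
            exact Subtype.ext this)
          (fun z hz => hz.2)
        exact ⟨b, fun _ => ⟨hb1, fun z' h2 h3 => hb2 z' ⟨h2, h3⟩⟩⟩
      · exact ⟨w.2.2, fun h => absurd h hw⟩
    choose b hb using h1
    obtain ⟨β, i₀, h⟩ := hf.cof b (fun u hu => (hb u hu).1)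
    exact ⟨β, i₀, fun w hw hi z' h2 h3 => ((hb w hw).2 z' h2 h3).le.trans (h w hw hi)⟩
  choose β hβ using hβ0
  obtain ⟨β', hβ'⟩ := exists_sup hLr (by rw [hΛ]; exact hKL) β
  obtain ⟨Cls, h1, h2, h3⟩ := one_scale hA hI hL hΛ hLr hKL Prod.fst (fun q => q.2.2)
    (fun q => R q.1 q.2.1) M hM
    (by
      intro u _ u' _ x hx hx'
      by_contra hne
      have hd := hR u.1 u.2.1 u'.1 u'.2.1 (fun h => hne (congrArg (fun p : I × I => p.1) h))
      exact Set.disjoint_left.1 hd hx hx')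
    (fun u hu => (le_succ _).trans_lt (hlt u hu)) f hf β'
  refine ⟨f β', Cls, fun ξ => ?_, h1, h2, h3⟩
  obtain ⟨i₀, h⟩ := hβ ξ
  obtain ⟨i₁, h'⟩ := hf.inc (β ξ) β' (hβ' ξ)
  exact ⟨max i₀ i₁, fun w hw hi z' h4 h5 => (h w hw ((le_max_left _ _).trans_lt hi) z' h4 h5).trans
    (h' w hw ((le_max_right _ _).trans_lt hi)).le⟩

/-- Type I classes of a chart. -/
theorem type_one (hA : Amb K I th t) (hI : RegK I) (hL : RegK Λ) (hΛ : #Λ = succ #K)
    (R : I → I → Set K)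
    (hR : ∀ r i r' i', (r, i) ≠ (r', i') → Disjoint (R r i) (R r' i'))
    (NS : Λ → Set (I × I × K)) (hN : ∀ ξ r, #{q | q ∈ NS ξ ∧ q.1 = r} ≤ succ (th r)) :
    ∃ Cls : Set K → Set K → Prop,
      (∀ C B, Cls C B → #B = #K ∧ (∀ x ∈ B, ∃ r i, x ∈ R r i) ∧
        ∀ r, #{x | x ∈ B ∧ ∃ r' i, r' ≤ r ∧ x ∈ R r' i} < #K) ∧
      (∀ C C', #(C ∩ C' : Set K) < #K → ∀ B B', Cls C B → Cls C' B' → #(B ∩ B' : Set K) < #K) ∧
      ∀ X C : Set K, #C = #K → TypeI th R NS X → ∃ B, B ⊆ X ∧ Cls C B := by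
  classical
  have hIne := nonempty_of_regK hI
  let S : Set (Set (I × I × K)) := {M | (∃ ξ, M ⊆ NS ξ) ∧ Sel Prod.fst M ∧
    (∀ q ∈ M, succ (succ (th q.1)) ≤ cf q.2.2) ∧ ∃ (L : Type) (_ : LinearOrder L)
      (_ : WellFoundedLT L) (f : L → I × I × K → K), RegK L ∧ succ #K < #L ∧
      TS Prod.fst M (fun q => q.2.2) f}
  obtain ⟨𝓜, hMS, had, hmax⟩ := exists_mad (Prod.fst : I × I × K → I) S (fun T hT => hT.2.1.2)
  have h0 : ∀ M : 𝓜, _ := fun M => one_member hA hI hL hΛ R hR NS hN M.1 (hMS M.2).2.1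
    (hMS M.2).2.2.1 (hMS M.2).2.2.2
  choose lev ClsM hlev h1 h2 h3 using h0
  choose ξ hξ using fun M : 𝓜 => (hMS M.2).1
  have hpiece : ∀ (w w' : I × I × K) (x : K), x ∈ R w.1 w.2.1 → x ∈ R w'.1 w'.2.1 →
      w.1 = w'.1 ∧ w.2.1 = w'.2.1 := by
    intro w w' x hx hx'
    by_contra hne
    have hd := hR w.1 w.2.1 w'.1 w'.2.1 (fun h => hne ⟨congrArg (fun p : I × I => p.1) h, congrArg (fun p : I × I => p.2) h⟩)
    exact Set.disjoint_left.1 hd hx hx'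
  refine ⟨fun C B => ∃ M, ClsM M C B, ?_, ?_, ?_⟩
  · rintro C B ⟨M, hB⟩
    obtain ⟨k1, k2, k3⟩ := h1 M C B hB
    refine ⟨k1, fun x hx => ?_, fun r => ?_⟩
    · obtain ⟨w, -, hw, -⟩ := k2 x hx
      exact ⟨w.1, w.2.1, hw⟩
    · refine lt_of_le_of_lt (mk_le_mk_of_subset ?_) (k3 r)
      rintro x ⟨hx, r', i, hr, hxr⟩
      obtain ⟨w, hwM, hw, -⟩ := k2 x hx
      refine ⟨hx, w, hwM, hw, ?_⟩
      have := hpiece w (r', i, x) x hw hxr
      rw [this.1]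
      exact hr
  · rintro C C' hCC B B' ⟨M, hB⟩ ⟨M', hB'⟩
    by_cases hMM : M = M'
    · subst hMM
      exact h2 M C C' hCC B B' hB hB'
    · have hne : M.1 ≠ M'.1 := fun h => hMM (Subtype.ext h)
      have hbd := had M.1 M.2 M'.1 M'.2 hne
      unfold Ub at hbd
      push Not at hbd
      obtain ⟨r₀, hr₀⟩ := hbd
      obtain ⟨r₁, hr₁⟩ := hlev M (ξ M')
      obtain ⟨r₂, hr₂⟩ := hlev M' (ξ M)
      obtain ⟨k1, k2, k3⟩ := h1 M C B hB
      obtain ⟨k1', k2', k3'⟩ := h1 M' C' B' hB'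
      refine lt_of_le_of_lt (mk_le_mk_of_subset ?_) (k3 (max r₀ (max r₁ r₂)))
      rintro x ⟨hx, hx'⟩
      obtain ⟨w, hw, hwx, hxw, hlw⟩ := k2 x hx
      obtain ⟨w', hw', hwx', hxw', hlw'⟩ := k2' x hx'
      refine ⟨hx, w, hw, hwx, ?_⟩
      by_contra hr
      rw [not_le, max_lt_iff, max_lt_iff] at hr
      obtain ⟨hr0, hr1, hr2⟩ := hr
      obtain ⟨e1, e2⟩ := hpiece w w' x hwx hwx'
      rcases lt_trichotomy w.2.2 w'.2.2 with h | h | h
      · have h4 := hr₂ w' hw' (by rw [← e1]; exact hr2) w.2.2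
          (by rw [← e1, ← e2]; exact hξ M hw) h
        exact absurd (hlw'.trans hxw) (not_lt.2 h4)
      · have h4 : w = w' := Prod.ext e1 (Prod.ext e2 h)
        have h5 := hr₀ w.1 ⟨w, ⟨hw, by rw [h4]; exact hw'⟩, rfl⟩
        exact absurd hr0 (not_lt.2 h5)
      · have h4 := hr₁ w hw hr1 w'.2.2 (by rw [e1, e2]; exact hξ M' hw') h
        exact absurd (hlw.trans hxw') (not_lt.2 h4)
  · rintro X C hC ⟨ξ', T, hT, hsel, hTX, hbd⟩
    obtain ⟨T', hT', hsel', L', j1, j2, f, hL', hKL', hf⟩ := exists_ts hA.reg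
      (Prod.fst : I × I × K → I) T hsel (fun q => q.2.2) (by
        intro q hq
        refine lt_of_lt_of_le ?_ (hTX q hq).1
        refine lt_succ_iff.2 (le_trans ?_ ((hA.mu q.1).le.trans (le_succ _)))
        exact succ_le_succ (le_of_lt (lt_of_lt_of_le (lt_succ _)
          ((le_succ _).trans (le_succ _)))) |>.trans (le_refl _) |>.trans (le_refl _))
      (succ #K) (succ_le_succ (by
        have := (hA.mu hIne.some).trans (hA.lt hIne.some)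
        exact ((le_succ _).trans <| (le_succ _).trans <| (le_succ _).trans <|
          (le_succ _)).trans this.le)) hbd
    obtain ⟨M, hM, hub⟩ := hmax T' ⟨⟨ξ', hT'.trans hT⟩, hsel', fun q hq => (hTX q (hT' hq)).1,
      L', j1, j2, f, hL', hKL', hf⟩
    obtain ⟨B, hBX, hB⟩ := h3 ⟨M, hM⟩ X (T' ∩ M) inter_subset_right hub
      (fun w hw => (hTX w (hT' hw.1)).2) C hC
    exact ⟨B, hBX, ⟨M, hM⟩, hB⟩

end Pool.Agent.LibGS
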