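import Pool.Agent.LibGS.Pcf

/-! [GS76 TypeOneA] Coding on one selection with a long true scale. -/

set_option autoImplicit false

namespace Pool.Agent.LibGS

open Cardinal Set Order
open Pool.Agent.LibGP76 (RegK Ub Cl fl Stat nonempty_of_regK exists_gt' not_stat exists_sup)
open Pool.Agent.LibGPR (Lad)
open Pool.Agent.LibPcf (CofGt Thetas UbR BB BddOn FinR GoodR fin_guess)

variable {K I Λ L N W : Type} [LinearOrder K] [WellFoundedLT K] [LinearOrder I] [WellFoundedLT I]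
  [LinearOrder Λ] [WellFoundedLT Λ] [LinearOrder L] [WellFoundedLT L]
  {th : I → Cardinal.{0}} {t : I → K}

/-- `x` has the code `v` at the node `w` (for the set of levels `R`, below the level `δ`). -/
def Code (idx : N → I) (y : N → K) (P : N → Set K) (T : Set N) (f : L → N → K) (R : Set L)
    (b : L → I) (β δ : L) (x : K) (v : L) (w : N) : Prop :=
  w ∈ T ∧ x ∈ P w ∧ x < y w ∧ v ∈ R ∧ b v ≤ idx w ∧ (∀ u ∈ R, u ≤ v → f u w < x) ∧
    (∃ v' ∈ R, v < v' ∧ (∀ u ∈ R, v < u → v' ≤ u) ∧ x ≤ f v' w) ∧ x < f δ w ∧ f β w < x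

omit [WellFoundedLT K] [WellFoundedLT I] [WellFoundedLT L] in
theorem Code.unique {idx : N → I} {y : N → K} {P : N → Set K} {T : Set N} {f : L → N → K} {R : Set L}
    {b : L → I} {β δ : L} (hT : Set.InjOn idx T)
    (hPT : ∀ u ∈ T, ∀ u' ∈ T, ∀ x, x ∈ P u → x ∈ P u' → idx u = idx u')
    {x : K} {v v' : L} {w w' : N} (h : Code idx y P T f R b β δ x v w)
    (h' : Code idx y P T f R b β δ x v' w') : w = w' ∧ v = v' := by
  obtain ⟨h1, h2, h3, h4, h5, h6, ⟨v₁, h7, h8, h9, h10⟩, h11, h12⟩ := h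
  obtain ⟨k1, k2, k3, k4, k5, k6, ⟨v₂, k7, k8, k9, k10⟩, k11, k12⟩ := h'
  have hw : w = w' := hT h1 k1 (hPT w h1 w' k1 x h2 k2)
  subst hw
  refine ⟨rfl, ?_⟩
  rcases lt_trichotomy v v' with hv | hv | hv
  · exact absurd (k6 v₁ h7 (h9 v' k4 hv)) (not_lt.2 h10)
  · exact hv
  · exact absurd (h6 v₂ k7 (k9 v h4 hv)) (not_lt.2 k10)

omit [WellFoundedLT K] [WellFoundedLT I] in
theorem one_scale (hA : Amb K I th t) (hI : RegK I) (hΛr : RegK Λ) (hΛ : #Λ = succ #K)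
    (hL : RegK L) (hKL : succ #K < #L) (idx : N → I) (y : N → K) (P : N → Set K) (T : Set N)
    (hT : Sel idx T) (hPT : ∀ u ∈ T, ∀ u' ∈ T, ∀ x, x ∈ P u → x ∈ P u' → idx u = idx u')
    (hy : ∀ u ∈ T, th (idx u) < cf (y u)) (f : L → N → K) (hf : TS idx T y f) (β : L) :
    ∃ Cls : Set K → Set K → Prop,
      (∀ C B, Cls C B → #B = #K ∧ (∀ x ∈ B, ∃ w ∈ T, x ∈ P w ∧ x < y w ∧ f β w < x) ∧
        ∀ r, #{x | x ∈ B ∧ ∃ w ∈ T, x ∈ P w ∧ idx w ≤ r} < #K) ∧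
      (∀ C C', #(C ∩ C' : Set K) < #K → ∀ B B', Cls C B → Cls C' B' → #(B ∩ B' : Set K) < #K) ∧
      ∀ X T₁, T₁ ⊆ T → Ub (idx '' T₁) → (∀ w ∈ T₁, Acc (X ∩ P w) (y w)) →
        ∀ C : Set K, #C = #K → ∃ B, B ⊆ X ∧ Cls C B := by
  classical
  have hLne := nonempty_of_regK hL
  have hIne := nonempty_of_regK hI
  have hα := hA.infK
  obtain ⟨Rs, hR1, hR2⟩ := fin_guess (W := T) hA.thetas hα hΛr hΛ hL (succ_le_of_lt hKL)
    (fun w => idx w.1) (fun w => y w.1) (fun w => cofGt_of_lt (hy w.1 w.2))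
    (fun ξ w => f ξ w.1) (fun ξ w => hf.lt ξ w.1 w.2)
    (by
      intro ι hι
      obtain ⟨ξ, i₀, h⟩ := hf.cof (fun u => if hu : u ∈ T then ι ⟨u, hu⟩ else y u) (by
        intro u hu
        simp only [dif_pos hu]
        exact hι ⟨u, hu⟩)
      obtain ⟨ξ', hξ'⟩ := exists_gt' hL ξ
      obtain ⟨i₁, h1⟩ := hf.inc ξ ξ' hξ'
      obtain ⟨r₀, hr₀⟩ := exists_gt' hI (max i₀ i₁)
      refine ⟨ξ', r₀, fun w hw => ?_⟩
      have h2 := h w.1 w.2 (((le_max_left _ _).trans_lt hr₀).trans_le hw)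
      have h3 := h1 w.1 w.2 (((le_max_right _ _).trans_lt hr₀).trans_le hw)
      simp only [dif_pos w.2] at h2
      exact h2.trans_lt h3)
  -- the index of a level
  have hb0 : ∀ (δ v : L), ∃ i : I, (Rs δ).Nonempty → v < δ → #{u | u ∈ Rs δ ∧ u < v} < th i := by
    intro δ v
    by_cases h : (Rs δ).Nonempty ∧ v < δ
    · obtain ⟨i, hi⟩ := hA.sup _ ((hR1 δ h.1).2.2.1 v h.2)
      exact ⟨i, fun _ _ => hi⟩
    · exact ⟨hIne.some, fun h1 h2 => absurd ⟨h1, h2⟩ h⟩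
  choose b hb using hb0
  -- the colours
  have hcol0 : ∀ δ : L, ∃ col : L → K, (Rs δ).Nonempty → Set.InjOn col (Rs δ) ∧
      ∀ c, ∃ v ∈ Rs δ, col v = c := by
    intro δ
    by_cases h : (Rs δ).Nonempty
    · obtain ⟨e⟩ := Cardinal.eq.1 (hR1 δ h).2.1
      obtain ⟨v₀, hv₀⟩ := h
      refine ⟨fun v => if hv : v ∈ Rs δ then e ⟨v, hv⟩ else e ⟨v₀, hv₀⟩, fun _ => ⟨?_, ?_⟩⟩
      · intro v hv v' hv' hvv
        simp only [dif_pos hv, dif_pos hv'] at hvv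
        exact congrArg Subtype.val (e.injective hvv)
      · intro c
        refine ⟨(e.symm c).1, (e.symm c).2, ?_⟩
        simp only [Subtype.coe_prop, dite_true, Subtype.coe_eta, Equiv.apply_symm_apply]
    · have hK : #K ≠ 0 := (aleph0_pos.trans_le hα).ne'
      exact ⟨fun _ => (mk_ne_zero_iff.1 hK).some, fun h' => absurd h' h⟩
  choose col hcol using hcol0
  let Cd : L → K → L → N → Prop := fun δ => Code idx y P T f (Rs δ) (b δ) β δ
  have huniq : ∀ δ x v v' w w', Cd δ x v w → Cd δ x v' w' → w = w' ∧ v = v' :=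
    fun δ x v v' w w' h h' => h.unique hT.1 hPT h'
  let Cls : L → Set K → Set K → Prop := fun δ C B => (Rs δ).Nonempty ∧ #B = #K ∧
    (∀ x ∈ B, ∃ v w, col δ v ∈ C ∧ Cd δ x v w) ∧
    ∀ x ∈ B, ∀ x' ∈ B, ∀ v w w', Cd δ x v w → Cd δ x' v w' → x = x'
  -- counting
  have hcount : ∀ δ C B (V : Set L), Cls δ C B →
      #{x | x ∈ B ∧ ∃ v ∈ V, ∃ w, Cd δ x v w} ≤ #V := by
    intro δ C B V hB
    refine mk_le_of_injective (f := fun x => (⟨x.2.2.choose, x.2.2.choose_spec.1⟩ : V)) ?_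
    intro x x' hxx
    have h1 := x.2.2.choose_spec.2.choose_spec
    have h2 := x'.2.2.choose_spec.2.choose_spec
    have h3 : x.2.2.choose = x'.2.2.choose := congrArg (fun z : V => z.1) hxx
    have h4 : ∃ w, Cd δ x'.1 x.2.2.choose w := by
      rw [h3]
      exact ⟨_, h2⟩
    obtain ⟨w', h4⟩ := h4
    exact Subtype.ext (hB.2.2.2 x.1 x.2.1 x'.1 x'.2.1 _ _ _ h1 h4)
  have hRsmall : ∀ δ, (Rs δ).Nonempty → ∀ r : I, #{v | v ∈ Rs δ ∧ b δ v ≤ r} < #K := by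
    intro δ hδ r
    refine lt_of_le_of_lt ?_ (hA.lt r)
    refine LibPcf.mk_le_of_small _ (th r) ?_
    rintro v ⟨hv1, hv2⟩
    refine lt_of_le_of_lt (mk_le_mk_of_subset ?_) ((hb δ v hδ ((hR1 δ hδ).1 v hv1)).trans_le
      (hA.thetas.mono hv2))
    rintro u ⟨⟨hu1, -⟩, hu2⟩
    exact ⟨hu1, hu2⟩
  have hsmall : ∀ δ C B, Cls δ C B → ∀ r, #{x | x ∈ B ∧ ∃ w ∈ T, x ∈ P w ∧ idx w ≤ r} < #K := by
    intro δ C B hB r
    refine lt_of_le_of_lt (mk_le_mk_of_subset ?_) ((hcount δ C B {v | v ∈ Rs δ ∧ b δ v ≤ r} hB).trans_lt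
      (hRsmall δ hB.1 r))
    rintro x ⟨hx, w, hwT, hxw, hwr⟩
    obtain ⟨v, w', -, h⟩ := hB.2.2.1 x hx
    have hww : idx w' = idx w := hPT w' h.1 w hwT x h.2.1 hxw
    exact ⟨hx, v, ⟨h.2.2.2.1, h.2.2.2.2.1.trans (hww.le.trans hwr)⟩, w', h⟩
  -- orthogonality at different levels
  have horth : ∀ δ δ', δ < δ' → ∀ C C' B B', Cls δ C B → Cls δ' C' B' → #(B ∩ B' : Set K) < #K := by
    intro δ δ' hδ C C' B B' hB hB'
    have hF := hR1 δ' hB'.1
    have hv₀ : ∃ v₀ ∈ Rs δ', δ ≤ v₀ := by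
      by_contra hno
      push Not at hno
      have h1 := hF.2.2.1 δ hδ
      have h2 : #(Rs δ') ≤ #{u | u ∈ Rs δ' ∧ u < δ} :=
        mk_le_mk_of_subset fun u hu => ⟨hu, hno u hu⟩
      rw [hF.2.1] at h2
      exact absurd h1 (not_lt.2 h2)
    obtain ⟨v₀, hv₀, hδv⟩ := hv₀
    have hr : ∃ r₀, ∀ w ∈ T, r₀ < idx w → f δ w ≤ f v₀ w := by
      rcases hδv.lt_or_eq with h | h
      · obtain ⟨r₀, hr₀⟩ := hf.inc δ v₀ h
        exact ⟨r₀, fun w hw hr => (hr₀ w hw hr).le⟩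
      · exact ⟨hIne.some, fun w _ _ => by rw [h]⟩
    obtain ⟨r₀, hr₀⟩ := hr
    have hsub : (B ∩ B' : Set K) ⊆ {x | x ∈ B' ∧ ∃ v ∈ {v | v ∈ Rs δ' ∧ v < v₀}, ∃ w, Cd δ' x v w} ∪
        {x | x ∈ B' ∧ ∃ w ∈ T, x ∈ P w ∧ idx w ≤ r₀} := by
      rintro x ⟨hx, hx'⟩
      obtain ⟨v, w, -, h⟩ := hB.2.2.1 x hx
      obtain ⟨v', w', -, h'⟩ := hB'.2.2.1 x hx'
      have hww : w = w' := hT.1 h.1 h'.1 (hPT w h.1 w' h'.1 x h.2.1 h'.2.1)
      subst hww
      by_cases hv : v' < v₀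
      · exact Or.inl ⟨hx', v', ⟨h'.2.2.2.1, hv⟩, w, h'⟩
      · right
        refine ⟨hx', w, h'.1, h'.2.1, ?_⟩
        by_contra hr
        rw [not_le] at hr
        have h1 := hr₀ w h'.1 hr
        have h2 : f v₀ w < x := h'.2.2.2.2.2.1 v₀ hv₀ (not_lt.1 hv)
        have h3 : x < f δ w := h.2.2.2.2.2.2.2.1
        exact absurd (h3.trans_le h1) (not_lt.2 h2.le)
    refine (mk_le_mk_of_subset hsub).trans_lt ((mk_union_le _ _).trans_lt ?_)
    refine add_lt_of_lt hα ?_ (hsmall δ' C' B' hB' r₀)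
    exact (hcount δ' C' B' _ hB').trans_lt (hF.2.2.1 v₀ (hF.1 v₀ hv₀))
  refine ⟨fun C B => ∃ δ, Cls δ C B, ?_, ?_, ?_⟩
  · rintro C B ⟨δ, hB⟩
    refine ⟨hB.2.1, fun x hx => ?_, hsmall δ C B hB⟩
    obtain ⟨v, w, -, h⟩ := hB.2.2.1 x hx
    exact ⟨w, h.1, h.2.1, h.2.2.1, h.2.2.2.2.2.2.2.2⟩
  · rintro C C' hCC B B' ⟨δ, hB⟩ ⟨δ', hB'⟩
    rcases lt_trichotomy δ δ' with h | h | h
    · exact horth δ δ' h C C' B B' hB hB'
    · subst h
      refine lt_of_le_of_lt ?_ hCC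
      have h1 : (B ∩ B' : Set K) ⊆ {x | x ∈ B ∧ ∃ v ∈ {v | v ∈ Rs δ ∧ col δ v ∈ (C ∩ C' : Set K)},
          ∃ w, Cd δ x v w} := by
        rintro x ⟨hx, hx'⟩
        obtain ⟨v, w, hv, h⟩ := hB.2.2.1 x hx
        obtain ⟨v', w', hv', h'⟩ := hB'.2.2.1 x hx'
        obtain ⟨-, h2⟩ := huniq δ x v v' w w' h h'
        subst h2
        exact ⟨hx, v, ⟨h.2.2.2.1, hv, hv'⟩, w, h⟩
      refine (mk_le_mk_of_subset h1).trans ((hcount δ C B _ hB).trans ?_)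
      refine mk_le_of_injective (f := fun v : {v | v ∈ Rs δ ∧ col δ v ∈ (C ∩ C' : Set K)} =>
        (⟨col δ v.1, v.2.2⟩ : (C ∩ C' : Set K))) ?_
      intro v v' hvv
      exact Subtype.ext ((hcol δ hB.1).1 v.2.1 v'.2.1
        (congrArg (fun z : (C ∩ C' : Set K) => z.1) hvv))
    · rw [inter_comm]
      exact horth δ' δ h C' C B' B hB' hB
  · intro X T₁ hT₁ hub hacc C hC
    -- the club of `X`
    have hs0 : ∀ ξ : L, ∃ ξ' : L, ∃ i₀, ∀ w ∈ T₁, i₀ < idx w → ∃ x ∈ X, x ∈ P w ∧ f ξ w < x ∧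
        x < y w ∧ x ≤ f ξ' w := by
      intro ξ
      have h1 : ∀ w : T₁, ∃ x, (x ∈ X ∧ x ∈ P w.1) ∧ f ξ w.1 < x ∧ x < y w.1 := by
        intro w
        obtain ⟨x, hx, h2, h3⟩ := hacc w.1 w.2 (f ξ w.1) (hf.lt ξ w.1 (hT₁ w.2))
        exact ⟨x, hx, h2, h3⟩
      choose x hx1 hx2 hx3 using h1
      obtain ⟨ξ', i₀, h⟩ := hf.cof (fun u => if hu : u ∈ T₁ then x ⟨u, hu⟩ else f ξ u) (by
        intro u hu
        by_cases h : u ∈ T₁
        · simp only [dif_pos h]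
          exact hx3 ⟨u, h⟩
        · simp only [dif_neg h]
          exact hf.lt ξ u hu)
      refine ⟨ξ', i₀, fun w hw hi => ⟨x ⟨w, hw⟩, (hx1 ⟨w, hw⟩).1, (hx1 ⟨w, hw⟩).2, hx2 ⟨w, hw⟩,
        hx3 ⟨w, hw⟩, ?_⟩⟩
      have h2 := h w (hT₁ hw) hi
      simp only [dif_pos hw] at h2
      exact h2
    choose s hs using hs0
    obtain ⟨β', hβ'⟩ := exists_gt' hL β
    obtain ⟨δ, hδ, t₀, ht₀, htail⟩ := hR2 (fun ξ => max (s ξ) β')
    have hF := hR1 δ hδ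
    obtain ⟨hF1, hF2, hF3, hF4⟩ := hF
    -- next elements
    have hnx0 : ∀ v ∈ Rs δ, ∃ v', v' ∈ Rs δ ∧ v < v' ∧ ∀ u ∈ Rs δ, v < u → v' ≤ u := by
      intro v hv
      have hne : ({u | u ∈ Rs δ ∧ v < u} : Set L).Nonempty := by
        by_contra hno
        rw [not_nonempty_iff_eq_empty] at hno
        have h1 : Rs δ ⊆ insert v {u | u ∈ Rs δ ∧ u < v} := by
          intro u hu
          rcases lt_trichotomy u v with h | h | h
          · exact mem_insert_of_mem _ ⟨hu, h⟩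
          · rw [h]; exact mem_insert _ _
          · exfalso
            have : u ∈ ({u | u ∈ Rs δ ∧ v < u} : Set L) := ⟨hu, h⟩
            rw [hno] at this
            exact this
        have h2 := (mk_le_mk_of_subset h1).trans mk_insert_le
        rw [hF2] at h2
        exact absurd (add_lt_of_lt hα (hF3 v (hF1 v hv)) (one_lt_aleph0.trans_le hα)) (not_lt.2 h2)
      obtain ⟨v', hv', hmin⟩ := (wellFounded_lt (α := L)).has_min _ hne
      exact ⟨v', hv'.1, hv'.2, fun u hu hvu => not_lt.1 (hmin u ⟨hu, hvu⟩)⟩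
    -- the point with the code `v`
    have hx0 : ∀ v ∈ Rs δ, t₀ < v → ∃ x w, x ∈ X ∧ Cd δ x v w := by
      intro v hv htv
      obtain ⟨v', hv', hvv', hnext⟩ := hnx0 v hv
      have hv'cl := htail v' hv' (htv.trans hvv')
      have hvcl := htail v hv htv
      obtain ⟨γ, hγ, r₀, hr₀⟩ := hF4 v hv v' hv' hvv'
      have hsγ : s γ < v' := (le_max_left _ _).trans_lt (hv'cl γ hγ)
      have hβv : β < v := hβ'.trans ((le_max_right _ _).trans_lt (hvcl t₀ htv))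
      obtain ⟨i₀, hi₀⟩ := hs γ
      obtain ⟨i₁, hi₁⟩ := hf.inc _ _ hsγ
      obtain ⟨i₂, hi₂⟩ := hf.inc v' δ (hF1 v' hv')
      obtain ⟨i₃, hi₃⟩ := hf.inc β v hβv
      obtain ⟨_, ⟨w, hw, rfl⟩, hwi⟩ := hub (max i₀ (max i₁ (max i₂ (max i₃ (max r₀ (b δ v))))))
      simp only [max_lt_iff] at hwi
      obtain ⟨w0, w1, w2, w3, w4, w5⟩ := hwi
      obtain ⟨x, hxX, hxP, hx1, hx2, hx3⟩ := hi₀ w hw w0
      have hwT := hT₁ hw
      have k1 := hi₁ w hwT w1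
      have k2 := hi₂ w hwT w2
      have k3 := hi₃ w hwT w3
      have k4 : ∀ u ∈ Rs δ, u ≤ v → f u w < f γ w := hr₀ ⟨w, hwT⟩ w4.le
      refine ⟨x, w, hxX, hwT, hxP, hx2, hv, w5.le, fun u hu huv => (k4 u hu huv).trans hx1,
        ⟨v', hv', hvv', hnext, hx3.trans k1.le⟩, (hx3.trans k1.le).trans_lt k2, ?_⟩
      exact k3.trans ((k4 v hv le_rfl).trans hx1)
    -- the set `V` of the levels used
    let V : Set L := {v | v ∈ Rs δ ∧ col δ v ∈ C ∧ t₀ < v}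
    have hVx : ∀ v : V, ∃ x w, x ∈ X ∧ Cd δ x v w := fun v => hx0 v.1 v.2.1 v.2.2.2
    choose x w hxX hcd using hVx
    have hxinj : Function.Injective x := by
      intro v v' hvv
      have h1 := hcd v'
      rw [← hvv] at h1
      exact Subtype.ext (huniq δ _ _ _ _ _ (hcd v) h1).2
    have hVcard : #V = #K := by
      apply le_antisymm
      · rw [← hF2]
        exact mk_le_mk_of_subset fun v hv => hv.1
      · by_contra hno
        rw [not_le] at hno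
        have h1 : #C ≤ #{v | v ∈ Rs δ ∧ col δ v ∈ C} := by
          choose g hg1 hg2 using (hcol δ hδ).2
          refine mk_le_of_injective (f := fun c : C => (⟨g c.1, hg1 _, by
            rw [hg2]; exact c.2⟩ : {v | v ∈ Rs δ ∧ col δ v ∈ C})) ?_
          intro c c' hcc
          have h2 : g c.1 = g c'.1 := congrArg (fun z : {v | v ∈ Rs δ ∧ col δ v ∈ C} => z.1) hcc
          exact Subtype.ext (by rw [← hg2 c.1, h2, hg2])
        have h2 : {v | v ∈ Rs δ ∧ col δ v ∈ C} ⊆ V ∪ {u | u ∈ Rs δ ∧ u ≤ t₀} := by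
          rintro v ⟨hv1, hv2⟩
          by_cases h : t₀ < v
          · exact Or.inl ⟨hv1, hv2, h⟩
          · exact Or.inr ⟨hv1, not_lt.1 h⟩
        have h3 : #{u | u ∈ Rs δ ∧ u ≤ t₀} < #K := by
          have h4 : {u | u ∈ Rs δ ∧ u ≤ t₀} ⊆ insert t₀ {u | u ∈ Rs δ ∧ u < t₀} := by
            rintro u ⟨hu1, hu2⟩
            rcases hu2.lt_or_eq with h | rfl
            · exact mem_insert_of_mem _ ⟨hu1, h⟩
            · exact mem_insert _ _
          refine (mk_le_mk_of_subset h4).trans_lt (mk_insert_le.trans_lt ?_)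
          exact add_lt_of_lt hα (hF3 t₀ ht₀) (one_lt_aleph0.trans_le hα)
        have h4 := h1.trans ((mk_le_mk_of_subset h2).trans (mk_union_le _ _))
        rw [hC] at h4
        exact absurd (add_lt_of_lt hα hno h3) (not_lt.2 h4)
    refine ⟨range x, by rintro _ ⟨v, rfl⟩; exact hxX v, δ, hδ, ?_, ?_, ?_⟩
    · rw [mk_range_eq x hxinj, hVcard]
    · rintro _ ⟨v, rfl⟩
      exact ⟨v.1, w v, v.2.2.1, hcd v⟩
    · rintro _ ⟨v, rfl⟩ _ ⟨v', rfl⟩ u w₁ w₂ h1 h2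
      have h3 := (huniq δ _ _ _ _ _ (hcd v) h1).2
      have h4 := (huniq δ _ _ _ _ _ (hcd v') h2).2
      have h5 : v = v' := Subtype.ext (h3.trans h4.symm)
      rw [h5]

end Pool.Agent.LibGS
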